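import Pool.Agent.H47.LevySt

open Finset Filter Topology

namespace Pool.Agent.H47.Ach

def Df (k : ℕ) (p : ℕ × ℕ) : ℕ := p.1 * (2 * (2 * (k + 1) * ((k + 1) * p.2 + 1)) + 1)

def par : ℕ → ℕ × ℕ
  | 0 => (1, 0)
  | k + 1 => (Df k (par k) * ((k + 1) * Df k (par k) + 1), (par k).2 + (k + 1) * Df k (par k) + 1)

def G (k : ℕ) : ℕ := (par k).1
def a (k : ℕ) : ℕ := (par k).2
def s (k : ℕ) : ℕ := (k + 1) * a k
def q (k : ℕ) : ℕ := 2 * (k + 1) * (s k + 1)
def D (k : ℕ) : ℕ := G k * (2 * q k + 1)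
def N (k : ℕ) : ℕ := (k + 1) * D k
theorem G_succ (k : ℕ) : G (k + 1) = D k * (N k + 1) := rfl
theorem a_succ (k : ℕ) : a (k + 1) = a k + N k + 1 := rfl

theorem sq2 (k : ℕ) : 2 * (s k + 1) ≤ q k := by unfold q; nlinarith [Nat.zero_le (k * (s k + 1))]

theorem facts (k : ℕ) (h : 1 ≤ G k) : 2 * q k + 1 ≤ D k ∧ D k ≤ N k ∧ 8 * G k ≤ G (k + 1) := by
  have := sq2 k
  have a : 2 * q k + 1 ≤ D k := Nat.le_mul_of_pos_left _ h
  have b : D k ≤ N k := Nat.le_mul_of_pos_left _ k.succ_pos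
  have c : G k * 5 ≤ D k := Nat.mul_le_mul_left _ (by omega)
  have : D k * 6 ≤ G (k + 1) := G_succ k ▸ Nat.mul_le_mul_left _ (by omega)
  omega

theorem G_ge (k : ℕ) : k + 1 ≤ G k := by
  induction k with
  | zero => exact le_rfl
  | succ k ih => have := facts k (by omega); omega

theorem fct (k : ℕ) : 2 * q k + 1 ≤ D k ∧ D k ≤ N k ∧ 8 * G k ≤ G (k + 1) :=
  facts k (by have := G_ge k; omega)

theorem a_ge (k : ℕ) : k ≤ a k := by
  induction k with
  | zero => exact Nat.zero_le _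
  | succ k ih => rw [a_succ]; omega

noncomputable def g (k : ℕ) : ℝ := 1 / G k
noncomputable def δ (k : ℕ) : ℝ := 1 / D k
noncomputable def η (k : ℕ) : ℝ := 1 / (k + 1)

theorem Gp (k : ℕ) : (0 : ℝ) < G k := by have := G_ge k; exact_mod_cast (by omega : 0 < G k)
theorem Dp (k : ℕ) : (0 : ℝ) < D k := by have := fct k; exact_mod_cast (by omega : 0 < D k)
theorem gp (k : ℕ) : 0 < g k := one_div_pos.2 (Gp k)
theorem δp (k : ℕ) : 0 < δ k := one_div_pos.2 (Dp k)
theorem ηp (k : ℕ) : 0 < η k := Nat.one_div_pos_of_nat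
theorem gδ (k : ℕ) : g k = (2 * q k + 1) * δ k := by
  have := Gp k; simp only [g, δ, D]; push_cast; field_simp
theorem δg (k : ℕ) : δ k = (N k + 1) * g (k + 1) := by
  have := Dp k; simp only [g, δ, G_succ]; push_cast; field_simp
theorem gη (k : ℕ) : g k ≤ η k := one_div_le_one_div_of_le (by positivity) (by exact_mod_cast G_ge k)
theorem g8 (k : ℕ) : 8 * g (k + 1) ≤ g k := by
  have : (8 * G k : ℝ) ≤ G (k + 1) := by exact_mod_cast (fct k).2.2
  have := Gp k
  rw [g, g, mul_one_div, div_le_div_iff₀ (Gp _) this]; linarith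
theorem η0 : Tendsto η atTop (𝓝 0) := tendsto_one_div_add_atTop_nhds_zero_nat
theorem g0 : Tendsto g atTop (𝓝 0) := squeeze_zero (fun k => (gp k).le) gη η0
theorem ηa {i j : ℕ} (h : i ≤ j) : η j ≤ η i :=
  one_div_le_one_div_of_le (by positivity) (by exact_mod_cast Nat.succ_le_succ h)
theorem sη (k : ℕ) : s k * η k = a k := by simp only [s, η]; push_cast; field_simp

def T : ℕ → ℕ
  | 0 => 0
  | k + 1 => T k + 3 * N k

theorem Tm : StrictMono T := strictMono_nat_of_lt_succ fun k => by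
  have := fct k; simp only [T]; omega

theorem ex (n : ℕ) : ∃ k, n < T (k + 1) := ⟨n, Tm.le_apply⟩

def kk (n : ℕ) : ℕ := Nat.find (ex n)

theorem kk_add {k i : ℕ} (h : i < 3 * N k) : kk (T k + i) = k :=
  (Nat.find_eq_iff _).2 ⟨Nat.add_lt_add_left h _, fun j u => by
    have := Tm.monotone (show j + 1 ≤ k from u); omega⟩

theorem dec (n : ℕ) : ∃ i < 3 * N (kk n), n = T (kk n) + i := by
  have a : n < T (kk n) + 3 * N (kk n) := Nat.find_spec (ex n)
  have b : T (kk n) ≤ n := by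
    rcases e : kk n with _ | j
    · exact Nat.zero_le _
    · exact not_lt.1 (Nat.find_min (ex n) (m := j) (by unfold kk at e; omega))
  exact ⟨n - T (kk n), by omega, by omega⟩

theorem sumT (y : ℕ → ℝ × ℝ) (K : ℕ) :
    ∑ n ∈ range (T K), y n = ∑ k ∈ range K, ∑ i ∈ range (3 * N k), y (T k + i) := by
  induction K with
  | zero => rfl
  | succ K ih => rw [T, sum_range_add, ih, sum_range_succ]

theorem conv {y : ℕ → ℝ × ℝ} {e : ℕ → ℝ} {z : ℝ × ℝ} (he : Tendsto e atTop (𝓝 0))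
    (hb : ∀ k, ∀ r ≤ 3 * N k, ‖∑ i ∈ range r, y (T k + i)‖ ≤ e k)
    (h : Tendsto (fun K => ∑ n ∈ range (T K), y n) atTop (𝓝 z)) :
    Tendsto (fun n => ∑ n ∈ range n, y n) atTop (𝓝 z) := by
  have kt : Tendsto kk atTop atTop := tendsto_atTop.2 fun M => eventually_atTop.2
    ⟨T M, fun n g => not_lt.1 fun u => by
      have := Tm.monotone (show kk n + 1 ≤ M from u)
      have : n < T (kk n + 1) := Nat.find_spec (ex n)
      omega⟩
  refine (h.comp kt).congr_dist (squeeze_zero (fun _ => dist_nonneg) (fun n => ?_) (he.comp kt))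
  obtain ⟨r, u, v⟩ := dec n
  simp only [Function.comp_apply, dist_comm, dist_eq_norm]
  generalize kk n = k at *
  rw [v, sum_range_add, add_sub_cancel_left]
  exact hb k r u.le

noncomputable def t (k i : ℕ) : ℝ × ℝ := if i % 3 = 0 then (δ k + g (k + 1), η k) else
  if i % 3 = 1 then (-δ k, -η k) else if i / 3 < 2 * q k then (δ k, 0) else 0

noncomputable def x (n : ℕ) : ℝ × ℝ := t (kk n) (n - T (kk n))

theorem x_add {k i : ℕ} (h : i < 3 * N k) : x (T k + i) = t k i := by simp [x, kk_add h]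

open Classical in
noncomputable def cn (S : Set ℕ) (k ρ L : ℕ) : ℕ → ℕ :=
  Nat.count fun i => T k + i ∈ S ∧ i % 3 = ρ ∧ i / 3 < L

noncomputable def vl (k j m b : ℕ) : ℝ × ℝ :=
  ((j - m + b) * δ k + j * g (k + 1), (j - m) * η k)

theorem blk (S : Set ℕ) (k r : ℕ) (h : r ≤ 3 * N k) : ∑ i ∈ range r, S.indicator x (T k + i) =
    vl k (cn S k 0 (N k) r) (cn S k 1 (N k) r) (cn S k 2 (2 * q k) r) := by
  induction r with
  | zero => simp [vl, cn, Prod.ext_iff]
  | succ r ih =>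
    have u : r / 3 < N k := by omega
    rw [sum_range_succ, ih (by omega)]
    simp only [cn, Nat.count_succ, Set.indicator, x_add h, t, vl]
    by_cases v : T k + r ∈ S
    · obtain w | w | w : r % 3 = 0 ∨ r % 3 = 1 ∨ r % 3 = 2 := by omega
      · simp [v, w, u]; constructor <;> ring
      · simp [v, w, u]; constructor <;> ring
      · by_cases p : r / 3 < 2 * q k <;> simp [v, w, p]; ring
    · simp [v]

theorem c3 {ρ j : ℕ} (h : ρ < 3) (p : ℕ → Prop) [DecidablePred p] (r : ℕ)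
    (hp : ∀ i < r, p i ↔ i % 3 = ρ ∧ i / 3 < j) : Nat.count p r = min j ((r + 2 - ρ) / 3) := by
  induction r with
  | zero => simp; omega
  | succ r ih =>
    rw [Nat.count_succ, ih fun i g => hp i (by omega)]
    have := hp r (by omega)
    split_ifs with g
    · have := this.1 g; omega
    · have := this.not.1 g; omega

theorem cn_le (S : Set ℕ) (k : ℕ) {ρ : ℕ} (h : ρ < 3) (L r : ℕ) : cn S k ρ L r ≤ L := by
  classical
  exact (Nat.count_mono_left (q := fun i => i % 3 = ρ ∧ i / 3 < L) fun _ _ g => g.2).trans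
    ((c3 h _ r fun _ _ => Iff.rfl).trans_le (min_le_left _ _))

def sel (j m b : ℕ → ℕ) : Set ℕ := {n | (n - T (kk n)) / 3 < if (n - T (kk n)) % 3 = 0 then j (kk n)
  else if (n - T (kk n)) % 3 = 1 then m (kk n) else b (kk n)}

section
variable {j m b : ℕ → ℕ} (hj : ∀ k, j k ≤ N k) (hm : ∀ k, m k ≤ N k) (hb : ∀ k, b k ≤ 2 * q k)
include hj hm hb

theorem blk_sel (k r : ℕ) (h : r ≤ 3 * N k) : ∑ i ∈ range r, (sel j m b).indicator x (T k + i) =
    vl k (min (j k) ((r + 2) / 3)) (min (m k) ((r + 1) / 3)) (min (b k) (r / 3)) := by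
  have := hj k; have := hm k; have := hb k
  have e : ∀ i < r, T k + i ∈ sel j m b ↔
      i / 3 < if i % 3 = 0 then j k else if i % 3 = 1 then m k else b k := fun i g => by
    simp [sel, kk_add (g.trans_le h)]
  rw [blk _ _ _ h, cn, cn, cn, c3 (ρ := 0) (j := j k) (by omega), c3 (ρ := 1) (j := m k) (by omega),
    c3 (ρ := 2) (j := b k) (by omega)]
  · rfl
  all_goals intro i g; rw [e i g]; split_ifs <;> omega

theorem sum_sel (K : ℕ) : ∑ n ∈ range (T K), (sel j m b).indicator x n =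
    ∑ k ∈ range K, vl k (j k) (m k) (b k) := by
  rw [sumT]
  refine sum_congr rfl fun k _ => ?_
  have := hj k; have := hm k; have := hb k; have := fct k
  rw [blk_sel hj hm hb k _ le_rfl, min_eq_left (by omega), min_eq_left (by omega),
    min_eq_left (by omega)]

theorem build (hc : ∀ k, j k ≤ m k + 2 * q k ∧ m k ≤ j k + 2 * q k)
    (hη : Tendsto (fun k => ((j k : ℝ) - m k) * η k) atTop (𝓝 0)) {z : ℝ × ℝ}
    (h : Tendsto (fun K => ∑ k ∈ range K, vl k (j k) (m k) (b k)) atTop (𝓝 z)) :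
    Tendsto (fun n => ∑ n ∈ range n, (sel j m b).indicator x n) atTop (𝓝 z) := by
  refine conv (e := fun k => |((j k : ℝ) - m k) * η k| + 3 * η k)
    (by simpa using hη.abs.add (η0.const_mul 3)) (fun k r hr => ?_) (by simpa only [sum_sel hj hm hb])
  rw [blk_sel hj hm hb k r hr]
  have := hj k; have := hc k; have := hb k
  obtain ⟨u, hu⟩ : ∃ u, u = min (j k) ((r + 2) / 3) := ⟨_, rfl⟩
  obtain ⟨v, hv⟩ : ∃ u, u = min (m k) ((r + 1) / 3) := ⟨_, rfl⟩
  obtain ⟨w, hw⟩ : ∃ u, u = min (b k) (r / 3) := ⟨_, rfl⟩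
  rw [← hu, ← hv, ← hw]
  have p1 : |(u : ℝ) - v| ≤ |(j k : ℝ) - m k| + 1 := by
    have : |(u : ℤ) - v| ≤ |(j k : ℤ) - m k| + 1 := by
      rcases abs_cases ((u : ℤ) - v) with h | h <;> rcases abs_cases ((j k : ℤ) - m k) with h | h <;>
        omega
    exact_mod_cast this
  have p2 : (u : ℝ) ≤ v + (2 * q k + 1) := by exact_mod_cast (by omega : u ≤ v + (2 * q k + 1))
  have p3 : (v : ℝ) ≤ u + (2 * q k + 1) := by exact_mod_cast (by omega : v ≤ u + (2 * q k + 1))
  have p4 : (w : ℝ) ≤ 2 * q k + 1 := by exact_mod_cast (by omega : w ≤ 2 * q k + 1)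
  have p5 : (u : ℝ) ≤ N k + 1 := by exact_mod_cast (by omega : u ≤ N k + 1)
  have := gδ k; have := δg k; have := gη k; have := δp k; have := gp (k + 1); have := ηp k
  have p6 : 0 ≤ (q k : ℝ) * δ k := by positivity
  have p7 : 0 ≤ (w : ℝ) * δ k := by positivity
  have p8 : 0 ≤ (u : ℝ) * g (k + 1) := by positivity
  have p9 := abs_nonneg (((j k : ℝ) - m k) * η k)
  refine norm_prod_le_iff.2 ⟨abs_le.2 ⟨by simp only [vl]; nlinarith, by simp only [vl]; nlinarith⟩, ?_⟩
  simp only [vl, Real.norm_eq_abs, abs_mul, abs_of_pos (ηp k)]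
  nlinarith
end

end Pool.Agent.H47.Ach
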