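import Pool.Agent.H47.AchA

open Finset Filter Topology

namespace Pool.Agent.H47.Ach

theorem full (K : ℕ) : ∑ k ∈ range K, vl k (N k) (N k) (2 * q k) = (1 - g K, 0) := by
  induction K with
  | zero => simp [g, G, par, Prod.ext_iff]
  | succ K ih =>
    rw [sum_range_succ, ih]
    have := gδ K; have := δg K
    simp [vl]; linarith

theorem orig : Tendsto (fun n => ∑ i ∈ range n, x i) atTop (𝓝 (1, 0)) := by
  have := build (j := N) (m := N) (b := fun k => 2 * q k) (fun _ => le_rfl) (fun _ => le_rfl)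
    (fun _ => le_rfl) (by simp) (by simp) (z := (1, 0)) (by
      simp only [full]
      exact Tendsto.prodMk_nhds (by simpa using g0.const_sub 1) tendsto_const_nhds)
  refine this.congr fun n => sum_congr rfl fun n _ => Set.indicator_apply_eq_self.2 fun h => ?_
  obtain ⟨i, u, v⟩ := dec n
  generalize kk n = k at *
  subst v
  simp only [sel, Set.mem_ofPred_eq, kk_add u, add_tsub_cancel_left] at h
  simp only [x_add u, t]
  split_ifs at * <;> first | rfl | omega

theorem fl (u v : ℝ) (hv : 0 < v) : ∃ j m : ℕ, (j : ℝ) * v ≤ |u| + v ∧ (m : ℝ) * v ≤ |u| + v ∧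
    0 ≤ u - (j - m) * v ∧ u - (j - m) * v ≤ v := by
  have a := (le_div_iff₀ hv).1 (Int.floor_le (u / v))
  have b := (div_lt_iff₀ hv).1 (Int.lt_floor_add_one (u / v))
  have := le_abs_self u; have := neg_abs_le u; have := abs_nonneg u
  obtain ⟨n, h | h⟩ := Int.eq_nat_or_neg ⌊u / v⌋ <;> rw [h] at a b <;> push_cast at a b
  · exact ⟨n, 0, by linarith, by simp; linarith, by simpa, by simp; linarith⟩
  · exact ⟨0, n, by simp; linarith, by linarith, by simp; linarith, by simp; linarith⟩

theorem sr (z : ℝ × ℝ) :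
    ∃ σ : Equiv.Perm ℕ, Tendsto (fun n => ∑ i ∈ range n, x (σ i)) atTop (𝓝 z) := by
  classical
  refine H47.LevySt.levy x (by simpa [sum_range_succ] using
    ((tendsto_add_atTop_iff_nat 1).2 orig).sub orig) z fun F ε hε => ?_
  obtain ⟨K, ⟨h1, h2⟩, h3⟩ := (((η0.eventually (gt_mem_nhds (show 0 < ε / 4 by positivity))).and
    (eventually_ge_atTop (F.sup id + 1))).and
    (tendsto_natCast_atTop_atTop.eventually_ge_atTop (|z.1| + |z.2| + 1))).exists
  have := abs_nonneg z.1; have := abs_nonneg z.2
  have f1 := fct K; have f2 := fct (K + 1); have f3 := sq2 (K + 1)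
  have := gδ K; have := δg K; have := gη K; have := δp K; have := gp K; have := ηp K
  have := gδ (K + 1); have := δg (K + 1); have := g8 K; have := δp (K + 1); have := gp (K + 1)
  have := ηp (K + 1); have := gp (K + 2)
  have e1 : η K ≤ 1 := by simpa [η] using ηa (Nat.zero_le K)
  have e2 := ηa (Nat.le_succ K)
  have e3 : δ K ≤ g K := by nlinarith [(q K).cast_nonneg (α := ℝ)]
  obtain ⟨j, m, a1, a2, a3, a4⟩ := fl (z.1 - (1 - g K)) (δ K) (δp K)
  have u : ∀ j : ℕ, (j : ℝ) * δ K ≤ |z.1 - (1 - g K)| + δ K → j ≤ N K := fun j h => by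
    have : (N K : ℝ) * δ K = K + 1 := by have := Dp K; simp only [N, δ]; push_cast; field_simp
    have := abs_sub z.1 (1 - g K)
    rw [abs_of_nonneg (a := 1 - g K) (by linarith)] at this
    exact_mod_cast le_of_mul_le_mul_right (show (j : ℝ) * δ K ≤ N K * δ K by linarith) (δp K)
  have b1 := u j a1; have b2 := u m a2
  have c1 : (j : ℝ) ≤ N K := by exact_mod_cast b1
  have c2 : (m : ℝ) ≤ N K := by exact_mod_cast b2
  obtain ⟨j', m', a5, a6, a7, a8⟩ := fl (z.2 - (j - m) * η K) (η (K + 1)) (ηp _)
  have u' : ∀ i : ℕ, (i : ℝ) * η (K + 1) ≤ |z.2 - (j - m) * η K| + η (K + 1) → i ≤ s (K + 1) :=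
    fun i h => by
      have := sη (K + 1)
      rw [a_succ] at this; push_cast at this
      have : (K : ℝ) ≤ a K := by exact_mod_cast a_ge K
      have := abs_sub z.2 ((j - m) * η K)
      have : |((j : ℝ) - m) * η K| ≤ N K := abs_le.2 ⟨by nlinarith [j.cast_nonneg (α := ℝ)],
        by nlinarith [m.cast_nonneg (α := ℝ)]⟩
      exact_mod_cast le_of_mul_le_mul_right (show (i : ℝ) * η (K + 1) ≤ s (K + 1) * η (K + 1) by
        linarith) (ηp _)
  have b3 := u' j' a5; have b4 := u' m' a6
  let S := sel (fun k => if k < K then N k else if k = K then j else if k = K + 1 then j' else 0)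
    (fun k => if k < K then N k else if k = K then m else if k = K + 1 then m' else 0)
    fun k => if k < K then 2 * q k else 0
  refine ⟨F ∪ (range (T (K + 2))).filter fun n => n ∈ S ∨ n < T K, subset_union_left, ?_⟩
  have hF : F ⊆ (range (T (K + 2))).filter fun n => n ∈ S ∨ n < T K := fun n h => by
    have : n ≤ F.sup id := le_sup (f := id) h
    have := Tm.le_apply (x := K); have := Tm (show K < K + 2 by omega)
    simp only [mem_filter, mem_range]; omega
  rw [union_eq_right.2 hF, sum_filter, sum_congr rfl (g := S.indicator x) fun n _ => ?_,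
    sum_sel (fun k => by
      split_ifs with a b c; exacts [le_rfl, b ▸ b1, by rw [c]; omega, Nat.zero_le _]) (fun k => by
      split_ifs with a b c; exacts [le_rfl, b ▸ b2, by rw [c]; omega, Nat.zero_le _])
      (fun k => by split_ifs <;> simp), sum_range_succ, sum_range_succ,
    sum_congr rfl (g := fun k => vl k (N k) (N k) (2 * q k)) fun k h => by simp [mem_range.1 h],
    full]
  · have c3 : (j' : ℝ) ≤ 2 * q (K + 1) + 1 := by exact_mod_cast (by omega : j' ≤ 2 * q (K + 1) + 1)
    have c4 : (m' : ℝ) ≤ 2 * q (K + 1) + 1 := by exact_mod_cast (by omega : m' ≤ 2 * q (K + 1) + 1)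
    have c5 : (j' : ℝ) ≤ N (K + 1) + 1 := by exact_mod_cast (by omega : j' ≤ N (K + 1) + 1)
    have := mul_le_mul_of_nonneg_right c3 (δp (K + 1)).le
    have := mul_le_mul_of_nonneg_right c4 (δp (K + 1)).le
    have := mul_le_mul_of_nonneg_right c5 (gp (K + 2)).le
    have := mul_le_mul_of_nonneg_right c1 (gp (K + 1)).le
    have : 0 ≤ (j : ℝ) * g (K + 1) := by positivity
    have : 0 ≤ (j' : ℝ) * g (K + 2) := by positivity
    have : 0 ≤ (j' : ℝ) * δ (K + 1) := by positivity
    have : 0 ≤ (m' : ℝ) * δ (K + 1) := by positivity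
    have : 0 ≤ (q (K + 1) : ℝ) * δ (K + 1) := by positivity
    refine norm_prod_le_iff.2 ⟨abs_le.2 ⟨?_, ?_⟩, abs_le.2 ⟨?_, ?_⟩⟩ <;> simp [vl] <;> linarith
  · by_cases h : n ∈ S
    · simp [h]
    · simp only [h, false_or, Set.indicator_of_notMem h, ite_eq_right_iff]
      intro p
      obtain ⟨i, u, v⟩ := dec n
      have : kk n < K := Tm.lt_iff_lt.1 (by omega)
      generalize kk n = k at *
      subst v
      simp only [S, sel, Set.mem_ofPred_eq, kk_add u, add_tsub_cancel_left, this, if_true] at h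
      simp only [x_add u, t]
      split_ifs at * <;> first | rfl | omega

end Pool.Agent.H47.Ach
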