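import Mathlib

namespace Pool.Agent.H47.Brandt

/-- Brandt semigroup with two indices over the bicyclic monoid -/
inductive S : Type
  | z : S
  | e : Bool → ℕ → ℕ → Bool → S

open S

def mul : S → S → S
  | e i a b j, e k c d l => if j = k then e i (a + (c - b)) (d + (b - c)) l else z
  | _, _ => z

instance : Semigroup S where
  mul := mul
  mul_assoc := by
    rintro (_ | ⟨i, a, b, j⟩) (_ | ⟨k, c, d, l⟩) (_ | ⟨m, f, g, n⟩) <;>
      change mul (mul _ _) _ = mul _ (mul _ _) <;> try simp only [mul]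
    all_goals
      split_ifs <;> simp only [mul] <;> split_ifs <;> first | rfl | contradiction | skip
    congr 1 <;> omega

lemma mul_def (x y : S) : x * y = mul x y := rfl

lemma simple (x y : S) (hy : y ≠ z) : ∃ u v : S, x = u * y * v := by
  rcases y with _ | ⟨k, c, d, l⟩
  · exact absurd rfl hy
  rcases x with _ | ⟨i, a, b, j⟩
  · exact ⟨z, z, rfl⟩
  · exact ⟨e i a c k, e l d b j, by simp [mul_def, mul]⟩

lemma B_right (x s : S) (hx : ∀ a b j, x ≠ e false a b j) : ∀ a b j, x * s ≠ e false a b j := by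
  intro a' b' j' h
  rcases x with _ | ⟨i, a, b, j⟩ <;> rcases s with _ | ⟨k, c, d, l⟩ <;> simp [mul_def, mul] at h
  split_ifs at h
  cases h
  exact hx _ _ _ rfl

def B : Subsemigroup S where
  carrier := {x | ∀ a b j, x ≠ e false a b j}
  mul_mem' := fun h _ => B_right _ _ h

def el (n : ℕ) : B := ⟨e true 0 n false, by rintro _ _ _ ⟨⟩⟩

lemma el_le (m n : ℕ) (h : m ≤ n) : ∃ u : B, el n = u * el m :=
  ⟨⟨e true 0 (n - m) true, by rintro _ _ _ ⟨⟩⟩, Subtype.ext (by
    change e true 0 n false = mul (e true 0 (n - m) true) (e true 0 m false)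
    simp [mul]; omega)⟩

lemma el_left (m n : ℕ) (u : B) (h : el n = u * el m) : m ≤ n := by
  have h := congrArg Subtype.val h
  obtain ⟨_ | ⟨i, a, b, j⟩, hu⟩ := u
  · cases h
  · change e _ _ _ _ = mul (e _ _ _ _) (e _ _ _ _) at h
    simp only [mul] at h
    split_ifs at h
    simp at h
    omega

lemma el_right (n : ℕ) (x v : B) (hx : ∀ i a b, x.1 ≠ e i a b true) : el n ≠ x * v := by
  intro h
  have h := congrArg Subtype.val h
  obtain ⟨_ | ⟨i, a, b, _ | _⟩, hu⟩ := x
  · cases h
  · obtain ⟨_ | ⟨_ | _, c, d, l⟩, hv⟩ := v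
    · cases h
    · exact hv _ _ _ rfl
    · cases h
  · exact hx _ _ _ rfl

lemma end_false (u : B) (m : ℕ) : ∀ i a b, (u * el m).1 ≠ e i a b true := by
  intro i' a' b' h
  obtain ⟨_ | ⟨i, a, b, j⟩, hu⟩ := u
  · cases h
  · change mul (e _ _ _ _) (e _ _ _ _) = e _ _ _ _ at h
    simp only [mul] at h
    split_ifs at h
    cases h

end Pool.Agent.H47.Brandt
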