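import Mathlib

namespace Pool.Agent.H47.Cantor
open Finset Filter Topology Asymptotics

theorem per_sum (h : ℕ → ℝ) (L : ℕ) (hp : ∀ i, h (i + L) = h i) (u : ℕ) :
    ∑ i ∈ range L, h (u + i) = ∑ i ∈ range L, h i := by
  induction u with
  | zero => simp
  | succ u ih =>
    have h1 := Finset.sum_range_succ (fun i => h (u + i)) L
    have h2 := Finset.sum_range_succ' (fun i => h (u + i)) L
    have e : ∑ i ∈ range L, h (u + 1 + i) = ∑ i ∈ range L, h (u + (i + 1)) :=
      sum_congr rfl (fun i _ => by rw [show u + 1 + i = u + (i + 1) by ring])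
    rw [e, ← ih]
    simp only [hp, add_zero] at h1 h2
    linarith

theorem per_bound (h : ℕ → ℝ) (L : ℕ) (hL : 0 < L) (hp : ∀ i, h (i + L) = h i)
    (h0 : ∑ i ∈ range L, h i = 0) (hb : ∀ i, |h i| ≤ 2) (l u : ℕ) :
    |∑ i ∈ range l, h (u + i)| ≤ 2 * L := by
  induction l using Nat.strong_induction_on with
  | _ l ih =>
    by_cases hl : l < L
    · calc |∑ i ∈ range l, h (u + i)| ≤ ∑ i ∈ range l, |h (u + i)| := abs_sum_le_sum_abs _ _
        _ ≤ ∑ _i ∈ range l, (2 : ℝ) := sum_le_sum fun i _ => hb _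
        _ = 2 * l := by simp [mul_comm]
        _ ≤ 2 * L := by have : (l : ℝ) ≤ L := by exact_mod_cast hl.le
                        linarith
    · obtain ⟨m, rfl⟩ : ∃ m, l = L + m := ⟨l - L, by omega⟩
      rw [sum_range_add, per_sum h L hp u, h0, zero_add]
      have e : ∑ i ∈ range m, h (u + (L + i)) = ∑ i ∈ range m, h (u + i) :=
        sum_congr rfl (fun i _ => by rw [show u + (L + i) = u + i + L by ring, hp])
      rw [e]
      exact ih m (by omega)

def H (L : ℕ → ℕ) (s : ℕ) : ℕ := ∑ t ∈ range (s + 1), (2 * L t + 2 * t + 2)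

def T (q L : ℕ → ℕ) : ℕ → ℕ
  | 0 => 0
  | s + 1 => T q L s + (s + 1) * q s ^ s * H L (s + 1)

theorem T_succ (q L : ℕ → ℕ) (s : ℕ) :
    T q L (s + 1) = T q L s + (s + 1) * q s ^ s * H L (s + 1) := rfl

noncomputable def sg (q L : ℕ → ℕ) (n : ℕ) : ℕ := Nat.findGreatest (fun s => T q L s ≤ n) n

theorem H_pos (L : ℕ → ℕ) (s : ℕ) : 1 ≤ H L s := by
  unfold H; rw [sum_range_succ]; omega

theorem H_succ (L : ℕ → ℕ) (s : ℕ) : H L (s + 1) = H L s + (2 * L (s + 1) + 2 * (s + 1) + 2) := by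
  unfold H; rw [sum_range_succ _ (s + 1)]

theorem H_ge (L : ℕ → ℕ) (s : ℕ) : 2 * L s + 2 * s + 2 ≤ H L s := by
  unfold H; rw [sum_range_succ]; omega

section
variable (q L : ℕ → ℕ) (hq : ∀ s, 1 ≤ q s)
include hq

theorem T_mono : StrictMono (T q L) := by
  refine strictMono_nat_of_lt_succ fun s => ?_
  rw [T_succ]
  have h1 := H_pos L (s + 1)
  have h2 : 0 < q s ^ s := pow_pos (hq s) s
  have : 0 < (s + 1) * q s ^ s * H L (s + 1) := by positivity
  omega

theorem sg_spec (n : ℕ) : T q L (sg q L n) ≤ n ∧ n < T q L (sg q L n + 1) := by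
  constructor
  · exact Nat.findGreatest_spec (P := fun s => T q L s ≤ n) (Nat.zero_le n) (Nat.zero_le n)
  · by_contra h
    have h1 : T q L (sg q L n + 1) ≤ n := by omega
    have h2 : sg q L n + 1 ≤ n := le_trans ((T_mono q L hq).le_apply) h1
    have := Nat.le_findGreatest (P := fun s => T q L s ≤ n) h2 h1
    unfold sg at this
    omega

theorem sg_eq {s n : ℕ} (h1 : T q L s ≤ n) (h2 : n < T q L (s + 1)) : sg q L n = s := by
  obtain ⟨a, b⟩ := sg_spec q L hq n
  have c : s < sg q L n + 1 := (T_mono q L hq).lt_iff_lt.1 (lt_of_le_of_lt h1 b)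
  have d : sg q L n < s + 1 := (T_mono q L hq).lt_iff_lt.1 (lt_of_le_of_lt a h2)
  omega

theorem sg_ge {s n : ℕ} (h1 : T q L s ≤ n) : s ≤ sg q L n := by
  have c : s < sg q L n + 1 :=
    (T_mono q L hq).lt_iff_lt.1 (lt_of_le_of_lt h1 (sg_spec q L hq n).2)
  omega

theorem sg_tendsto : Tendsto (sg q L) atTop atTop :=
  tendsto_atTop_atTop.2 fun s => ⟨T q L s, fun _ hn => sg_ge q L hq hn⟩

theorem sg_mono : Monotone (sg q L) := fun a _ hab =>
  sg_ge q L hq (le_trans (sg_spec q L hq a).1 hab)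

end

/-- the reference sum -/
noncomputable def S (q L : ℕ → ℕ) (k n : ℕ) : ℝ := ∑ i ∈ range n, ((q (sg q L i) : ℝ) ^ k)⁻¹

section
variable (q L : ℕ → ℕ) (hq : ∀ s, 1 ≤ q s)
include hq

theorem S_ge (k s n : ℕ) (hk : k ≤ s) (hn : T q L (s + 1) ≤ n) :
    ((s + 1 : ℕ) : ℝ) * H L (s + 1) ≤ S q L k n := by
  have hq0 : (0 : ℝ) < q s := by exact_mod_cast hq s
  have hq1 : (1 : ℝ) ≤ q s := by exact_mod_cast hq s
  have sub : Ico (T q L s) (T q L (s + 1)) ⊆ range n := fun i hi => by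
    simp only [mem_Ico, mem_range] at hi ⊢; omega
  calc ((s + 1 : ℕ) : ℝ) * H L (s + 1)
      ≤ (((s + 1) * q s ^ s * H L (s + 1) : ℕ) : ℝ) * ((q s : ℝ) ^ k)⁻¹ := by
        have h1 : (q s : ℝ) ^ k ≤ (q s : ℝ) ^ s := pow_le_pow_right₀ hq1 hk
        have h2 : (0 : ℝ) < (q s : ℝ) ^ k := by positivity
        rw [← div_eq_mul_inv, le_div_iff₀ h2]
        push_cast
        have h3 : (0 : ℝ) ≤ ((s : ℝ) + 1) * H L (s + 1) := by positivity
        nlinarith [mul_le_mul_of_nonneg_left h1 h3]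
    _ = ∑ i ∈ Ico (T q L s) (T q L (s + 1)), ((q (sg q L i) : ℝ) ^ k)⁻¹ := by
        rw [sum_congr rfl (g := fun _ => ((q s : ℝ) ^ k)⁻¹) (fun i hi => by
          rw [sg_eq q L hq (mem_Ico.1 hi).1 (mem_Ico.1 hi).2])]
        rw [sum_const, Nat.card_Ico, T_succ, Nat.add_sub_cancel_left, nsmul_eq_mul]
    _ ≤ S q L k n := sum_le_sum_of_subset_of_nonneg sub fun i _ _ => by positivity

theorem S_ge' (k : ℕ) : ∀ᶠ n in atTop, (sg q L n : ℝ) * H L (sg q L n) ≤ S q L k n := by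
  filter_upwards [(sg_tendsto q L hq).eventually_ge_atTop (k + 1)] with n hn
  obtain ⟨s, hs⟩ : ∃ s, sg q L n = s + 1 := ⟨sg q L n - 1, by omega⟩
  rw [hs]
  exact S_ge q L hq k s n (by omega) (hs ▸ (sg_spec q L hq n).1)

theorem S_tendsto (k : ℕ) : Tendsto (S q L k) atTop atTop := by
  refine tendsto_atTop_mono' _ ?_ (tendsto_natCast_atTop_atTop.comp (sg_tendsto q L hq))
  filter_upwards [S_ge' q L hq k] with n hn
  have h1 : (1 : ℝ) ≤ H L (sg q L n) := by exact_mod_cast H_pos L _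
  have h2 : (0 : ℝ) ≤ (sg q L n : ℝ) := by positivity
  show (sg q L n : ℝ) ≤ _
  nlinarith

omit hq in
theorem stage (k t : ℕ) (hk : k ≤ t) (hL : 0 < L t) (F : ℕ → ℝ) (a : ℕ → ℝ)
    (hF : ∀ i, |F i| ≤ 1) (ha : ∀ i, |a i| ≤ 1) (hp : ∀ i, F (i + L t) = F i)
    (hag : ∀ i, T q L t ≤ i → i + k < T q L (t + 1) → a i = F i) (n : ℕ)
    (hn : n ≤ T q L (t + 1)) :
    |∑ i ∈ Ico (T q L t) n, (a i - (∑ j ∈ range (L t), F j) / L t)| ≤ 2 * L t + 2 * t + 2 := by
  have hL0 : (0 : ℝ) < L t := by exact_mod_cast hL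
  set μ := (∑ j ∈ range (L t), F j) / L t with hμ
  have hμ1 : |μ| ≤ 1 := by
    rw [hμ, abs_div, abs_of_pos hL0, div_le_one hL0]
    calc _ ≤ ∑ j ∈ range (L t), |F j| := abs_sum_le_sum_abs _ _
      _ ≤ ∑ _j ∈ range (L t), (1 : ℝ) := sum_le_sum fun i _ => hF _
      _ = L t := by simp
  have e : ∑ i ∈ Ico (T q L t) n, (a i - μ) =
      ∑ i ∈ Ico (T q L t) n, (a i - F i) + ∑ i ∈ Ico (T q L t) n, (F i - μ) := by
    rw [← sum_add_distrib]; exact sum_congr rfl fun i _ => by ring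
  have b1 : |∑ i ∈ Ico (T q L t) n, (F i - μ)| ≤ 2 * L t := by
    rw [sum_Ico_eq_sum_range]
    refine per_bound (fun i => F i - μ) (L t) hL (fun i => by simp only [hp]) ?_ (fun i => ?_) _ _
    · rw [sum_sub_distrib, sum_const, card_range, nsmul_eq_mul, hμ]; field_simp; ring
    · have := abs_sub (F i) μ; have := hF i; linarith
  have b2 : |∑ i ∈ Ico (T q L t) n, (a i - F i)| ≤ 2 * t := by
    rw [← sum_filter_add_sum_filter_not _ (fun i => i + k < T q L (t + 1))]
    rw [sum_eq_zero (fun i hi => by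
      simp only [mem_filter, mem_Ico] at hi
      rw [hag i hi.1.1 hi.2, sub_self]), zero_add]
    calc _ ≤ ∑ i ∈ (Ico (T q L t) n).filter (fun i => ¬ i + k < T q L (t + 1)), |a i - F i| :=
          abs_sum_le_sum_abs _ _
      _ ≤ ∑ _i ∈ (Ico (T q L t) n).filter (fun i => ¬ i + k < T q L (t + 1)), (2 : ℝ) :=
          sum_le_sum fun i _ => by
            have := abs_sub (a i) (F i); have := hF i; have := ha i; linarith
      _ ≤ ∑ _i ∈ Ico (T q L (t + 1) - k) (T q L (t + 1)), (2 : ℝ) :=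
          sum_le_sum_of_subset_of_nonneg (fun i hi => by
            simp only [mem_filter, mem_Ico] at hi ⊢; omega) fun _ _ _ => by norm_num
      _ ≤ 2 * t := by
          rw [sum_const, Nat.card_Ico, nsmul_eq_mul]
          have : T q L (t + 1) - (T q L (t + 1) - k) ≤ t := by omega
          have : ((T q L (t + 1) - (T q L (t + 1) - k) : ℕ) : ℝ) ≤ t := by exact_mod_cast this
          linarith
  rw [e]
  have := abs_add_le (∑ i ∈ Ico (T q L t) n, (a i - F i)) (∑ i ∈ Ico (T q L t) n, (F i - μ))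
  linarith

theorem main (hL : ∀ s, 0 < L s) (k : ℕ) (F : ℕ → ℕ → ℝ) (a : ℕ → ℝ) (ρ : ℝ)
    (hF : ∀ s i, |F s i| ≤ 1) (ha : ∀ i, |a i| ≤ 1)
    (hp : ∀ᶠ s in atTop, ∀ i, F s (i + L s) = F s i)
    (hag : ∀ i, i ≠ 0 → sg q L (i + k) = sg q L i → a i = F (sg q L i) i)
    (hρ : Tendsto (fun s => (∑ j ∈ range (L s), F s j) / L s * (q s : ℝ) ^ k) atTop (𝓝 ρ)) :
    Tendsto (fun n => (∑ i ∈ range n, a i) / S q L k n) atTop (𝓝 ρ) := by
  set μ : ℕ → ℝ := fun s => (∑ j ∈ range (L s), F s j) / L s with hμ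
  have hμ1 : ∀ s, |μ s| ≤ 1 := fun s => by
    have hL0 : (0 : ℝ) < L s := by exact_mod_cast hL s
    simp only [hμ]
    rw [abs_div, abs_of_pos hL0, div_le_one hL0]
    calc _ ≤ ∑ j ∈ range (L s), |F s j| := abs_sum_le_sum_abs _ _
      _ ≤ ∑ _j ∈ range (L s), (1 : ℝ) := sum_le_sum fun i _ => hF _ _
      _ = L s := by simp
  obtain ⟨s0, hs0⟩ := eventually_atTop.1 (hp.and (eventually_ge_atTop (k + 1)))
  have hst : ∀ t, s0 ≤ t → ∀ n, T q L t ≤ n → n ≤ T q L (t + 1) →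
      |∑ i ∈ Ico (T q L t) n, (a i - μ (sg q L i))| ≤ 2 * L t + 2 * t + 2 := by
    intro t ht n _ hn
    obtain ⟨h1, h2⟩ := hs0 t ht
    have h3 : t ≤ T q L t := (T_mono q L hq).le_apply
    rw [sum_congr rfl (g := fun i => a i - μ t) (fun i hi => by
      rw [sg_eq q L hq (mem_Ico.1 hi).1 (lt_of_lt_of_le (mem_Ico.1 hi).2 hn)])]
    refine stage q L k t (by omega) (hL t) (F t) a (hF t) ha h1 (fun i hi hi' => ?_) n hn
    have e1 : sg q L i = t := sg_eq q L hq hi (by omega)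
    have e2 : sg q L (i + k) = t := sg_eq q L hq (by omega) hi'
    rw [hag i (by omega) (e2.trans e1.symm), e1]
  have key : ∀ s, s0 ≤ s → ∀ n, T q L s ≤ n → n ≤ T q L (s + 1) →
      |∑ i ∈ range n, (a i - μ (sg q L i))| ≤ 2 * T q L s0 + H L s := by
    intro s hs
    induction s, hs using Nat.le_induction with
    | base =>
      intro n h1 h2
      rw [← sum_range_add_sum_Ico _ h1]
      have b1 : |∑ i ∈ range (T q L s0), (a i - μ (sg q L i))| ≤ 2 * T q L s0 :=
        calc _ ≤ ∑ i ∈ range (T q L s0), |a i - μ (sg q L i)| := abs_sum_le_sum_abs _ _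
          _ ≤ ∑ _i ∈ range (T q L s0), (2 : ℝ) := sum_le_sum fun i _ => by
            have := abs_sub (a i) (μ (sg q L i)); have := hμ1 (sg q L i); have := ha i; linarith
          _ = 2 * T q L s0 := by simp [mul_comm]
      have b2 := hst s0 le_rfl n h1 h2
      have b3 : ((2 * L s0 + 2 * s0 + 2 : ℕ) : ℝ) ≤ H L s0 := by exact_mod_cast H_ge L s0
      push_cast at b3
      have := abs_add_le (∑ i ∈ range (T q L s0), (a i - μ (sg q L i)))
        (∑ i ∈ Ico (T q L s0) n, (a i - μ (sg q L i)))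
      linarith
    | succ s hs ih =>
      intro n h1 h2
      rw [← sum_range_add_sum_Ico _ h1]
      have b1 := ih (T q L (s + 1)) ((T_mono q L hq).monotone (Nat.le_succ s)) le_rfl
      have b2 := hst (s + 1) (by omega) n h1 h2
      rw [H_succ]
      have := abs_add_le (∑ i ∈ range (T q L (s + 1)), (a i - μ (sg q L i)))
        (∑ i ∈ Ico (T q L (s + 1)) n, (a i - μ (sg q L i)))
      push_cast at b2 ⊢
      linarith
  have hS := S_tendsto q L hq k
  have o1 : (fun n => ∑ i ∈ range n, (a i - μ (sg q L i))) =o[atTop] S q L k := by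
    refine isLittleO_iff.2 fun c hc => ?_
    have hg : Tendsto (fun n => (sg q L n : ℝ)) atTop atTop :=
      tendsto_natCast_atTop_atTop.comp (sg_tendsto q L hq)
    filter_upwards [S_ge' q L hq k, (sg_tendsto q L hq).eventually_ge_atTop s0,
      hg.eventually_ge_atTop ((2 * T q L s0 + 1) / c), hS.eventually_ge_atTop 0] with n h1 h2 h3 h4
    have h5 := key _ h2 n (sg_spec q L hq n).1 (sg_spec q L hq n).2.le
    have h6 : (1 : ℝ) ≤ H L (sg q L n) := by exact_mod_cast H_pos L _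
    rw [div_le_iff₀ hc] at h3
    rw [Real.norm_eq_abs, Real.norm_eq_abs, abs_of_nonneg h4]
    have h7 : (0 : ℝ) ≤ T q L s0 := by positivity
    nlinarith [mul_le_mul_of_nonneg_left h1 hc.le, mul_le_mul_of_nonneg_right h3 (by linarith :
      (0 : ℝ) ≤ H L (sg q L n))]
  have o2 : (fun n => ∑ i ∈ range n, (μ (sg q L i) - ρ * ((q (sg q L i) : ℝ) ^ k)⁻¹))
      =o[atTop] S q L k := by
    refine IsLittleO.sum_range (g := fun i => ((q (sg q L i) : ℝ) ^ k)⁻¹) ?_
      (fun i => by positivity) hS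
    have hne : ∀ s, ((q s : ℝ) ^ k) ≠ 0 := fun s => by
      have : (0 : ℝ) < q s := by exact_mod_cast hq s
      positivity
    refine (isLittleO_iff_tendsto (fun i hi => absurd hi (inv_ne_zero (hne _)))).2 ?_
    have h1 := (hρ.comp (sg_tendsto q L hq)).sub_const ρ
    rw [sub_self] at h1
    refine h1.congr fun i => ?_
    have := hne (sg q L i)
    simp only [Function.comp, hμ]
    field_simp
  have o3 := (o1.add o2).tendsto_div_nhds_zero.add_const ρ
  rw [zero_add] at o3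
  refine o3.congr' ?_
  filter_upwards [hS.eventually_gt_atTop 0] with n hn
  rw [← sum_add_distrib]
  have e : ∑ i ∈ range n, (a i - μ (sg q L i) + (μ (sg q L i) - ρ * ((q (sg q L i) : ℝ) ^ k)⁻¹))
      = ∑ i ∈ range n, a i - ρ * S q L k n := by
    unfold S
    rw [mul_sum, ← sum_sub_distrib]
    exact sum_congr rfl fun i _ => by ring
  rw [e]
  field_simp
  ring

end

end Pool.Agent.H47.Cantor
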