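import Mathlib
import Pool.Agent.H47.Cantor

namespace Pool.Agent.H47.Cantor
open Finset Filter Topology Asymptotics

theorem exists_assign {α : Type} [DecidableEq α] (W : Finset α) (m : α → ℕ) (z : α) (hz : z ∉ W)
    (P : ℕ) (h : ∑ w ∈ W, m w ≤ P) : ∃ f : ℕ → α, (∀ j, f j ∈ W ∨ f j = z) ∧
      ∀ w ∈ W, ((range P).filter (fun j => f j = w)).card = m w := by
  induction W using Finset.induction_on generalizing P with
  | empty => exact ⟨fun _ => z, fun _ => Or.inr rfl, by simp⟩
  | insert a W ha ih =>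
    rw [sum_insert ha] at h
    obtain ⟨f, hf, hc⟩ := ih (fun hh => hz (mem_insert_of_mem hh)) (P - m a) (by omega)
    have haz : a ≠ z := fun hh => hz (hh ▸ mem_insert_self _ _)
    refine ⟨fun j => if j < P - m a then f j else a, fun j => ?_, fun w hw => ?_⟩
    · by_cases hj : j < P - m a
      · simp only [hj, if_true]
        exact (hf j).imp_left mem_insert_of_mem
      · simp [hj]
    · rcases mem_insert.1 hw with rfl | hw
      · have : (range P).filter (fun j => (if j < P - m w then f j else w) = w) =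
            Ico (P - m w) P := by
          ext j
          simp only [mem_filter, mem_range, mem_Ico]
          by_cases hj : j < P - m w
          · simp only [hj, if_true]
            constructor
            · rintro ⟨_, h2⟩
              rcases hf j with h3 | h3
              · exact absurd (h2 ▸ h3) ha
              · exact absurd (h2.symm.trans h3) haz
            · intro h2; omega
          · simp only [hj, if_false]; constructor
            · intro h2; omega
            · intro h2; exact ⟨h2.2, trivial⟩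
        rw [this, Nat.card_Ico]; omega
      · rw [← hc w hw]
        congr 1
        ext j
        simp only [mem_filter, mem_range]
        by_cases hj : j < P - m a
        · simp only [hj, if_true]; constructor
          · intro h2; exact ⟨trivial, h2.2⟩
          · intro h2; exact ⟨by omega, h2.2⟩
        · simp only [hj, if_false]; constructor
          · rintro ⟨_, h2⟩; exact absurd (h2 ▸ hw) ha
          · intro h2; exact h2.1.elim

theorem W_fin (s : ℕ) : {w : List ℕ | w ≠ [] ∧ w.length ≤ s ∧ ∀ x ∈ w, x < s}.Finite := by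
  refine ((List.finite_length_le (Fin s) s).image (List.map Fin.val)).subset ?_
  rintro w ⟨_, h2, h3⟩
  refine ⟨w.pmap (fun x hx => (⟨x, hx⟩ : Fin s)) h3, by simpa using h2, ?_⟩
  rw [List.map_pmap]
  simp

noncomputable def W (s : ℕ) : Finset (List ℕ) := (W_fin s).toFinset

theorem mem_W {s : ℕ} {w : List ℕ} : w ∈ W s ↔ w ≠ [] ∧ w.length ≤ s ∧ ∀ x ∈ w, x < s := by
  unfold W; rw [Set.Finite.mem_toFinset]; rfl

def D (s : ℕ) : ℕ := (s + 1).factorial

noncomputable def qq (s : ℕ) : ℕ := (s + 1) * (2 * D s * (W s).card) + s + 2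

noncomputable def LL (s : ℕ) : ℕ := D s * qq s ^ s

noncomputable def mult (ρ : ℕ → ℕ) (s : ℕ) (w : List ℕ) : ℕ :=
  ρ w.length * D s * qq s ^ (s - w.length)

theorem D_ge (s : ℕ) : s + 1 ≤ D s := Nat.self_le_factorial _

theorem qq_ge (s : ℕ) : s + 2 ≤ qq s := by unfold qq; omega

theorem qq_one (s : ℕ) : 1 ≤ qq s := by have := qq_ge s; omega

theorem LL_pos (s : ℕ) : 0 < LL s := by
  have := D_ge s
  exact Nat.mul_pos (by omega) (pow_pos (qq_one s) s)

theorem mult_le (ρ : ℕ → ℕ) (hρ : ∀ k, ρ k ≤ 2) (s k : ℕ) (w : List ℕ) (h : k < w.length) :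
    mult ρ s w ≤ 2 * D s * qq s ^ (s - (k + 1)) :=
  Nat.mul_le_mul (Nat.mul_le_mul_right _ (hρ _)) (Nat.pow_le_pow_right (qq_one s) (by omega))

theorem sum_mult (ρ : ℕ → ℕ) (hρ : ∀ k, ρ k ≤ 2) (s : ℕ) : ∑ w ∈ W s, mult ρ s w ≤ qq s ^ s := by
  rcases Nat.eq_zero_or_pos s with rfl | hs
  · rw [sum_eq_zero]; · omega
    intro w hw
    obtain ⟨h1, h2, _⟩ := mem_W.1 hw
    exact absurd (List.length_eq_zero_iff.1 (by omega)) h1
  · calc ∑ w ∈ W s, mult ρ s w ≤ (W s).card * (2 * D s * qq s ^ (s - (0 + 1))) :=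
          sum_le_card_nsmul _ _ _ fun w hw =>
            mult_le ρ hρ s 0 w (List.length_pos_iff.2 (mem_W.1 hw).1)
      _ = (2 * D s * (W s).card) * qq s ^ (s - 1) := by ring
      _ ≤ qq s * qq s ^ (s - 1) := Nat.mul_le_mul_right _ (by unfold qq; rw [add_mul]; omega)
      _ = qq s ^ s := by rw [← pow_succ']; congr 1; omega

section
variable (ρ : ℕ → ℕ) (hρ : ∀ k, ρ k ≤ 2)

noncomputable def ff (s : ℕ) : ℕ → List ℕ :=
  (exists_assign (W s) (mult ρ s) [] (fun h => (mem_W.1 h).1 rfl) _ (sum_mult ρ hρ s)).choose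

theorem ff_mem (s j : ℕ) : ff ρ hρ s j ∈ W s ∨ ff ρ hρ s j = [] :=
  (exists_assign (W s) (mult ρ s) [] (fun h => (mem_W.1 h).1 rfl) _
    (sum_mult ρ hρ s)).choose_spec.1 j

theorem ff_card (s : ℕ) (w : List ℕ) (hw : w ∈ W s) :
    ((range (qq s ^ s)).filter (fun j => ff ρ hρ s j = w)).card = mult ρ s w :=
  (exists_assign (W s) (mult ρ s) [] (fun h => (mem_W.1 h).1 rfl) _
    (sum_mult ρ hρ s)).choose_spec.2 w hw

theorem ff_len (s j : ℕ) : (ff ρ hρ s j).length ≤ s := by
  rcases ff_mem ρ hρ s j with h | h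
  · exact (mem_W.1 h).2.1
  · simp [h]

noncomputable def gg (s i : ℕ) : ℕ := (ff ρ hρ s (i / D s % qq s ^ s)).getD (i % D s) s

theorem gg_le (s i : ℕ) : gg ρ hρ s i ≤ s := by
  unfold gg
  by_cases h : i % D s < (ff ρ hρ s (i / D s % qq s ^ s)).length
  · rw [List.getD_eq_getElem _ _ h]
    rcases ff_mem ρ hρ s (i / D s % qq s ^ s) with h1 | h1
    · exact ((mem_W.1 h1).2.2 _ (List.getElem_mem h)).le
    · simp [h1] at h
  · rw [List.getD_eq_default _ _ (by omega)]

theorem gg_per (s i : ℕ) : gg ρ hρ s (i + LL s) = gg ρ hρ s i := by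
  have := D_ge s
  unfold gg LL
  rw [Nat.add_mul_div_left _ _ (by omega), Nat.add_mul_mod_self_left, Nat.add_mod_right]

theorem occ (s k i : ℕ) (hk : 0 < k) (B : Fin k → ℕ) (hB : ∀ t, B t < s)
    (h : ∀ t : Fin k, gg ρ hρ s (i + t) = B t) :
    k < (ff ρ hρ s (i / D s % qq s ^ s)).length ∨
      (i % D s = 0 ∧ ff ρ hρ s (i / D s % qq s ^ s) = List.ofFn B) := by
  have hD := D_ge s
  have ho : i % D s < D s := Nat.mod_lt _ (by omega)
  have dm : ∀ t, i % D s + t < D s → (i + t) / D s = i / D s ∧ (i + t) % D s = i % D s + t := by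
    intro t ht
    have e : i + t = (i % D s + t) + D s * (i / D s) := by have := Nat.mod_add_div i (D s); omega
    rw [e, Nat.add_mul_div_left _ _ (by omega), Nat.add_mul_mod_self_left, Nat.div_eq_of_lt ht,
      Nat.mod_eq_of_lt ht]
    simp
  have h1 : i % D s + k < D s + 1 := by
    by_contra hc
    have ht : D s - 1 - i % D s < k := by omega
    have h2 := h ⟨_, ht⟩
    obtain ⟨e1, e2⟩ := dm (D s - 1 - i % D s) (by omega)
    unfold gg at h2
    simp only at h2
    have h3 := ff_len ρ hρ s ((i + (D s - 1 - i % D s)) / D s % qq s ^ s)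
    rw [e2, List.getD_eq_default _ _ (by omega)] at h2
    have := hB ⟨_, ht⟩
    omega
  set w := ff ρ hρ s (i / D s % qq s ^ s) with hw
  have h2 : ∀ t : Fin k, w.getD (i % D s + t) s = B t := fun t => by
    obtain ⟨e1, e2⟩ := dm t (by have := t.2; omega)
    have := h t
    unfold gg at this
    rwa [e1, e2] at this
  have h3 : i % D s + k ≤ w.length := by
    by_contra hc
    have h4 := h2 ⟨k - 1, by omega⟩
    rw [List.getD_eq_default _ _ (by simp only; omega)] at h4
    have := hB ⟨k - 1, by omega⟩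
    omega
  by_cases h4 : k < w.length
  · exact Or.inl h4
  · refine Or.inr ⟨by omega, List.ext_getElem (by simp; omega) fun t ht ht' => ?_⟩
    have h5 := h2 ⟨t, by simpa using ht'⟩
    rw [show i % D s = 0 by omega, zero_add, List.getD_eq_getElem _ _ ht] at h5
    simpa using h5

open Classical in
theorem cnt_bounds (s k m r : ℕ) (hk : 0 < k) (hks : k ≤ s) (B : Fin k → ℕ) (hB : ∀ t, B t < s)
    (hm : m ∣ D s) :
    (if r = 0 then ρ k * D s * qq s ^ (s - k) else 0) ≤
      ((range (LL s)).filter (fun i => (∀ t : Fin k, gg ρ hρ s (i + t) = B t) ∧ i % m = r)).card ∧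
    ((range (LL s)).filter (fun i => (∀ t : Fin k, gg ρ hρ s (i + t) = B t) ∧ i % m = r)).card ≤
      (if r = 0 then ρ k * D s * qq s ^ (s - k) else 0) +
        D s * ((W s).card * (2 * D s * qq s ^ (s - (k + 1)))) := by
  have hD := D_ge s
  have hw : List.ofFn B ∈ W s := mem_W.2 ⟨fun h => by
    have := congrArg List.length h; simp at this; omega, by simpa using hks, by
    intro x hx; obtain ⟨t, rfl⟩ := List.mem_ofFn.1 hx; exact hB t⟩
  have hc := ff_card ρ hρ s _ hw
  unfold mult at hc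
  rw [List.length_ofFn] at hc
  constructor
  · split_ifs with hr
    · rw [← hc]
      refine card_le_card_of_injOn (fun j => D s * j) (fun j hj => ?_) (fun a _ b _ hab =>
        Nat.eq_of_mul_eq_mul_left (by omega) hab)
      simp only [coe_filter, mem_range, Set.mem_ofPred_eq] at hj ⊢
      refine ⟨Nat.mul_lt_mul_of_pos_left hj.1 (by omega), fun t => ?_, ?_⟩
      · have ht : (t : ℕ) < D s := by have := t.2; omega
        unfold gg
        rw [add_comm, Nat.add_mul_div_left _ _ (by omega), Nat.add_mul_mod_self_left,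
          Nat.div_eq_of_lt ht, Nat.mod_eq_of_lt ht, zero_add, Nat.mod_eq_of_lt hj.1, hj.2,
          List.getD_eq_getElem _ _ (by simp)]
        simp
      · rw [hr]; exact Nat.mod_eq_zero_of_dvd (Dvd.dvd.mul_right hm j)
    · omega
  · have sub : (range (LL s)).filter (fun i => (∀ t : Fin k, gg ρ hρ s (i + t) = B t) ∧ i % m = r) ⊆
        (range (LL s)).filter (fun i => r = 0 ∧ i % D s = 0 ∧ ff ρ hρ s (i / D s) = List.ofFn B) ∪
        (range (LL s)).filter (fun i => k < (ff ρ hρ s (i / D s)).length) := by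
      intro i hi
      simp only [mem_filter, mem_range, mem_union] at hi ⊢
      have h1 : i / D s < qq s ^ s := Nat.div_lt_of_lt_mul hi.1
      have h2 := occ ρ hρ s k i hk B hB hi.2.1
      rw [Nat.mod_eq_of_lt h1] at h2
      rcases h2 with h2 | h2
      · exact Or.inr ⟨hi.1, h2⟩
      · refine Or.inl ⟨hi.1, ?_, h2⟩
        rw [← hi.2.2]
        exact Nat.mod_eq_zero_of_dvd (hm.trans (Nat.dvd_of_mod_eq_zero h2.1))
    refine (card_le_card sub).trans ((card_union_le _ _).trans (Nat.add_le_add ?_ ?_))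
    · split_ifs with hr
      · rw [← hc]
        refine card_le_card_of_injOn (fun i => i / D s) (fun i hi => ?_) (fun a ha b hb hab => ?_)
        · simp only [coe_filter, mem_range, Set.mem_ofPred_eq] at hi ⊢
          exact ⟨Nat.div_lt_of_lt_mul hi.1, hi.2.2.2⟩
        · simp only [coe_filter, mem_range, Set.mem_ofPred_eq] at ha hb hab
          have := Nat.mod_add_div a (D s); have := Nat.mod_add_div b (D s)
          rw [hab] at *; omega
      · simp [hr]
    · have h1 : ((range (LL s)).filter (fun i => k < (ff ρ hρ s (i / D s)).length)).card ≤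
          (range (D s) ×ˢ (range (qq s ^ s)).filter (fun j => k < (ff ρ hρ s j).length)).card := by
        refine card_le_card_of_injOn (fun i => (i % D s, i / D s)) (fun i hi => ?_)
          (fun a _ b _ hab => ?_)
        · simp only [coe_filter, mem_range, Set.mem_ofPred_eq, coe_product, coe_range,
            Set.mem_prod, Set.mem_Iio] at hi ⊢
          exact ⟨Nat.mod_lt _ (by omega), Nat.div_lt_of_lt_mul hi.1, hi.2⟩
        · simp only [Prod.mk.injEq] at hab
          have := Nat.mod_add_div a (D s); have := Nat.mod_add_div b (D s)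
          rw [hab.1, hab.2] at *; omega
      refine h1.trans ?_
      rw [card_product, card_range]
      refine Nat.mul_le_mul_left _ ?_
      have sub2 : (range (qq s ^ s)).filter (fun j => k < (ff ρ hρ s j).length) ⊆
          ((W s).filter (fun w => k < w.length)).biUnion
            (fun w => (range (qq s ^ s)).filter (fun j => ff ρ hρ s j = w)) := by
        intro j hj
        simp only [mem_filter, mem_range, mem_biUnion] at hj ⊢
        refine ⟨ff ρ hρ s j, ⟨(ff_mem ρ hρ s j).resolve_right fun h => ?_, hj.2⟩, hj.1, rfl⟩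
        simp [h] at hj
      refine (card_le_card sub2).trans (card_biUnion_le.trans ?_)
      refine (sum_le_card_nsmul _ _ (2 * D s * qq s ^ (s - (k + 1))) fun w hw => ?_).trans ?_
      · rw [ff_card ρ hρ s w (mem_filter.1 hw).1]
        exact mult_le ρ hρ s k w (mem_filter.1 hw).2
      · exact Nat.mul_le_mul_right _ (card_filter_le _ _)

open Classical in
theorem cnt_lim (k m r : ℕ) (hk : 0 < k) (hm : 0 < m) (B : Fin k → ℕ) :
    Tendsto (fun s => (∑ j ∈ range (LL s),
      (if (∀ t : Fin k, gg ρ hρ s (j + t) = B t) ∧ j % m = r then (1 : ℝ) else 0)) / LL s *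
        (qq s : ℝ) ^ k) atTop (𝓝 (if r = 0 then (ρ k : ℝ) else 0)) := by
  set c : ℝ := if r = 0 then (ρ k : ℝ) else 0 with hc
  have up : Tendsto (fun s : ℕ => c + 1 / ((s : ℝ) + 1)) atTop (𝓝 c) := by
    simpa using tendsto_one_div_add_atTop_nhds_zero_nat.const_add c
  have ev : ∀ᶠ s : ℕ in atTop, c ≤ (∑ j ∈ range (LL s),
      (if (∀ t : Fin k, gg ρ hρ s (j + t) = B t) ∧ j % m = r then (1 : ℝ) else 0)) / LL s *
        (qq s : ℝ) ^ k ∧ (∑ j ∈ range (LL s),
      (if (∀ t : Fin k, gg ρ hρ s (j + t) = B t) ∧ j % m = r then (1 : ℝ) else 0)) / LL s *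
        (qq s : ℝ) ^ k ≤ c + 1 / ((s : ℝ) + 1) := by
    filter_upwards [eventually_ge_atTop (k + 1), eventually_ge_atTop m,
      eventually_gt_atTop (univ.sup B)] with s h1 h2 h3
    obtain ⟨lo, hi⟩ := cnt_bounds ρ hρ s k m r hk (by omega) B
      (fun t => lt_of_le_of_lt (le_sup (f := B) (mem_univ t)) h3)
      (Nat.dvd_factorial hm (by omega))
    rw [sum_boole]
    set C := ((range (LL s)).filter
      (fun i => (∀ t : Fin k, gg ρ hρ s (i + t) = B t) ∧ i % m = r)).card
    obtain ⟨u, hu⟩ : ∃ u, s = k + 1 + u := ⟨s - (k + 1), by omega⟩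
    have e1 : s - k = u + 1 := by omega
    have e2 : s - (k + 1) = u := by omega
    rw [e1] at lo hi
    rw [e2] at hi
    have hq : (0 : ℝ) < qq s := by exact_mod_cast qq_one s
    have hD : (0 : ℝ) < D s := by have := D_ge s; exact_mod_cast (by omega : 0 < D s)
    have eL : (LL s : ℝ) = D s * (qq s : ℝ) ^ (u + 1) * (qq s : ℝ) ^ k := by
      unfold LL; push_cast; rw [mul_assoc, ← pow_add]; congr 2; omega
    have e3 : (C : ℝ) / LL s * (qq s : ℝ) ^ k = C / (D s * (qq s : ℝ) ^ (u + 1)) := by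
      rw [eL]; field_simp
    have e4 : (((if r = 0 then ρ k * D s * qq s ^ (u + 1) else 0 : ℕ) : ℝ)) =
        c * (D s * (qq s : ℝ) ^ (u + 1)) := by
      rw [hc]; split_ifs
      · push_cast; ring
      · simp
    have hp : (0 : ℝ) < D s * (qq s : ℝ) ^ (u + 1) := by positivity
    have lo' : c * (D s * (qq s : ℝ) ^ (u + 1)) ≤ C := by rw [← e4]; exact_mod_cast lo
    have hi' : (C : ℝ) ≤ c * (D s * (qq s : ℝ) ^ (u + 1)) +
        D s * ((W s).card * (2 * D s * (qq s : ℝ) ^ u)) := by rw [← e4]; exact_mod_cast hi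
    rw [e3, le_div_iff₀ hp, div_le_iff₀ hp]
    refine ⟨lo', hi'.trans ?_⟩
    have h4 : ((s : ℝ) + 1) * (2 * D s * (W s).card) ≤ qq s := by
      have : (s + 1) * (2 * D s * (W s).card) ≤ qq s := by unfold qq; omega
      exact_mod_cast this
    have h5 : (2 * D s * (W s).card : ℝ) ≤ 1 / ((s : ℝ) + 1) * qq s := by
      rw [one_div, ← div_eq_inv_mul, le_div_iff₀ (by positivity)]; linarith
    have h6 := mul_le_mul_of_nonneg_left h5 (by positivity : (0 : ℝ) ≤ D s * (qq s : ℝ) ^ u)
    rw [pow_succ]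
    nlinarith
  exact tendsto_of_tendsto_of_tendsto_of_le_of_le' tendsto_const_nhds up
    (ev.mono fun _ h => h.1) (ev.mono fun _ h => h.2)

/-- the digits -/
noncomputable def E (n : ℕ) : ℕ := gg ρ hρ (sg qq LL n) n

end

/-- the basic sequence -/
noncomputable def Q (n : ℕ) : ℕ := qq (sg qq LL n)

theorem E_lt (ρ : ℕ → ℕ) (hρ : ∀ k, ρ k ≤ 2) (n : ℕ) : E ρ hρ n + 2 ≤ Q n := by
  have := gg_le ρ hρ (sg qq LL n) n
  have := qq_ge (sg qq LL n)
  unfold E Q; omega

theorem Q_tendsto : Tendsto Q atTop atTop :=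
  tendsto_atTop_mono (fun _ => le_trans (Nat.le_add_right _ 2) (qq_ge _))
    (sg_tendsto qq LL qq_one)

theorem sg_between {i k : ℕ} (h : sg qq LL (i + k) = sg qq LL i) {t : ℕ} (ht : t ≤ k) :
    sg qq LL (i + t) = sg qq LL i :=
  le_antisymm (h ▸ sg_mono qq LL qq_one (by omega)) (sg_mono qq LL qq_one (by omega))

theorem sum_shift (a : ℕ → ℝ) (n : ℕ) :
    ∑ i ∈ range (n + 1), (if i = 0 then 0 else a i) = ∑ i ∈ Icc 1 n, a i := by
  induction n with
  | zero => simp
  | succ n ih => rw [sum_range_succ, ih, sum_Icc_succ_top (by omega)]; simp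

open Classical in
theorem cnt (ρ : ℕ → ℕ) (hρ : ∀ k, ρ k ≤ 2) (k m r : ℕ) (hk : 0 < k) (hm : 0 < m)
    (B : Fin k → ℕ) :
    Tendsto (fun n => (((Icc 1 n).filter
      (fun i => (∀ t : Fin k, E ρ hρ (i + t) = B t) ∧ i % m = r)).card : ℝ) / S qq LL k (n + 1))
      atTop (𝓝 (if r = 0 then (ρ k : ℝ) else 0)) := by
  have h := main qq LL qq_one LL_pos k
    (fun s j => if (∀ t : Fin k, gg ρ hρ s (j + t) = B t) ∧ j % m = r then (1 : ℝ) else 0)
    (fun i => if i = 0 then 0 else
      if (∀ t : Fin k, E ρ hρ (i + t) = B t) ∧ i % m = r then (1 : ℝ) else 0) _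
    (fun s i => by split_ifs <;> simp) (fun i => by split_ifs <;> simp) ?_ ?_
    (cnt_lim ρ hρ k m r hk hm B)
  · refine (h.comp (tendsto_add_atTop_nat 1)).congr fun n => ?_
    simp only [Function.comp]
    rw [sum_shift, sum_boole]
  · filter_upwards [eventually_ge_atTop m] with s hs i
    have hd : m ∣ LL s := Dvd.dvd.mul_right (Nat.dvd_factorial hm (by omega)) _
    have e1 : (i + LL s) % m = i % m := by obtain ⟨u, hu⟩ := hd; rw [hu]; simp
    have e2 : ∀ t : Fin k, gg ρ hρ s (i + LL s + t) = gg ρ hρ s (i + t) := fun t => by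
      rw [add_right_comm, gg_per]
    simp only [e1, e2]
  · intro i hi h
    have e : ∀ t : Fin k, E ρ hρ (i + t) = gg ρ hρ (sg qq LL i) (i + t) := fun t => by
      unfold E; rw [sg_between h t.2.le]
    simp only [hi, if_false, e]

theorem res_sum (m r u : ℕ) (hr : r < m) :
    ∑ j ∈ range (m * u), (if j % m = r then (1 : ℝ) else 0) = u := by
  induction u with
  | zero => simp
  | succ u ih =>
    rw [Nat.mul_succ, sum_range_add, ih, sum_congr rfl (g := fun j => if j = r then (1 : ℝ) else 0)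
      (fun j hj => by rw [Nat.mul_add_mod, Nat.mod_eq_of_lt (mem_range.1 hj)])]
    simp [hr]

theorem wt (k m r : ℕ) (hr : r < m) :
    Tendsto (fun n => (∑ i ∈ (Icc 1 n).filter (fun i => i % m = r),
      (∏ t ∈ range k, (Q (i + t) : ℝ))⁻¹) / S qq LL k (n + 1)) atTop (𝓝 (1 / m)) := by
  have hm : 0 < m := by omega
  have hq : ∀ s, (1 : ℝ) ≤ qq s := fun s => by exact_mod_cast qq_one s
  have h := main qq LL qq_one LL_pos k
    (fun s j => if j % m = r then ((qq s : ℝ) ^ k)⁻¹ else 0)
    (fun i => if i = 0 then 0 else if i % m = r then (∏ t ∈ range k, (Q (i + t) : ℝ))⁻¹ else 0)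
    (1 / m) (fun s i => ?_) (fun i => ?_) ?_ ?_ ?_
  · refine (h.comp (tendsto_add_atTop_nat 1)).congr fun n => ?_
    simp only [Function.comp]
    rw [sum_shift, sum_filter]
  · split_ifs
    · rw [abs_of_nonneg (by positivity)]; exact inv_le_one_of_one_le₀ (one_le_pow₀ (hq s))
    · simp
  · split_ifs
    · simp
    · rw [abs_of_nonneg (by positivity)]
      exact inv_le_one_of_one_le₀ (Finset.one_le_prod fun t _ => hq _)
    · simp
  · filter_upwards [eventually_ge_atTop m] with s hs i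
    have hd : m ∣ LL s := Dvd.dvd.mul_right (Nat.dvd_factorial hm (by omega)) _
    have e1 : (i + LL s) % m = i % m := by obtain ⟨u, hu⟩ := hd; rw [hu]; simp
    simp only [e1]
  · intro i hi h
    have e : ∏ t ∈ range k, (Q (i + t) : ℝ) = (qq (sg qq LL i) : ℝ) ^ k := by
      rw [prod_congr rfl (g := fun _ => (qq (sg qq LL i) : ℝ)) (fun t ht => by
        unfold Q; rw [sg_between h (mem_range.1 ht).le])]
      simp
    simp only [hi, if_false, e]
  · refine tendsto_const_nhds.congr' ?_
    filter_upwards [eventually_ge_atTop m] with s hs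
    obtain ⟨u, hu⟩ : m ∣ LL s := Dvd.dvd.mul_right (Nat.dvd_factorial hm (by omega)) _
    have e : ∑ j ∈ range (LL s), (if j % m = r then ((qq s : ℝ) ^ k)⁻¹ else 0) =
        ((qq s : ℝ) ^ k)⁻¹ * u := by
      rw [hu, ← res_sum m r u hr, mul_sum]
      exact sum_congr rfl fun j _ => by split_ifs <;> simp
    have hu0 : (u : ℝ) ≠ 0 := by
      have := LL_pos s
      rw [hu] at this
      exact_mod_cast (Nat.pos_of_mul_pos_left this).ne'
    have := hq s
    have hm0 : (m : ℝ) ≠ 0 := by exact_mod_cast hm.ne'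
    rw [e, hu]
    push_cast
    field_simp

theorem expansion (q e : ℕ → ℕ) (h : ∀ n, e n + 2 ≤ q n) :
    ∃ x : ℝ, ⌊x⌋ = 0 ∧ HasSum (fun n => (e (n + 1) : ℝ) / ∏ j ∈ Icc 1 (n + 1), (q j : ℝ)) x := by
  have hq : ∀ n, (2 : ℝ) ≤ q n := fun n => by have := h n; exact_mod_cast (by omega : 2 ≤ q n)
  have hP : ∀ n, (0 : ℝ) < ∏ j ∈ Icc 1 n, (q j : ℝ) := fun n =>
    prod_pos fun j _ => by linarith [hq j]
  have nn : ∀ n, (0 : ℝ) ≤ (e (n + 1) : ℝ) / ∏ j ∈ Icc 1 (n + 1), (q j : ℝ) := fun n =>
    div_nonneg (by positivity) (hP _).le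
  have bd : ∀ N, ∑ n ∈ range (N + 1), (e (n + 1) : ℝ) / ∏ j ∈ Icc 1 (n + 1), (q j : ℝ) ≤
      1 - 1 / q 1 - 1 / ∏ j ∈ Icc 1 (N + 1), (q j : ℝ) := by
    intro N
    induction N with
    | zero =>
      have h1 : (e 1 : ℝ) + 2 ≤ q 1 := by exact_mod_cast h 1
      have := hq 1
      simp only [zero_add, range_one, sum_singleton, Icc_self, prod_singleton]
      rw [div_le_iff₀ (by linarith)]
      field_simp
      linarith
    | succ N ih =>
      rw [sum_range_succ, prod_Icc_succ_top (by omega : 1 ≤ N + 1 + 1)]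
      have h1 : (e (N + 1 + 1) : ℝ) + 2 ≤ q (N + 1 + 1) := by exact_mod_cast h _
      have h2 := hq (N + 1 + 1)
      have h3 := hP (N + 1)
      set P := ∏ j ∈ Icc 1 (N + 1), (q j : ℝ)
      have : (e (N + 1 + 1) : ℝ) / (P * q (N + 1 + 1)) ≤ 1 / P - 1 / (P * q (N + 1 + 1)) := by
        rw [div_le_iff₀ (by positivity)]
        field_simp
        linarith
      linarith
  have bd' : ∀ N, ∑ n ∈ range N, (e (n + 1) : ℝ) / ∏ j ∈ Icc 1 (n + 1), (q j : ℝ) ≤
      1 - 1 / q 1 := by
    intro N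
    have h1 := bd N
    rw [sum_range_succ] at h1
    have h2 := nn N
    have h3 : 0 ≤ 1 / ∏ j ∈ Icc 1 (N + 1), (q j : ℝ) := by have := hP (N + 1); positivity
    linarith
  have hs := summable_of_sum_range_le nn bd'
  refine ⟨_, Int.floor_eq_zero_iff.2 ⟨tsum_nonneg nn, ?_⟩, hs.hasSum⟩
  have h1 := hs.tsum_le_of_sum_range_le bd'
  have h2 : 0 < 1 / (q 1 : ℝ) := by have := hq 1; positivity
  linarith

end Pool.Agent.H47.Cantor
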