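import Mathlib
import Pool.Agent.H47.Cantor2

namespace Pool.Agent.H47.Cantor
open Finset Filter Topology Asymptotics MeasureTheory
open scoped ENNReal NNReal

def PP (q : ℕ → ℕ) (n : ℕ) : ℕ := ∏ j ∈ Icc 1 n, q j

theorem PP_succ (q : ℕ → ℕ) (n : ℕ) : PP q (n + 1) = PP q n * q (n + 1) := by
  unfold PP; rw [prod_Icc_succ_top (by omega)]

theorem PP_cast (q : ℕ → ℕ) (n : ℕ) : (PP q n : ℝ) = ∏ j ∈ Icc 1 n, (q j : ℝ) := by
  unfold PP; push_cast; rfl

theorem PP_ge (q : ℕ → ℕ) (hq : ∀ n, 2 ≤ q n) (n : ℕ) : 2 ^ n ≤ PP q n := by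
  induction n with
  | zero => simp [PP]
  | succ n ih => rw [PP_succ, pow_succ]; exact Nat.mul_le_mul ih (hq _)

theorem PP_pos (q : ℕ → ℕ) (hq : ∀ n, 2 ≤ q n) (n : ℕ) : (0 : ℝ) < PP q n := by
  have := PP_ge q hq n
  exact_mod_cast lt_of_lt_of_le (by positivity) this

def J (q e : ℕ → ℕ) : ℕ → ℕ
  | 0 => 0
  | n + 1 => J q e n * q (n + 1) + e (n + 1)

theorem J_succ (q e : ℕ → ℕ) (n : ℕ) : J q e (n + 1) = J q e n * q (n + 1) + e (n + 1) := rfl

theorem J_lt (q e : ℕ → ℕ) (he : ∀ n, 1 ≤ n → e n < q n) (n : ℕ) : J q e n < PP q n := by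
  induction n with
  | zero => simp [PP, J]
  | succ n ih =>
    rw [J_succ, PP_succ]
    have h1 := he (n + 1) (by omega)
    have h2 : (J q e n + 1) * q (n + 1) ≤ PP q n * q (n + 1) := Nat.mul_le_mul_right _ ih
    rw [add_mul] at h2; omega

theorem J_sum (q e : ℕ → ℕ) (hq : ∀ n, 2 ≤ q n) (n : ℕ) :
    ∑ i ∈ range n, (e (i + 1) : ℝ) / ∏ j ∈ Icc 1 (i + 1), (q j : ℝ) = J q e n / PP q n := by
  induction n with
  | zero => simp [J]
  | succ n ih =>
    rw [sum_range_succ, ih, ← PP_cast, J_succ, PP_succ]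
    have h1 := PP_pos q hq n
    have h2 : (0 : ℝ) < q (n + 1) := by have := hq (n + 1); exact_mod_cast (by omega)
    push_cast
    field_simp

theorem J_bounds (q e : ℕ → ℕ) (hq : ∀ n, 2 ≤ q n) (he : ∀ n, 1 ≤ n → e n < q n) (y : ℝ)
    (hy : HasSum (fun n => (e (n + 1) : ℝ) / ∏ j ∈ Icc 1 (n + 1), (q j : ℝ)) y) (n : ℕ) :
    (J q e n : ℝ) / PP q n ≤ y ∧ y ≤ (J q e n + 1) / PP q n := by
  constructor
  · rw [← J_sum q e hq]
    exact sum_le_hasSum _ (fun i _ => by rw [← PP_cast]; have := PP_pos q hq (i + 1); positivity) hy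
  · have mono : ∀ m, n ≤ m → ((J q e m : ℝ) + 1) / PP q m ≤ (J q e n + 1) / PP q n := by
      intro m hm
      induction m, hm using Nat.le_induction with
      | base => exact le_rfl
      | succ m _ ih =>
        refine le_trans ?_ ih
        have h1 := PP_pos q hq m
        have h2 : (0 : ℝ) < q (m + 1) := by have := hq (m + 1); exact_mod_cast (by omega)
        have h3 : (e (m + 1) : ℝ) + 1 ≤ q (m + 1) := by exact_mod_cast he (m + 1) (by omega)
        rw [J_succ, PP_succ]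
        push_cast
        rw [div_le_div_iff₀ (by positivity) h1]
        nlinarith [mul_le_mul_of_nonneg_right h3 h1.le]
    refine le_of_tendsto hy.tendsto_sum_nat ?_
    filter_upwards [eventually_ge_atTop n] with m hm
    rw [J_sum q e hq]
    refine le_trans ?_ (mono m hm)
    have h1 := PP_pos q hq m
    gcongr; linarith

theorem dim_zero (q : ℕ → ℕ) (hq : ∀ n, 2 ≤ q n) (Hs : ℕ → Prop)
    (hH : ∀ n, Hs (n + 1) → PP q n ^ n ≤ q (n + 1)) (z : ℝ) (b : ℕ) :
    dimH {x : ℝ | ∃ e : ℕ → ℕ, (∀ n, 1 ≤ n → e n < q n) ∧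
      HasSum (fun n => (e (n + 1) : ℝ) / ∏ j ∈ Icc 1 (n + 1), (q j : ℝ)) (x - z) ∧
      ∀ N, ∃ n, N ≤ n ∧ Hs (n + 1) ∧ e (n + 1) ≤ b} = 0 := by
  classical
  refine le_antisymm (dimH_le fun d hd => ?_) bot_le
  by_contra hne
  have hd0 : (0 : ℝ) < d := by
    have : d ≠ 0 := fun h => hne (by simp [h])
    positivity
  set g : ℕ → ℝ := fun n => if Hs (n + 1) then PP q n * (((b : ℝ) + 1) / PP q (n + 1)) ^ (d : ℝ)
    else 0 with hg
  have g0 : ∀ n, 0 ≤ g n := fun n => by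
    simp only [hg]; have := PP_pos q hq (n + 1); split_ifs <;> positivity
  have gs : Summable g := by
    refine Summable.of_norm_bounded_eventually_nat
      ((summable_geometric_two).mul_left (((b : ℝ) + 1) ^ (d : ℝ))) ?_
    have : Tendsto (fun n : ℕ => (n : ℝ) * d) atTop atTop :=
      tendsto_natCast_atTop_atTop.atTop_mul_const hd0
    filter_upwards [this.eventually_ge_atTop 2] with n hn
    rw [Real.norm_of_nonneg (g0 n)]
    simp only [hg]
    split_ifs with h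
    · have h1 := PP_pos q hq n
      have h2 := PP_pos q hq (n + 1)
      have h3 : (2 : ℝ) ^ n ≤ PP q n := by exact_mod_cast PP_ge q hq n
      have h4 : (1 : ℝ) ≤ PP q n := le_trans (one_le_pow₀ (by norm_num)) h3
      have h5 : (PP q n : ℝ) ^ n ≤ PP q (n + 1) := by
        rw [PP_succ]; push_cast
        have : (PP q n : ℝ) ^ n ≤ q (n + 1) := by exact_mod_cast hH n h
        nlinarith [pow_pos h1 n]
      have h6 : (PP q n : ℝ) ^ 2 ≤ (PP q (n + 1) : ℝ) ^ (d : ℝ) := by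
        calc (PP q n : ℝ) ^ 2 = (PP q n : ℝ) ^ (2 : ℝ) := by norm_cast
          _ ≤ (PP q n : ℝ) ^ ((n : ℝ) * d) := Real.rpow_le_rpow_of_exponent_le h4 hn
          _ = ((PP q n : ℝ) ^ n) ^ (d : ℝ) := by rw [Real.rpow_mul h1.le, Real.rpow_natCast]
          _ ≤ _ := Real.rpow_le_rpow (by positivity) h5 hd0.le
      rw [Real.div_rpow (by positivity) h2.le, one_div, inv_pow, ← mul_div_assoc,
        ← div_eq_mul_inv, div_le_div_iff₀ (by positivity) (by positivity)]
      have h7 : (0 : ℝ) ≤ ((b : ℝ) + 1) ^ (d : ℝ) := by positivity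
      have h8 : (PP q n : ℝ) * 2 ^ n ≤ (PP q (n + 1) : ℝ) ^ (d : ℝ) := by nlinarith
      nlinarith [mul_le_mul_of_nonneg_left h8 h7]
    · positivity
  have lim := ENNReal.tendsto_sum_nat_add (fun n => ENNReal.ofReal (g n)) gs.tsum_ofReal_ne_top
  set t : ℕ → ℕ × ℕ → Set ℝ := fun N p => if Hs (p.1 + N + 1) ∧ p.2 < PP q (p.1 + N) then
    Set.Icc (z + p.2 / PP q (p.1 + N)) (z + p.2 / PP q (p.1 + N) + (b + 1) / PP q (p.1 + N + 1))
    else ∅ with ht
  have dm : ∀ N p, Metric.ediam (t N p) = if Hs (p.1 + N + 1) ∧ p.2 < PP q (p.1 + N) then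
      ENNReal.ofReal ((b + 1) / PP q (p.1 + N + 1)) else 0 := fun N p => by
    simp only [ht]; split_ifs
    · rw [Real.ediam_Icc]; congr 1; ring
    · simp
  have key := Measure.hausdorffMeasure_le_liminf_tsum (ι := fun _ => ℕ × ℕ) (d : ℝ)
    {x : ℝ | ∃ e : ℕ → ℕ, (∀ n, 1 ≤ n → e n < q n) ∧
      HasSum (fun n => (e (n + 1) : ℝ) / ∏ j ∈ Icc 1 (n + 1), (q j : ℝ)) (x - z) ∧
      ∀ N, ∃ n, N ≤ n ∧ Hs (n + 1) ∧ e (n + 1) ≤ b} (l := atTop)
    (fun N : ℕ => ENNReal.ofReal (((b : ℝ) + 1) * (1 / 2) ^ N)) ?_ t ?_ ?_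
  · rw [hd] at key
    have h0 : Tendsto (fun N => ∑' i, Metric.ediam (t N i) ^ (d : ℝ)) atTop (𝓝 0) := by
      refine tendsto_of_tendsto_of_tendsto_of_le_of_le tendsto_const_nhds lim
        (fun _ => bot_le) fun N => ?_
      show ∑' i : ℕ × ℕ, _ ≤ _
      rw [ENNReal.tsum_prod']
      refine ENNReal.tsum_le_tsum fun k => ?_
      rw [tsum_eq_sum (s := range (PP q (k + N))) (fun j hj => by
        rw [dm, if_neg (fun h => hj (mem_range.2 h.2)), ENNReal.zero_rpow_of_pos hd0])]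
      simp only [hg]
      have h2 := PP_pos q hq (k + N + 1)
      split_ifs with h
      · rw [sum_congr rfl (g := fun _ => ENNReal.ofReal ((b + 1) / PP q (k + N + 1)) ^ (d : ℝ))
          (fun j hj => by rw [dm, if_pos ⟨h, mem_range.1 hj⟩])]
        rw [sum_const, card_range, nsmul_eq_mul, ENNReal.ofReal_mul (by positivity),
          ENNReal.ofReal_natCast, ENNReal.ofReal_rpow_of_nonneg (by positivity) hd0.le]
      · rw [sum_eq_zero (fun j _ => by
          rw [dm, if_neg (fun h' => h h'.1), ENNReal.zero_rpow_of_pos hd0])]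
        exact bot_le
    rw [h0.liminf_eq] at key
    simp at key
  · have := (tendsto_pow_atTop_nhds_zero_of_lt_one (r := (1 / 2 : ℝ)) (by norm_num)
      (by norm_num)).const_mul ((b : ℝ) + 1)
    simpa using ENNReal.tendsto_ofReal this
  · refine Eventually.of_forall fun N p => ?_
    rw [dm]
    split_ifs
    · refine ENNReal.ofReal_le_ofReal ?_
      have h3 : (2 : ℝ) ^ (p.1 + N + 1) ≤ PP q (p.1 + N + 1) := by exact_mod_cast PP_ge q hq _
      have h4 : (2 : ℝ) ^ N ≤ 2 ^ (p.1 + N + 1) := pow_le_pow_right₀ (by norm_num) (by omega)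
      rw [one_div, inv_pow, ← div_eq_mul_inv]
      gcongr
      linarith
    · exact bot_le
  · refine Eventually.of_forall fun N x hx => ?_
    obtain ⟨e, he, hs, hN⟩ := hx
    obtain ⟨n, h1, h2, h3⟩ := hN N
    obtain ⟨k, rfl⟩ : ∃ k, n = k + N := ⟨n - N, by omega⟩
    refine Set.mem_iUnion.2 ⟨(k, J q e (k + N)), ?_⟩
    simp only [ht]
    rw [if_pos ⟨h2, J_lt q e he _⟩]
    have a1 := (J_bounds q e hq he _ hs (k + N)).1
    have a2 := (J_bounds q e hq he _ hs (k + N + 1)).2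
    refine ⟨by linarith, ?_⟩
    have p1 := PP_pos q hq (k + N)
    have p2 : (0 : ℝ) < q (k + N + 1) := by have := hq (k + N + 1); exact_mod_cast (by omega)
    have a3 : ((J q e (k + N + 1) : ℝ) + 1) / PP q (k + N + 1) ≤
        J q e (k + N) / PP q (k + N) + (b + 1) / PP q (k + N + 1) := by
      rw [J_succ, PP_succ]; push_cast
      have : (e (k + N + 1) : ℝ) ≤ b := by exact_mod_cast h3
      rw [div_le_iff₀ (by positivity)]
      field_simp
      linarith
    linarith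

end Pool.Agent.H47.Cantor
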