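import Mathlib
import Pool.Agent.H47.Cantor3

namespace Pool.Agent.H47.Cantor
open Finset Filter Topology Asymptotics

def q0 (s : ℕ) : ℕ := s + 2
def L0 (s : ℕ) : ℕ := 4 * ((s + 1) * ((s + 2) ^ s + 2))
theorem q0_one (s : ℕ) : 1 ≤ q0 s := by unfold q0; omega
theorem L0_pos (s : ℕ) : 0 < L0 s := by unfold L0; positivity

def Bp (n : ℕ) : Prop := n < T q0 L0 (sg q0 L0 n) + L0 (sg q0 L0 n)
def Hu (n : ℕ) : Prop := (n % 4 = 3 ∨ n % 4 = 0) ∧ ¬ Bp n

open Classical in
noncomputable def P1 : ℕ → ℕ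
  | 0 => 1
  | n + 1 => P1 n * ((if Hu (n + 1) then P1 n ^ n else 0) + q0 (sg q0 L0 (n + 1)))

open Classical in
noncomputable def q1 (n : ℕ) : ℕ := (if Hu n then P1 (n - 1) ^ (n - 1) else 0) + q0 (sg q0 L0 n)

theorem P1_eq (n : ℕ) : PP q1 n = P1 n := by
  induction n with
  | zero => simp [PP, P1]
  | succ n ih => rw [PP_succ, ih, P1, q1]; simp

theorem q1_ge (n : ℕ) : sg q0 L0 n + 2 ≤ q1 n := by unfold q1 q0; omega

theorem q1_two (n : ℕ) : 2 ≤ q1 n := by have := q1_ge n; omega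

theorem q1_of {n : ℕ} (h : ¬ Hu n) : q1 n = q0 (sg q0 L0 n) := by unfold q1; simp [h]

theorem q1_hu (n : ℕ) (h : Hu (n + 1)) : PP q1 n ^ n ≤ q1 (n + 1) := by
  rw [P1_eq]; unfold q1; simp [h]

theorem q1_tendsto : Tendsto q1 atTop atTop :=
  tendsto_atTop_mono (fun n => le_trans (Nat.le_add_right _ 2) (q1_ge n))
    (sg_tendsto q0 L0 q0_one)

theorem TL (s : ℕ) : T q0 L0 s + L0 s ≤ T q0 L0 (s + 1) := by
  rw [T_succ, H_succ]
  have h1 := H_ge L0 s
  have h2 : 1 ≤ (s + 1) * q0 s ^ s := Nat.mul_pos (by omega) (pow_pos (q0_one s) s)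
  have := Nat.mul_le_mul_right (H L0 s + (2 * L0 (s + 1) + 2 * (s + 1) + 2)) h2
  omega

theorem div1 (k m r : ℕ) (hr : r < m) :
    Tendsto (fun n => ∑ j ∈ (Icc 1 n).filter (fun j => j % m = r),
      (∏ t ∈ range k, (q1 (j + t) : ℝ))⁻¹) atTop atTop := by
  set a : ℕ → ℝ := fun i => if i = 0 then 0 else
    if i % m = r then (∏ t ∈ range k, (q1 (i + t) : ℝ))⁻¹ else 0 with ha
  have a0 : ∀ i, 0 ≤ a i := fun i => by simp only [ha]; split_ifs <;> positivity
  have step : ∀ s, k + m ≤ s → ∑ i ∈ range (T q0 L0 s), a i + 1 ≤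
      ∑ i ∈ range (T q0 L0 (s + 1)), a i := by
    intro s hs
    have h1 := TL s
    have h2 : (s + 2) ^ k ≤ (s + 2) ^ s := Nat.pow_le_pow_right (by omega) (by omega)
    have h3 : m * (s + 2) ^ k + k ≤ L0 s := by
      unfold L0
      have : m * (s + 2) ^ k ≤ (s + 1) * (s + 2) ^ s := Nat.mul_le_mul (by omega) h2
      rw [mul_add]; omega
    have h4 : s ≤ T q0 L0 s := (T_mono q0 L0 q0_one).le_apply
    have e : ∑ i ∈ range (m * (s + 2) ^ k), a (T q0 L0 s + i) = 1 := by
      rw [sum_congr rfl (g := fun i => (if (T q0 L0 s + i) % m = r then (1 : ℝ) else 0) *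
        (((s : ℝ) + 2) ^ k)⁻¹) (fun i hi => ?_), ← sum_mul,
        per_sum (fun i => if i % m = r then (1 : ℝ) else 0) (m * (s + 2) ^ k)
          (fun i => by simp), res_sum m r _ hr]
      · push_cast; field_simp
      · have hi' := mem_range.1 hi
        have e2 : ∏ t ∈ range k, (q1 (T q0 L0 s + i + t) : ℝ) = ((s : ℝ) + 2) ^ k := by
          rw [prod_congr rfl (g := fun _ => (s : ℝ) + 2) (fun t ht => ?_)]
          · simp
          · have ht' := mem_range.1 ht
            have e3 : sg q0 L0 (T q0 L0 s + i + t) = s := sg_eq q0 L0 q0_one (by omega) (by omega)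
            rw [q1_of (fun h => h.2 (by unfold Bp; rw [e3]; omega)), e3]
            unfold q0; push_cast; rfl
        simp only [ha]
        rw [if_neg (by omega), e2]
        split_ifs <;> simp
    rw [← e, ← sum_range_add]
    exact sum_le_sum_of_subset_of_nonneg (range_subset_range.2 (by omega)) fun i _ _ => a0 i
  have grow : ∀ u : ℕ, (u : ℝ) ≤ ∑ i ∈ range (T q0 L0 (k + m + u)), a i := by
    intro u
    induction u with
    | zero => simpa using sum_nonneg fun i _ => a0 i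
    | succ u ih =>
      have := step (k + m + u) (by omega)
      push_cast
      rw [← add_assoc]; linarith
  refine tendsto_atTop_atTop.2 fun c => ⟨T q0 L0 (k + m + ⌈c⌉₊), fun n hn => ?_⟩
  rw [sum_filter, ← sum_shift]
  exact (Nat.le_ceil c).trans ((grow _).trans (sum_le_sum_of_subset_of_nonneg
    (range_subset_range.2 (by omega)) fun i _ _ => a0 i))

open Classical in
theorem Bp_card (n : ℕ) : ((range (n + 1)).filter Bp).card ≤ H L0 (sg q0 L0 n) := by
  have sub : (range (n + 1)).filter Bp ⊆ (range (sg q0 L0 n + 1)).biUnion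
      (fun t => Ico (T q0 L0 t) (T q0 L0 t + L0 t)) := by
    intro j hj
    simp only [mem_filter, mem_range, mem_biUnion, mem_Ico] at hj ⊢
    have := sg_mono q0 L0 q0_one (show j ≤ n by omega)
    exact ⟨sg q0 L0 j, by omega, (sg_spec q0 L0 q0_one j).1, hj.2⟩
  refine (card_le_card sub).trans (card_biUnion_le.trans ?_)
  unfold H
  exact sum_le_sum fun t _ => by rw [Nat.card_Ico]; omega

theorem H_small (c : ℝ) :
    Tendsto (fun n => (2 * (H L0 (sg q0 L0 n) : ℝ) + c) / S q0 L0 2 n) atTop (𝓝 0) := by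
  have hS := S_tendsto q0 L0 q0_one 2
  have h1 : Tendsto (fun n => (H L0 (sg q0 L0 n) : ℝ) / S q0 L0 2 n) atTop (𝓝 0) := by
    have hg : Tendsto (fun n => (sg q0 L0 n : ℝ)) atTop atTop :=
      tendsto_natCast_atTop_atTop.comp (sg_tendsto q0 L0 q0_one)
    refine tendsto_of_tendsto_of_tendsto_of_le_of_le' tendsto_const_nhds hg.inv_tendsto_atTop ?_ ?_
    · filter_upwards [hS.eventually_gt_atTop 0] with n hn
      positivity
    · filter_upwards [hS.eventually_gt_atTop 0, hg.eventually_gt_atTop 0,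
        S_ge' q0 L0 q0_one 2] with n hn h2 h3
      rw [Pi.inv_apply, div_le_iff₀ hn, ← div_eq_inv_mul, le_div_iff₀ h2]
      linarith
  have h2 := (h1.const_mul 2).add (hS.const_div_atTop c)
  simp only [mul_zero, add_zero] at h2
  exact h2.congr fun n => by ring

theorem main1 : Tendsto (fun n => (∑ i ∈ (Icc 1 n).filter (fun i => i % 4 = 1),
      (∏ t ∈ range 2, (q1 (i + t) : ℝ))⁻¹) / S q0 L0 2 (n + 1)) atTop (𝓝 (1 / 4)) := by
  have hq : ∀ s, (1 : ℝ) ≤ q0 s := fun s => by exact_mod_cast q0_one s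
  have h := main q0 L0 q0_one L0_pos 2
    (fun s j => if j % 4 = 1 then ((q0 s : ℝ) ^ 2)⁻¹ else 0)
    (fun i => if i = 0 then 0 else if i % 4 = 1 then (∏ t ∈ range 2, (q1 (i + t) : ℝ))⁻¹ else 0)
    (1 / 4) (fun s i => ?_) (fun i => ?_) ?_ ?_ ?_
  · refine (h.comp (tendsto_add_atTop_nat 1)).congr fun n => ?_
    simp only [Function.comp]
    rw [sum_shift, sum_filter]
  · split_ifs
    · rw [abs_of_nonneg (by positivity)]; exact inv_le_one_of_one_le₀ (one_le_pow₀ (hq s))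
    · simp
  · split_ifs
    · simp
    · rw [abs_of_nonneg (by positivity)]
      exact inv_le_one_of_one_le₀ (Finset.one_le_prod fun t _ => by
        have := q1_two (i + t); exact_mod_cast (by omega))
    · simp
  · refine Eventually.of_forall fun s i => ?_
    have e1 : (i + L0 s) % 4 = i % 4 := by unfold L0; omega
    simp only [e1]
  · intro i hi h
    simp only [hi, if_false]
    split_ifs with h4
    · have e1 : sg q0 L0 (i + 1) = sg q0 L0 i :=
        le_antisymm (h ▸ sg_mono q0 L0 q0_one (by omega)) (sg_mono q0 L0 q0_one (by omega))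
      rw [prod_range_succ, prod_range_one, add_zero, q1_of (fun h => by have := h.1; omega),
        q1_of (fun h => by have := h.1; omega), e1, sq]
    · rfl
  · refine tendsto_const_nhds.congr fun s => ?_
    set u := (s + 1) * ((s + 2) ^ s + 2) with hu
    have e : ∑ j ∈ range (L0 s), (if j % 4 = 1 then ((q0 s : ℝ) ^ 2)⁻¹ else 0) =
        ((q0 s : ℝ) ^ 2)⁻¹ * u := by
      rw [← res_sum 4 1 u (by norm_num), mul_sum]
      exact sum_congr rfl fun j _ => by split_ifs <;> simp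
    have hu0 : (u : ℝ) ≠ 0 := by rw [hu]; positivity
    have := hq s
    rw [e, show L0 s = 4 * u from rfl]
    push_cast
    field_simp

open Classical in
theorem Bp2 (n : ℕ) : ∑ i ∈ Icc 1 n, ((if Bp i then (1 : ℝ) else 0) + if Bp (i + 1) then 1 else 0)
    ≤ 2 * H L0 (sg q0 L0 (n + 1)) := by
  have h0 : (((range (n + 1 + 1)).filter Bp).card : ℝ) ≤ H L0 (sg q0 L0 (n + 1)) := by
    exact_mod_cast Bp_card (n + 1)
  rw [sum_add_distrib, sum_boole, sum_boole]
  have h1 : ((Icc 1 n).filter Bp).card ≤ ((range (n + 1 + 1)).filter Bp).card :=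
    card_le_card (filter_subset_filter _ fun i hi => by
      simp only [mem_Icc, mem_range] at hi ⊢; omega)
  have h2 : ((Icc 1 n).filter (fun i => Bp (i + 1))).card ≤
      ((range (n + 1 + 1)).filter Bp).card :=
    card_le_card_of_injOn (fun i => i + 1) (fun i hi => by
      simp only [coe_filter, mem_Icc, mem_range, Set.mem_ofPred_eq] at hi ⊢
      exact ⟨by omega, hi.2⟩) (fun a _ b _ h => by simpa using h)
  have h1' : (((Icc 1 n).filter Bp).card : ℝ) ≤ ((range (n + 1 + 1)).filter Bp).card := by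
    exact_mod_cast h1
  have h2' : (((Icc 1 n).filter (fun i => Bp (i + 1))).card : ℝ) ≤
      ((range (n + 1 + 1)).filter Bp).card := by exact_mod_cast h2
  linarith

theorem hu_even (i : ℕ) (hi : i % 2 = 0) : Bp i ∨ Bp (i + 1) ∨ Hu i ∨ Hu (i + 1) := by
  unfold Hu
  by_cases h1 : Bp i
  · exact Or.inl h1
  by_cases h2 : Bp (i + 1)
  · exact Or.inr (Or.inl h2)
  by_cases h3 : i % 4 = 0
  · exact Or.inr (Or.inr (Or.inl ⟨Or.inr h3, h1⟩))
  · exact Or.inr (Or.inr (Or.inr ⟨Or.inl (by omega), h2⟩))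

theorem hu_big (n : ℕ) (h : Hu (n + 1)) : (2 : ℝ) ^ n ≤ q1 (n + 1) := by
  have h1 := q1_hu n h
  have h2 := PP_ge q1 q1_two n
  rcases Nat.eq_zero_or_pos n with rfl | hn
  · have := q1_two (0 + 1)
    rw [pow_zero]
    exact_mod_cast (by omega : 1 ≤ q1 (0 + 1))
  · have : PP q1 n ≤ PP q1 n ^ n := Nat.le_self_pow (by omega) _
    exact_mod_cast (by omega : 2 ^ n ≤ q1 (n + 1))

theorem even_wt (n : ℕ) : ∑ i ∈ (Icc 1 n).filter (fun i => i % 2 = 0),
      (∏ t ∈ range 2, (q1 (i + t) : ℝ))⁻¹ ≤ 2 * H L0 (sg q0 L0 (n + 1)) + 4 := by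
  classical
  have g : ∑ i ∈ Icc 1 n, 2 * (1 / 2 : ℝ) ^ i ≤ 4 := by
    have := (hasSum_geometric_two.mul_left 2)
    refine (sum_le_hasSum _ (fun i _ => by positivity) this).trans (by norm_num)
  refine le_trans ?_ (add_le_add (Bp2 n) g)
  rw [← sum_add_distrib, sum_filter]
  refine sum_le_sum fun i hi => ?_
  have p0 : (0 : ℝ) < 2 * (1 / 2 : ℝ) ^ i := by positivity
  have a1 : (1 : ℝ) ≤ q1 i := by have := q1_two i; exact_mod_cast (by omega)
  have a2 : (1 : ℝ) ≤ q1 (i + 1) := by have := q1_two (i + 1); exact_mod_cast (by omega)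
  have w1 : ((q1 i : ℝ) * q1 (i + 1))⁻¹ ≤ 1 := inv_le_one_of_one_le₀ (by nlinarith)
  by_cases he : i % 2 = 0
  · rw [if_pos he, prod_range_succ, prod_range_one, add_zero]
    have big : (2 : ℝ) ^ i ≤ 2 * ((q1 i : ℝ) * q1 (i + 1)) →
        ((q1 i : ℝ) * q1 (i + 1))⁻¹ ≤ 2 * (1 / 2 : ℝ) ^ i := fun h => by
      rw [one_div, inv_pow, ← div_eq_mul_inv, inv_eq_one_div, div_le_div_iff₀ (by positivity)
        (by positivity)]
      linarith
    rcases hu_even i he with h | h | h | h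
    · rw [if_pos h]; split_ifs <;> linarith
    · rw [if_pos h]; split_ifs <;> linarith
    · obtain ⟨j, rfl⟩ : ∃ j, i = j + 1 := ⟨i - 1, by have := (mem_Icc.1 hi).1; omega⟩
      have h2 := hu_big j h
      have := big (by rw [pow_succ]; nlinarith)
      split_ifs <;> linarith
    · have h2 := hu_big i h
      have := big (by nlinarith)
      split_ifs <;> linarith
  · rw [if_neg he]; split_ifs <;> linarith

open Classical in
theorem even_cnt (e : ℕ → ℕ) (B : Fin 2 → ℕ) (N : ℕ)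
    (h : ∀ n, N ≤ n → Hu (n + 1) → B 0 + B 1 < e (n + 1)) (n : ℕ) :
    (((Icc 1 n).filter (fun i => (∀ t : Fin 2, e (i + t) = B t) ∧ i % 2 = 0)).card : ℝ) ≤
      2 * H L0 (sg q0 L0 (n + 1)) + (N + 1) := by
  have g : ∑ i ∈ Icc 1 n, (if i ∈ range (N + 1) then (1 : ℝ) else 0) ≤ N + 1 := by
    rw [sum_boole]
    have : ((Icc 1 n).filter (fun i => i ∈ range (N + 1))).card ≤ (range (N + 1)).card :=
      card_le_card fun i hi => (mem_filter.1 hi).2
    rw [card_range] at this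
    exact_mod_cast this
  refine le_trans ?_ (add_le_add (Bp2 n) g)
  rw [← sum_add_distrib, ← sum_boole]
  refine sum_le_sum fun i hi => ?_
  by_cases h1 : (∀ t : Fin 2, e (i + t) = B t) ∧ i % 2 = 0
  · rw [if_pos h1]
    by_cases h2 : i ∈ range (N + 1)
    · rw [if_pos h2]; split_ifs <;> linarith
    · have h3 : N + 1 ≤ i := by simpa using h2
      have b0 : e i = B 0 := h1.1 0
      have b1 : e (i + 1) = B 1 := h1.1 1
      rcases hu_even i h1.2 with h4 | h4 | h4 | h4
      · rw [if_pos h4]; split_ifs <;> linarith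
      · rw [if_pos h4]; split_ifs <;> linarith
      · obtain ⟨j, rfl⟩ : ∃ j, i = j + 1 := ⟨i - 1, by omega⟩
        have := h j (by omega) h4; omega
      · have := h i (by omega) h4; omega
  · rw [if_neg h1]; split_ifs <;> linarith

theorem ratio (N1 N0 Q1 Q0 A C : ℕ → ℝ) (h : Tendsto (fun n => (N1 n + N0 n) / (Q1 n + Q0 n))
    atTop (𝓝 1)) (hC : Tendsto (fun n => C n / A n) atTop (𝓝 0))
    (ev : ∀ᶠ n in atTop, 0 < A n ∧ A n ≤ Q1 n ∧ 0 ≤ N0 n ∧ N0 n ≤ C n ∧ 0 ≤ Q0 n ∧ Q0 n ≤ C n) :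
    Tendsto (fun n => N1 n / Q1 n) atTop (𝓝 1) := by
  have sq : ∀ X : ℕ → ℝ, (∀ᶠ n in atTop, 0 ≤ X n ∧ X n ≤ C n) →
      Tendsto (fun n => X n / Q1 n) atTop (𝓝 0) := fun X hX => by
    refine tendsto_of_tendsto_of_tendsto_of_le_of_le' tendsto_const_nhds hC ?_ ?_
    · filter_upwards [ev, hX] with n h1 h2
      exact div_nonneg h2.1 (by linarith [h1.1, h1.2.1])
    · filter_upwards [ev, hX] with n h1 h2
      exact div_le_div₀ (by linarith [h2.1, h2.2]) h2.2 h1.1 h1.2.1
  have h1 := sq N0 (ev.mono fun n hn => ⟨hn.2.2.1, hn.2.2.2.1⟩)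
  have h2 := sq Q0 (ev.mono fun n hn => ⟨hn.2.2.2.2.1, hn.2.2.2.2.2⟩)
  have h3 := (h.mul (h2.const_add 1)).sub h1
  simp only [add_zero, mul_one, sub_zero] at h3
  refine h3.congr' ?_
  filter_upwards [ev] with n hn
  have p1 : 0 < Q1 n := by linarith [hn.1, hn.2.1]
  have p2 : 0 < Q1 n + Q0 n := by linarith [hn.2.2.2.2.1]
  field_simp
  ring

end Pool.Agent.H47.Cantor
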