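import Mathlib

namespace Pool.Agent.H47.Cantor
open Finset Filter Topology Asymptotics MeasureTheory ProbabilityTheory
open scoped ENNReal NNReal

theorem det (S s : ℕ → ℝ) (M : ℝ) (hS : Monotone S) (hs : Monotone s)
    (s0 : ∀ n, 0 ≤ s n) (hinf : Tendsto s atTop atTop) (nn : ℕ → ℕ)
    (h1 : ∀ m : ℕ, (m : ℝ) ^ 4 ≤ s (nn m)) (h2 : ∀ m : ℕ, s (nn m) ≤ (m : ℝ) ^ 4 + M)
    (h3 : ∀ (m n : ℕ), (m : ℝ) ^ 4 ≤ s n → nn m ≤ n)
    (h : ∀ᶠ m : ℕ in atTop, |S (nn m) - s (nn m)| < (m : ℝ) ^ 3) :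
    Tendsto (fun n => S n / s n) atTop (𝓝 1) := by
  have ex : ∀ n, ∃ m : ℕ, s n < ((m : ℝ) + 1) ^ 4 := fun n => by
    obtain ⟨m, hm⟩ := exists_nat_gt (s n)
    refine ⟨m, hm.trans_le ?_⟩
    have : (0 : ℝ) ≤ m := by positivity
    nlinarith [pow_nonneg this 2, pow_nonneg this 3, pow_nonneg this 4]
  set mm : ℕ → ℕ := fun n => Nat.find (ex n) with hmm
  have a1 : ∀ n, s n < ((mm n : ℝ) + 1) ^ 4 := fun n => Nat.find_spec (ex n)
  have a2 : ∀ n, (mm n : ℝ) ^ 4 ≤ s n := fun n => by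
    rcases Nat.eq_zero_or_pos (mm n) with h0 | h0
    · rw [h0]; simpa using s0 n
    · have := Nat.find_min (ex n) (m := mm n - 1) (by simp only [hmm] at h0 ⊢; omega)
      rw [not_lt, Nat.cast_sub h0] at this
      simpa using this
  have a3 : Tendsto mm atTop atTop := by
    refine tendsto_atTop.2 fun b => ?_
    filter_upwards [hinf.eventually_ge_atTop (((b : ℝ) + 1) ^ 4)] with n hn
    have := lt_of_pow_lt_pow_left₀ 4 (by positivity) (hn.trans_lt (a1 n))
    have : (b : ℝ) < mm n := by linarith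
    exact_mod_cast this.le
  have u : Tendsto (fun m : ℕ => (m : ℝ) / (m + 1)) atTop (𝓝 1) := tendsto_natCast_div_add_atTop 1
  have v : Tendsto (fun m : ℕ => 1 / ((m : ℝ) + 1)) atTop (𝓝 0) :=
    tendsto_one_div_add_atTop_nhds_zero_nat
  have lo := ((u.pow 4).sub ((u.pow 3).mul v)).comp a3
  have up := ((((v.pow 4).const_mul M).add v |>.const_add 1).div (u.pow 4) (by norm_num)).comp a3
  norm_num at lo up
  refine tendsto_of_tendsto_of_tendsto_of_le_of_le' lo up ?_ ?_
  · filter_upwards [a3.eventually h, a3.eventually_ge_atTop 1] with n hn h4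
    have b1 := hS (h3 _ n (a2 n))
    have b2 := h1 (mm n)
    have b3 := (abs_lt.1 hn).1
    have b4 : (1 : ℝ) ≤ mm n := by exact_mod_cast h4
    have b5 : (mm n : ℝ) ^ 3 ≤ (mm n : ℝ) ^ 4 := pow_le_pow_right₀ b4 (by norm_num)
    have b6 : 0 < s n := lt_of_lt_of_le (by positivity) (a2 n)
    calc _ = ((mm n : ℝ) ^ 4 - (mm n : ℝ) ^ 3) / ((mm n : ℝ) + 1) ^ 4 := by
          simp only [Function.comp]; field_simp
      _ ≤ S n / s n := div_le_div₀ (by linarith) (by linarith) b6 (a1 n).le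
  · have h' := (tendsto_add_atTop_nat 1).eventually h
    filter_upwards [a3.eventually h', a3.eventually_ge_atTop 1] with n hn h4
    have b0 : n ≤ nn (mm n + 1) := by
      by_contra hc
      have := hs (not_le.1 hc).le
      have := h1 (mm n + 1)
      have := a1 n
      push_cast at *
      linarith
    have b1 := hS b0
    have b2 := h2 (mm n + 1)
    have b2' := h1 (mm n + 1)
    have b3 := (abs_lt.1 hn).2
    have b4 : (1 : ℝ) ≤ mm n := by exact_mod_cast h4
    push_cast at b2 b3 b2'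
    have b7 : 0 ≤ ((mm n : ℝ) + 1) ^ 4 + M + ((mm n : ℝ) + 1) ^ 3 := by
      have : 0 ≤ M := by linarith
      positivity
    calc S n / s n ≤ (((mm n : ℝ) + 1) ^ 4 + M + ((mm n : ℝ) + 1) ^ 3) / (mm n : ℝ) ^ 4 :=
          div_le_div₀ b7 (by linarith) (by positivity) (a2 n)
      _ = _ := by simp only [Function.comp, Pi.div_apply]; field_simp; ring

theorem slln0 {Ω : Type} [MeasurableSpace Ω] (μ : Measure Ω) [IsProbabilityMeasure μ]
    (X : ℕ → Ω → ℝ) (M V : ℝ) (hV : 0 ≤ V) (hL : ∀ i, MemLp (X i) 2 μ) (h0 : ∀ i ω, 0 ≤ X i ω)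
    (hM : ∀ i, μ[X i] ≤ M)
    (hv : ∀ n, Var[∑ i ∈ range n, X i; μ] ≤ V * ∑ i ∈ range n, μ[X i])
    (hinf : Tendsto (fun n => ∑ i ∈ range n, μ[X i]) atTop atTop) :
    ∀ᵐ ω ∂μ, Tendsto (fun n => (∑ i ∈ range n, X i ω) / ∑ i ∈ range n, μ[X i]) atTop (𝓝 1) := by
  set s : ℕ → ℝ := fun n => ∑ i ∈ range n, μ[X i] with hsd
  have e0 : ∀ i, 0 ≤ μ[X i] := fun i => integral_nonneg (h0 i)
  have M0 : 0 ≤ M := (e0 0).trans (hM 0)
  have ex : ∀ m : ℕ, ∃ n, (m : ℝ) ^ 4 ≤ s n := fun m => (hinf.eventually_ge_atTop _).exists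
  set nn : ℕ → ℕ := fun m => Nat.find (ex m) with hnn
  have h1 : ∀ m : ℕ, (m : ℝ) ^ 4 ≤ s (nn m) := fun m => Nat.find_spec (ex m)
  have h2 : ∀ m : ℕ, s (nn m) ≤ (m : ℝ) ^ 4 + M := fun m => by
    rcases Nat.eq_zero_or_pos (nn m) with h | h
    · rw [h]; simp only [hsd, range_zero, sum_empty]; positivity
    · have := Nat.find_min (ex m) (m := nn m - 1) (by simp only [hnn] at h ⊢; omega)
      obtain ⟨k, hk⟩ : ∃ k, nn m = k + 1 := ⟨nn m - 1, by omega⟩
      rw [hk] at this ⊢
      simp only [hsd, sum_range_succ, Nat.add_sub_cancel] at this ⊢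
      linarith [hM k]
  have bd : ∀ m : ℕ, μ {ω | ((m + 1 : ℕ) : ℝ) ^ 3 ≤
      |∑ i ∈ range (nn (m + 1)), X i ω - s (nn (m + 1))|} ≤
      ENNReal.ofReal (V * (1 + M) * (1 / ((m + 1 : ℕ) : ℝ) ^ 2)) := by
    intro m
    have p : (1 : ℝ) ≤ ((m + 1 : ℕ) : ℝ) := by exact_mod_cast (by omega)
    have := meas_ge_le_variance_div_sq (μ := μ) (X := ∑ i ∈ range (nn (m + 1)), X i)
      (memLp_finsetSum' _ fun i _ => hL i) (c := ((m + 1 : ℕ) : ℝ) ^ 3) (by positivity)
    have e : μ[∑ i ∈ range (nn (m + 1)), X i] = s (nn (m + 1)) := by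
      simp only [hsd, Finset.sum_apply]
      exact integral_finsetSum _ fun i _ => (hL i).integrable (by norm_num)
    rw [e] at this
    simp only [Finset.sum_apply] at this
    refine this.trans (ENNReal.ofReal_le_ofReal ?_)
    set y : ℝ := ((m + 1 : ℕ) : ℝ)
    have q1 := (hv (nn (m + 1))).trans (mul_le_mul_of_nonneg_left (h2 (m + 1)) hV)
    have q2 : 1 ≤ y ^ 4 := one_le_pow₀ p
    rw [div_le_iff₀ (by positivity)]
    refine q1.trans ?_
    have : V * (1 + M) * (1 / y ^ 2) * (y ^ 3) ^ 2 = V * ((1 + M) * y ^ 4) := by field_simp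
    rw [this]
    exact mul_le_mul_of_nonneg_left (by nlinarith) hV
  have sm : Summable fun m : ℕ => V * (1 + M) * (1 / ((m + 1 : ℕ) : ℝ) ^ 2) :=
    ((summable_nat_add_iff 1).2 (Real.summable_one_div_nat_pow.2 (by norm_num))).mul_left _
  have bc := ae_eventually_notMem (μ := μ)
    (ne_top_of_le_ne_top sm.tsum_ofReal_ne_top (ENNReal.tsum_le_tsum bd))
  filter_upwards [bc] with ω hω
  refine det (fun n => ∑ i ∈ range n, X i ω) s M
    (fun a b hab => sum_le_sum_of_subset_of_nonneg (range_subset_range.2 hab) fun i _ _ => h0 i ω)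
    (fun a b hab => sum_le_sum_of_subset_of_nonneg (range_subset_range.2 hab) fun i _ _ => e0 i)
    (fun n => sum_nonneg fun i _ => e0 i) hinf nn h1 h2 (fun m n h => Nat.find_min' (ex m) h) ?_
  obtain ⟨a, ha⟩ := eventually_atTop.1 hω
  filter_upwards [eventually_ge_atTop (a + 1)] with m hm
  obtain ⟨k, rfl⟩ : ∃ k, m = k + 1 := ⟨m - 1, by omega⟩
  simpa using ha k (by omega)

def ext (S : Finset ℕ) (v : S → ℕ) : ℕ → ℕ := fun n => if h : n ∈ S then v ⟨n, h⟩ else 0

theorem slln (ν : ℕ → Measure ℕ) [∀ i, IsProbabilityMeasure (ν i)] (X : ℕ → (ℕ → ℕ) → ℝ) (K : ℕ)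
    (M : ℝ) (dep : ∀ i ω ω', (∀ n ∈ Ico i (i + K), ω n = ω' n) → X i ω = X i ω')
    (h0 : ∀ i ω, 0 ≤ X i ω) (hb : ∀ i, ∃ c, ∀ ω, X i ω ≤ c)
    (hM : ∀ i, (Measure.infinitePi ν)[X i] ≤ M)
    (hsq : ∀ i, ∫ ω, X i ω ^ 2 ∂(Measure.infinitePi ν) ≤ M * (Measure.infinitePi ν)[X i])
    (hinf : Tendsto (fun n => ∑ i ∈ range n, (Measure.infinitePi ν)[X i]) atTop atTop) :
    ∀ᵐ ω ∂(Measure.infinitePi ν), Tendsto (fun n => (∑ i ∈ range n, X i ω) /
      ∑ i ∈ range n, (Measure.infinitePi ν)[X i]) atTop (𝓝 1) := by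
  set μ := Measure.infinitePi ν with hμ
  have fac : ∀ i, X i = (fun v => X i (ext (Ico i (i + K)) v)) ∘
      (fun ω (n : Ico i (i + K)) => ω n) := fun i => by
    funext ω
    exact dep i _ _ fun n hn => by simp [ext, hn]
  have meas : ∀ i, Measurable (X i) := fun i => by
    rw [fac i]; exact (measurable_of_countable _).comp (by fun_prop)
  have hL : ∀ i, MemLp (X i) 2 μ := fun i => by
    obtain ⟨c, hc⟩ := hb i
    exact MemLp.of_bound (meas i).aestronglyMeasurable c (Eventually.of_forall fun ω => by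
      rw [Real.norm_of_nonneg (h0 i ω)]; exact hc ω)
  have ind : ∀ i j, i + K ≤ j → cov[X i, X j; μ] = 0 := fun i j hij => by
    refine IndepFun.covariance_eq_zero ?_ (hL i) (hL j)
    rw [fac i, fac j]
    refine IndepFun.comp ?_ (measurable_of_countable _) (measurable_of_countable _)
    exact iIndepFun.indepFun_finset (f := fun n (ω : ℕ → ℕ) => ω n) _ _
      (disjoint_left.2 fun a h1 h2 => by simp only [mem_Ico] at h1 h2; omega)
      (iIndepFun_infinitePi (X := fun _ x => x) (by fun_prop)) (by fun_prop)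
  have e0 : ∀ i, 0 ≤ μ[X i] := fun i => integral_nonneg (h0 i)
  have M0 : 0 ≤ M := (e0 0).trans (hM 0)
  have cv : ∀ i j, cov[X i, X j; μ] ≤
      (if i < j + K ∧ j < i + K then M / 2 * μ[X i] else 0) +
        (if i < j + K ∧ j < i + K then M / 2 * μ[X j] else 0) := fun i j => by
    split_ifs with h
    · rw [covariance_eq_sub (hL i) (hL j)]
      have i1 := (hL i).integrable_sq
      have i2 := (hL j).integrable_sq
      have : μ[X i * X j] ≤ ∫ ω, (X i ω ^ 2 / 2 + X j ω ^ 2 / 2) ∂μ :=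
        integral_mono ((hL i).integrable_mul (hL j)) ((i1.div_const _).add (i2.div_const _))
          fun ω => by simp only [Pi.mul_apply]; nlinarith [sq_nonneg (X i ω - X j ω)]
      rw [integral_add (i1.div_const _) (i2.div_const _), integral_div, integral_div] at this
      nlinarith [hsq i, hsq j, mul_nonneg (e0 i) (e0 j)]
    · rcases (by omega : i + K ≤ j ∨ j + K ≤ i) with h1 | h1
      · rw [ind i j h1]; simp
      · rw [covariance_comm, ind j i h1]; simp
  have row : ∀ n i (a : ℝ), 0 ≤ a →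
      ∑ j ∈ range n, (if i < j + K ∧ j < i + K then a else 0) ≤ 2 * K * a := fun n i a ha => by
    rw [← sum_filter, sum_const, nsmul_eq_mul]
    refine mul_le_mul_of_nonneg_right ?_ ha
    have : ((range n).filter (fun j => i < j + K ∧ j < i + K)).card ≤ (Ico (i - K) (i + K)).card :=
      card_le_card fun j hj => by simp only [mem_filter, mem_Ico] at hj ⊢; omega
    rw [Nat.card_Ico] at this
    exact_mod_cast this.trans (by omega)
  refine slln0 μ X M (2 * K * M) (by positivity) hL h0 hM (fun n => ?_) hinf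
  rw [variance_sum' fun i _ => hL i]
  refine (sum_le_sum fun i _ => sum_le_sum fun j _ => cv i j).trans ?_
  simp only [sum_add_distrib]
  rw [sum_comm (s := range n) (t := range n)
    (f := fun i j => if i < j + K ∧ j < i + K then M / 2 * μ[X j] else 0)]
  have r1 : ∑ i ∈ range n, ∑ j ∈ range n, (if i < j + K ∧ j < i + K then M / 2 * μ[X i] else 0) ≤
      ∑ i ∈ range n, 2 * K * (M / 2 * μ[X i]) :=
    sum_le_sum fun i _ => row n i _ (by have := e0 i; positivity)
  have r2 : ∑ j ∈ range n, ∑ i ∈ range n, (if i < j + K ∧ j < i + K then M / 2 * μ[X j] else 0) ≤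
      ∑ i ∈ range n, 2 * K * (M / 2 * μ[X i]) :=
    sum_le_sum fun i _ => by
      simp only [and_comm (a := _ < i + K)]
      exact row n i _ (by have := e0 i; positivity)
  refine (add_le_add r1 r2).trans (le_of_eq ?_)
  rw [← sum_add_distrib, mul_sum]
  exact sum_congr rfl fun i _ => by ring

open Classical in
theorem rect (ν : ℕ → Measure ℕ) [∀ i, IsProbabilityMeasure (ν i)] (C : ℕ → ℕ → Set ℕ) (K : ℕ)
    (w : ℕ → ℝ) (hw : ∀ i, 0 < w i) (hinf : Tendsto (fun n => ∑ i ∈ range n, w i) atTop atTop)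
    (hp : Tendsto (fun i => (∏ t ∈ range K, (ν (i + t)).real (C i t)) / w i) atTop (𝓝 1)) :
    ∀ᵐ ω ∂(Measure.infinitePi ν), Tendsto (fun n => (((range n).filter
      (fun i => ∀ t < K, ω (i + t) ∈ C i t)).card : ℝ) / ∑ i ∈ range n, w i) atTop (𝓝 1) := by
  set A : ℕ → Set (ℕ → ℕ) := fun i => {ω | ∀ t < K, ω (i + t) ∈ C i t} with hA
  have eA : ∀ i, A i = Set.pi (Ico i (i + K) : Finset ℕ) (fun n => C i (n - i)) := fun i => by
    ext ω
    simp only [hA, Set.mem_ofPred_eq, Set.mem_pi, coe_Ico, Set.mem_Ico]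
    constructor
    · intro h n hn
      have := h (n - i) (by omega)
      rwa [show i + (n - i) = n by omega] at this
    · intro h t ht
      simpa using h (i + t) (by omega)
  have mA : ∀ i, MeasurableSet (A i) := fun i => by
    rw [eA]; exact MeasurableSet.pi (Finset.countable_toSet _) fun _ _ => trivial
  have pA : ∀ i, (Measure.infinitePi ν)[(A i).indicator (1 : (ℕ → ℕ) → ℝ)] =
      ∏ t ∈ range K, (ν (i + t)).real (C i t) := fun i => by
    rw [integral_indicator_one (mA i), eA, Measure.real,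
      Measure.infinitePi_pi _ (fun _ _ => MeasurableSet.of_discrete), ENNReal.toReal_prod, prod_Ico_eq_prod_range]
    simp [Measure.real]
  have o1 : (fun n => ∑ i ∈ range n, ((∏ t ∈ range K, (ν (i + t)).real (C i t)) - w i))
      =o[atTop] fun n => ∑ i ∈ range n, w i := by
    refine IsLittleO.sum_range ?_ (fun i => (hw i).le) hinf
    refine (isLittleO_iff_tendsto (fun i hi => absurd hi (hw i).ne')).2 ?_
    have := hp.sub_const 1
    rw [sub_self] at this
    exact this.congr fun i => by have := (hw i).ne'; field_simp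
  have o2 : Tendsto (fun n => (∑ i ∈ range n, ∏ t ∈ range K, (ν (i + t)).real (C i t)) /
      ∑ i ∈ range n, w i) atTop (𝓝 1) := by
    have := o1.tendsto_div_nhds_zero.add_const 1
    rw [zero_add] at this
    refine this.congr' ?_
    filter_upwards [hinf.eventually_gt_atTop 0] with n hn
    rw [sum_sub_distrib]; field_simp; ring
  have o3 : Tendsto (fun n => ∑ i ∈ range n, ∏ t ∈ range K, (ν (i + t)).real (C i t))
      atTop atTop := by
    refine (o2.pos_mul_atTop one_pos hinf).congr' ?_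
    filter_upwards [hinf.eventually_gt_atTop 0] with n hn
    exact div_mul_cancel₀ _ hn.ne'
  have key := slln ν (fun i => (A i).indicator 1) K 1 (fun i ω ω' h => ?_)
    (fun i ω => Set.indicator_nonneg (fun _ _ => zero_le_one) ω)
    (fun i => ⟨1, fun ω => Set.indicator_le_self' (fun _ _ => zero_le_one) ω⟩) (fun i => ?_)
    (fun i => ?_) (by simpa only [pA] using o3)
  · filter_upwards [key] with ω hω
    simp only [pA] at hω
    have := hω.mul o2
    rw [mul_one] at this
    refine this.congr' ?_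
    filter_upwards [o3.eventually_gt_atTop 0] with n hn
    rw [div_mul_div_cancel₀ hn.ne', ← sum_boole]
    congr 1
    exact sum_congr rfl fun i _ => by simp [Set.indicator_apply, hA]
  · have : ω ∈ A i ↔ ω' ∈ A i := by
      simp only [hA, Set.mem_ofPred_eq]
      exact forall₂_congr fun t ht => by rw [h (i + t) (mem_Ico.2 (by omega))]
    simp only [Set.indicator_apply, this, Pi.one_apply]
  · rw [integral_indicator_one (mA i)]; exact measureReal_le_one
  · rw [one_mul]
    exact le_of_eq (integral_congr_ae (Eventually.of_forall fun ω => by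
      simp only [Set.indicator_apply]; split_ifs <;> simp))

end Pool.Agent.H47.Cantor
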