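import Mathlib
import Pool.Agent.H47.Cantor3
import Pool.Agent.H47.Cantor5

namespace Pool.Agent.H47.Cantor
open Finset Filter Topology Asymptotics MeasureTheory ProbabilityTheory
open scoped ENNReal NNReal

noncomputable def U (a c : ℕ) : Measure ℕ := uniformOn (↑(Ico a (a + c + 1)) : Set ℕ)

instance U_prob (a c : ℕ) : IsProbabilityMeasure (U a c) :=
  isProbabilityMeasure_uniformOn (Finset.finite_toSet _) ⟨a, by simp⟩

theorem U_apply (a c : ℕ) (t : Finset ℕ) :
    U a c t = ((Ico a (a + c + 1) ∩ t).card : ℝ≥0∞) / ((c + 1 : ℕ) : ℝ≥0∞) := by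
  unfold U
  rw [uniformOn_apply_finset, Nat.card_Ico, show a + c + 1 - a = c + 1 by omega]

theorem U_real (a c : ℕ) (t : Finset ℕ) :
    (U a c).real t = ((Ico a (a + c + 1) ∩ t).card : ℝ) / (c + 1) := by
  rw [Measure.real, U_apply, ENNReal.toReal_div]
  simp only [ENNReal.toReal_natCast]
  push_cast; rfl

theorem U_ae (a c : ℕ → ℕ) : ∀ᵐ e ∂(Measure.infinitePi fun n => U (a n) (c n)),
    ∀ n, a n ≤ e n ∧ e n ≤ a n + c n := by
  refine ae_all_iff.2 fun n => ?_
  have h : ∀ᵐ x ∂(U (a n) (c n)), a n ≤ x ∧ x ≤ a n + c n := by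
    rw [ae_iff]
    unfold U
    rw [uniformOn_eq_zero_iff (Finset.finite_toSet _)]
    ext x
    simp only [coe_Ico, Set.mem_inter_iff, Set.mem_Ico, Set.mem_ofPred_eq, Set.mem_empty_iff_false,
      iff_false]
    omega
  exact (measurePreserving_eval_infinitePi (fun n => U (a n) (c n)) n).quasiMeasurePreserving.ae h

theorem J_inj (q e e' : ℕ → ℕ) (he : ∀ n, 1 ≤ n → e n < q n) (he' : ∀ n, 1 ≤ n → e' n < q n) :
    ∀ n, J q e n = J q e' n → ∀ i ∈ Icc 1 n, e i = e' i := by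
  intro n
  induction n with
  | zero => intro _ i hi; simp only [mem_Icc] at hi; omega
  | succ n ih =>
    intro h i hi
    rw [J_succ, J_succ] at h
    have h1 := he (n + 1) (by omega)
    have h2 := he' (n + 1) (by omega)
    have h3 : e (n + 1) = e' (n + 1) := by
      have := congrArg (· % q (n + 1)) h
      simpa [Nat.mod_eq_of_lt h1, Nat.mod_eq_of_lt h2] using this
    have h4 : J q e n = J q e' n := Nat.eq_of_mul_eq_mul_right (by omega : 0 < q (n + 1)) (by omega)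
    rcases (by simp only [mem_Icc] at hi; omega : i = n + 1 ∨ (1 ≤ i ∧ i ≤ n)) with rfl | h5
    · exact h3
    · exact ih h4 i (mem_Icc.2 h5)

theorem summ (q e : ℕ → ℕ) (hq : ∀ n, 2 ≤ q n) (he : ∀ n, 1 ≤ n → e n < q n) :
    Summable (fun n => (e (n + 1) : ℝ) / ∏ j ∈ Icc 1 (n + 1), (q j : ℝ)) := by
  refine summable_of_sum_range_le (c := 1) (fun n => by positivity) fun n => ?_
  rw [J_sum q e hq, div_le_one (PP_pos q hq n)]
  exact_mod_cast (J_lt q e he n).le

theorem PP_mono (q : ℕ → ℕ) (hq : ∀ n, 2 ≤ q n) : Monotone (PP q) :=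
  monotone_nat_of_le_succ fun n => by
    rw [PP_succ]; exact Nat.le_mul_of_pos_right _ (by have := hq (n + 1); omega)

theorem growth (q : ℕ → ℕ) (hq : ∀ n, 2 ≤ q n) (hqi : Tendsto q atTop atTop) (C ε : ℝ)
    (hC : 0 < C) (hε : 0 < ε) : ∀ᶠ n in atTop, 4 * C ^ (n + 1) ≤ (PP q n : ℝ) ^ ε := by
  have h1 : Tendsto (fun n => (q (n + 1) : ℝ) ^ ε) atTop atTop :=
    (tendsto_rpow_atTop hε).comp (tendsto_natCast_atTop_atTop.comp
      (hqi.comp (tendsto_add_atTop_nat 1)))
  have h2 : Summable fun n => C ^ (n + 1) / (PP q n : ℝ) ^ ε := by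
    refine summable_of_ratio_norm_eventually_le (r := 1 / 2) (by norm_num) ?_
    filter_upwards [h1.eventually_ge_atTop (2 * C)] with n hn
    have p := PP_pos q hq n
    have p2 : (0 : ℝ) < (PP q n : ℝ) ^ ε := by positivity
    rw [Real.norm_of_nonneg (by positivity), Real.norm_of_nonneg (by positivity), PP_succ]
    push_cast
    rw [Real.mul_rpow p.le (by positivity), pow_succ C (n + 1), ← div_mul_div_comm, mul_comm]
    refine mul_le_mul_of_nonneg_right ?_ (by positivity)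
    rw [div_le_iff₀ (by linarith)]; linarith
  filter_upwards [h2.tendsto_atTop_zero.eventually (gt_mem_nhds (show (0 : ℝ) < 1 / 4 by norm_num))]
    with n hn
  have p := PP_pos q hq n
  rw [div_lt_iff₀ (by positivity)] at hn
  linarith

theorem dim_ge (q a c : ℕ → ℕ) (hq : ∀ n, 2 ≤ q n) (hqi : Tendsto q atTop atTop)
    (hac : ∀ n, a n + c n < q n) (C : ℝ) (hC0 : 0 < C)
    (hC : ∀ᶠ N in atTop, (PP q N : ℝ) ≤ C ^ N * ∏ j ∈ Icc 1 N, ((c j : ℝ) + 1)) (Y : Set ℝ)
    (hY : ∀ e : ℕ → ℕ, (∀ n, a n ≤ e n ∧ e n ≤ a n + c n) →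
      (∑' n, (e (n + 1) : ℝ) / ∏ j ∈ Icc 1 (n + 1), (q j : ℝ)) ∈ Y) : 1 ≤ dimH Y := by
  refine ENNReal.le_of_forall_nnreal_lt fun d hd => ?_
  have hd1 : (d : ℝ) < 1 := by exact_mod_cast hd
  rcases eq_or_ne d 0 with rfl | hd0
  · simp
  have hd0' : (0 : ℝ) < d := by positivity
  set μ := Measure.infinitePi fun n => U (a n) (c n) with hμ
  set f : (ℕ → ℕ) → ℝ := fun e => ∑' n, (e (n + 1) : ℝ) / ∏ j ∈ Icc 1 (n + 1), (q j : ℝ) with hf
  have mf : Measurable f := Measurable.tsum fun n =>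
    ((measurable_of_countable (fun x : ℕ => (x : ℝ))).comp (measurable_pi_apply _)).div_const _
  set V : Set (ℕ → ℕ) := {e | ∀ n, a n ≤ e n ∧ e n ≤ a n + c n} with hV
  have hVa : ∀ᵐ e ∂μ, e ∈ V := U_ae a c
  have val : ∀ e ∈ V, ∀ n, 1 ≤ n → e n < q n := fun e he n _ => by
    have := (he n).2; have := hac n; omega
  have cyl : ∀ n j, μ {e | e ∈ V ∧ J q e n = j} ≤
      ENNReal.ofReal (∏ i ∈ Icc 1 n, ((c i : ℝ) + 1))⁻¹ := by
    intro n j
    rcases Set.eq_empty_or_nonempty {e | e ∈ V ∧ J q e n = j} with h | ⟨e0, h0⟩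
    · simp [h]
    · have sub : {e | e ∈ V ∧ J q e n = j} ⊆
          Set.pi (Icc 1 n : Finset ℕ) (fun i => (({e0 i} : Finset ℕ) : Set ℕ)) := by
        intro e he i hi
        simpa using J_inj q e e0 (val e he.1) (val e0 h0.1) n (he.2.trans h0.2.symm) i hi
      refine (measure_mono sub).trans ?_
      rw [hμ, Measure.infinitePi_pi _ (fun _ _ => MeasurableSet.of_discrete), ← prod_inv_distrib,
        ENNReal.ofReal_prod_of_nonneg (fun _ _ => by positivity)]
      refine prod_le_prod' fun i _ => ?_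
      rw [← ofReal_measureReal, U_real]
      refine ENNReal.ofReal_le_ofReal ?_
      rw [inv_eq_one_div]
      gcongr
      exact_mod_cast (card_le_card inter_subset_right).trans (card_singleton _).le
  obtain ⟨N0, hN0⟩ := eventually_atTop.1 (hC.and (growth q hq hqi C (1 - d) hC0 (by linarith)))
  have core : ∀ r : ℝ, 0 < r → r < 1 / PP q N0 → ∀ u, μ.map f (Set.Icc u (u + 2 * r)) ≤
      ENNReal.ofReal (r ^ (d : ℝ)) := by
    intro r hr hr' u
    have ex : ∃ m, 1 / (PP q m : ℝ) ≤ r := by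
      obtain ⟨m, hm⟩ := exists_pow_lt_of_lt_one hr (show (1 / 2 : ℝ) < 1 by norm_num)
      refine ⟨m, le_trans ?_ hm.le⟩
      have : (2 : ℝ) ^ m ≤ PP q m := by exact_mod_cast PP_ge q hq m
      rw [one_div_pow]
      exact one_div_le_one_div_of_le (by positivity) this
    have h1 := Nat.find_spec ex
    have h2 : N0 < Nat.find ex := by
      by_contra hc
      have : (PP q (Nat.find ex) : ℝ) ≤ PP q N0 := by exact_mod_cast PP_mono q hq (not_lt.1 hc)
      have := one_div_le_one_div_of_le (PP_pos q hq _) this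
      linarith
    obtain ⟨n, hn⟩ : ∃ n, Nat.find ex = n + 1 := ⟨Nat.find ex - 1, by omega⟩
    have h3 := not_le.1 (Nat.find_min ex (m := n) (by omega))
    rw [hn] at h1
    have p := PP_pos q hq (n + 1)
    have p0 := PP_pos q hq n
    set P : ℝ := (PP q (n + 1) : ℝ) with hP
    rw [div_le_iff₀ p] at h1
    set F := Icc ⌈u * P - 1⌉₊ ⌊(u + 2 * r) * P⌋₊ with hF
    have hFc : (F.card : ℝ) ≤ 4 * r * P := by
      rw [hF, Nat.card_Icc]
      by_cases h4 : ⌈u * P - 1⌉₊ ≤ ⌊(u + 2 * r) * P⌋₊ + 1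
      · rw [Nat.cast_sub h4]
        push_cast
        have b1 := Nat.le_ceil (u * P - 1)
        have b2 : (0 : ℝ) ≤ ⌈u * P - 1⌉₊ := by positivity
        by_cases h5 : 0 ≤ (u + 2 * r) * P
        · have := Nat.floor_le h5; nlinarith
        · rw [Nat.floor_of_nonpos (not_le.1 h5).le]; simp only [Nat.cast_zero]; nlinarith
      · rw [Nat.sub_eq_zero_of_le (by omega)]; simp only [Nat.cast_zero]; positivity
    rw [Measure.map_apply mf measurableSet_Icc]
    have sub : f ⁻¹' Set.Icc u (u + 2 * r) ≤ᵐ[μ] ⋃ j ∈ F, {e | e ∈ V ∧ J q e (n + 1) = j} := by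
      filter_upwards [hVa] with e he hx
      obtain ⟨b1, b2⟩ := J_bounds q e hq (val e he) _ (summ q e hq (val e he)).hasSum (n + 1)
      have x1 : u ≤ f e := hx.1
      have x2 : f e ≤ u + 2 * r := hx.2
      rw [div_le_iff₀ p] at b1
      rw [le_div_iff₀ p] at b2
      refine Set.mem_biUnion (x := J q e (n + 1)) (mem_coe.2 (mem_Icc.2 ⟨?_, ?_⟩)) ⟨he, rfl⟩
      · exact Nat.ceil_le.2 (by nlinarith [mul_le_mul_of_nonneg_right x1 p.le])
      · exact Nat.le_floor (by nlinarith [mul_le_mul_of_nonneg_right x2 p.le])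
    refine (measure_mono_ae sub).trans ((measure_biUnion_finset_le _ _).trans ?_)
    refine (sum_le_card_nsmul _ _ _ fun j _ => cyl (n + 1) j).trans ?_
    rw [nsmul_eq_mul, ← ENNReal.ofReal_natCast, ← ENNReal.ofReal_mul (by positivity)]
    refine ENNReal.ofReal_le_ofReal ?_
    have c1 := (hN0 (n + 1) (by omega)).1
    have c2 := (hN0 n (by omega)).2
    have m0 : (0 : ℝ) < ∏ i ∈ Icc 1 (n + 1), ((c i : ℝ) + 1) := by positivity
    have c3 : (PP q n : ℝ) ^ (1 - d : ℝ) ≤ (1 / r) ^ (1 - d : ℝ) := by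
      refine Real.rpow_le_rpow p0.le ?_ (by linarith)
      rw [lt_div_iff₀ p0] at h3
      rw [le_div_iff₀ hr]; linarith
    have c4 : r * (1 / r) ^ (1 - d : ℝ) = r ^ (d : ℝ) := by
      rw [one_div, Real.inv_rpow hr.le, ← Real.rpow_neg hr.le]
      nth_rewrite 1 [← Real.rpow_one r]
      rw [← Real.rpow_add hr]; congr 1; ring
    rw [← div_eq_mul_inv, div_le_iff₀ m0, ← c4]
    calc (F.card : ℝ) ≤ 4 * r * P := hFc
      _ ≤ 4 * r * (C ^ (n + 1) * ∏ i ∈ Icc 1 (n + 1), ((c i : ℝ) + 1)) := by gcongr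
      _ = r * (4 * C ^ (n + 1)) * ∏ i ∈ Icc 1 (n + 1), ((c i : ℝ) + 1) := by ring
      _ ≤ _ := by gcongr; exact c2.trans c3
  have pN := PP_pos q hq N0
  have key : μ.map f ≤ μH[d] := by
    refine Measure.le_hausdorffMeasure d _ (ENNReal.ofReal (1 / PP q N0 / 2))
      (ENNReal.ofReal_pos.2 (by positivity)) fun s hs => ?_
    rcases s.eq_empty_or_nonempty with rfl | ⟨x, hx⟩
    · simp
    have fin : Metric.ediam s ≠ ∞ := ne_top_of_le_ne_top ENNReal.ofReal_ne_top hs
    have gen : ∀ r : ℝ, 0 < r → r < 1 / PP q N0 → Metric.ediam s ≤ ENNReal.ofReal r →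
        μ.map f s ≤ ENNReal.ofReal (r ^ (d : ℝ)) := by
      intro r h1 h2 h3
      refine le_trans (measure_mono fun y hy => ?_) (core r h1 h2 (x - r))
      have h4 := (Metric.edist_le_ediam_of_mem hy hx).trans h3
      rw [edist_dist, ENNReal.ofReal_le_ofReal_iff h1.le, Real.dist_eq, abs_le] at h4
      constructor <;> linarith [h4.1, h4.2]
    rcases eq_or_ne (Metric.ediam s) 0 with h0 | h0
    · have lim : Tendsto (fun r : ℝ => ENNReal.ofReal (r ^ (d : ℝ))) (𝓝[>] 0) (𝓝 0) := by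
        have := (Real.continuousAt_rpow_const 0 d (Or.inr hd0'.le)).tendsto
        rw [Real.zero_rpow hd0'.ne'] at this
        simpa using (ENNReal.tendsto_ofReal this).mono_left nhdsWithin_le_nhds
      refine le_trans (ge_of_tendsto lim ?_) bot_le
      filter_upwards [Ioo_mem_nhdsGT (show (0 : ℝ) < 1 / PP q N0 by positivity)] with r hr
      exact gen r hr.1 hr.2 (h0 ▸ bot_le)
    · have h1 : 0 < (Metric.ediam s).toReal := ENNReal.toReal_pos h0 fin
      have h2 : (Metric.ediam s).toReal ≤ 1 / PP q N0 / 2 :=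
        ENNReal.toReal_le_of_le_ofReal (by positivity) hs
      have h3 : (0 : ℝ) < 1 / PP q N0 := by positivity
      refine (gen _ h1 (by linarith) (ENNReal.ofReal_toReal fin).ge).trans (le_of_eq ?_)
      rw [← ENNReal.ofReal_rpow_of_pos h1, ENNReal.ofReal_toReal fin]
  refine le_dimH_of_hausdorffMeasure_ne_zero fun h0 => ?_
  have h1 : μ (f ⁻¹' Y) = 0 :=
    le_antisymm ((Measure.le_map_apply mf.aemeasurable Y).trans ((key Y).trans h0.le)) bot_le
  have h2 : ∀ᵐ e ∂μ, False := by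
    filter_upwards [hVa, measure_eq_zero_iff_ae_notMem.1 h1] with e he hn
    exact hn (hY e he)
  obtain ⟨_, h⟩ := h2.exists
  exact h

end Pool.Agent.H47.Cantor
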