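import Mathlib
import Pool.Agent.H47.Cantor6

namespace Pool.Agent.H47.Cantor
open Finset Filter Topology Asymptotics MeasureTheory ProbabilityTheory
open scoped ENNReal NNReal

section
variable (q : ℕ → ℕ) (hq : ∀ n, 2 ≤ q n) (hqi : Tendsto q atTop atTop)
include hq

theorem nu_real (n : ℕ) (t : Finset ℕ) (ht : ∀ x ∈ t, x < q n) :
    (U 0 (q n - 1)).real t = (t.card : ℝ) / q n := by
  have := hq n
  rw [U_real, inter_eq_right.2 (fun x hx => mem_Ico.2 ⟨by omega, by have := ht x hx; omega⟩),
    Nat.cast_sub (by omega)]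
  simp

omit hq in
theorem sqrt_tendsto : Tendsto Nat.sqrt atTop atTop :=
  tendsto_atTop_atTop.2 fun b => ⟨b * b, fun _ hn => Nat.le_sqrt.2 hn⟩

theorem sqrt_lt' (n : ℕ) : Nat.sqrt (q n) < q n := Nat.sqrt_lt_self (by have := hq n; omega)

include hqi

open Classical in
theorem blk (G : ℕ → Set ℕ) (hG : Tendsto (fun n => (U 0 (q n - 1)).real (G n)) atTop (𝓝 1))
    (k : ℕ) (B : ℕ → ℕ)
    (hd : Tendsto (fun n => ∑ i ∈ range n, (∏ t ∈ range k, (q (i + 1 + t) : ℝ))⁻¹) atTop atTop) :
    ∀ᵐ ω ∂(Measure.infinitePi fun n => U 0 (q n - 1)), Tendsto (fun n => (((range n).filter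
      (fun i => ω i ∈ G i ∧ (∀ t < k, ω (i + 1 + t) = B t) ∧
        ω (i + k + 1) ∈ G (i + k + 1))).card : ℝ) /
      ∑ i ∈ range n, (∏ t ∈ range k, (q (i + 1 + t) : ℝ))⁻¹) atTop (𝓝 1) := by
  have q0 : ∀ n, (0 : ℝ) < q n := fun n => by have := hq n; exact_mod_cast (by omega)
  have key := rect (fun n => U 0 (q n - 1))
    (fun i t => if t = 0 then G i else if t = k + 1 then G (i + k + 1) else
      (({B (t - 1)} : Finset ℕ) : Set ℕ)) (k + 2) _
    (fun i => inv_pos.2 (prod_pos fun t _ => q0 _)) hd ?_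
  · filter_upwards [key] with ω hω
    refine hω.congr fun n => ?_
    congr 3
    refine filter_congr fun i _ => ?_
    constructor
    · intro h
      refine ⟨by simpa using h 0 (by omega), fun t ht => ?_, by
        simpa [add_assoc] using h (k + 1) (by omega)⟩
      have := h (t + 1) (by omega)
      rw [if_neg (by omega), if_neg (by omega)] at this
      simpa [add_assoc, add_comm 1 t] using this
    · rintro ⟨h1, h2, h3⟩ t ht
      split_ifs with a b
      · simpa [a] using h1
      · simpa [b, add_assoc] using h3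
      · have := h2 (t - 1) (by omega)
        rw [show i + 1 + (t - 1) = i + t by omega] at this
        simpa using this
  · have lim := hG.mul (hG.comp (tendsto_add_atTop_nat (k + 1)))
    rw [mul_one] at lim
    refine lim.congr' ?_
    obtain ⟨N, hN⟩ := eventually_atTop.1 (hqi.eventually_gt_atTop ((range k).sup B))
    filter_upwards [eventually_ge_atTop N] with i hi
    rw [prod_range_succ, prod_range_succ', prod_congr rfl
      (g := fun t => ((q (i + 1 + t) : ℝ))⁻¹) (fun t ht => ?_), prod_inv_distrib]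
    · have : ∏ t ∈ range k, (q (i + 1 + t) : ℝ) ≠ 0 := (prod_pos fun t _ => q0 _).ne'
      simp only [Function.comp, if_true, add_zero, Nat.succ_ne_zero, if_false]
      rw [← add_assoc]
      field_simp
    · have ht' := mem_range.1 ht
      rw [if_neg (by omega), if_neg (by omega), nu_real q hq _ _ (fun x hx => ?_)]
      · simp [add_assoc, add_comm 1 t]
      · rw [mem_singleton.1 hx, Nat.add_sub_cancel]
        exact lt_of_le_of_lt (le_sup (f := B) ht) (hN _ (by omega))

theorem G_lim : Tendsto (fun n => (U 0 (q n - 1)).real (Set.Ici (Nat.sqrt (q n)))) atTop (𝓝 1) := by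
  have h1 : Tendsto (fun n => (Nat.sqrt (q n) : ℝ) / q n) atTop (𝓝 0) := by
    have hg : Tendsto (fun n => (Nat.sqrt (q n) : ℝ)) atTop atTop :=
      tendsto_natCast_atTop_atTop.comp (sqrt_tendsto.comp hqi)
    refine tendsto_of_tendsto_of_tendsto_of_le_of_le' tendsto_const_nhds hg.inv_tendsto_atTop
      (Eventually.of_forall fun n => by positivity) ?_
    filter_upwards [hg.eventually_gt_atTop 0] with n hn
    have : (0 : ℝ) < q n := by have := hq n; exact_mod_cast (by omega)
    have h2 : (Nat.sqrt (q n) : ℝ) * Nat.sqrt (q n) ≤ q n := by exact_mod_cast Nat.sqrt_le _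
    rw [Pi.inv_apply, inv_eq_one_div, div_le_div_iff₀ this hn]; linarith
  have h2 := h1.const_sub 1
  rw [sub_zero] at h2
  refine h2.congr fun n => ?_
  have e : Set.Ici (Nat.sqrt (q n)) = ((range (Nat.sqrt (q n)) : Finset ℕ) : Set ℕ)ᶜ := by
    ext x; simp
  rw [e, measureReal_compl MeasurableSet.of_discrete, nu_real q hq n _ (fun x hx =>
    (mem_range.1 hx).trans (sqrt_lt' q hq n)), card_range, probReal_univ]

omit hqi in
theorem cost : ∀ᵐ ω ∂(Measure.infinitePi fun n => U 0 (q n - 1)), ∀ᶠ n in atTop,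
    ∑ i ∈ range n, (if ω i < Nat.sqrt (q i) then Real.log (q i) else 0) ≤ 50 * n := by
  set μ := Measure.infinitePi fun n => U 0 (q n - 1) with hμ
  set A : ℕ → Set (ℕ → ℕ) := fun i => (fun ω => ω i) ⁻¹' (range (Nat.sqrt (q i)) : Finset ℕ)
    with hA
  have mA : ∀ i, MeasurableSet (A i) := fun i => measurable_pi_apply i MeasurableSet.of_discrete
  have pA : ∀ i, μ.real (A i) = (Nat.sqrt (q i) : ℝ) / q i := fun i => by
    rw [← card_range (Nat.sqrt (q i)), ← nu_real q hq i _ (fun x hx =>
      (mem_range.1 hx).trans (sqrt_lt' q hq i))]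
    exact (measurePreserving_eval_infinitePi (fun n => U 0 (q n - 1)) i).measureReal_preimage
      MeasurableSet.of_discrete.nullMeasurableSet
  have I : ∀ i (c : ℝ), ∫ ω, (1 + (A i).indicator (fun _ => c) ω) ∂μ =
      1 + (Nat.sqrt (q i) : ℝ) / q i * c := fun i c => by
    rw [integral_add (integrable_const _) ((integrable_const c).indicator (mA i)),
      integral_indicator_const _ (mA i), pA]
    simp
  have L0 : ∀ i, 0 ≤ Real.log (q i) := fun i => Real.log_natCast_nonneg _
  have bd : ∀ i, (Nat.sqrt (q i) : ℝ) / q i * Real.log (q i) ≤ 4 ∧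
      (Nat.sqrt (q i) : ℝ) / q i * Real.log (q i) ^ 2 ≤ 16 := fun i => by
    have h1 : (1 : ℝ) ≤ q i := by have := hq i; exact_mod_cast (by omega)
    set y := (q i : ℝ) ^ (1 / 4 : ℝ) with hy
    have y1 : 1 ≤ y := Real.one_le_rpow h1 (by norm_num)
    have y4 : y ^ 4 = q i := by
      rw [hy, ← Real.rpow_natCast, ← Real.rpow_mul (by linarith)]; norm_num
    have l1 : Real.log (q i) ≤ 4 * y := by
      have := Real.log_le_rpow_div (x := q i) (by linarith) (show (0 : ℝ) < 1 / 4 by norm_num)
      linarith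
    have s1 : (Nat.sqrt (q i) : ℝ) ≤ y ^ 2 := by
      have h2 : (Nat.sqrt (q i) : ℝ) * Nat.sqrt (q i) ≤ q i := by exact_mod_cast Nat.sqrt_le _
      exact le_of_sq_le_sq (by nlinarith) (by positivity) 
    have p1 : (Nat.sqrt (q i) : ℝ) / q i ≤ 1 / y ^ 2 := by
      rw [div_le_div_iff₀ (by linarith) (by positivity), ← y4]; nlinarith [sq_nonneg y]
    have l2 : Real.log (q i) ^ 2 ≤ (4 * y) ^ 2 := pow_le_pow_left₀ (L0 i) l1 2
    constructor
    · refine (mul_le_mul p1 l1 (L0 i) (by positivity)).trans ?_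
      rw [one_div, ← div_eq_inv_mul, div_le_iff₀ (by positivity)]; nlinarith
    · refine (mul_le_mul p1 l2 (by positivity) (by positivity)).trans (le_of_eq ?_)
      field_simp; norm_num
  have p0 : ∀ i, 0 ≤ (Nat.sqrt (q i) : ℝ) / q i * Real.log (q i) := fun i =>
    mul_nonneg (by positivity) (L0 i)
  have key := slln (fun n => U 0 (q n - 1))
    (fun i ω => 1 + (A i).indicator (fun _ => Real.log (q i)) ω) 1 25 (fun i ω ω' h => ?_)
    (fun i ω => add_nonneg zero_le_one (Set.indicator_nonneg (fun _ _ => L0 i) ω))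
    (fun i => ⟨1 + Real.log (q i), fun ω => by
      have := Set.indicator_le_self' (s := A i) (f := fun _ => Real.log (q i)) (fun _ _ => L0 i) ω
      linarith⟩) (fun i => ?_) (fun i => ?_) ?_
  · filter_upwards [key] with ω hω
    filter_upwards [hω.eventually (gt_mem_nhds (show (1 : ℝ) < 2 by norm_num)),
      eventually_ge_atTop 1] with n hn h1
    simp only [← hμ, I] at hn
    have s1 : ∑ i ∈ range n, (1 + (Nat.sqrt (q i) : ℝ) / q i * Real.log (q i)) ≤ n * 5 := by
      have := sum_le_card_nsmul (range n)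
        (fun i => 1 + (Nat.sqrt (q i) : ℝ) / q i * Real.log (q i)) 5 fun i _ => by
          linarith [(bd i).1]
      simpa using this
    rw [div_lt_iff₀ (sum_pos (fun i _ => by linarith [p0 i]) ⟨0, mem_range.2 h1⟩)] at hn
    have s2 : ∑ i ∈ range n, (if ω i < Nat.sqrt (q i) then Real.log (q i) else 0) ≤
        ∑ i ∈ range n, (1 + (A i).indicator (fun _ => Real.log (q i)) ω) :=
      sum_le_sum fun i _ => by
        by_cases h : ω i < Nat.sqrt (q i)
        · rw [if_pos h, Set.indicator_of_mem (by simpa [hA] using h)]; linarith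
        · rw [if_neg h, Set.indicator_of_notMem (by simpa [hA] using h)]; norm_num
    have : (0 : ℝ) ≤ n := by positivity
    linarith
  · have e : ω i = ω' i := h i (mem_Ico.2 (by omega))
    by_cases h1 : ω ∈ A i
    · rw [Set.indicator_of_mem h1, Set.indicator_of_mem (by simpa [hA, e] using h1)]
    · rw [Set.indicator_of_notMem h1, Set.indicator_of_notMem (by simpa [hA, e] using h1)]
  · rw [← hμ, I]; linarith [(bd i).1]
  · rw [← hμ, I, integral_congr_ae (g := fun ω => 1 + (A i).indicator
      (fun _ => 2 * Real.log (q i) + Real.log (q i) ^ 2) ω) (Eventually.of_forall fun ω => by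
        by_cases h1 : ω ∈ A i
        · simp only [Set.indicator_of_mem h1]; ring
        · simp only [Set.indicator_of_notMem h1]; ring), I]
    nlinarith [(bd i).1, (bd i).2, p0 i]
  · refine tendsto_atTop_mono (fun n => ?_) tendsto_natCast_atTop_atTop
    simp only [← hμ, I]
    have := card_nsmul_le_sum (range n)
      (fun i => 1 + (Nat.sqrt (q i) : ℝ) / q i * Real.log (q i)) 1 fun i _ => by linarith [p0 i]
    simpa using this

open Classical in
theorem skeleton (hd : ∀ k, 1 ≤ k →
    Tendsto (fun n => ∑ i ∈ range n, (∏ t ∈ range k, (q (i + 1 + t) : ℝ))⁻¹) atTop atTop) :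
    ∃ ω : ℕ → ℕ, (∀ k, 1 ≤ k → ∀ B : Fin k → ℕ, Tendsto (fun n => (((range n).filter
      (fun i => ∀ t : Fin k, ω (i + 1 + t) = B t)).card : ℝ) /
      ∑ i ∈ range n, (∏ t ∈ range k, (q (i + 1 + t) : ℝ))⁻¹) atTop (𝓝 1)) ∧
    (∀ k, 1 ≤ k → Tendsto (fun n => (((range n).filter
      (fun i => Nat.sqrt (q i) ≤ ω i ∧ (∀ t < k, ω (i + 1 + t) = 0) ∧
        Nat.sqrt (q (i + k + 1)) ≤ ω (i + k + 1))).card : ℝ) /
      ∑ i ∈ range n, (∏ t ∈ range k, (q (i + 1 + t) : ℝ))⁻¹) atTop (𝓝 1)) ∧
    ∀ᶠ n in atTop,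
      ∑ i ∈ range n, (if ω i < Nat.sqrt (q i) then Real.log (q i) else 0) ≤ 50 * n := by
  refine (Eventually.and (ae_all_iff.2 fun k => ?_) (Eventually.and (ae_all_iff.2 fun k => ?_)
    (cost q hq))).exists
  · by_cases hk : 1 ≤ k
    · simp only [hk, forall_const]
      refine ae_all_iff.2 fun B => ?_
      filter_upwards [blk q hq hqi (fun _ => Set.univ) (by simp) k
        (fun t => if h : t < k then B ⟨t, h⟩ else 0) (hd k hk)] with ω hω
      refine hω.congr fun n => ?_
      congr 2
      refine congrArg Finset.card (Finset.ext fun i => ?_)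
      simp only [mem_filter, Set.mem_univ, true_and, and_true]
      exact and_congr_right fun _ =>
        ⟨fun h t => by simpa using h t t.2, fun h t ht => by simpa [ht] using h ⟨t, ht⟩⟩
    · simp [hk]
  · by_cases hk : 1 ≤ k
    · simp only [hk, forall_const]
      filter_upwards [blk q hq hqi _ (G_lim q hq hqi) k (fun _ => 0) (hd k hk)] with ω hω
      convert hω using 5
      simp
    · simp [hk]

end

end Pool.Agent.H47.Cantor
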