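import Mathlib

namespace Pool.Agent.H47.Catalan

open Finset

/-- order-preserving, order-decreasing self-maps of a finite chain -/
def C (n : ℕ) : Submonoid (Function.End (Fin (n + 1))) where
  carrier := {f | Monotone f ∧ ∀ i, f i ≤ i}
  one_mem' := ⟨monotone_id, fun _ => le_rfl⟩
  mul_mem' := fun hf hg => ⟨hf.1.comp hg.1, fun i => (hf.2 _).trans (hg.2 i)⟩

variable {n : ℕ}

instance : Finite (C n) :=
  Finite.of_injective (β := Fin (n + 1) → Fin (n + 1)) (fun f : C n => f.1) Subtype.val_injective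

lemma mul_apply (f g : C n) (i) : (f * g).1 i = f.1 (g.1 i) := rfl

lemma ext' {f g : C n} (h : ∀ i, f.1 i = g.1 i) : f = g := Subtype.ext (funext h)

lemma exL (x : C n) : ∃ e : C n, e * e = e ∧ ∀ a b : C n, x * a = x * b ↔ e * a = e * b := by
  let e : Fin (n + 1) → Fin (n + 1) := fun i => (univ.filter (fun k => x.1 k = x.1 i)).min' ⟨i, by simp⟩
  have h1 : ∀ i, x.1 (e i) = x.1 i := fun i =>
    (mem_filter.mp (min'_mem (univ.filter (fun k => x.1 k = x.1 i)) _)).2
  have h2 : ∀ i k, x.1 k = x.1 i → e i ≤ k := fun i k h => min'_le _ _ (by simpa using h)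
  have h3 : ∀ i j, x.1 i = x.1 j ↔ e i = e j := fun i j =>
    ⟨fun h => le_antisymm (h2 _ _ ((h1 j).trans h.symm)) (h2 _ _ ((h1 i).trans h)),
      fun h => by rw [← h1 i, h, h1]⟩
  refine ⟨⟨e, fun i j hij => ?_, fun i => h2 i i rfl⟩, ext' fun i => (h3 _ _).mp (h1 i), fun a b =>
    ⟨fun h => ext' fun i => (h3 _ _).mp (congrFun (congrArg Subtype.val h) i),
      fun h => ext' fun i => (h3 _ _).mpr (congrFun (congrArg Subtype.val h) i)⟩⟩
  rcases le_total i (e j) with h | h
  · exact (h2 i i rfl).trans h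
  · exact h2 _ _ (le_antisymm (x.2.1 h) ((x.2.1 hij).trans (h1 j).ge))

lemma exR (x : C n) : ∃ e : C n, e * e = e ∧ ∀ a b : C n, a * x = b * x ↔ a * e = b * e := by
  classical
  let e : Fin (n + 1) → Fin (n + 1) := fun i =>
    (univ.filter (fun k => (∃ j, x.1 j = k) ∧ k ≤ i)).max' ⟨x.1 i, by simpa using x.2.2 i⟩
  have h1 : ∀ i, (∃ j, x.1 j = e i) ∧ e i ≤ i := fun i =>
    (mem_filter.mp (max'_mem (univ.filter (fun k => (∃ j, x.1 j = k) ∧ k ≤ i)) _)).2
  have h2 : ∀ i k, (∃ j, x.1 j = k) → k ≤ i → k ≤ e i := fun i k h h' =>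
    le_max' _ _ (mem_filter.mpr ⟨mem_univ _, h, h'⟩)
  have h3 : ∀ j, e (x.1 j) = x.1 j := fun j => le_antisymm (h1 _).2 (h2 _ _ ⟨j, rfl⟩ le_rfl)
  refine ⟨⟨e, fun i j hij => h2 _ _ (h1 i).1 ((h1 i).2.trans hij), fun i => (h1 i).2⟩,
    ext' fun i => ?_, fun a b => ⟨fun h => ext' fun i => ?_, fun h => ext' fun i => ?_⟩⟩
  · obtain ⟨j, hj⟩ := (h1 i).1
    change e (e i) = e i
    rw [← hj, h3]
  · obtain ⟨j, hj⟩ := (h1 i).1
    change a.1 (e i) = b.1 (e i)
    rw [← hj]; exact congrFun (congrArg Subtype.val h) j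
  · have : a.1 (e (x.1 i)) = b.1 (e (x.1 i)) := congrFun (congrArg Subtype.val h) (x.1 i)
    rwa [h3] at this

lemma uniqL (e f : C n) (h1 : e * f = e) (h2 : f * e = f) : e = f :=
  ext' fun i => le_antisymm (by rw [← h1]; exact e.2.2 _) (by rw [← h2]; exact f.2.2 _)

lemma uniqR (e f : C n) (h1 : e * f = f) (h2 : f * e = e) : e = f :=
  ext' fun i => le_antisymm (by rw [← h2]; exact f.2.1 (e.2.2 _)) (by rw [← h1]; exact e.2.1 (f.2.2 _))

/-- the alternating word with first letter `s` and length `m + 1` -/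
def W (n s m : ℕ) : C n :=
  ⟨fun i => ⟨i - ((i + s + m) % 2 + m), by omega⟩, fun i j h => by
    simp only [Fin.le_def] at h ⊢; omega, fun i => by simp only [Fin.le_def]; omega⟩

lemma W_mul (n s m t k : ℕ) : W n s (m + k + (s + m + t) % 2) = W n s m * W n t k :=
  ext' fun i => Fin.ext (by simp only [mul_apply, W]; omega)

lemma W_inj (s m t k : ℕ) (hs : s < 2) (ht : t < 2) (h : ∀ n, W n s m = W n t k) :
    s = t ∧ m = k := by
  have h1 := congrArg Fin.val (congrFun (congrArg Subtype.val (h (m + k + 2))) ⟨m + k + 1, by omega⟩)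
  have h2 := congrArg Fin.val (congrFun (congrArg Subtype.val (h (m + k + 2))) ⟨m + k + 2, by omega⟩)
  simp only [W] at h1 h2
  omega

/-- collapsing an adjoined identity onto the identity of a monoid -/
def col {M : Type} [Monoid M] : WithOne M →* M := WithOne.lift (MulHom.id M)

lemma left_iff {M : Type} [Monoid M] (x : M) (a b : WithOne M) :
    (x : WithOne M) * a = x * b ↔ x * col a = x * col b := by
  have : ∀ a : WithOne M, (x : WithOne M) * a = (x * col a : M) := fun a => by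
    induction a using WithOne.recOneCoe <;> simp [col]
  rw [this, this, WithOne.coe_inj]

lemma right_iff {M : Type} [Monoid M] (x : M) (a b : WithOne M) :
    a * (x : WithOne M) = b * x ↔ col a * x = col b * x := by
  have : ∀ a : WithOne M, a * (x : WithOne M) = (col a * x : M) := fun a => by
    induction a using WithOne.recOneCoe <;> simp [col]
  rw [this, this, WithOne.coe_inj]

lemma amL (x : C n) : ∃! e : C n, e * e = e ∧ ∀ a b : WithOne (C n),
    (x : WithOne (C n)) * a = x * b ↔ (e : WithOne (C n)) * a = e * b := by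
  obtain ⟨e, h1, h2⟩ := exL x
  refine ⟨e, ⟨h1, fun a b => by rw [left_iff, left_iff, h2]⟩, fun f ⟨h3, h4⟩ => uniqL _ _ ?_ ?_⟩
  · have := (h4 e 1).mp (by rw [left_iff, h2]; simp [col, h1])
    simpa [← WithOne.coe_mul] using this
  · have := (h4 f 1).mpr (by simp [← WithOne.coe_mul, h3])
    rw [left_iff, h2] at this
    simpa [col] using this

lemma amR (x : C n) : ∃! e : C n, e * e = e ∧ ∀ a b : WithOne (C n),
    a * (x : WithOne (C n)) = b * x ↔ a * (e : WithOne (C n)) = b * e := by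
  obtain ⟨e, h1, h2⟩ := exR x
  refine ⟨e, ⟨h1, fun a b => by rw [right_iff, right_iff, h2]⟩, fun f ⟨h3, h4⟩ => uniqR _ _ ?_ ?_⟩
  · have := (h4 f 1).mpr (by simp [← WithOne.coe_mul, h3])
    rw [right_iff, h2] at this
    simpa [col] using this
  · have := (h4 e 1).mp (by rw [right_iff, h2]; simp [col, h1])
    simpa [← WithOne.coe_mul] using this

end Pool.Agent.H47.Catalan
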