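import Mathlib

open Set Filter Topology Metric Polynomial

namespace Pool.Agent.H47.Chord

theorem ray {L σ : Set ℂ} (hL : IsClosed L) (hσ : IsCompact σ) (hf : frontier σ ⊆ L) {a v : ℂ}
    (ha : a ∉ L) (hv : v ≠ 0) (h : ∀ t : ℝ, 0 ≤ t → a + t * v ∈ L → ∃ c ρ ρ', ρ < ρ' ∧
      a + t * v ∈ closedBall c ρ ∧ closedBall c ρ ⊆ L ∧ ball c ρ' ∩ L ⊆ closedBall c ρ) :
    a ∉ σ := fun h0 => by
  have v0 : 0 < ‖v‖ := norm_pos_iff.2 hv
  have int : ∀ w ∈ σ, w ∉ L → w ∈ interior σ := fun w a b => by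
    by_contra c
    exact b (hf ⟨subset_closure a, c⟩)
  let T : Set ℝ := {t | 0 ≤ t ∧ a + t * v ∈ σ ∧ a + t * v ∉ L}
  have T0 : (0 : ℝ) ∈ T := ⟨le_rfl, by simpa, by simpa⟩
  have Tb : BddAbove T := by
    obtain ⟨R, hR⟩ := hσ.isBounded.exists_norm_le
    refine ⟨(R + ‖a‖) / ‖v‖, fun t ht => ?_⟩
    have := norm_sub_le (a + t * v) a
    rw [add_sub_cancel_left, norm_mul, Complex.norm_real, Real.norm_of_nonneg ht.1] at this
    rw [le_div_iff₀ v0]; linarith [hR _ ht.2.1]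
  have cg : Continuous fun t : ℝ => a + t * v := by fun_prop
  have cl : sSup T ∈ closure T := csSup_mem_closure ⟨0, T0⟩ Tb
  have t0 : 0 ≤ sSup T := le_csSup Tb T0
  by_cases e : a + (sSup T : ℝ) * v ∈ L
  · obtain ⟨c, ρ, ρ', h1, h2, h3, h4⟩ := h _ t0 e
    have ρ0 : 0 ≤ ρ := dist_nonneg.trans h2
    let N : Set ℂ := {z | ρ < dist z c ∧ dist z c < ρ'}
    have NL : ∀ z ∈ N, z ∉ L := fun z hz b => absurd (h4 ⟨hz.2, b⟩) (not_le.2 hz.1)
    have Nc : IsPreconnected N := by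
      convert ((isPreconnected_Ioo (a := ρ) (b := ρ')).prod (isPreconnected_univ (α := ℝ))).image
        (fun p => circleMap c p.1 p.2) (by unfold circleMap; fun_prop) using 1
      ext z
      constructor
      · intro hz
        obtain ⟨θ, hθ⟩ : z ∈ range (circleMap c (dist z c)) := by
          rw [range_circleMap, abs_dist]; exact mem_sphere.2 rfl
        exact ⟨(_, θ), ⟨hz, trivial⟩, hθ⟩
      · rintro ⟨⟨r, θ⟩, ⟨hr, -⟩, rfl⟩
        have : dist (circleMap c r θ) c = r := circleMap_mem_sphere c (ρ0.trans hr.1.le) θ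
        simp only [N, mem_ofPred_eq, this]; exact hr
    have Ns : N ⊆ interior σ := by
      refine Nc.subset_of_closure_inter_subset isOpen_interior ?_ fun w hw =>
        int w (closure_minimal interior_subset hσ.isClosed hw.1) (NL w hw.2)
      obtain ⟨t, a1, a2⟩ := mem_closure_iff.1 cl _ (isOpen_ball.preimage cg) (h2.trans_lt h1)
      exact ⟨_, ⟨not_le.1 fun z => a2.2.2 (h3 z), a1⟩, int _ a2.2.1 a2.2.2⟩
    obtain ⟨t, a1, a2⟩ := intermediate_value_Icc (a := sSup T) (b := sSup T + (ρ + ρ') / ‖v‖)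
      (f := fun t : ℝ => dist (a + t * v) c) (le_add_of_nonneg_right (div_nonneg (by linarith) v0.le))
      (by fun_prop) (show (ρ + ρ') / 2 ∈ _ from ⟨by linarith [mem_closedBall.1 h2], by
        have := dist_triangle_right (a + (sSup T + (ρ + ρ') / ‖v‖ : ℝ) * v) (a + (sSup T : ℝ) * v) c
        rw [dist_add_left, dist_eq_norm, ← sub_mul, norm_mul, ← Complex.ofReal_sub,
          add_sub_cancel_left, Complex.norm_real, Real.norm_of_nonneg (div_nonneg (by linarith)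
            v0.le), div_mul_cancel₀ _ v0.ne'] at this
        linarith [mem_closedBall.1 h2]⟩)
    have a3 : a + t * v ∈ N := by simp only at a2; constructor <;> linarith
    have : t = sSup T := le_antisymm (le_csSup Tb ⟨t0.trans a1.1, interior_subset (Ns a3),
      NL _ a3⟩) a1.1
    exact NL _ a3 (this ▸ e)
  · have m : a + (sSup T : ℝ) * v ∈ σ :=
      closure_minimal (fun t ht => ht.2.1) (hσ.isClosed.preimage cg) cl
    have : ∀ᶠ t : ℝ in 𝓝[>] sSup T, a + t * v ∈ interior σ ∩ Lᶜ := nhdsWithin_le_nhds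
      (cg.continuousAt.preimage_mem_nhds ((isOpen_interior.inter hL.isOpen_compl).mem_nhds
        ⟨int _ m e, e⟩))
    obtain ⟨t, a1, a2⟩ := (this.and self_mem_nhdsWithin).exists
    exact absurd (le_csSup Tb ⟨t0.trans (le_of_lt a2), interior_subset a1.1, a1.2⟩) (not_le.2 a2)

/-- Runge-type step: polynomial approximation of reciprocals of zero-free polynomials -/
theorem inv_approx {L : Set ℂ} (hL : IsCompact L) (ne : L.Nonempty)
    (h : ∀ σ : Set ℂ, IsCompact σ → frontier σ ⊆ L → σ ⊆ L) (q : ℂ[X]) (hq : ∀ z ∈ L, q.eval z ≠ 0)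
    {ε : ℝ} (e0 : 0 < ε) : ∃ p : ℂ[X], ∀ z ∈ L, ‖p.eval z - (q.eval z)⁻¹‖ ≤ ε := by
  have : CompactSpace L := isCompact_iff_compactSpace.1 hL
  have : Nonempty L := ne.to_subtype
  let S := (polynomialFunctions L).topologicalClosure
  have hS : IsClosed (S : Set C(L, ℂ)) := Subalgebra.isClosed_topologicalClosure _
  have : CompleteSpace S := hS.completeSpace_coe
  let x : S := ⟨toContinuousMapOnAlgHom L X,
    Subalgebra.le_topologicalClosure _ ⟨X, trivial, rfl⟩⟩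
  have s : spectrum ℂ x ⊆ L := h _ (spectrum.isCompact x) ((Subalgebra.frontier_spectrum S x).trans
    (by rw [ContinuousMap.spectrum_eq_range]; rintro _ ⟨z, rfl⟩; simp [x]))
  have u : IsUnit (aeval x q) := by
    rw [← spectrum.zero_notMem_iff ℂ, spectrum.map_polynomial_aeval]
    rintro ⟨z, a, b⟩
    exact hq z (s a) b
  obtain ⟨y, hy⟩ := u.exists_right_inv
  obtain ⟨_, ⟨p, -, rfl⟩, hp⟩ := Metric.mem_closure_iff.1 y.2 ε e0
  refine ⟨p, fun z hz => ?_⟩
  have a : (aeval x q).1 = toContinuousMapOnAlgHom L q := by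
    rw [show (aeval x q).1 = aeval x.1 q from (aeval_algHom_apply S.val x q).symm,
      aeval_algHom_apply, aeval_X_left_apply]
  have b : q.eval z * y.1 ⟨z, hz⟩ = 1 := by
    have := congr(($hy).1 ⟨z, hz⟩)
    simpa [a] using this
  rw [← eq_inv_of_mul_eq_one_right b, norm_sub_rev, ← dist_eq_norm]
  exact (ContinuousMap.dist_apply_le_dist (f := y.1) ⟨z, hz⟩).trans hp.le

theorem idem {L : Set ℂ} (hL : IsCompact L) (ne : L.Nonempty)
    (h : ∀ σ : Set ℂ, IsCompact σ → frontier σ ⊆ L → σ ⊆ L) {c : ℂ} {ρ ρ' : ℝ} (h0 : 0 < ρ)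
    (h1 : ρ < ρ') (h2 : ball c ρ' ∩ L ⊆ closedBall c ρ) {ε : ℝ} (e0 : 0 < ε) :
    ∃ p : ℂ[X], ∀ z ∈ L, (z ∈ closedBall c ρ → ‖p.eval z - 1‖ ≤ ε) ∧
      (z ∉ closedBall c ρ → ‖p.eval z‖ ≤ ε) := by
  obtain ⟨r, r1, r2⟩ := exists_between h1
  have r0 : 0 < r := h0.trans r1
  have t1 : Tendsto (fun n : ℕ => (ρ / r) ^ n) atTop (𝓝 0) :=
    tendsto_pow_atTop_nhds_zero_of_lt_one (by positivity) ((div_lt_one r0).2 r1)
  have t2 : Tendsto (fun n : ℕ => (ρ' / r) ^ n) atTop atTop :=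
    tendsto_pow_atTop_atTop_of_one_lt ((one_lt_div r0).2 r2)
  obtain ⟨n, ⟨n1, n2⟩, n3⟩ := (((t1.eventually (ge_mem_nhds (by positivity : 0 < ε / 4))).and
    (t1.eventually (ge_mem_nhds one_half_pos))).and (t2.eventually_ge_atTop (1 + 2 / ε))).exists
  let w : ℂ → ℂ := fun z => ((z - c) / r) ^ n
  have w1 : ∀ z ∈ closedBall c ρ, ‖w z‖ ≤ (ρ / r) ^ n := fun z hz => by
    simp only [w, norm_pow, norm_div, Complex.norm_real, Real.norm_of_nonneg r0.le]
    gcongr; exact mem_closedBall_iff_norm.1 hz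
  have w2 : ∀ z ∈ L, z ∉ closedBall c ρ → 2 / ε ≤ ‖1 - w z‖ := fun z hz a => by
    have b : ρ' ≤ ‖z - c‖ := not_lt.1 fun b => a (h2 ⟨mem_ball_iff_norm.2 b, hz⟩)
    have : (ρ' / r) ^ n ≤ ‖w z‖ := by
      simp only [w, norm_pow, norm_div, Complex.norm_real, Real.norm_of_nonneg r0.le]
      have : 0 < ρ' := r0.trans r2
      gcongr
    have d := norm_sub_norm_le (w z) 1
    rw [norm_sub_rev, norm_one] at d
    linarith
  have w3 : ∀ z ∈ closedBall c ρ, 1 / 2 ≤ ‖1 - w z‖ := fun z hz => by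
    have d := norm_sub_norm_le 1 (w z)
    rw [norm_one] at d
    linarith [w1 z hz]
  have ev : ∀ z, (1 - (C (r : ℂ)⁻¹ * (X - C c)) ^ n).eval z = 1 - w z := fun z => by
    simp [w, div_eq_inv_mul]
  obtain ⟨p, hp⟩ := inv_approx hL ne h (1 - (C (r : ℂ)⁻¹ * (X - C c)) ^ n) (fun z hz => by
    rw [ev, ← norm_pos_iff]
    by_cases a : z ∈ closedBall c ρ
    · linarith [w3 z a]
    · exact lt_of_lt_of_le (by positivity) (w2 z hz a)) (half_pos e0)
  refine ⟨p, fun z hz => ⟨fun a => ?_, fun a => ?_⟩⟩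
  · have b := w3 z a
    have d : ‖(1 - w z)⁻¹ - 1‖ ≤ ε / 2 := by
      have : 1 - w z ≠ 0 := norm_pos_iff.1 (by linarith)
      rw [show (1 - w z)⁻¹ - 1 = w z / (1 - w z) by field_simp; ring, norm_div,
        div_le_iff₀ (by linarith)]
      nlinarith [w1 z a]
    have := hp z hz
    rw [ev] at this
    linarith [norm_sub_le_norm_sub_add_norm_sub (p.eval z) (1 - w z)⁻¹ 1]
  · have b := w2 z hz a
    have d : ‖(1 - w z)⁻¹‖ ≤ ε / 2 := by
      rw [norm_inv, inv_le_comm₀ (lt_of_lt_of_le (by positivity) b) (by positivity), inv_div]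
      exact b
    have := hp z hz
    rw [ev] at this
    linarith [norm_le_norm_sub_add (p.eval z) (1 - w z)⁻¹]

theorem taylor {g : ℂ → ℂ} {c : ℂ} {ρ s : ℝ} (hg : DifferentiableOn ℂ g (ball c ρ)) (s0 : 0 < s)
    (hs : s < ρ) {ε : ℝ} (e0 : 0 < ε) :
    ∃ p : ℂ[X], ∀ z ∈ closedBall c s, ‖p.eval z - g z‖ ≤ ε := by
  obtain ⟨r, r1, r2⟩ := exists_between hs
  obtain ⟨r', a1, a2⟩ := exists_between r1
  lift r to NNReal using (s0.trans r1).le
  lift r' to NNReal using (s0.trans a1).le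
  have := (hg.mono (closedBall_subset_ball r2)).hasFPowerSeriesOnBall (by exact_mod_cast s0.trans r1)
  obtain ⟨n, hn⟩ := (Metric.tendstoUniformlyOn_iff.1 (this.tendstoUniformlyOn' (r' := r')
    (by exact_mod_cast a2)) ε e0).exists
  refine ⟨∑ k ∈ Finset.range n, (X - C c) ^ k * C ((cauchyPowerSeries g c r).coeff k),
    fun z hz => ?_⟩
  have := hn z (closedBall_subset_ball a1 hz)
  rw [dist_comm, dist_eq_norm] at this
  refine le_trans (le_of_eq ?_) this.le
  simp [FormalMultilinearSeries.partialSum, eval_finsetSum]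

end Pool.Agent.H47.Chord
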