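import Pool.Agent.H47.CofD

open Set

namespace Pool.Agent.H47.Cof

theorem build {α : Type} [Nonempty α] (Q : ℕ → (ℕ → α) → Prop)
    (loc : ∀ k f g, (∀ i ≤ k, f i = g i) → Q k f → Q k g)
    (h : ∀ k f, (∀ i < k, Q i f) → ∃ y, Q k (Function.update f k y)) : ∃ f, ∀ k, Q k f := by
  classical
  let nx : ℕ → (ℕ → α) → α := fun k f =>
    if hk : ∀ i < k, Q i f then (h k f hk).choose else Classical.arbitrary α
  let s : ℕ → ℕ → α := fun k =>
    @Nat.rec (fun _ => ℕ → α) (fun _ => Classical.arbitrary α)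
      (fun k f => Function.update f k (nx k f)) k
  have hs : ∀ k, s (k + 1) = Function.update (s k) k (nx k (s k)) := fun _ => rfl
  have st : ∀ i k, i < k → s k i = s (i + 1) i := fun i k hk => by
    induction k, hk using Nat.le_induction with
    | base => rfl
    | succ k hk ih => rw [hs, Function.update_of_ne (by omega), ih]
  have q : ∀ k, ∀ i < k, Q i (s k) := fun k => by
    induction k with
    | zero => simp
    | succ k ih =>
      intro i hi
      rcases Nat.lt_succ_iff_lt_or_eq.1 hi with hi | rfl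
      · exact loc i _ _ (fun j hj => by rw [hs, Function.update_of_ne (by omega)]) (ih i hi)
      · rw [hs]; simp only [nx, dif_pos ih]; exact (h i _ ih).choose_spec
  exact ⟨fun i => s (i + 1) i, fun k => loc k _ _ (fun i hi => st i (k + 1) (by omega))
    (q (k + 1) k (by omega))⟩

noncomputable def tr (b : Bool) (t : ℝ) : ℝ := if b then min t 1 else t

theorem tr_le (b : Bool) (t : ℝ) : tr b t ≤ t := by cases b <;> simp [tr]
theorem tr_lip (b : Bool) {s t r : ℝ} (h : s ≤ t + r) (hr : 0 ≤ r) : tr b s ≤ tr b t + r := by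
  cases b <;> simp only [tr, if_true, Bool.false_eq_true, if_false]
  · exact h
  · rcases le_total t 1 with h1 | h1
    · rw [min_eq_left h1]; exact (min_le_left _ _).trans h
    · rw [min_eq_right h1]; exact (min_le_right _ _).trans (by linarith)
theorem tr_mono (b : Bool) {s t : ℝ} (h : s ≤ t) : tr b s ≤ tr b t := by
  simpa using tr_lip b (r := 0) (by simpa using h) le_rfl
theorem tr_add (b : Bool) {s t : ℝ} (hs : 0 ≤ s) (ht : 0 ≤ t) : tr b (s + t) ≤ tr b s + tr b t := by
  cases b <;> simp only [tr, if_true, Bool.false_eq_true, if_false]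
  · exact le_rfl
  · simp only [min_def]; split_ifs <;> linarith
theorem tr_tr (b : Bool) {s t : ℝ} (hs : 0 ≤ s) : tr b (s + t) ≤ tr b (s + tr b t) := by
  cases b <;> simp only [tr, if_true, Bool.false_eq_true, if_false]
  · exact le_rfl
  · simp only [min_def]; split_ifs <;> linarith
theorem tr_rat (b : Bool) (q : ℚ) : ∃ q' : ℚ, tr b q = q' := by
  cases b
  · exact ⟨q, rfl⟩
  · exact ⟨min q 1, by simp [tr]⟩
theorem tr_idem (b : Bool) (t : ℝ) : tr b (tr b t) = tr b t := by cases b <;> simp [tr]

variable {U : Type} [MetricSpace U]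

/-- the standing hypotheses -/
structure Ury (b : Bool) (U : Type) [MetricSpace U] : Prop where
  rat : RatDist U
  bd : ∀ x y : U, tr b (dist x y) = dist x y
  hom : Homog U
  univ : ∀ (Y : Type) [MetricSpace Y] [Finite Y], RatDist Y →
    (∀ x y : Y, tr b (dist x y) = dist x y) → ∃ j : Y → U, Isometry j

theorem Ury.ep {b : Bool} (h : Ury b U) (F : Finset U) (g : U → ℝ)
    (g1 : ∀ w, ∃ q : ℚ, g w = q) (g2 : ∀ w, tr b (g w) = g w)
    (g3 : ∀ w w', dist w w' ≤ g w + g w') (g4 : ∀ w w', g w ≤ g w' + dist w w') :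
    ∃ y, ∀ w ∈ F, dist y w = g w := by
  classical
  by_cases h0 : ∃ w, g w = 0
  · obtain ⟨w, hw⟩ := h0
    refine ⟨w, fun w' _ => le_antisymm (by linarith [g3 w w']) ?_⟩
    linarith [g4 w' w, dist_comm w w']
  push Not at h0
  have gn : ∀ w, 0 ≤ g w := fun w => by linarith [g3 w w, dist_self w]
  let D : Option F → Option F → ℝ := fun a c => match a, c with
    | none, none => 0
    | none, some c => g c
    | some a, none => g a
    | some a, some c => dist a.1 c.1
  let _ : MetricSpace (Option F) :=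
    { dist := D
      dist_self := by rintro (_ | a) <;> simp [D]
      dist_comm := by rintro (_ | a) (_ | c) <;> simp [D, dist_comm]
      dist_triangle := by
        rintro (_ | a) (_ | c) (_ | e) <;> simp only [D]
        · simp
        · simp
        · linarith [gn c]
        · linarith [g4 e c, dist_comm e.1 c.1]
        · simp
        · exact g3 _ _
        · linarith [g4 a c]
        · exact dist_triangle _ _ _
      eq_of_dist_eq_zero := by
        rintro (_ | a) (_ | c) <;> simp only [D]
        · simp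
        · exact fun e => (h0 _ e).elim
        · exact fun e => (h0 _ e).elim
        · exact fun e => congrArg some (Subtype.ext (dist_eq_zero.1 e)) }
  obtain ⟨j, hj⟩ := h.univ (Option F) (by
    rintro (_ | a) (_ | c)
    · exact ⟨0, by simp⟩
    · exact g1 _
    · exact g1 _
    · exact h.rat _ _) (by
    rintro (_ | a) (_ | c)
    · show tr b 0 = 0
      cases b <;> simp [tr]
    · exact g2 _
    · exact g2 _
    · exact h.bd _ _)
  obtain ⟨α, hα⟩ := h.hom F (fun w => if hw : w ∈ F then j (some ⟨w, hw⟩) else w)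
    fun a ha c hc => by simp only [dif_pos ha, dif_pos hc]; exact hj.dist_eq _ _
  refine ⟨α.symm (j none), fun w hw => ?_⟩
  rw [← α.dist_eq, α.apply_symm_apply, hα w hw, dif_pos hw]
  exact hj.dist_eq _ _

theorem Ury.hc {b : Bool} (h : Ury b U) {ι : Type} [Finite ι] [Nonempty ι] (z : ι → U)
    (r : ι → ℝ) (r1 : ∀ a, ∃ q : ℚ, r a = q) (r2 : ∀ a c, dist (z a) (z c) ≤ r a + r c)
    (F : Finset U) : ∃ y, ∀ w ∈ F, (∃ a, dist y w = tr b (r a + dist (z a) w)) ∧
      ∀ c, dist y w ≤ r c + dist (z c) w := by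
  have hm : ∀ w, ∃ a, ∀ c, r a + dist (z a) w ≤ r c + dist (z c) w := fun w =>
    Finite.exists_min fun a => r a + dist (z a) w
  choose m hm using hm
  have rn : ∀ a, 0 ≤ r a := fun a => by linarith [r2 a a, dist_self (z a)]
  obtain ⟨y, hy⟩ := h.ep F (fun w => tr b (r (m w) + dist (z (m w)) w)) (fun w => by
      obtain ⟨q, hq⟩ := r1 (m w)
      obtain ⟨q', hq'⟩ := h.rat (z (m w)) w
      rw [hq, hq', ← Rat.cast_add]; exact tr_rat b _) (fun w => tr_idem _ _)
    (fun w w' => by
      rw [← h.bd]
      refine (tr_mono b ?_).trans (tr_add b (by have := rn (m w); positivity)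
        (by have := rn (m w'); positivity))
      linarith [dist_triangle4 w (z (m w)) (z (m w')) w', dist_comm w (z (m w)), r2 (m w) (m w')])
    (fun w w' => tr_lip b (by
      linarith [hm w (m w'), dist_triangle (z (m w')) w' w, dist_comm w w']) dist_nonneg)
  exact ⟨y, fun w hw => ⟨⟨m w, hy w hw⟩, fun c => by
    rw [hy w hw]; exact (tr_le _ _).trans (hm w c)⟩⟩

theorem Ury.good {b : Bool} (h : Ury b U) [Countable U] [Nonempty U] {X : Type} [Countable X]
    [Nonempty X] (ρ : X → X → ℝ) (ρ0 : ∀ a, ρ a a = 0) (ρ1 : ∀ a c, ρ a c = ρ c a)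
    (ρ2 : ∀ a c e, ρ a e ≤ ρ a c + ρ c e) (ρ3 : ∀ a c, ∃ q : ℚ, ρ a c = q) :
    ∃ e : X → U, (∀ a c, dist (e a) (e c) = tr b (ρ a c)) ∧
      ∀ φ : X → U, (∀ a c, dist (φ a) (φ c) ≤ ρ a c) →
        ∃ r : U → U, (∀ p q, dist (r p) (r q) ≤ dist p q) ∧ ∀ a, r (e a) = φ a := by
  classical
  obtain ⟨x, hx⟩ := exists_surjective_nat X
  obtain ⟨p, hp⟩ := exists_surjective_nat U
  have ρn : ∀ a c, 0 ≤ ρ a c := fun a c => by linarith [ρ2 a c a, ρ0 a, ρ1 a c]
  have t0 : tr b 0 = 0 := by cases b <;> simp [tr]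
  obtain ⟨E, hE⟩ := build (fun k (E : ℕ → U) => (∀ j < k, dist (E k) (E j) = tr b (ρ (x k) (x j))) ∧
      ∀ j < k, ∃ i < k, dist (E k) (p j) = tr b (ρ (x k) (x i) + dist (E i) (p j)))
    (fun k f g e ⟨a1, a2⟩ => ⟨fun j hj => by rw [← e k le_rfl, ← e j hj.le]; exact a1 j hj,
      fun j hj => by
        obtain ⟨i, hi, a3⟩ := a2 j hj
        exact ⟨i, hi, by rw [← e k le_rfl, ← e i hi.le]; exact a3⟩⟩)
    (fun k E hE => by
      rcases Nat.eq_zero_or_pos k with rfl | hk
      · exact ⟨p 0, by simp, by simp⟩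
      have : Nonempty (Fin k) := ⟨⟨0, hk⟩⟩
      have e1 : ∀ i j : Fin k, dist (E i) (E j) = tr b (ρ (x i) (x j)) := fun i j => by
        rcases lt_trichotomy i j with h | rfl | h
        · rw [dist_comm, ρ1]; exact (hE j j.2).1 i h
        · rw [dist_self, ρ0, t0]
        · exact (hE i i.2).1 j h
      obtain ⟨y, hy⟩ := h.hc (fun i : Fin k => E i) (fun i => ρ (x k) (x i)) (fun _ => ρ3 _ _)
        (fun i j => by
          rw [e1]; linarith [tr_le b (ρ (x i) (x j)), ρ2 (x i) (x k) (x j), ρ1 (x i) (x k)])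
        ((Finset.range k).image E ∪ (Finset.range k).image p)
      refine ⟨y, fun j hj => ?_, fun j hj => ?_⟩
      · rw [Function.update_self, Function.update_of_ne hj.ne]
        obtain ⟨⟨a, a1⟩, a2⟩ := hy (E j) (by simp; exact Or.inl ⟨j, hj, rfl⟩)
        refine le_antisymm ?_ ?_
        · rw [← h.bd]; exact tr_mono b (by simpa using a2 ⟨j, hj⟩)
        · rw [a1, e1 a ⟨j, hj⟩]
          exact (tr_mono b (ρ2 _ _ _)).trans (tr_tr b (ρn _ _))
      · obtain ⟨⟨a, a1⟩, -⟩ := hy (p j) (by simp; exact Or.inr ⟨j, hj, rfl⟩)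
        exact ⟨a, a.2, by rw [Function.update_self, Function.update_of_ne a.2.ne]; exact a1⟩)
  have e1 : ∀ i j, dist (E i) (E j) = tr b (ρ (x i) (x j)) := fun i j => by
    rcases lt_trichotomy i j with h | rfl | h
    · rw [dist_comm, ρ1]; exact (hE j).1 i h
    · rw [dist_self, ρ0, t0]
    · exact (hE i).1 j h
  refine ⟨fun a => E (Function.surjInv hx a), fun a c => by
    rw [e1, Function.surjInv_eq hx, Function.surjInv_eq hx], fun φ hφ => ?_⟩
  have hφ' : ∀ i j, dist (φ (x i)) (φ (x j)) ≤ dist (E i) (E j) := fun i j => by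
    rw [e1, ← h.bd]; exact tr_mono b (hφ _ _)
  obtain ⟨R, hR⟩ := build (fun k (R : ℕ → U) => (∀ j < k, dist (R k) (R j) ≤ dist (p k) (p j)) ∧
      ∀ i, dist (R k) (φ (x i)) ≤ dist (p k) (E i))
    (fun k f g e ⟨a1, a2⟩ => ⟨fun j hj => by rw [← e k le_rfl, ← e j hj.le]; exact a1 j hj,
      fun j => by rw [← e k le_rfl]; exact a2 j⟩)
    (fun k R hR => by
      obtain ⟨y, hy⟩ := h.hc (ι := Fin k ⊕ Fin (k + 1))
        (Sum.elim (fun j => R j) fun i => φ (x i))
        (Sum.elim (fun j => dist (p k) (p j)) fun i => dist (p k) (E i))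
        (by rintro (j | i) <;> exact h.rat _ _) (by
          rintro (j | i) (j' | i') <;> simp only [Sum.elim_inl, Sum.elim_inr]
          · refine le_trans ?_ (dist_triangle_left _ _ _)
            rcases lt_trichotomy j j' with h | rfl | h
            · rw [dist_comm, dist_comm (p j)]; exact (hR j' j'.2).1 j h
            · simp
            · exact (hR j j.2).1 j' h
          · exact ((hR j j.2).2 i').trans (dist_triangle_left _ _ _)
          · rw [dist_comm, add_comm (dist _ _)]
            exact ((hR j' j'.2).2 i).trans (dist_triangle_left _ _ _)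
          · exact (hφ' _ _).trans (dist_triangle_left _ _ _))
        ((Finset.range k).image R ∪ (Finset.range (k + 1)).image fun i => φ (x i))
      refine ⟨y, fun j hj => ?_, fun i => ?_⟩
      · rw [Function.update_self, Function.update_of_ne hj.ne]
        simpa using (hy (R j) (by simp; exact Or.inl ⟨j, hj, rfl⟩)).2 (.inl ⟨j, hj⟩)
      · rw [Function.update_self]
        induction i using Nat.strong_induction_on with
        | _ i ih =>
          rcases le_or_gt i k with hi | hi
          · simpa using (hy (φ (x i)) (by simp; exact Or.inr ⟨i, hi, rfl⟩)).2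
              (.inr ⟨i, by omega⟩)
          · obtain ⟨i', h1, h2⟩ := (hE i).2 k hi
            rw [dist_comm (p k), h2, ← h.bd]
            refine tr_mono b ?_
            linarith [ih i' h1, dist_triangle y (φ (x i')) (φ (x i)), hφ (x i') (x i),
              ρ1 (x i) (x i'), dist_comm (p k) (E i')])
  refine ⟨fun w => R (Function.surjInv hp w), fun w w' => ?_, fun a => ?_⟩
  · conv_rhs => rw [← Function.surjInv_eq hp w, ← Function.surjInv_eq hp w']
    dsimp only
    generalize Function.surjInv hp w = j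
    generalize Function.surjInv hp w' = j'
    rcases lt_trichotomy j j' with h | rfl | h
    · rw [dist_comm, dist_comm (p j)]; exact (hR j').1 j h
    · simp
    · exact (hR j).1 j' h
  · have := (hR (Function.surjInv hp (E (Function.surjInv hx a)))).2 (Function.surjInv hx a)
    rw [Function.surjInv_eq hp, Function.surjInv_eq hx, dist_self] at this
    exact dist_le_zero.1 this

end Pool.Agent.H47.Cof
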