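import Pool.Agent.H47.CofA

open Set

namespace Pool.Agent.H47.Cof

variable {U : Type} [MetricSpace U]

theorem unary_mem {r : U → U} (hr : ∀ p q, dist (r p) (r q) ≤ dist p q) :
    (fun x : Fin 1 → U => r (x 0)) ∈ PolM U 0 := fun x y => (hr _ _).trans (dist_le_pi_dist x y 0)

theorem IsClone.un {A : Type} {C : ∀ n, Set (Op A n)} (hC : IsClone C) {r : A → A}
    (hr : (fun x : Fin 1 → A => r (x 0)) ∈ C 0) {m : ℕ} {g : Op A m} (hg : g ∈ C m) :
    (fun x => r (g x)) ∈ C m := hC.2 0 m _ (fun _ => g) hr fun _ => hg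

theorem Ury.path {b : Bool} (h : Ury b U) (o : U) (r : ℕ → U → U)
    (hr : ∀ n p q, dist (r n p) (r n q) ≤ dist p q) :
    ∃ s : ℕ → U → U, (∀ j p q, dist (s j p) (s j q) ≤ dist p q) ∧
      (∀ j, dist (s j o) (s (j + 1) o) ≤ 1) ∧ ∀ n, ∃ j, s j = r n := by
  classical
  have mv : ∀ z c : U, ∃ z', dist z z' ≤ 1 ∧ ∀ N : ℕ, dist z c ≤ N + 1 → dist z' c ≤ N := by
    intro z c
    obtain ⟨y, hy⟩ := h.hc (ι := Bool) (fun t => if t then z else c)
      (fun t => if t then 1 else max (dist z c - 1) 0) (by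
        obtain ⟨q, hq⟩ := h.rat z c
        rintro (_ | _)
        · exact ⟨max (q - 1) 0, by simp [hq]⟩
        · exact ⟨1, by simp⟩) (by
        have := le_max_left (dist z c - 1) 0
        have := le_max_right (dist z c - 1) 0
        rintro (_ | _) (_ | _) <;> simp only [if_true, Bool.false_eq_true, if_false, dist_self] <;>
          linarith [dist_comm z c]) {z, c}
    refine ⟨y, by rw [dist_comm]; simpa using (hy z (by simp)).2 true, fun N hN => ?_⟩
    refine le_trans (by simpa using (hy c (by simp)).2 false) (max_le (a := dist z c - 1) (b := 0)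
      (by linarith) (Nat.cast_nonneg _))
  choose mv m1 m2 using mv
  let nx : ℕ × U → ℕ × U := fun t => if t.2 = r t.1 o then (t.1 + 1, t.2) else (t.1, mv t.2 (r t.1 o))
  let st : ℕ → ℕ × U := fun j => nx^[j] (0, o)
  have hs : ∀ j, st (j + 1) = nx (st j) := fun j => Function.iterate_succ_apply' _ _ _
  have c1 : ∀ (N : ℕ) z n j, st j = (n, z) → dist z (r n o) ≤ N → ∃ j', st j' = (n, r n o) := by
    intro N
    induction N with
    | zero => exact fun z n j e hz => ⟨j, by
        rw [e, show z = r n o from dist_le_zero.1 (by simpa using hz)]⟩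
    | succ N ih =>
      intro z n j e hz
      by_cases hc : z = r n o
      · exact ⟨j, hc ▸ e⟩
      · exact ih _ n (j + 1) (by rw [hs, e]; exact if_neg hc) (m2 _ _ N (by exact_mod_cast hz))
  have c2 : ∀ n, ∃ j, st j = (n, r n o) := fun n => by
    induction n with
    | zero => exact c1 _ o 0 0 rfl (Nat.le_ceil _)
    | succ n ih =>
      obtain ⟨j, hj⟩ := ih
      exact c1 _ (r n o) (n + 1) (j + 1) (by rw [hs, hj]; exact if_pos rfl) (Nat.le_ceil _)
  have c3 : ∀ j, (if (st j).2 = r (st j).1 o then r (st j).1 else fun _ => (st j).2) o = (st j).2 :=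
    fun j => by split_ifs with h; exacts [h.symm, rfl]
  refine ⟨fun j => if (st j).2 = r (st j).1 o then r (st j).1 else fun _ => (st j).2,
    fun j p q => ?_, fun j => ?_, fun n => ?_⟩
  · dsimp only; split_ifs
    · exact hr _ _ _
    · simp
  · dsimp only; rw [c3, c3, hs]
    simp only [nx]; split_ifs
    · simp
    · exact m1 _ _
  · obtain ⟨j, hj⟩ := c2 n
    exact ⟨j, by simp [hj]⟩

theorem Ury.four {b : Bool} (h : Ury b U) [Countable U] [Nonempty U] (f : ℕ → Σ n, Op U n)
    (hf : ∀ k, (f k).2 ∈ PolM U (f k).1) : ∃ (u : Op U 1) (a c d : Op U 0),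
      u ∈ PolM U 1 ∧ a ∈ PolM U 0 ∧ c ∈ PolM U 0 ∧ d ∈ PolM U 0 ∧
      ∀ C : ∀ n, Set (Op U n), IsClone C → u ∈ C 1 → a ∈ C 0 → c ∈ C 0 → d ∈ C 0 →
        ∀ k, (f k).2 ∈ C (f k).1 := by
  classical
  obtain ⟨e, e1, e2⟩ := h.good (X := U × U) dist dist_self dist_comm dist_triangle fun a c => by
    obtain ⟨q, hq⟩ := h.rat a.1 c.1
    obtain ⟨q', hq'⟩ := h.rat a.2 c.2
    exact ⟨max q q', by simp [Prod.dist_eq, hq, hq']⟩
  obtain ⟨π1, p1, p1'⟩ := e2 Prod.fst fun a c => le_max_left _ _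
  obtain ⟨π2, p2, p2'⟩ := e2 Prod.snd fun a c => le_max_right _ _
  have hn : ∀ n, ∃ (un : Op U n) (dec : U → Fin (n + 1) → U),
      (∀ C : ∀ n, Set (Op U n), IsClone C → (fun x : Fin 2 → U => e (x 0, x 1)) ∈ C 1 → un ∈ C n) ∧
      (∀ p q, dist (dec p) (dec q) ≤ dist p q) ∧ ∀ x, dec (un x) = x := fun n => by
    induction n with
    | zero => exact ⟨fun x => x 0, fun p _ => p, fun C hC _ => hC.1 0 0, fun p q => by simp,
        fun x => funext fun i => by rw [Fin.fin_one_eq_zero i]⟩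
    | succ n ih =>
      obtain ⟨un, dec, a1, a2, a3⟩ := ih
      refine ⟨fun x => e (x 0, un fun i => x i.succ), fun p => Fin.cons (π1 p) (dec (π2 p)),
        fun C hC hu => ?_, fun p q => ?_, fun x => ?_⟩
      · refine hC.2 1 (n + 1) _ ![fun x => x 0, fun x => un fun i => x i.succ] hu ?_
        refine Fin.forall_fin_two.2 ⟨hC.1 _ 0, ?_⟩
        exact hC.2 n (n + 1) un (fun i x => x i.succ) (a1 C hC hu) fun i => hC.1 _ _
      · refine (dist_pi_le_iff dist_nonneg).2 (Fin.forall_fin_succ.2 ⟨p1 p q, fun i => ?_⟩)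
        exact (dist_le_pi_dist _ _ i).trans ((a2 _ _).trans (p2 p q))
      · dsimp only; rw [p1', p2', a3]; exact Fin.cons_self_tail x
  choose un dec a1 a2 a3 using hn
  obtain ⟨o⟩ := ‹Nonempty U›
  obtain ⟨s, s1, s2, s3⟩ := h.path o (fun k p => (f k).2 (dec _ p))
    fun k p q => (hf k _ _).trans (a2 _ _ _)
  have s4 : ∀ j j' : ℕ, j ≤ j' → dist (s j o) (s j' o) ≤ (j' : ℝ) - j := fun j j' hj => by
    induction j', hj using Nat.le_induction with
    | base => simp
    | succ j' _ ih => push_cast; linarith [dist_triangle (s j o) (s j' o) (s (j' + 1) o), s2 j']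
  let ρ : U × ℕ → U × ℕ → ℝ := fun a c =>
    if a.2 = c.2 then dist a.1 c.1 else dist a.1 o + dist c.1 o + |(a.2 : ℝ) - c.2|
  obtain ⟨E, E1, E2⟩ := h.good ρ (fun a => by simp [ρ]) (fun a c => by
      simp only [ρ, eq_comm (a := c.2)]
      split_ifs
      · exact dist_comm _ _
      · rw [abs_sub_comm]; ring) (fun a c g => by
      have := abs_sub_le (a.2 : ℝ) c.2 g.2
      have := abs_nonneg ((a.2 : ℝ) - c.2)
      have := abs_nonneg ((c.2 : ℝ) - g.2)
      have := @dist_nonneg _ _ c.1 o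
      have := dist_triangle a.1 c.1 g.1
      have := dist_triangle_right a.1 g.1 o
      have := dist_triangle a.1 c.1 o
      have := dist_triangle_left g.1 o c.1
      simp only [ρ]
      split_ifs with h1 h2 h3 h4 h5 h6 h7
      · linarith
      · exact absurd (h2.symm.trans h1) h3
      · exact absurd (h1.trans h4.symm) h2
      · linarith
      · exact absurd (h5.trans h6) h1
      · rw [h5]; linarith
      · rw [← h7]; linarith
      · linarith) (fun a c => by
      obtain ⟨q1, h1⟩ := h.rat a.1 c.1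
      obtain ⟨q2, h2⟩ := h.rat a.1 o
      obtain ⟨q3, h3⟩ := h.rat c.1 o
      simp only [ρ]
      split_ifs
      · exact ⟨q1, h1⟩
      · exact ⟨q2 + q3 + |(a.2 : ℚ) - c.2|, by simp [h2, h3]⟩)
  obtain ⟨σ, σ1, σ2⟩ := E2 (fun a => E (a.1, a.2 + 1)) fun a c => by
    rw [E1]; refine (tr_le _ _).trans (le_of_eq ?_); simp [ρ]
  obtain ⟨τ, τ1, τ2⟩ := E2 (fun a => s a.2 a.1) fun a c => by
    simp only [ρ]
    split_ifs with h1
    · rw [h1]; exact s1 _ _ _
    · have := dist_triangle4 (s a.2 a.1) (s a.2 o) (s c.2 o) (s c.2 c.1)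
      have := s1 a.2 a.1 o
      have := s1 c.2 o c.1
      have := dist_comm o c.1
      rcases le_total a.2 c.2 with h2 | h2
      · linarith [s4 _ _ h2, neg_le_abs ((a.2 : ℝ) - c.2)]
      · linarith [s4 _ _ h2, le_abs_self ((a.2 : ℝ) - c.2), dist_comm (s a.2 o) (s c.2 o)]
  refine ⟨fun x => e (x 0, x 1), fun x => E (x 0, 0), fun x => σ (x 0), fun x => τ (x 0),
    fun x y => ?_, unary_mem (r := fun p => E (p, 0)) fun p q => ?_, unary_mem σ1, unary_mem τ1,
    fun C hC hu ha hc hd k => ?_⟩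
  · rw [e1]; exact (tr_le _ _).trans (max_le (dist_le_pi_dist x y 0) (dist_le_pi_dist x y 1))
  · rw [E1]; refine (tr_le _ _).trans (le_of_eq ?_); simp [ρ]
  · obtain ⟨j, hj⟩ := s3 k
    have : ∀ j, (fun x => E (un (f k).1 x, j)) ∈ C (f k).1 := fun j => by
      induction j with
      | zero => exact hC.un (r := fun p => E (p, 0)) ha (a1 _ C hC hu)
      | succ j ih => simpa only [σ2] using hC.un hc ih
    simpa only [τ2, hj, a3] using hC.un hd (this j)

theorem Ury.not_countCof {b : Bool} (h : Ury b U) [Countable U] [Nonempty U] :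
    ¬ CountCof (PolM U) := by
  rintro ⟨F, h1, h2, h3, h4⟩
  have sub : ∀ i n, F i n ⊆ PolM U n := fun i n => h4 n ▸ subset_iUnion (fun i => F i n) i
  have ex : ∀ i, ∃ f : Σ n, Op U n, f.2 ∈ PolM U f.1 ∧ f.2 ∉ F i f.1 := fun i => by
    by_contra hc
    push Not at hc
    exact h3 i (funext fun n => (sub i n).antisymm fun f hf => hc ⟨n, f⟩ hf)
  choose f f1 f2 using ex
  obtain ⟨u, a, c, d, m1, m2, m3, m4, H⟩ := h.four f f1
  rw [h4, mem_iUnion] at m1 m2 m3 m4
  obtain ⟨i1, m1⟩ := m1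
  obtain ⟨i2, m2⟩ := m2
  obtain ⟨i3, m3⟩ := m3
  obtain ⟨i4, m4⟩ := m4
  have mono : ∀ n, Monotone fun i => F i n := fun n => monotone_nat_of_le_succ fun i => h2 i n
  exact f2 _ (H (F (i1 + i2 + i3 + i4)) (h1 _) (mono 1 (by omega) m1) (mono 0 (by omega) m2)
    (mono 0 (by omega) m3) (mono 0 (by omega) m4) _)

theorem countable_clone {A : Type} (H : Set (Σ n, Op A n)) (hH : H.Countable) :
    ∃ C : ∀ n, Set (Op A n), IsClone C ∧ (∀ h ∈ H, h.2 ∈ C h.1) ∧ ∀ n, (C n).Countable := by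
  let G : ℕ → ∀ n, Set (Op A n) := fun k => @Nat.rec (fun _ => ∀ n, Set (Op A n))
    (fun n => Sigma.mk n ⁻¹' H ∪ range fun (i : Fin (n + 1)) (x : Fin (n + 1) → A) => x i)
    (fun _ G m => G m ∪ ⋃ n, image2 (fun (f : Op A n) (g : Fin (n + 1) → Op A m) =>
      (fun x => f fun i => g i x : Op A m)) (G n) (univ.pi fun _ => G m)) k
  have mono : ∀ n, Monotone fun k => G k n := fun n =>
    monotone_nat_of_le_succ fun k => subset_union_left
  refine ⟨fun n => ⋃ k, G k n, ⟨fun n i => mem_iUnion.2 ⟨0, Or.inr ⟨i, rfl⟩⟩,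
    fun n m f g hf hg => ?_⟩, fun h hh => mem_iUnion.2 ⟨0, Or.inl hh⟩, fun n => countable_iUnion
      fun k => ?_⟩
  · obtain ⟨k, hk⟩ := mem_iUnion.1 hf
    choose l hl using fun i => mem_iUnion.1 (hg i)
    refine mem_iUnion.2 ⟨k + Finset.univ.sup l + 1, Or.inr (mem_iUnion.2 ⟨n, f,
      mono n (Nat.le_add_right _ _) hk, g, fun i _ => mono m ?_ (hl i), rfl⟩)⟩
    exact (Finset.le_sup (f := l) (Finset.mem_univ i)).trans (Nat.le_add_left _ _)
  · induction k generalizing n with
    | zero => exact (hH.preimage sigma_mk_injective).union (countable_range _)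
    | succ k ih =>
      exact (ih n).union (countable_iUnion fun m => (ih m).image2
        (countable_univ_pi fun _ => ih n) _)

theorem Ury.not_finGen {b : Bool} (h : Ury b U) [Countable U] [Nonempty U] :
    ¬ FinGen (PolM U) := by
  classical
  rintro ⟨H, h1, -, h3⟩
  obtain ⟨C, c1, c2, c3⟩ := countable_clone H h1.countable
  have hc := (c3 0).mono (h3 C c1 c2 0)
  obtain ⟨e, e1, e2⟩ := h.good (X := ℕ) (fun a c => if a = c then 0 else 1) (by simp)
    (fun a c => by simp only [eq_comm]) (fun a c g => by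
      split_ifs with h1 h2 h3 h4 h5 h6 h7 <;> first | (norm_num; done) | omega)
    (fun a c => by split_ifs; exacts [⟨0, by simp⟩, ⟨1, by simp⟩])
  have e01 : dist (e 0) (e 1) = 1 := by rw [e1]; cases b <;> simp [tr]
  have ne : e 0 ≠ e 1 := fun h => by simp [h] at e01
  choose r r1 r2 using fun A : Set ℕ => e2 (fun n => if n ∈ A then e 0 else e 1) fun a c => by
    by_cases hac : a = c
    · simp [hac]
    · rw [if_neg hac]; split_ifs <;> simp [e01, dist_comm (e 1)]
  have inj : Function.Injective fun (A : Set ℕ) (x : Fin 1 → U) => r A (x 0) := fun A B hAB => by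
    ext n
    have := congrFun hAB fun _ => e n
    simp only [r2] at this
    by_cases h1 : n ∈ A <;> by_cases h2 : n ∈ B <;> simp_all [ne.symm]
  have : (Set.univ : Set (Set ℕ)).Countable :=
    (hc.preimage inj).mono fun A _ => unary_mem (r1 A)
  obtain ⟨g, hg⟩ := (countable_univ_iff.1 this).exists_injective_nat
  exact Function.cantor_injective g hg

end Pool.Agent.H47.Cof
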