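import Pool.Agent.H47.CofD

open Set

namespace Pool.Agent.H47.Cof

theorem dict {Λ : Type} [LinearOrder Λ] (s : ℕ) : ∀ m : ℕ, ∃ N : ℕ,
    ∀ M : (Fin (s + 1) → ℕ) → Λ, Monotone M → ∃ (i : Fin (s + 1)) (c h : Fin (s + 1) → ℕ),
      (∀ j, 0 < h j ∧ c j + h j * m ≤ N) ∧ ∀ p q : Fin (s + 1) → ℕ, (∀ j, p j ≤ m) →
        (∀ j, q j ≤ m) → p i < q i → M (fun j => c j + h j * p j) ≤ M (fun j => c j + h j * q j) := by
  induction s with
  | zero =>
    refine fun m => ⟨m, fun M hM => ⟨0, 0, 1, fun j => by simp, fun p q _ _ h => hM fun j => ?_⟩⟩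
    rw [Fin.fin_one_eq_zero j]; simpa using h.le
  | succ s ih =>
    intro m
    obtain ⟨R, hR⟩ := ih (2 * m + 1)
    let W : ℕ → ℕ := fun b => (m + 1) * (R + 1) ^ b
    have Ws : ∀ b, W (b + 1) = W b * (R + 1) := fun b => by simp only [W]; ring
    refine ⟨W m + (m + 1) * (m + 1), fun M hM => ?_⟩
    have hc : ∀ {y y' : ℕ} {v v' : Fin (s + 1) → ℕ}, y ≤ y' → (∀ j, v j ≤ v' j) →
        M (Fin.cons y v) ≤ M (Fin.cons y' v') := fun h1 h2 =>
      hM (Fin.forall_fin_succ.2 ⟨h1, h2⟩)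
    have E : ∀ b, ∀ u : Fin (s + 1) → ℕ,
        (∃ v : Fin (s + 1) → ℕ, (∀ j, u j ≤ v j ∧ v j + m ≤ u j + W b) ∧ ∀ β < b,
          M (Fin.cons (β * (m + 1)) fun j => v j + m) ≤ M (Fin.cons ((β + 1) * (m + 1)) v)) ∨
        ∃ β < b, ∃ (v : Fin (s + 1) → ℕ) (h : ℕ), 0 < h ∧ (∀ j, v j + h * (R + 1) ≤ u j + W b) ∧
          ∀ p : Fin (s + 1) → ℕ, (∀ j, p j ≤ R) →
            M (Fin.cons ((β + 1) * (m + 1)) fun j => v j + h * p j) ≤
              M (Fin.cons (β * (m + 1)) fun j => v j + h * (p j + 1)) := by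
      intro b
      induction b with
      | zero => exact fun u => Or.inl ⟨u, fun j => ⟨le_rfl, by simp [W]⟩, by simp⟩
      | succ b ihb =>
        intro u
        by_cases hh : ∀ p : Fin (s + 1) → ℕ, (∀ j, p j ≤ R) →
            M (Fin.cons ((b + 1) * (m + 1)) fun j => u j + W b * p j) ≤
              M (Fin.cons (b * (m + 1)) fun j => u j + W b * (p j + 1))
        · exact Or.inr ⟨b, by omega, u, W b, by positivity, fun j => by rw [Ws], hh⟩
        push Not at hh
        obtain ⟨p, p1, p2⟩ := hh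
        have bd : ∀ j, u j + W b * p j + W b ≤ u j + W (b + 1) := fun j => by
          rw [Ws]; nlinarith [p1 j]
        rcases ihb (fun j => u j + W b * p j) with ⟨v, v1, v2⟩ | ⟨β, b1, v, h, h1, h2, h3⟩
        · refine Or.inl ⟨v, fun j => ⟨le_trans (Nat.le_add_right _ _) (v1 j).1,
            (v1 j).2.trans (bd j)⟩, fun β hβ => ?_⟩
          rcases Nat.lt_succ_iff_lt_or_eq.1 hβ with hβ | rfl
          · exact v2 β hβ
          · exact (hc le_rfl fun j => (v1 j).2.trans (le_of_eq (by ring))).trans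
              (p2.le.trans (hc le_rfl fun j => (v1 j).1))
        · exact Or.inr ⟨β, by omega, v, h, h1, fun j => (h2 j).trans (bd j), h3⟩
    have cons_eq : ∀ (c0 h0 : ℕ) (c h : Fin (s + 1) → ℕ) (p : Fin (s + 2) → ℕ),
        (fun j => (Fin.cons c0 c : Fin (s + 2) → ℕ) j + (Fin.cons h0 h : Fin (s + 2) → ℕ) j * p j) =
          Fin.cons (c0 + h0 * p 0) fun j => c j + h j * p j.succ := fun c0 h0 c h p =>
      funext (Fin.forall_fin_succ.2 ⟨rfl, fun _ => rfl⟩)
    rcases E m 0 with ⟨v, v1, v2⟩ | ⟨β, b1, v, h, h1, h2, h3⟩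
    · refine ⟨0, Fin.cons 0 v, Fin.cons (m + 1) 1, Fin.forall_fin_succ.2 ⟨⟨by simp, ?_⟩,
        fun j => ⟨by simp, ?_⟩⟩, fun p q hp hq hpq => ?_⟩
      · simp only [Fin.cons_zero]; nlinarith
      · have := (v1 j).2
        simp only [Fin.cons_succ, Pi.one_apply, Pi.zero_apply] at this ⊢; omega
      · rw [cons_eq, cons_eq]
        refine (hc (le_of_eq (by ring)) fun j => ?_).trans ((v2 (p 0)
          (lt_of_lt_of_le hpq (hq 0))).trans (hc (by nlinarith) fun j => Nat.le_add_right _ _))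
        simpa using hp j.succ
    · obtain ⟨i, c, k, k1, k2⟩ := hR (fun p => M (Fin.cons (β * (m + 1)) fun j => v j + h * p j))
        fun p q hpq => hc le_rfl fun j => by gcongr; exact hpq j
      refine ⟨i.succ, Fin.cons (β * (m + 1)) fun j => v j + h * c j,
        Fin.cons 1 fun j => h * (2 * k j), Fin.forall_fin_succ.2 ⟨⟨by simp, ?_⟩,
        fun j => ⟨?_, ?_⟩⟩, fun p q hp hq hpq => ?_⟩
      · simp only [Fin.cons_zero]; nlinarith
      · have := (k1 j).1
        simp only [Fin.cons_succ]; positivity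
      · have a := h2 j
        have b := Nat.mul_le_mul_left h (k1 j).2
        simp only [Fin.cons_succ, Pi.zero_apply] at a ⊢
        nlinarith
      · rw [cons_eq, cons_eq]
        have a1 := h3 (fun j => c j + k j * (2 * p j.succ)) fun j =>
          le_trans (by have := hp j.succ; gcongr; omega) (k1 j).2
        have a2 := k2 (fun j => 2 * p j.succ + 1) (fun j => 2 * q j.succ)
          (fun j => by have := hp j.succ; omega) (fun j => by have := hq j.succ; omega) (by omega)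
        refine (hc (by nlinarith [hp 0]) fun j => le_of_eq (by ring)).trans (a1.trans
          ((hc le_rfl fun j => ?_).trans (a2.trans
            (hc (Nat.le_add_right _ _) fun j => le_of_eq (by ring)))))
        have := (k1 j).1
        gcongr; nlinarith

abbrev Pt (s : ℕ) : Type := (Fin (s + 2) → ℕ) × ℕ

variable {s : ℕ}

def KK (B : Finset (Pt s)) : Prop := ∀ a ∈ B, ∀ b ∈ B, (∀ i, a.1 i ≤ b.1 i) → a.2 ≤ b.2

def Hom (e : Pt s → Pt s) (B C : Finset (Pt s)) : Prop :=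
  (∀ a ∈ B, e a ∈ C) ∧ ∀ a ∈ B, ∀ b ∈ B,
    (∀ i, a.1 i < b.1 i → (e a).1 i < (e b).1 i) ∧ (a.2 < b.2 → (e a).2 < (e b).2)

theorem Hom.comp {e e' : Pt s → Pt s} {A B C : Finset (Pt s)} (h : Hom e B C) (h' : Hom e' A B) :
    Hom (e ∘ e') A C :=
  ⟨fun a ha => h.1 _ (h'.1 a ha), fun a ha b hb =>
    ⟨fun i hi => (h.2 _ (h'.1 a ha) _ (h'.1 b hb)).1 i ((h'.2 a ha b hb).1 i hi),
      fun hi => (h.2 _ (h'.1 a ha) _ (h'.1 b hb)).2 ((h'.2 a ha b hb).2 hi)⟩⟩

def Dic (B : Finset (Pt s)) (M : Pt s → ℚ) : Prop :=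
  ∃ i, ∀ a ∈ B, ∀ b ∈ B, a.1 i < b.1 i → M a ≤ M b

theorem Dic.comp {e : Pt s → Pt s} {A B : Finset (Pt s)} {M : Pt s → ℚ} (h : Dic B M)
    (h' : Hom e A B) : Dic A (M ∘ e) := by
  obtain ⟨i, hi⟩ := h
  exact ⟨i, fun a ha b hb hab => hi _ (h'.1 a ha) _ (h'.1 b hb) ((h'.2 a ha b hb).1 i hab)⟩

theorem ex_bound (B : Finset (Pt s)) : ∃ H, 0 < H ∧ ∀ a ∈ B, (∀ i, a.1 i < H) ∧ a.2 < H := by
  refine ⟨B.sup (fun a => Finset.univ.sup a.1 + a.2) + 1, by omega, fun a ha => ?_⟩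
  have := Finset.le_sup (f := fun a : Pt s => Finset.univ.sup a.1 + a.2) ha
  refine ⟨fun i => ?_, by omega⟩
  have := Finset.le_sup (f := a.1) (Finset.mem_univ i)
  omega

theorem ram1 (j : Fin (s + 2)) (B : Finset (Pt s)) (hB : KK B) : ∃ C, KK C ∧ (∃ e, Hom e B C) ∧
    ∀ M : Pt s → ℚ, (∀ a ∈ C, ∀ b ∈ C, (∀ i, i ≠ j → a.1 i < b.1 i) → M a ≤ M b) →
      ∃ e, Hom e B C ∧ Dic B (M ∘ e) := by
  classical
  obtain ⟨H, H0, hH⟩ := ex_bound B
  obtain ⟨N, hN⟩ := dict (Λ := WithBot ℚ) s (2 * H + 1)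
  let G := Fin (s + 2) → Fin (N + 1) × Fin (N + 1)
  let idx : G → ℕ := fun g => Fintype.equivFin G g
  have inj : Function.Injective idx := Fin.val_injective.comp (Fintype.equivFin G).injective
  let E : G → Pt s → Pt s := fun g a => (fun i => if i = j then idx g * H + a.1 i
    else (g i).1 + ((g i).2 + 1) * (2 * a.1 i + 1), idx g * H + a.2)
  let C : Finset (Pt s) := Finset.univ.biUnion fun g => B.image (E g)
  have hE : ∀ g, Hom (E g) B C := fun g => ⟨fun a ha => Finset.mem_biUnion.2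
    ⟨g, Finset.mem_univ _, Finset.mem_image_of_mem _ ha⟩, fun a _ b _ => ⟨fun i hi => by
      simp only [E]; split_ifs
      · omega
      · gcongr, fun h => by simp only [E]; omega⟩⟩
  refine ⟨C, ?_, ⟨_, hE fun _ => (0, 0)⟩, fun M hM => ?_⟩
  · intro x hx y hy hxy
    simp only [C, Finset.mem_biUnion, Finset.mem_image] at hx hy
    obtain ⟨g, -, a, ha, rfl⟩ := hx
    obtain ⟨g', -, b, hb, rfl⟩ := hy
    have e1 := hxy j
    simp only [E, if_true] at e1 hxy ⊢
    rcases lt_trichotomy (idx g) (idx g') with h | h | h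
    · nlinarith [(hH a ha).2]
    · obtain rfl := inj h
      refine Nat.add_le_add_left (hB a ha b hb fun i => ?_) _
      have := hxy i
      split_ifs at this
      · omega
      · have := Nat.le_of_mul_le_mul_left (Nat.le_of_add_le_add_left this) (by omega)
        omega
    · nlinarith [(hH b hb).1 j]
  · obtain ⟨i, c, h, h1, h2⟩ := hN (fun p => (C.filter fun x => ∀ l, x.1 (j.succAbove l) ≤ p l).sup
      fun x => (M x : WithBot ℚ)) fun p q hpq => Finset.sup_mono fun x hx => by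
        simp only [Finset.mem_filter] at hx ⊢
        exact ⟨hx.1, fun l => (hx.2 l).trans (hpq l)⟩
    let g : G := j.insertNth (0, 0) fun l => (⟨c l, by have := (h1 l).2; omega⟩,
      ⟨h l - 1, by have := h1 l; have : h l ≤ h l * (2 * H + 1) := Nat.le_mul_of_pos_right _ (by omega); omega⟩)
    have hg : ∀ a l, (E g a).1 (j.succAbove l) = c l + h l * (2 * a.1 (j.succAbove l) + 1) :=
      fun a l => by
        simp only [E, if_neg (j.succAbove_ne l), g, Fin.insertNth_apply_succAbove]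
        rw [Nat.sub_add_cancel (h1 l).1]
    refine ⟨E g, hE g, j.succAbove i, fun a ha b hb hab => ?_⟩
    have := h2 (fun l => 2 * a.1 (j.succAbove l) + 1) (fun l => 2 * b.1 (j.succAbove l))
      (fun l => by have := (hH a ha).1 (j.succAbove l); omega)
      (fun l => by have := (hH b hb).1 (j.succAbove l); omega) (by omega)
    rw [← WithBot.coe_le_coe]
    refine (Finset.le_sup (f := fun x => (M x : WithBot ℚ)) (Finset.mem_filter.2
      ⟨(hE g).1 a ha, fun l => (hg a l).le⟩)).trans (this.trans (Finset.sup_le fun x hx => ?_))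
    rw [Finset.mem_filter] at hx
    refine WithBot.coe_le_coe.2 (hM x hx.1 _ ((hE g).1 b hb) fun i' hi' => ?_)
    obtain ⟨l, rfl⟩ := Fin.exists_succAbove_eq hi'
    rw [hg]
    have := (h1 l).1
    exact (hx.2 l).trans_lt (by nlinarith)

theorem ram2 (J : Finset (Fin (s + 2))) (B : Finset (Pt s)) (hB : KK B) :
    ∃ C, KK C ∧ (∃ e, Hom e B C) ∧ ∀ j ∈ J,
    ∀ M : Pt s → ℚ, (∀ a ∈ C, ∀ b ∈ C, (∀ i, i ≠ j → a.1 i < b.1 i) → M a ≤ M b) →
      ∃ e, Hom e B C ∧ Dic B (M ∘ e) := by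
  induction J using Finset.induction_on with
  | empty => exact ⟨B, hB, ⟨id, fun _ h => h, fun _ _ _ _ => ⟨fun _ h => h, fun h => h⟩⟩, by simp⟩
  | insert j J _ ih =>
    obtain ⟨C, c1, ⟨e, c2⟩, c3⟩ := ih
    obtain ⟨D, d1, ⟨e', d2⟩, d3⟩ := ram1 j C c1
    refine ⟨D, d1, ⟨_, d2.comp c2⟩, fun j' hj M hM => ?_⟩
    rcases Finset.mem_insert.1 hj with rfl | hj
    · obtain ⟨e1, a1, a2⟩ := d3 M hM
      exact ⟨_, a1.comp c2, a2.comp c2⟩
    · obtain ⟨e1, a1, a2⟩ := c3 j' hj (M ∘ e') fun a ha b hb hab =>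
        hM _ (d2.1 a ha) _ (d2.1 b hb) fun i hi => (d2.2 a ha b hb).1 i (hab i hi)
      exact ⟨_, d2.comp a1, a2⟩

def Rz (C : Finset (Pt s)) (φ : Pt s → Fin (s + 2) → ℚ) : Prop :=
  ∀ a ∈ C, ∀ b ∈ C, ∀ i, a.1 i < b.1 i → φ a i ≤ φ b i

def Good (t : Op ℚ (s + 1)) : Prop := ∀ B, KK B → ∃ C, KK C ∧
  ∀ φ, Rz C φ → ∃ e, Hom e B C ∧ Dic B ((fun a => t (φ a)) ∘ e)

theorem good_many {ι : Type} (t : ι → Op ℚ (s + 1)) (ht : ∀ l, Good (t l)) (J : Finset ι)
    (B : Finset (Pt s)) (hB : KK B) : ∃ C, KK C ∧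
      ∀ φ, Rz C φ → ∃ e, Hom e B C ∧ ∀ l ∈ J, Dic B ((fun a => t l (φ a)) ∘ e) := by
  classical
  induction J using Finset.induction_on with
  | empty => exact ⟨B, hB, fun _ _ =>
      ⟨id, ⟨fun _ h => h, fun _ _ _ _ => ⟨fun _ h => h, fun h => h⟩⟩, by simp⟩⟩
  | insert j J _ ih =>
    obtain ⟨C, c1, c2⟩ := ih
    obtain ⟨D, d1, d2⟩ := ht j C c1
    refine ⟨D, d1, fun φ hφ => ?_⟩
    obtain ⟨e, a1, a2⟩ := d2 φ hφ
    obtain ⟨e', b1, b2⟩ := c2 (φ ∘ e) fun a ha b hb i hi =>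
      hφ _ (a1.1 a ha) _ (a1.1 b hb) i ((a1.2 a ha b hb).1 i hi)
    refine ⟨_, a1.comp b1, fun l hl => ?_⟩
    rcases Finset.mem_insert.1 hl with rfl | hl
    · exact a2.comp b1
    · exact b2 l hl

theorem good_comp {m : ℕ} (hm : m ≤ s) (h : Op ℚ m) (hh : Monotone h)
    (t : Fin (m + 1) → Op ℚ (s + 1)) (ht : ∀ l, Good (t l)) :
    Good fun x => h fun l => t l x := by
  intro B hB
  obtain ⟨C, c1, -, c2⟩ := ram2 Finset.univ B hB
  obtain ⟨D, d1, d2⟩ := good_many t ht Finset.univ C c1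
  refine ⟨D, d1, fun φ hφ => ?_⟩
  obtain ⟨e, a1, a2⟩ := d2 φ hφ
  choose i hi using fun l => a2 l (Finset.mem_univ l)
  obtain ⟨j, hj⟩ : ∃ j, ∀ l, i l ≠ j := by
    by_contra hc
    push Not at hc
    have := Fintype.card_le_of_surjective i hc
    simp at this; omega
  obtain ⟨e', b1, b2⟩ := c2 j (Finset.mem_univ _) (fun a => h fun l => t l (φ (e a)))
    fun a ha b hb hab => hh fun l => hi l a ha b hb (hab _ (hj l))
  exact ⟨_, a1.comp b1, b2⟩

theorem not_good (s : ℕ) : ∃ f : Op ℚ (s + 1), Monotone f ∧ ¬ Good f := by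
  classical
  obtain ⟨en, hen⟩ := exists_surjective_nat (Finset (Pt s))
  let D : ℕ → Finset (Pt s) := fun r => if KK (en r) then en r else ∅
  have DK : ∀ r, KK (D r) := fun r => by
    simp only [D]; split_ifs with h
    · exact h
    · simp [KK]
  choose H H0 hH using fun r => ex_bound (D r)
  let o : ℕ → ℕ := fun r => ∑ r' ∈ Finset.range r, H r'
  have os : ∀ r r', r < r' → o r + H r ≤ o r' := fun r r' h => by
    rw [← Finset.sum_range_succ]
    exact Finset.sum_le_sum_of_subset (Finset.range_mono h)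
  have om : StrictMono o := fun r r' h => by have := os r r' h; have := H0 r; omega
  let f : Op ℚ (s + 1) := fun x => ((Finset.range (⌈x 0⌉₊ + 1)).sup fun r => (D r).sup fun a =>
    if ∀ i, ((o r + a.1 i : ℕ) : ℚ) ≤ x i then o r + a.2 else 0 : ℕ)
  have hf : ∀ r, ∀ a ∈ D r, f (fun i => ((o r + a.1 i : ℕ) : ℚ)) = (o r + a.2 : ℕ) := by
    intro r a ha
    refine congrArg Nat.cast (le_antisymm (Finset.sup_le fun r' _ => Finset.sup_le fun b hb => ?_)
      (Finset.le_sup_of_le (b := r) ?_ (Finset.le_sup_of_le ha (by simp))))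
    · split_ifs with h
      · simp only [Nat.cast_le] at h
        rcases lt_trichotomy r' r with h' | rfl | h'
        · have := os _ _ h'
          have := (hH _ b hb).2
          omega
        · exact Nat.add_le_add_left (DK _ b hb a ha fun i => by have := h i; omega) _
        · have := os _ _ h'
          have := (hH _ a ha).1 0
          have := h 0
          omega
      · exact Nat.zero_le _
    · have := om.id_le r
      simp only [Nat.ceil_natCast, Finset.mem_range, id] at this ⊢; omega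
  refine ⟨f, fun x y hxy => Nat.cast_le.2 (Finset.sup_le fun r hr => Finset.le_sup_of_le (b := r)
    ?_ (Finset.sup_mono_fun fun a _ => ?_)), fun hg => ?_⟩
  · have := Nat.ceil_mono (hxy 0)
    simp only [Finset.mem_range] at hr ⊢; omega
  · split_ifs with h1 h2
    · exact le_rfl
    · exact absurd (fun i => (h1 i).trans (hxy i)) h2
    · exact Nat.zero_le _
    · exact le_rfl
  let u : Fin (s + 2) → Pt s := fun i => (fun j => if j = i then 1 else 0, 0)
  let w : Fin (s + 2) → Pt s := fun i => (fun j => if j = i then 0 else 2, 1)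
  obtain ⟨C, c1, c2⟩ := hg (Finset.univ.image u ∪ Finset.univ.image w) (by
    intro a ha b hb hab
    simp only [Finset.mem_union, Finset.mem_image, Finset.mem_univ, true_and] at ha hb
    rcases ha with ⟨i, rfl⟩ | ⟨i, rfl⟩
    · exact Nat.zero_le _
    rcases hb with ⟨j, rfl⟩ | ⟨j, rfl⟩
    · obtain ⟨k, hk⟩ := exists_ne i
      have := hab k
      simp only [u, w, if_neg hk] at this
      split_ifs at this <;> omega
    · exact le_rfl)
  obtain ⟨r, rfl⟩ := hen C
  have e : D r = en r := if_pos c1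
  obtain ⟨e', a1, i, a2⟩ := c2 (fun a i => ((o r + a.1 i : ℕ) : ℚ)) fun a _ b _ i hi =>
    Nat.cast_le.2 (by omega)
  have m1 : u i ∈ Finset.univ.image u ∪ Finset.univ.image w := by simp
  have m2 : w i ∈ Finset.univ.image u ∪ Finset.univ.image w := by simp
  have b1 := a2 _ m2 _ m1 (by simp [u, w])
  have b2 := (a1.2 _ m1 _ m2).2 (by simp [u, w])
  simp only [Function.comp_apply] at b1
  rw [hf r _ (e ▸ a1.1 _ m2), hf r _ (e ▸ a1.1 _ m1), Nat.cast_le] at b1
  omega

theorem countCof_Q : CountCof PolQ := by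
  have cl : IsClone PolQ := ⟨fun n i x y h => h i, fun n m f g hf hg x y h => hf fun i => hg i h⟩
  refine ⟨fun k n => {g | ∀ C, IsClone C → (∀ m ≤ k, PolQ m ⊆ C m) → g ∈ C n},
    fun k => ⟨fun n i C hC _ => hC.1 n i, fun n m f g hf hg C hC h =>
      hC.2 n m f g (hf C hC h) fun i => hg i C hC h⟩,
    fun k n g hg C hC h => hg C hC fun m hm => h m (by omega), fun k hk => ?_,
    fun n => Subset.antisymm (fun g hg => mem_iUnion.2 ⟨n, fun C _ h => h n le_rfl hg⟩)
      (iUnion_subset fun k g hg => hg _ cl fun _ _ => Subset.rfl)⟩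
  obtain ⟨f, f1, f2⟩ := not_good k
  have : f ∈ PolQ (k + 1) := f1
  rw [← hk] at this
  refine f2 (this (fun m => {h | ∀ t : Fin (m + 1) → Op ℚ (k + 1), (∀ l, Good (t l)) →
    Good fun x => h fun l => t l x}) ⟨fun n i t ht => ht i, fun n m f g hf hg t ht =>
      hf (fun i x => g i fun l => t l x) fun i => hg i t ht⟩
    (fun m hm h hh t ht => good_comp hm h hh t ht) (fun l x => x l) fun l B hB => ?_)
  exact ⟨B, hB, fun φ hφ => ⟨id, ⟨fun _ h => h, fun _ _ _ _ => ⟨fun _ h => h, fun h => h⟩⟩,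
    l, fun a ha b hb h => hφ a ha b hb l h⟩⟩

theorem CountCof.not_finGen {A : Type} {P : ∀ n, Set (Op A n)} (h : CountCof P) : ¬ FinGen P := by
  obtain ⟨F, h1, h2, h3, h4⟩ := h
  rintro ⟨H, a1, a2, a3⟩
  have mono : ∀ n, Monotone fun i => F i n := fun n => monotone_nat_of_le_succ fun i => h2 i n
  have : ∀ h : H, ∃ i, h.1.2 ∈ F i h.1.1 := fun h => mem_iUnion.1 (h4 _ ▸ a2 h.1 h.2)
  choose i hi using this
  have := a1.to_subtype
  obtain ⟨k, hk⟩ := (Set.finite_range i).bddAbove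
  exact h3 k (funext fun n => Subset.antisymm (h4 n ▸ subset_iUnion (fun i => F i n) k)
    (a3 _ (h1 k) (fun h hh => mono _ (hk ⟨⟨h, hh⟩, rfl⟩) (hi ⟨h, hh⟩)) n))

end Pool.Agent.H47.Cof
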