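import Mathlib

namespace Pool.Agent.H47.Cof

/-- operations of arity `n + 1` on `A` -/
abbrev Op (A : Type) (n : ℕ) : Type := (Fin (n + 1) → A) → A

/-- a family of operations of all positive arities containing the projections and closed
under composition -/
def IsClone {A : Type} (C : ∀ n, Set (Op A n)) : Prop :=
  (∀ n (i : Fin (n + 1)), (fun x => x i) ∈ C n) ∧
  ∀ n m (f : Op A n) (g : Fin (n + 1) → Op A m), f ∈ C n → (∀ i, g i ∈ C m) →
    (fun x => f fun i => g i x) ∈ C m

/-- `P` is generated as a clone by finitely many of its members -/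
def FinGen {A : Type} (P : ∀ n, Set (Op A n)) : Prop :=
  ∃ H : Set (Σ n, Op A n), H.Finite ∧ (∀ h ∈ H, h.2 ∈ P h.1) ∧
    ∀ C : ∀ n, Set (Op A n), IsClone C → (∀ h ∈ H, h.2 ∈ C h.1) → ∀ n, P n ⊆ C n

/-- `P` is the union of an increasing sequence of proper subclones -/
def CountCof {A : Type} (P : ∀ n, Set (Op A n)) : Prop :=
  ∃ F : ℕ → ∀ n, Set (Op A n), (∀ i, IsClone (F i)) ∧ (∀ i n, F i n ⊆ F (i + 1) n) ∧
    (∀ i, F i ≠ P) ∧ ∀ n, P n = ⋃ i, F i n

/-- polymorphisms of a metric space: maps not increasing the maximum metric -/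
def PolM (U : Type) [MetricSpace U] (n : ℕ) : Set (Op U n) :=
  {f | ∀ x y, dist (f x) (f y) ≤ dist x y}

/-- polymorphisms of the ordered rationals -/
def PolQ (n : ℕ) : Set (Op ℚ n) := {f | Monotone f}

/-- isometries between finite subsets extend to isometric bijections -/
def Homog (U : Type) [MetricSpace U] : Prop :=
  ∀ (s : Finset U) (h : U → U), (∀ a ∈ s, ∀ b ∈ s, dist (h a) (h b) = dist a b) →
    ∃ α : U ≃ᵢ U, ∀ a ∈ s, α a = h a

/-- all distances are rational -/
def RatDist (U : Type) [MetricSpace U] : Prop := ∀ a b : U, ∃ q : ℚ, dist a b = q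

end Pool.Agent.H47.Cof
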