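import Mathlib

namespace Pool.Agent.H47.CoreIrr

/-- Elements `w a^k` (`e = some k`) and `w t` (`e = none`), `w` a word in `s = true`, `z = false`. -/
@[ext] structure S where
  w : List Bool
  e : Option ℕ
  deriving DecidableEq

def mul : S → S → S
  | ⟨w, some j⟩, ⟨[], some k⟩ => ⟨w, some (j + k)⟩
  | ⟨w, none⟩, ⟨[], some 0⟩ => ⟨w, none⟩
  | ⟨w, none⟩, ⟨[], some (k + 1)⟩ => ⟨w ++ [true], some (k + 1)⟩
  | ⟨w, some _⟩, ⟨[], none⟩ => ⟨w, none⟩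
  | ⟨w, none⟩, ⟨[], none⟩ => ⟨w ++ [true], none⟩
  | ⟨w, some _⟩, ⟨b :: v, e⟩ => ⟨w ++ b :: v, e⟩
  | ⟨w, none⟩, ⟨b :: v, e⟩ => ⟨w ++ true :: b :: v, e⟩

instance : Monoid S where
  mul := mul
  one := ⟨[], some 0⟩
  one_mul := by
    rintro ⟨_ | ⟨b, v⟩, _ | k⟩ <;> change mul ⟨[], some 0⟩ _ = _ <;> simp [mul]
  mul_one := by
    rintro ⟨w, _ | k⟩ <;> change mul _ ⟨[], some 0⟩ = _ <;> simp [mul]
  mul_assoc := by
    rintro ⟨u, _ | i⟩ ⟨_ | ⟨b, v⟩, _ | _ | j⟩ ⟨_ | ⟨c, w⟩, _ | _ | k⟩ <;>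
      change mul (mul _ _) _ = mul _ (mul _ _) <;> simp [mul, ← add_assoc]

lemma mul_def (x y : S) : x * y = mul x y := rfl
lemma one_def : (1 : S) = ⟨[], some 0⟩ := rfl

instance : Countable S :=
  (show Function.Injective (fun x : S => (x.w, x.e)) from fun _ _ h =>
    S.ext (congrArg Prod.fst h) (congrArg Prod.snd h)).countable

instance : IsLeftCancelMul S where
  mul_left_cancel := by
    rintro ⟨u, _ | i⟩ ⟨_ | ⟨b, v⟩, _ | _ | j⟩ ⟨_ | ⟨c, w⟩, _ | _ | k⟩ <;>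
      simp [mul_def, mul] <;> omega

/-- membership in the right ideal generated by `w a^k` -/
lemma dvd_some (w : List Bool) (k : ℕ) (y : S) :
    (⟨w, some k⟩ : S) ∣ y ↔ w <+: y.w ∧ ∀ j < k, y ≠ ⟨w, some j⟩ := by
  constructor
  · rintro ⟨⟨_ | ⟨b, v⟩, _ | j⟩, rfl⟩ <;> simp [mul_def, mul] <;> omega
  · obtain ⟨u, e⟩ := y
    rintro ⟨⟨v, rfl⟩, h⟩
    rcases v with _ | ⟨b, v⟩
    · rcases e with _ | j
      · exact ⟨⟨[], none⟩, by simp [mul_def, mul]⟩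
      · have : k ≤ j := by
          by_contra h'
          exact h j (by omega) (by simp)
        exact ⟨⟨[], some (j - k)⟩, by simp [mul_def, mul]; omega⟩
    · exact ⟨⟨b :: v, e⟩, by simp [mul_def, mul]⟩

lemma dvd_none (w : List Bool) (y : S) :
    (⟨w, none⟩ : S) ∣ y ↔ y = ⟨w, none⟩ ∨ (⟨w ++ [true], some 1⟩ : S) ∣ y := by
  constructor
  · rintro ⟨⟨_ | ⟨b, v⟩, _ | _ | j⟩, rfl⟩ <;> simp [mul_def, mul, dvd_some]
  · rintro (rfl | h)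
    · exact dvd_refl _
    · exact dvd_trans ⟨⟨[], some 1⟩, by simp [mul_def, mul]⟩ h

lemma some_some (w v : List Bool) (k l : ℕ) (h : w <+: v) :
    ∃ r : S, ∀ y, ((⟨w, some k⟩ : S) ∣ y ∧ (⟨v, some l⟩ : S) ∣ y) ↔ r ∣ y := by
  by_cases e : w = v
  · subst e
    refine ⟨⟨w, some (max k l)⟩, fun y => ?_⟩
    simp only [dvd_some]
    constructor
    · rintro ⟨⟨h1, h2⟩, -, h3⟩
      exact ⟨h1, fun j hj => (lt_max_iff.mp hj).elim (h2 j) (h3 j)⟩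
    · rintro ⟨h1, h2⟩
      exact ⟨⟨h1, fun j hj => h2 j (by omega)⟩, h1, fun j hj => h2 j (by omega)⟩
  · refine ⟨⟨v, some l⟩, fun y => ⟨fun h => h.2, fun h2 => ⟨?_, h2⟩⟩⟩
    rw [dvd_some] at h2 ⊢
    refine ⟨h.trans h2.1, ?_⟩
    rintro j - rfl
    exact e (h.eq_of_length_le h2.1.length_le)

lemma ss (w v : List Bool) (k l : ℕ) (y : S) (h1 : (⟨w, some k⟩ : S) ∣ y)
    (h2 : (⟨v, some l⟩ : S) ∣ y) :
    ∃ r : S, ∀ y, ((⟨w, some k⟩ : S) ∣ y ∧ (⟨v, some l⟩ : S) ∣ y) ↔ r ∣ y := by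
  rcases List.prefix_or_prefix_of_prefix ((dvd_some _ _ _).mp h1).1 ((dvd_some _ _ _).mp h2).1
    with h | h
  · exact some_some w v k l h
  · obtain ⟨r, hr⟩ := some_some v w l k h
    exact ⟨r, fun y => by rw [← hr, and_comm]⟩

lemma rlcm (x x' y : S) (h1 : x ∣ y) (h2 : x' ∣ y) : ∃ r : S, ∀ y, (x ∣ y ∧ x' ∣ y) ↔ r ∣ y := by
  by_cases d1 : x ∣ x'
  · exact ⟨x', fun y => ⟨fun h => h.2, fun h => ⟨d1.trans h, h⟩⟩⟩
  by_cases d2 : x' ∣ x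
  · exact ⟨x, fun y => ⟨fun h => h.1, fun h => ⟨h, d2.trans h⟩⟩⟩
  obtain ⟨w, k, hx⟩ : ∃ w k, ∀ y, x' ∣ y → (x ∣ y ↔ (⟨w, some k⟩ : S) ∣ y) := by
    obtain ⟨w, _ | k⟩ := x
    · refine ⟨w ++ [true], 1, fun y hy => ?_⟩
      rw [dvd_none, or_iff_right]
      rintro rfl
      exact d2 hy
    · exact ⟨w, k, fun _ _ => Iff.rfl⟩
  obtain ⟨v, l, hx'⟩ : ∃ w k, (∀ y, (⟨w, some k⟩ : S) ∣ y → x' ∣ y) ∧
      ∀ y, x' ∣ y → y = x' ∨ (⟨w, some k⟩ : S) ∣ y := by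
    obtain ⟨w, _ | k⟩ := x'
    · exact ⟨w ++ [true], 1, fun y hy => (dvd_none _ _).mpr (Or.inr hy),
        fun y hy => (dvd_none _ _).mp hy⟩
    · exact ⟨w, k, fun _ h => h, fun _ h => Or.inr h⟩
  have key : ∀ y, (x ∣ y ∧ x' ∣ y) ↔ ((⟨w, some k⟩ : S) ∣ y ∧ (⟨v, some l⟩ : S) ∣ y) := by
    intro y
    constructor
    · rintro ⟨a, b⟩
      refine ⟨(hx y b).mp a, (hx'.2 y b).resolve_left ?_⟩
      rintro rfl
      exact d1 a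
    · rintro ⟨a, b⟩
      exact ⟨(hx y (hx'.1 y b)).mpr a, hx'.1 y b⟩
  obtain ⟨r, hr⟩ := ss w v k l y ((key y).mp ⟨h1, h2⟩).1 ((key y).mp ⟨h1, h2⟩).2
  exact ⟨r, fun y => by rw [key, hr]⟩

lemma core_iff (a : S) : (∀ s : S, ∃ y, a ∣ y ∧ s ∣ y) ↔ ∃ k, a = ⟨[], some k⟩ := by
  constructor
  · intro h
    obtain ⟨y, a1, a2⟩ := h ⟨[true], some 0⟩
    obtain ⟨y', b1, b2⟩ := h ⟨[false], some 0⟩
    obtain ⟨c, rfl⟩ := a1
    obtain ⟨c', rfl⟩ := b1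
    rw [dvd_some] at a2 b2
    obtain ⟨_ | ⟨b, w⟩, _ | k⟩ := a
    · obtain ⟨_ | ⟨b, w⟩, _ | _ | k⟩ := c' <;> simp [mul_def, mul] at b2
    · exact ⟨k, rfl⟩
    all_goals
      obtain ⟨_ | ⟨d, u⟩, _ | _ | i⟩ := c <;> obtain ⟨_ | ⟨d', u'⟩, _ | _ | i'⟩ := c' <;>
        cases b <;> simp [mul_def, mul] at a2 b2
  · rintro ⟨k, rfl⟩ s
    refine ⟨s * ⟨[true], none⟩, ?_, Dvd.intro _ rfl⟩
    rw [dvd_some]
    obtain ⟨w, _ | i⟩ := s <;> simp [mul_def, mul]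

end Pool.Agent.H47.CoreIrr
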