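import Mathlib

namespace Pool.Agent.H47.Ext3

/-- The exterior algebra of the lattice of rank three, in coordinates. -/
@[ext] structure E where
  c : ℤ
  x : ℤ
  y : ℤ
  z : ℤ
  xy : ℤ
  xz : ℤ
  yz : ℤ
  t : ℤ

def toF : E ≃ (Fin 8 → ℤ) where
  toFun a := ![a.c, a.x, a.y, a.z, a.xy, a.xz, a.yz, a.t]
  invFun f := ⟨f 0, f 1, f 2, f 3, f 4, f 5, f 6, f 7⟩
  left_inv a := rfl
  right_inv f := by ext i; fin_cases i <;> rfl

instance : AddCommGroup E := toF.addCommGroup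

instance : Mul E := ⟨fun a b => ⟨a.c * b.c, a.c * b.x + a.x * b.c, a.c * b.y + a.y * b.c,
  a.c * b.z + a.z * b.c, a.c * b.xy + a.xy * b.c + a.x * b.y - a.y * b.x,
  a.c * b.xz + a.xz * b.c + a.x * b.z - a.z * b.x, a.c * b.yz + a.yz * b.c + a.y * b.z - a.z * b.y,
  a.c * b.t + a.t * b.c + a.x * b.yz + a.yz * b.x - a.y * b.xz - a.xz * b.y
    + a.z * b.xy + a.xy * b.z⟩⟩

instance : One E := ⟨⟨1, 0, 0, 0, 0, 0, 0, 0⟩⟩

lemma add_def (a b : E) : a + b = ⟨a.c + b.c, a.x + b.x, a.y + b.y, a.z + b.z, a.xy + b.xy,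
  a.xz + b.xz, a.yz + b.yz, a.t + b.t⟩ := rfl
lemma zero_def : (0 : E) = ⟨0, 0, 0, 0, 0, 0, 0, 0⟩ := rfl
lemma one_def : (1 : E) = ⟨1, 0, 0, 0, 0, 0, 0, 0⟩ := rfl
lemma mul_def (a b : E) : a * b = ⟨a.c * b.c, a.c * b.x + a.x * b.c, a.c * b.y + a.y * b.c,
  a.c * b.z + a.z * b.c, a.c * b.xy + a.xy * b.c + a.x * b.y - a.y * b.x,
  a.c * b.xz + a.xz * b.c + a.x * b.z - a.z * b.x, a.c * b.yz + a.yz * b.c + a.y * b.z - a.z * b.y,
  a.c * b.t + a.t * b.c + a.x * b.yz + a.yz * b.x - a.y * b.xz - a.xz * b.y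
    + a.z * b.xy + a.xy * b.z⟩ := rfl

instance : Ring E where
  __ := (inferInstance : AddCommGroup E)
  left_distrib a b c := by ext <;> simp only [add_def, mul_def] <;> ring
  right_distrib a b c := by ext <;> simp only [add_def, mul_def] <;> ring
  zero_mul a := by ext <;> simp [zero_def, mul_def]
  mul_zero a := by ext <;> simp [zero_def, mul_def]
  mul_assoc a b c := by ext <;> simp only [mul_def] <;> ring
  one_mul a := by ext <;> simp [one_def, mul_def]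
  mul_one a := by ext <;> simp [one_def, mul_def]

def toA : E ≃+ (Fin 8 → ℤ) := toF.addEquiv

instance : Module.Finite ℤ E := Module.Finite.equiv toA.toIntLinearEquiv.symm

instance : IsAddTorsionFree E := toA.injective.isAddTorsionFree toA.toAddMonoidHom

lemma central (a : E) (h1 : a.x = 0) (h2 : a.y = 0) (h3 : a.z = 0) : a ∈ Set.center E := by
  rw [Semigroup.mem_center_iff]
  intro g
  ext <;> simp only [mul_def, h1, h2, h3] <;> ring

lemma ce (a : E) (ha : a ≠ 0) : ∃ x ∈ Set.center E, ∃ y ∈ Set.center E,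
    x ≠ 0 ∧ y ≠ 0 ∧ a * x = y := by
  have key : ∀ x : E, x.c = 0 → x.x = 0 → x.y = 0 → x.z = 0 → (a * x).t ≠ 0 →
      ∃ x ∈ Set.center E, ∃ y ∈ Set.center E, x ≠ 0 ∧ y ≠ 0 ∧ a * x = y := by
    intro x h0 h1 h2 h3 h
    refine ⟨x, central x h1 h2 h3, a * x, central _ ?_ ?_ ?_, ?_, ?_, rfl⟩
    · simp [mul_def, h0, h1]
    · simp [mul_def, h0, h2]
    · simp [mul_def, h0, h3]
    · rintro rfl; simp [zero_def, mul_def] at h
    · intro h'; rw [h'] at h; exact h rfl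
  by_cases h0 : a.c = 0
  · by_cases h1 : a.x = 0
    · by_cases h2 : a.y = 0
      · by_cases h3 : a.z = 0
        · exact ⟨1, Set.one_mem_center, a, central a h1 h2 h3, by simp [one_def, zero_def], ha,
            mul_one a⟩
        · exact key ⟨0, 0, 0, 0, 1, 0, 0, 0⟩ rfl rfl rfl rfl (by simpa [mul_def] using h3)
      · exact key ⟨0, 0, 0, 0, 0, 1, 0, 0⟩ rfl rfl rfl rfl (by simpa [mul_def] using h2)
    · exact key ⟨0, 0, 0, 0, 0, 0, 1, 0⟩ rfl rfl rfl rfl (by simpa [mul_def] using h1)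
  · exact key ⟨0, 0, 0, 0, 0, 0, 0, 1⟩ rfl rfl rfl rfl (by simpa [mul_def] using h0)

def u : E := ⟨0, 3, 0, 0, 1, 0, 0, 0⟩
def nine : E := ⟨9, 0, 0, 0, 0, 0, 0, 0⟩

def I : Submodule Eᵐᵒᵖ E where
  carrier := {a | ∃ r s : E, a = u * r + nine * s}
  zero_mem' := ⟨0, 0, by simp⟩
  add_mem' := by
    rintro _ _ ⟨r, s, rfl⟩ ⟨r', s', rfl⟩
    exact ⟨r + r', s + s', by rw [mul_add, mul_add]; abel⟩
  smul_mem' := by
    rintro c _ ⟨r, s, rfl⟩
    exact ⟨r * c.unop, s * c.unop, by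
      rw [MulOpposite.smul_eq_mul_unop, add_mul, mul_assoc, mul_assoc]⟩

lemma ess (J : Submodule Eᵐᵒᵖ E) (hJ : J ≠ ⊥) : I ⊓ J ≠ ⊥ := by
  obtain ⟨a, ha, h0⟩ := (Submodule.ne_bot_iff J).mp hJ
  refine (Submodule.ne_bot_iff _).mpr ⟨a * nine, ⟨⟨0, a, ?_⟩, J.smul_mem (MulOpposite.op nine) ha⟩, ?_⟩
  · ext <;> simp [mul_def, nine, add_def, zero_def] <;> ring
  · intro h
    apply h0
    rw [E.ext_iff] at h ⊢
    simpa [mul_def, nine, zero_def] using h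

lemma notleft : ∃ r : E, ∃ a ∈ I, r * a ∉ I := by
  refine ⟨⟨0, 0, 0, 1, 0, 0, 0, 0⟩, u, ⟨1, 0, by simp⟩, ?_⟩
  rintro ⟨r, s, h⟩
  rw [E.ext_iff] at h
  simp [mul_def, nine, add_def, u] at h
  omega

end Pool.Agent.H47.Ext3
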