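import Mathlib

open Set Filter Topology MeasureTheory

namespace Pool.Agent.H47.FBL

universe u v

/-- approximation of finite families by combinations of an `l1`-basis -/
def Disj (W : Type u) [NormedAddCommGroup W] [NormedSpace ℝ W] : Prop :=
  ∀ (m : ℕ) (h : Fin m → W) (η : ℝ), 0 < η → ∃ (K : ℕ) (u : Fin K → W) (a : Fin m → Fin K → ℝ),
    (∀ k, ‖u k‖ ≤ 1) ∧ (∀ j, ‖h j - ∑ k, a j k • u k‖ ≤ η) ∧ (∀ j k, u k = 0 → a j k = 0) ∧
    ∀ t : Fin K → ℝ, (∀ k, u k = 0 → t k = 0) → ∑ k, |t k| ≤ ‖∑ k, t k • u k‖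

theorem disj_L1 {Ω : Type v} [MeasurableSpace Ω] (μ : Measure Ω) : Disj (Lp ℝ 1 μ) := by
  classical
  intro m h η hη
  have hH : MemLp (fun ω (j : Fin m) => h j ω) 1 μ :=
    memLp_pi_iff.2 fun j => Lp.memLp (h j)
  obtain ⟨s, hs, hs1⟩ := hH.exists_simpleFunc_eLpNorm_sub_lt (by simp)
    (ε := ENNReal.ofReal η) (by simpa using hη)
  have hsi : Integrable s μ := memLp_one_iff_integrable.1 hs1
  let e := s.range.equivFin.symm
  let w : Fin s.range.card → Ω → ℝ := fun k => indicator (s ⁻¹' {(e k).1}) fun ω => ‖s ω‖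
  have hw : ∀ k, Integrable (w k) μ := fun k => hsi.norm.indicator (s.measurableSet_fiber _)
  let v : Fin s.range.card → Lp ℝ 1 μ := fun k => (hw k).toL1 _
  have hsum : ∀ t : Fin s.range.card → ℝ,
      (∑ k, t k • v k : Lp ℝ 1 μ) =ᵐ[μ] fun ω => ∑ k, t k * w k ω := by
    intro t
    have h1 : ∀ᵐ ω ∂μ, ∀ k, (t k • v k : Lp ℝ 1 μ) ω = t k * w k ω := by
      rw [ae_all_iff]
      intro k
      filter_upwards [Lp.coeFn_smul (t k) (v k), (hw k).coeFn_toL1] with ω h1 h2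
      rw [h1, Pi.smul_apply, smul_eq_mul]; congr 1
    filter_upwards [Lp.coeFn_fun_finsetSum Finset.univ (fun k => t k • v k), h1] with ω h1 h2
    rw [h1]; exact Finset.sum_congr rfl fun k _ => h2 k
  have hone : ∀ (ω : Ω) (g : Fin s.range.card → ℝ),
      ∑ k, g k * w k ω = g (e.symm ⟨s ω, s.mem_range_self ω⟩) * ‖s ω‖ := by
    intro ω g
    rw [Finset.sum_eq_single (e.symm ⟨s ω, s.mem_range_self ω⟩)]
    · simp [w]
    · intro k _ hk
      have : ω ∉ s ⁻¹' {(e k).1} := fun h => hk (by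
        rw [Equiv.eq_symm_apply]; exact Subtype.ext (h : s ω = _).symm)
      simp only [w, indicator_of_notMem this, mul_zero]
    · simp
  have hv : ∀ k, ‖v k‖ = ∫ ω, w k ω ∂μ := fun k => by
    rw [L1.norm_of_fun_eq_integral_norm]
    refine integral_congr_ae (Eventually.of_forall fun ω => ?_)
    exact Real.norm_of_nonneg (indicator_nonneg (fun _ _ => norm_nonneg _) _)
  have hsm : ∀ (c : ℝ) k, (c * ‖v k‖) • (‖v k‖⁻¹ • v k) = c • v k := fun c k => by
    by_cases h0 : v k = 0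
    · simp [h0]
    · rw [smul_smul, mul_assoc, mul_inv_cancel₀ (norm_ne_zero_iff.2 h0), mul_one]
  refine ⟨s.range.card, fun k => ‖v k‖⁻¹ • v k, fun j k => (e k).1 j / ‖(e k).1‖ * ‖v k‖,
    fun k => ?_, fun j => ?_, fun j k hk => ?_, fun t ht => ?_⟩
  · rw [norm_smul, norm_inv, norm_norm]; exact inv_mul_le_one
  · simp only [hsm]
    have h2 : (h j - ∑ k, ((e k).1 j / ‖(e k).1‖) • v k : Lp ℝ 1 μ) =ᵐ[μ]
        fun ω => h j ω - s ω j := by
      filter_upwards [Lp.coeFn_sub (h j) (∑ k, ((e k).1 j / ‖(e k).1‖) • v k),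
        hsum fun k => (e k).1 j / ‖(e k).1‖] with ω h1 h2
      rw [h1, Pi.sub_apply, h2, hone]
      simp only [Equiv.apply_symm_apply]
      by_cases h0 : s ω = 0
      · simp [h0]
      · rw [div_mul_cancel₀ _ (norm_ne_zero_iff.2 h0)]
    rw [Lp.norm_def, eLpNorm_congr_ae h2]
    refine ENNReal.toReal_le_of_le_ofReal hη.le (le_trans (eLpNorm_mono fun ω => ?_) hs.le)
    exact norm_le_pi_norm (((fun ω (j : Fin m) => h j ω) - ⇑s) ω) j
  · have : v k = 0 := by simpa using hk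
    simp [this]
  · simp only [smul_smul]
    rw [L1.norm_eq_integral_norm]
    refine le_of_le_of_eq ?_
      (integral_congr_ae ((hsum fun k => t k * ‖v k‖⁻¹).fun_comp norm)).symm
    have h3 : ∀ ω, ‖∑ k, t k * ‖v k‖⁻¹ * w k ω‖ = ∑ k, |t k * ‖v k‖⁻¹| * w k ω := fun ω => by
      rw [hone, hone, Real.norm_eq_abs, abs_mul, abs_norm]
    simp only [Function.comp_def, h3]
    rw [integral_finsetSum _ fun k _ => (hw k).const_mul _]
    refine le_of_eq (Finset.sum_congr rfl fun k _ => ?_)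
    rw [integral_const_mul, ← hv]
    by_cases h0 : v k = 0
    · rw [ht k (by simp [h0])]; simp
    · rw [abs_mul, abs_inv, abs_norm, mul_assoc, inv_mul_cancel₀ (norm_ne_zero_iff.2 h0), mul_one]

theorem Disj.of_equiv {W : Type u} {W' : Type v} [NormedAddCommGroup W] [NormedSpace ℝ W]
    [NormedAddCommGroup W'] [NormedSpace ℝ W'] (e : W ≃ₗᵢ[ℝ] W') (h : Disj W') : Disj W := by
  intro m x η hη
  obtain ⟨K, u, a, h1, h2, h4, h3⟩ := h m (fun j => e (x j)) η hη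
  refine ⟨K, fun k => e.symm (u k), a, fun k => by simpa using h1 k, fun j => ?_,
    fun j k hk => h4 j k (by simpa using hk), fun t ht => ?_⟩
  · rw [← e.norm_map]; simpa [map_sum] using h2 j
  · rw [← e.norm_map]
    simpa [map_sum] using h3 t fun k hk => ht k (by simp [hk])

variable {E : Type u} [NormedAddCommGroup E] [NormedSpace ℝ E]

theorem daug_fin [Nontrivial E]
    (hD : ∀ T : E →L[ℝ] E, Module.finrank ℝ (LinearMap.range (T : E →ₗ[ℝ] E)) = 1 →
      ‖1 + T‖ = 1 + ‖T‖) (s : Finset E) (hs : ∀ x ∈ s, ‖x‖ = 1) :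
    ∀ ε : ℝ, 0 < ε → ε ≤ 1 → ∃ (φ : StrongDual ℝ E) (ψ : E → StrongDual ℝ E), ‖φ‖ ≤ 1 ∧
      (∀ x ∈ s, ‖ψ x‖ ≤ 1 ∧ 1 - ε < ψ x x) ∧ 1 + s.card - ε < ‖φ + ∑ x ∈ s, ψ x‖ := by
  classical
  induction s using Finset.induction_on with
  | empty =>
    intro ε h0 _
    obtain ⟨x, hx⟩ := exists_ne (0 : E)
    obtain ⟨g, hg, -⟩ := exists_dual_vector ℝ x (norm_ne_zero_iff.2 hx)
    exact ⟨g, 0, hg.le, by simp, by simp [hg, h0]⟩
  | insert x s hx ih =>
    intro ε h0 h1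
    obtain ⟨φ0, ψ, a1, a2, a3⟩ := ih (fun y hy => hs y (Finset.mem_insert_of_mem hy)) (ε / 2)
      (by linarith) (by linarith)
    set φ := φ0 + ∑ x ∈ s, ψ x with hφ
    have hx1 : ‖x‖ = 1 := hs x (Finset.mem_insert_self _ _)
    have hc : (0 : ℝ) ≤ s.card := Nat.cast_nonneg _
    have hφ0 : φ ≠ 0 := norm_pos_iff.1 (by linarith)
    have hT := hD (φ.smulRight x) (by
      have : LinearMap.range ((φ.smulRight x : E →L[ℝ] E) : E →ₗ[ℝ] E) = ℝ ∙ x := by
        apply le_antisymm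
        · rintro _ ⟨y, rfl⟩
          exact Submodule.mem_span_singleton.2 ⟨φ y, rfl⟩
        · obtain ⟨y, hy⟩ : ∃ y, φ y ≠ 0 := by
            by_contra hcon; push Not at hcon; exact hφ0 (by ext y; exact hcon y)
          rw [Submodule.span_singleton_le_iff_mem]
          exact ⟨(φ y)⁻¹ • y, by simp [hy]⟩
      rw [this]
      exact finrank_span_singleton (norm_ne_zero_iff.1 (by simp [hx1])))
    rw [ContinuousLinearMap.norm_smulRight_apply, hx1, mul_one] at hT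
    obtain ⟨y0, b1, b2, b3⟩ : ∃ y0, ‖y0‖ ≤ 1 ∧ 0 ≤ φ y0 ∧ 1 + ‖φ‖ - ε / 4 < ‖y0 + φ y0 • x‖ := by
      obtain ⟨y, c1, c2⟩ := (1 + φ.smulRight x).exists_lt_apply_of_lt_opNorm
        (r := 1 + ‖φ‖ - ε / 4) (by linarith)
      rcases le_total 0 (φ y) with h | h
      · exact ⟨y, c1.le, h, by simpa using c2⟩
      · refine ⟨-y, by simpa using c1.le, by simpa using h, ?_⟩
        rw [map_neg, neg_smul, ← neg_add, norm_neg]; simpa using c2
    obtain ⟨g, g1, g2⟩ := exists_dual_vector'' ℝ (y0 + φ y0 • x)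
    have g3 : 1 + ‖φ‖ - ε / 4 < g y0 + φ y0 * g x := by
      have : g (y0 + φ y0 • x) = ‖y0 + φ y0 • x‖ := g2
      rw [← this] at b3; simpa using b3
    have le1 : ∀ (f : StrongDual ℝ E) z, ‖z‖ ≤ 1 → f z ≤ ‖f‖ := fun f z hz =>
      (le_abs_self _).trans ((f.le_opNorm z).trans (mul_le_of_le_one_right (norm_nonneg _) hz))
    have g4 := le1 g y0 b1
    have g5 := le1 g x hx1.le
    have g6 := le1 φ y0 b1
    have g7 := le1 (φ + g) y0 b1
    rw [add_apply] at g7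
    have g8 : 0 < g x := by
      by_contra hn
      have : φ y0 * g x ≤ 0 := mul_nonpos_of_nonneg_of_nonpos b2 (not_lt.1 hn)
      linarith
    refine ⟨φ0, Function.update ψ x g, a1, fun y hy => ?_, ?_⟩
    · rcases Finset.mem_insert.1 hy with rfl | hy
      · rw [Function.update_self]
        refine ⟨g1, ?_⟩
        have : φ y0 * g y ≤ ‖φ‖ * g y := mul_le_mul_of_nonneg_right g6 g8.le
        by_contra hn
        nlinarith
      · rw [Function.update_of_ne (fun (e : y = x) => hx (e ▸ hy))]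
        exact ⟨(a2 y hy).1, by linarith [(a2 y hy).2]⟩
    · rw [Finset.sum_insert hx, Function.update_self, Finset.card_insert_of_notMem hx,
        Finset.sum_congr rfl fun y hy => Function.update_of_ne (fun (e : y = x) => hx (e ▸ hy)) g ψ,
        show φ0 + (g + ∑ x ∈ s, ψ x) = φ + g by rw [hφ]; abel]
      push_cast
      nlinarith

theorem octa [Nontrivial E]
    (hD : ∀ T : E →L[ℝ] E, Module.finrank ℝ (LinearMap.range (T : E →ₗ[ℝ] E)) = 1 →
      ‖1 + T‖ = 1 + ‖T‖) (F : Submodule ℝ E) [FiniteDimensional ℝ F] (ε : ℝ) (h0 : 0 < ε)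
    (h1 : ε ≤ 1 / 4) : ∃ x : E, ‖x‖ = 1 ∧ ∀ v ∈ F, ∀ c : ℝ,
      (1 - 2 * ε) * (‖v‖ + |c|) ≤ ‖v + c • x‖ := by
  classical
  have hK : IsCompact ((↑) '' Metric.sphere (0 : F) 1 : Set E) :=
    (isCompact_sphere _ _).image continuous_subtype_val
  obtain ⟨t, ht, htf, hcov⟩ := finite_cover_balls_of_compact hK h0
  obtain ⟨φ, ψ, a1, a2, a3⟩ := daug_fin hD htf.toFinset (fun x hx => by
    obtain ⟨y, hy, rfl⟩ := ht (htf.mem_toFinset.1 hx)
    simpa using hy) ε h0 (by linarith)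
  obtain ⟨y, c1, c2, c3⟩ : ∃ y, ‖y‖ ≤ 1 ∧ 1 - ε < φ y ∧ ∀ x ∈ htf.toFinset, 1 - ε < ψ x y := by
    obtain ⟨y, c1, c2⟩ : ∃ y, ‖y‖ ≤ 1 ∧
        1 + htf.toFinset.card - ε < (φ + ∑ x ∈ htf.toFinset, ψ x) y := by
      obtain ⟨y, c1, c2⟩ := ContinuousLinearMap.exists_lt_apply_of_lt_opNorm _ a3
      rcases le_total 0 ((φ + ∑ x ∈ htf.toFinset, ψ x) y) with h | h
      · exact ⟨y, c1.le, by rwa [Real.norm_of_nonneg h] at c2⟩
      · exact ⟨-y, by simpa using c1.le, by rwa [Real.norm_of_nonpos h, ← map_neg] at c2⟩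
    have le1 : ∀ (f : StrongDual ℝ E), ‖f‖ ≤ 1 → f y ≤ 1 := fun f hz =>
      (le_abs_self _).trans ((f.le_opNorm y).trans (mul_le_one₀ hz (norm_nonneg _) c1))
    rw [add_apply, sum_apply] at c2
    have hb : ∀ s ⊆ htf.toFinset, ∑ x ∈ s, ψ x y ≤ s.card := fun s hs => by
      simpa using Finset.sum_le_card_nsmul s (fun x => ψ x y) 1
        fun x hx => le1 _ (a2 x (hs hx)).1
    refine ⟨y, c1, by linarith [hb _ Subset.rfl], fun x hx => ?_⟩
    rw [← Finset.add_sum_erase _ _ hx] at c2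
    have := hb _ (Finset.erase_subset x htf.toFinset)
    rw [Finset.cast_card_erase_of_mem hx] at this
    linarith [le1 φ a1]
  have hy0 : 1 - ε < ‖y‖ := c2.trans_le ((le_abs_self _).trans ((φ.le_opNorm y).trans
    (mul_le_of_le_one_left (norm_nonneg _) a1)))
  have hy1 : 0 < ‖y‖ := by linarith
  have hn : ‖‖y‖⁻¹ • y‖ = 1 := by rw [norm_smul, norm_inv, norm_norm, inv_mul_cancel₀ hy1.ne']
  have main : ∀ v ∈ F, ∀ c : ℝ, 0 ≤ c → (1 - 2 * ε) * (‖v‖ + c) ≤ ‖v + c • (‖y‖⁻¹ • y)‖ := by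
    intro v hv c hc
    by_cases hv0 : v = 0
    · rw [hv0, norm_zero, zero_add, zero_add, norm_smul, hn, Real.norm_of_nonneg hc]
      nlinarith
    have hvp : 0 < ‖v‖ := norm_pos_iff.2 hv0
    obtain ⟨x, hx, hd⟩ := mem_iUnion₂.1 (hcov ⟨⟨‖v‖⁻¹ • v, F.smul_mem _ hv⟩, by
      simp [norm_smul, hv0], rfl⟩)
    have hx' := htf.mem_toFinset.2 hx
    have e1 : ψ x (v + c • (‖y‖⁻¹ • y)) ≤ ‖v + c • (‖y‖⁻¹ • y)‖ :=
      (le_abs_self _).trans (((ψ x).le_opNorm _).trans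
        (mul_le_of_le_one_left (norm_nonneg _) (a2 x hx').1))
    have e2 : ψ x (x - ‖v‖⁻¹ • v) ≤ ε :=
      (le_abs_self _).trans (((ψ x).le_opNorm _).trans
        ((mul_le_of_le_one_left (norm_nonneg _) (a2 x hx').1).trans (by
          rw [← dist_eq_norm, dist_comm]; exact le_of_lt hd)))
    simp only [map_add, map_sub, map_smul, smul_eq_mul] at e1 e2
    have e3 : (1 - 2 * ε) * ‖v‖ ≤ ψ x v := by
      have : 1 - 2 * ε ≤ ‖v‖⁻¹ * ψ x v := by linarith [(a2 x hx').2]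
      calc _ ≤ ‖v‖⁻¹ * ψ x v * ‖v‖ := mul_le_mul_of_nonneg_right this hvp.le
        _ = _ := by field_simp
    have e4 : 1 - ε ≤ ‖y‖⁻¹ * ψ x y := by
      have : 1 ≤ ‖y‖⁻¹ := (one_le_inv₀ hy1).2 c1
      have := c3 x hx'
      nlinarith
    nlinarith
  refine ⟨_, hn, fun v hv c => ?_⟩
  rcases le_total 0 c with h | h
  · rw [abs_of_nonneg h]; exact main v hv c h
  · have := main (-v) (F.neg_mem hv) (-c) (by linarith)
    rwa [norm_neg, neg_smul, ← neg_add, norm_neg, ← abs_of_nonpos h] at this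

theorem extend (F : Submodule ℝ E) (x : E) (r : ℝ) (hr : 0 < r)
    (h : ∀ v ∈ F, ∀ c : ℝ, r * (‖v‖ + |c|) ≤ ‖v + c • x‖) (u : StrongDual ℝ E) (σ C : ℝ)
    (hu : ‖u‖ ≤ C) (hσ : |σ| ≤ C) :
    ∃ u' : StrongDual ℝ E, ‖u'‖ ≤ C / r ∧ (∀ v ∈ F, u' v = u v) ∧ u' x = σ := by
  have hC : 0 ≤ C := (abs_nonneg _).trans hσ
  have hx : x ∉ F := fun hx => by
    have := h (-x) (F.neg_mem hx) 1
    simp only [one_smul, neg_add_cancel, norm_zero, abs_one] at this
    nlinarith [norm_nonneg (-x)]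
  let f : E →ₗ.[ℝ] ℝ := ⟨F, (u : E →ₗ[ℝ] ℝ).domRestrict F⟩
  obtain ⟨g, g1, g2⟩ := exists_extension_of_le_sublinear (f.supSpanSingleton x σ hx)
    (fun z => C / r * ‖z‖) (fun c hc z => by rw [norm_smul, Real.norm_of_nonneg hc.le]; ring)
    (fun a b => by
      have := mul_le_mul_of_nonneg_left (norm_add_le a b) (div_nonneg hC hr.le)
      linarith) (by
      rintro ⟨z, hz⟩
      obtain ⟨v, hv, _, hc, rfl⟩ := Submodule.mem_sup.1 hz
      obtain ⟨c, rfl⟩ := Submodule.mem_span_singleton.1 hc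
      rw [LinearPMap.supSpanSingleton_apply_mk f x σ hx v hv c]
      show u v + c * σ ≤ C / r * ‖v + c • x‖
      have e1 : u v ≤ C * ‖v‖ := (le_abs_self _).trans ((u.le_opNorm v).trans
        (mul_le_mul_of_nonneg_right hu (norm_nonneg _)))
      have e2 : c * σ ≤ |c| * C := (le_abs_self _).trans (by
        rw [abs_mul]; exact mul_le_mul_of_nonneg_left hσ (abs_nonneg _))
      have e3 := mul_le_mul_of_nonneg_left (h v hv c) (div_nonneg hC hr.le)
      have e4 : C / r * (r * (‖v‖ + |c|)) = C * ‖v‖ + |c| * C := by field_simp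
      linarith)
  have hb : ∀ z, ‖g z‖ ≤ C / r * ‖z‖ := fun z => by
    rw [Real.norm_eq_abs, abs_le]
    have := g2 (-z)
    rw [map_neg, norm_neg] at this
    exact ⟨by linarith, g2 z⟩
  refine ⟨g.mkContinuous _ hb, LinearMap.mkContinuous_norm_le _ (div_nonneg hC hr.le) _,
    fun v hv => ?_, ?_⟩
  · exact (g1 ⟨v, Submodule.mem_sup_left hv⟩).trans
      (LinearPMap.supSpanSingleton_apply_mk_of_mem f σ hx hv)
  · exact (g1 ⟨x, Submodule.mem_sup_right (Submodule.mem_span_singleton_self _)⟩).trans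
      (LinearPMap.supSpanSingleton_apply_self f σ hx)

end Pool.Agent.H47.FBL
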