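import Mathlib

namespace Pool.Agent.H47.FNoeth

abbrev G := ℤ →₀ ℤ

/-- the group `ℤ` acting on a Rees matrix semigroup `ℤ × G × ℤ` -/
inductive S : Type
  | t : ℤ → S
  | m : ℤ → G → ℤ → S

open S

noncomputable def mul : S → S → S
  | t a, t b => t (a + b)
  | t a, m i g l => m (a + i) g l
  | m i g l, t b => m i g (l + b)
  | m i g l, m j h k => m i (g + Finsupp.single (l + j) 1 + h) k

noncomputable instance : Semigroup S where
  mul := mul
  mul_assoc := by
    rintro (a | ⟨i, g, l⟩) (b | ⟨j, h, k⟩) (c | ⟨n, f, p⟩) <;>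
      change mul (mul _ _) _ = mul _ (mul _ _) <;> simp only [mul, add_assoc]

lemma mul_def (x y : S) : x * y = mul x y := rfl

lemma cr (x : S) : ∃ (H : Type) (_ : Group H) (φ : H →ₙ* S), Function.Injective φ ∧
    ∃ y, φ y = x := by
  rcases x with a | ⟨i, g, l⟩
  · exact ⟨Multiplicative ℤ, inferInstance, ⟨fun z => t z.toAdd, fun _ _ => rfl⟩,
      fun _ _ h => by simpa using h, Multiplicative.ofAdd a, rfl⟩
  · refine ⟨Multiplicative G, inferInstance,
      ⟨fun z => m i (z.toAdd - Finsupp.single (l + i) 1) l, fun _ _ => ?_⟩,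
      fun _ _ h => by simpa using h, Multiplicative.ofAdd (g + Finsupp.single (l + i) 1), by simp⟩
    simp only [mul_def, mul, toAdd_mul]
    congr 1
    abel

lemma not_fg (X : Set S) (hX : X.Finite) : Subsemigroup.closure X ≠ ⊤ := by
  let comp : S → G := fun x => match x with
    | t _ => 0
    | m _ g _ => g
  obtain ⟨n, hn⟩ := Infinite.exists_notMem_finset
    ((hX.toFinset).biUnion (fun x => (comp x).support))
  have key : ∀ x ∈ Subsemigroup.closure X, 0 ≤ comp x n := by
    intro x hx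
    induction hx using Subsemigroup.closure_induction with
    | mem x hx =>
      have : comp x n = 0 := by
        by_contra h
        exact hn (Finset.mem_biUnion.mpr ⟨x, by simpa using hx, by simpa using h⟩)
      omega
    | mul x y _ _ h1 h2 =>
      rcases x with a | ⟨i, g, l⟩ <;> rcases y with b | ⟨j, h, k⟩ <;>
        simp only [comp, mul_def, mul] at h1 h2 ⊢ <;> try assumption
      simp only [Finsupp.add_apply, Finsupp.single_apply]
      split_ifs <;> omega
  intro h
  have := key (m 0 (Finsupp.single n (-1)) 0) (h ▸ trivial)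
  simp [comp] at this

lemma pigeon (r : Setoid S) [Finite (Quotient r)] (f : ℕ → S) :
    ∃ a d : ℕ, 0 < d ∧ r (f a) (f (a + d)) := by
  obtain ⟨i, j, hne, h⟩ := Finite.exists_ne_map_eq_of_infinite (fun n => Quotient.mk r (f n))
  rcases lt_or_gt_of_ne hne with h1 | h1
  · exact ⟨i, j - i, by omega, by rw [Nat.add_sub_cancel' h1.le]; exact Quotient.exact h⟩
  · exact ⟨j, i - j, by omega, by rw [Nat.add_sub_cancel' h1.le]; exact Quotient.exact h.symm⟩

/-- stepping lemma -/
lemma step {α : Type} (r : Setoid α) (f : ℤ → α) (d : ℕ) (hd : 0 < d)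
    (h : ∀ z, r (f z) (f (z + d))) (z : ℤ) : r (f z) (f (z % d)) := by
  have key : ∀ (k : ℤ) (z : ℤ), r (f z) (f (z + k * d)) := by
    intro k
    induction k using Int.induction_on with
    | zero => intro z; simpa using r.refl _
    | succ k ih =>
      intro z
      have := h (z + k * d)
      rw [add_assoc, ← add_one_mul] at this
      exact r.trans (ih z) this
    | pred k ih =>
      intro z
      have := h (z + (-k - 1) * d)
      rw [add_assoc, ← add_one_mul, sub_add_cancel] at this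
      exact r.trans (ih z) (r.symm this)
  have := key (-(z / d)) z
  rwa [show z + -(z / d) * d = z % d by rw [Int.emod_def]; ring] at this

theorem fin_core (r : Setoid S) [Finite (Quotient r)] (hr : ∀ a b s, r a b → r (a * s) (b * s)) :
    ∃ X : Set (S × S), X.Finite ∧ (∀ p ∈ X, r p.1 p.2) ∧ ∃ Y : Set S, Y.Finite ∧
      ∀ q : Setoid S, (∀ a b s, q a b → q (a * s) (b * s)) → (∀ p ∈ X, q p.1 p.2) →
        ∀ x, ∃ y ∈ Y, q x y := by
  obtain ⟨a, n, hn, h0⟩ := pigeon r (fun k => t k)
  choose b d hd h1 using fun i : ℤ => pigeon r (fun k => m i 0 k)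
  choose c w hw h2 using fun i k : ℤ => pigeon r (fun s => m i (Finsupp.single k s) 0)
  choose b' d' hd1 h3 using fun (i : ℤ) (g : G) => pigeon r (fun k => m i g k)
  let V : ℤ → Set G := fun i =>
    (fun v : Finset.Ico (0 : ℤ) (d i) → ℤ => ∑ k, Finsupp.single k.1 (v k)) ''
      (Set.pi Set.univ fun k => Set.Ico 0 (w i k : ℤ))
  have hV : ∀ i, (V i).Finite := fun i => (Set.Finite.pi fun _ => Set.finite_Ico _ _).image _
  refine ⟨{(t a, t (a + n : ℕ))} ∪ (⋃ i ∈ Set.Ico (0 : ℤ) n, {(m i 0 (b i), m i 0 (b i + d i : ℕ))} ∪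
      (⋃ k ∈ Set.Ico (0 : ℤ) (d i), {(m i (Finsupp.single k (c i k)) 0,
        m i (Finsupp.single k (c i k + w i k : ℕ)) 0)}) ∪
      ⋃ g ∈ V i, {(m i g (b' i g), m i g (b' i g + d' i g : ℕ))}), ?_, ?_,
      (t '' Set.Ico 0 n) ∪ ⋃ i ∈ Set.Ico (0 : ℤ) n, ⋃ g ∈ V i, m i g '' Set.Ico (0 : ℤ) (d' i g),
      ?_, ?_⟩
  · exact (Set.finite_singleton _).union ((Set.finite_Ico _ _).biUnion fun i _ =>
      ((Set.finite_singleton _).union ((Set.finite_Ico _ _).biUnion
        fun _ _ => Set.finite_singleton _)).union ((hV i).biUnion fun _ _ => Set.finite_singleton _))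
  · simp only [Set.mem_union, Set.mem_singleton_iff, Set.mem_iUnion]
    rintro p (rfl | ⟨i, -, (rfl | ⟨k, -, rfl⟩) | ⟨g, -, rfl⟩⟩)
    exacts [h0, h1 i, h2 i k, h3 i g]
  · exact ((Set.finite_Ico _ _).image _).union ((Set.finite_Ico _ _).biUnion fun i _ =>
      (hV i).biUnion fun _ _ => (Set.finite_Ico _ _).image _)
  intro q hq hX
  simp only [Set.mem_union, Set.mem_singleton_iff, Set.mem_iUnion] at hX
  have hn' : (0 : ℤ) < n := by exact_mod_cast hn
  have q0 := hX _ (Or.inl rfl)
  have t0 : ∀ z : ℤ, q (t z) (t (z % n)) := step q t n hn fun z => by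
    have := hq _ _ (t (z - a)) q0
    simp only [mul_def, mul] at this
    convert this using 2 <;> push_cast <;> ring
  rintro (z | ⟨i0, g, l⟩)
  · exact ⟨_, Or.inl ⟨_, ⟨Int.emod_nonneg _ hn'.ne', Int.emod_lt_of_pos _ hn'⟩, rfl⟩, t0 z⟩
  have s0 : q (m i0 g l) (m (i0 % n) g l) := by simpa [mul_def, mul] using hq _ _ (m 0 g l) (t0 i0)
  have hi : i0 % n ∈ Set.Ico (0 : ℤ) n := ⟨Int.emod_nonneg _ hn'.ne', Int.emod_lt_of_pos _ hn'⟩
  generalize i0 % n = i at s0 hi
  have hd' : (0 : ℤ) < d i := by exact_mod_cast hd i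
  have q1 := hX _ (Or.inr ⟨i, hi, Or.inl (Or.inl rfl)⟩)
  have t1 : ∀ (k : ℤ) (h : G) (p : ℤ), q (m i (Finsupp.single k 1 + h) p)
      (m i (Finsupp.single (k % d i) 1 + h) p) := fun k h p =>
    step q (fun k => m i (Finsupp.single k 1 + h) p) (d i) (hd i) (fun z => by
      have := hq _ _ (m (z - b i) h p) q1
      simp only [mul_def, mul, zero_add] at this
      convert this using 4 <;> push_cast <;> ring) k
  have t1' : ∀ (k s : ℤ) (h : G) (p : ℤ), q (m i (Finsupp.single k s + h) p)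
      (m i (Finsupp.single (k % d i) s + h) p) := by
    intro k s
    induction s using Int.induction_on with
    | zero => intro h p; simpa using q.refl _
    | succ s ih =>
      intro h p
      have a1 := ih (Finsupp.single k 1 + h) p
      have a2 := t1 k (Finsupp.single (k % d i) (s : ℤ) + h) p
      rw [Finsupp.single_add, Finsupp.single_add, add_assoc, add_assoc]
      refine q.trans a1 ?_
      convert a2 using 2 <;> abel
    | pred s ih =>
      intro h p
      have a1 := ih (h - Finsupp.single k 1) p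
      have a2 := t1 k (Finsupp.single (k % d i) (-s : ℤ) + h - Finsupp.single k 1
        - Finsupp.single (k % d i) 1) p
      rw [Finsupp.single_sub, Finsupp.single_sub]
      refine q.trans (by convert a1 using 2; abel) (q.symm ?_)
      convert a2 using 2 <;> abel
  have t2 : ∀ k ∈ Set.Ico (0 : ℤ) (d i), ∀ (s : ℤ) (h : G) (p : ℤ),
      q (m i (Finsupp.single k s + h) p) (m i (Finsupp.single k (s % w i k) + h) p) :=
    fun k hk s h p => step q (fun s => m i (Finsupp.single k s + h) p) (w i k) (hw i k) (fun z => by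
      have := hq _ _ (m 0 (Finsupp.single k (z - c i k) + h - Finsupp.single 0 1) p)
        (hX _ (Or.inr ⟨i, hi, Or.inl (Or.inr ⟨k, hk, rfl⟩)⟩))
      simp only [mul_def, mul, zero_add] at this
      push_cast at this
      simp only [Finsupp.single_add, Finsupp.single_sub] at this ⊢
      convert this using 2 <;> abel) s
  have t3 : ∀ g : G, ∃ v : Finset.Ico (0 : ℤ) (d i) → ℤ, ∀ h p,
      q (m i (g + h) p) (m i (∑ k, Finsupp.single k.1 (v k) + h) p) := by
    intro g
    induction g using Finsupp.induction_linear with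
    | zero => exact ⟨0, fun h p => by simpa using q.refl _⟩
    | add f g h1 h2 =>
      obtain ⟨u, hu⟩ := h1
      obtain ⟨v, hv⟩ := h2
      refine ⟨u + v, fun h p => ?_⟩
      simp only [Pi.add_apply, Finsupp.single_add, Finset.sum_add_distrib]
      refine q.trans (by convert hu (g + h) p using 2; abel) ?_
      convert hv (∑ k, Finsupp.single k.1 (u k) + h) p using 2 <;> abel
    | single k s =>
      let k0 : Finset.Ico (0 : ℤ) (d i) := ⟨k % d i, Finset.mem_Ico.mpr
        ⟨Int.emod_nonneg _ hd'.ne', Int.emod_lt_of_pos _ hd'⟩⟩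
      refine ⟨Pi.single k0 s, fun h p => ?_⟩
      rw [Finset.sum_eq_single k0 (fun b _ hb => by simp [hb]) (by simp)]
      simpa using t1' k s h p
  have t4 : ∀ (v : Finset.Ico (0 : ℤ) (d i) → ℤ) (F : Finset (Finset.Ico (0 : ℤ) (d i))) h p,
      q (m i (∑ k ∈ F, Finsupp.single k.1 (v k) + h) p)
        (m i (∑ k ∈ F, Finsupp.single k.1 (v k % w i k) + h) p) := by
    intro v F
    induction F using Finset.induction_on with
    | empty => intro h p; simpa using q.refl _
    | insert k F hk ih =>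
      intro h p
      rw [Finset.sum_insert hk, Finset.sum_insert hk, add_assoc, add_assoc]
      refine q.trans (t2 k.1 (Finset.mem_Ico.mp k.2) _ _ p) ?_
      convert ih (Finsupp.single k.1 (v k % w i k) + h) p using 2 <;> abel
  obtain ⟨v, hv⟩ := t3 g
  have s1 := q.trans (hv 0 l) (t4 v Finset.univ 0 l)
  simp only [add_zero] at s1
  have hg : ∑ k : Finset.Ico (0 : ℤ) (d i), Finsupp.single k.1 (v k % w i k) ∈ V i := by
    refine ⟨fun k => v k % w i k, fun k _ => ?_, rfl⟩
    have : (0 : ℤ) < w i k := by exact_mod_cast hw i k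
    exact ⟨Int.emod_nonneg _ this.ne', Int.emod_lt_of_pos _ this⟩
  generalize ∑ k : Finset.Ico (0 : ℤ) (d i), Finsupp.single k.1 (v k % w i k) = g' at s1 hg
  have hd2 : (0 : ℤ) < d' i g' := by exact_mod_cast hd1 i g'
  have s2 := step q (fun l => m i g' l) (d' i g') (hd1 i g') (fun z => by
    have := hq _ _ (t (z - b' i g')) (hX _ (Or.inr ⟨i, hi, Or.inr ⟨g', hg, rfl⟩⟩))
    simp only [mul_def, mul] at this
    convert this using 2 <;> push_cast <;> ring) l
  refine ⟨_, Or.inr ?_, q.trans s0 (q.trans s1 s2)⟩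
  simp only [Set.mem_iUnion]
  exact ⟨i, hi, g', hg, _, ⟨Int.emod_nonneg _ hd2.ne', Int.emod_lt_of_pos _ hd2⟩, rfl⟩

theorem fnoeth (r : Setoid S) [Finite (Quotient r)] (hr : ∀ a b s, r a b → r (a * s) (b * s)) :
    ∃ X : Set (S × S), X.Finite ∧ (∀ p ∈ X, r p.1 p.2) ∧
      ∀ q : Setoid S, (∀ a b s, q a b → q (a * s) (b * s)) → (∀ p ∈ X, q p.1 p.2) →
        ∀ x y, r x y → q x y := by
  obtain ⟨X, hX, h1, Y, hY, h2⟩ := fin_core r hr
  refine ⟨X ∪ {p ∈ Y ×ˢ Y | r p.1 p.2}, hX.union ((hY.prod hY).subset fun _ h => h.1), ?_, ?_⟩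
  · rintro p (h | h)
    exacts [h1 p h, h.2]
  · intro q hq h3 x y hxy
    obtain ⟨x', hx', a1⟩ := h2 (q ⊓ r) (fun a b s h => ⟨hq _ _ _ h.1, hr _ _ _ h.2⟩)
      (fun p hp => ⟨h3 p (Or.inl hp), h1 p hp⟩) x
    obtain ⟨y', hy', a2⟩ := h2 (q ⊓ r) (fun a b s h => ⟨hq _ _ _ h.1, hr _ _ _ h.2⟩)
      (fun p hp => ⟨h3 p (Or.inl hp), h1 p hp⟩) y
    exact q.trans a1.1 (q.trans (h3 (x', y') (Or.inr ⟨⟨hx', hy'⟩,
      r.trans (r.symm a1.2) (r.trans hxy a2.2)⟩)) (q.symm a2.1))

end Pool.Agent.H47.FNoeth
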