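import Mathlib

open Set Filter Topology

namespace Pool.Agent.H47.Fill

universe u v

/-- neighbourhoods in a subspace of a product contain finite-support cylinders -/
theorem cyl {I : Type u} {X : I → Type v} [∀ i, TopologicalSpace (X i)] {x : ∀ i, X i}
    {N : Set (∀ i, X i)} (hN : N ∈ 𝓝 x) :
    ∃ S : Finset I, ∀ y : ∀ i, X i, (∀ i ∈ S, y i = x i) → y ∈ N := by
  rw [nhds_pi, Filter.mem_pi'] at hN
  obtain ⟨S, t, ht, hs⟩ := hN
  refine ⟨S, fun y hy => hs fun i hi => ?_⟩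
  rw [hy i hi]; exact mem_of_mem_nhds (ht i)

theorem eq_univ_of_paracompact {I : Type u} {X : I → Type v} [∀ i, TopologicalSpace (X i)]
    [∀ i, T1Space (X i)] (D : Set (∀ i, X i))
    (hfill : ∀ J : Set I, J.Countable → ∀ y : ∀ i, X i, ∃ d ∈ D, ∀ j ∈ J, d j = y j)
    [ParacompactSpace D] : D = univ := by
  classical
  by_contra hne
  obtain ⟨x, hx⟩ : ∃ x, x ∉ D := by
    by_contra h; push Not at h; exact hne (eq_univ_of_forall h)
  let U : I → Set D := fun i => {d | d.1 i ≠ x i}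
  have hUo : ∀ i, IsOpen (U i) := fun i =>
    (isOpen_compl_singleton (x := x i)).preimage ((continuous_apply i).comp continuous_subtype_val)
  have hUc : ⋃ i, U i = univ := by
    refine eq_univ_of_forall fun d => ?_
    by_contra h
    simp only [mem_iUnion, not_exists, U, mem_ofPred_eq, not_not] at h
    exact hx ((funext h : d.1 = x) ▸ d.2)
  obtain ⟨V, hVo, hVc, hVl, hVU⟩ := precise_refinement U hUo hUc
  have key : ∀ d : D, ∃ S : Finset I, ∀ d' : D, (∀ i ∈ S, d'.1 i = d.1 i) →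
      ∀ i, d' ∈ V i → i ∈ S := by
    intro d
    obtain ⟨N, hN, hf⟩ := hVl d
    rw [mem_nhds_subtype] at hN
    obtain ⟨N', hN', hNN⟩ := hN
    obtain ⟨S, hS⟩ := cyl hN'
    refine ⟨S ∪ hf.toFinset, fun d' hd' i hi => ?_⟩
    refine Finset.mem_union_right _ ?_
    rw [Finite.mem_toFinset]
    exact ⟨d', hi, hNN (hS _ fun j hj => hd' j (Finset.mem_union_left _ hj))⟩
  choose S hS using key
  have hf : ∀ J : Finset I, ∃ d : D, ∀ j ∈ J, d.1 j = x j := fun J => by
    obtain ⟨d, hd, h⟩ := hfill J J.countable_toSet x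
    exact ⟨⟨d, hd⟩, h⟩
  choose g hg using hf
  let J : ℕ → Finset I := fun n => @Nat.rec (fun _ => Finset I) ∅ (fun _ K => K ∪ S (g K)) n
  have hJs : ∀ n, J (n + 1) = J n ∪ S (g (J n)) := fun n => rfl
  have hJm : Monotone J := monotone_nat_of_le_succ fun n => by
    rw [hJs]; exact Finset.subset_union_left
  obtain ⟨w, hw, hwx⟩ := hfill (⋃ n, (J n : Set I))
    (countable_iUnion fun n => Finset.countable_toSet (J n)) x
  obtain ⟨n, hn⟩ : ∃ n, ∀ i ∈ S ⟨w, hw⟩, (∃ m, i ∈ J m) → i ∈ J n := by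
    have : ∀ i : I, ∃ m, (∃ m, i ∈ J m) → i ∈ J m := fun i => by
      by_cases h : ∃ m, i ∈ J m
      · obtain ⟨m, hm⟩ := h; exact ⟨m, fun _ => hm⟩
      · exact ⟨0, fun h' => absurd h' h⟩
    choose m hm using this
    exact ⟨(S ⟨w, hw⟩).sup m, fun i hi h => hJm (Finset.le_sup (f := m) hi) (hm i h)⟩
  obtain ⟨d, hd, hdy⟩ := hfill ((J (n + 1) ∪ S ⟨w, hw⟩ : Finset I) : Set I)
    (Finset.countable_toSet _) (fun i => if i ∈ J (n + 1) then (g (J n)).1 i else w i)
  have h1 : ∀ i ∈ J (n + 1), d i = (g (J n)).1 i := fun i hi => by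
    rw [hdy i (by simp [hi]), if_pos hi]
  have h2 : ∀ i ∈ S ⟨w, hw⟩, d i = w i := fun i hi => by
    by_cases h : i ∈ J (n + 1)
    · have := hn i hi ⟨n + 1, h⟩
      rw [h1 i h, hg _ i this, hwx i (mem_iUnion.2 ⟨n, this⟩)]
    · rw [hdy i (by simp [hi]), if_neg h]
  obtain ⟨i, hi⟩ : ∃ i, (⟨d, hd⟩ : D) ∈ V i := mem_iUnion.1 (hVc ▸ mem_univ _)
  have a1 : i ∈ S (g (J n)) := hS _ ⟨d, hd⟩
    (fun j hj => h1 j (by rw [hJs]; exact Finset.mem_union_right _ hj)) i hi
  have a1' : i ∈ J (n + 1) := by rw [hJs]; exact Finset.mem_union_right _ a1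
  have a2 : i ∈ S ⟨w, hw⟩ := hS _ ⟨d, hd⟩ h2 i hi
  have a3 : i ∈ J n := hn i a2 ⟨n + 1, a1'⟩
  exact hVU i hi ((h1 i a1').trans (hg _ i a3))

section tree
variable {L K : Type} [TopologicalSpace K] [DiscreteTopology K]

theorem cyl_nhds (z : L → K) (S : Finset L) : {y : L → K | ∀ i ∈ S, y i = z i} ∈ 𝓝 z := by
  rw [show {y : L → K | ∀ i ∈ S, y i = z i} = ⋂ i ∈ S, {y | y i = z i} by ext; simp]
  refine (biInter_finset_mem S).2 fun i _ => ?_
  exact IsOpen.mem_nhds (s := (fun y : L → K => y i) ⁻¹' {z i})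
    ((isOpen_discrete _).preimage (continuous_apply i)) rfl

theorem clopen_of_local (A : Set (L → K))
    (h : ∀ z : L → K, ∃ S : Finset L, ∀ y : L → K, (∀ i ∈ S, y i = z i) → (y ∈ A ↔ z ∈ A)) :
    IsClopen A := by
  constructor
  · rw [← isOpen_compl_iff, isOpen_iff_mem_nhds]
    intro z hz
    obtain ⟨S, hS⟩ := h z
    exact mem_of_superset (cyl_nhds z S) fun y hy hy' => hz ((hS y hy).1 hy')
  · rw [isOpen_iff_mem_nhds]
    intro z hz
    obtain ⟨S, hS⟩ := h z
    exact mem_of_superset (cyl_nhds z S) fun y hy => (hS y hy).2 hz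

/-- the Sigma-product around the constant `c` -/
def Sig (c : K) : Set (L → K) := {z | {i | z i ≠ c}.Countable}

theorem tree [Nonempty L] (c : K) (E F : Set (L → K)) (hE : E ⊆ Sig c) (hF : F ⊆ Sig c)
    (h : ∀ z ∈ Sig c, z ∈ closure E → z ∈ closure F → False) :
    ∃ A : Set (L → K), IsClopen A ∧ E ⊆ A ∧ Disjoint A F := by
  classical
  let bad : Finset L → (L → K) → Prop := fun S z =>
    (∃ e ∈ E, ∀ i ∈ S, e i = z i) ∧ ∃ f ∈ F, ∀ i ∈ S, f i = z i
  have hg : ∀ (S : Finset L) (z : L → K), ∃ g : ℕ → L, bad S z →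
      (∃ e ∈ E, (∀ i ∈ S, e i = z i) ∧ ∀ i, e i ≠ c → i ∈ range g) ∧
      (∃ f ∈ F, (∀ i ∈ S, f i = z i) ∧ ∀ i, f i ≠ c → i ∈ range g) := by
    intro S z
    by_cases hb : bad S z
    · obtain ⟨⟨e, he, he'⟩, f, hf, hf'⟩ := hb
      have hc : (insert (Classical.arbitrary L) ({i | e i ≠ c} ∪ {i | f i ≠ c})).Countable :=
        (Countable.union (hE he) (hF hf)).insert _
      obtain ⟨g, hg⟩ := hc.exists_eq_range (insert_nonempty _ _)
      exact ⟨g, fun _ => ⟨⟨e, he, he', fun i hi => hg ▸ Or.inr (Or.inl hi)⟩,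
        f, hf, hf', fun i hi => hg ▸ Or.inr (Or.inr hi)⟩⟩
    · exact ⟨fun _ => Classical.arbitrary L, fun h => absurd h hb⟩
  choose g hg using hg
  let r : Finset L → (L → K) → (L → K) := fun S z i => if i ∈ S then z i else c
  let nx : (L → K) → ℕ → Finset (Finset L) → Finset L := fun z k H =>
    H.biUnion fun S => S ∪ (Finset.range k).image (g S (r S z))
  let st : (L → K) → ℕ → Finset (Finset L) := fun z k =>
    Nat.rec ∅ (fun k H => insert (nx z k H) H) k
  let J : (L → K) → ℕ → Finset L := fun z k => nx z k (st z k)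
  have hst : ∀ z k, st z (k + 1) = insert (J z k) (st z k) := fun z k => rfl
  have hstm : ∀ z, Monotone (st z) := fun z => monotone_nat_of_le_succ fun n => by
    rw [hst]; exact Finset.subset_insert _ _
  have hsub : ∀ z k, ∀ S ∈ st z k, S ⊆ J z k := fun z k S hS i hi =>
    Finset.mem_biUnion.2 ⟨S, hS, Finset.mem_union_left _ hi⟩
  have hJm : ∀ z, Monotone (J z) := fun z => monotone_nat_of_le_succ fun n =>
    hsub z (n + 1) _ (by rw [hst]; exact Finset.mem_insert_self _ _)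
  have hJg : ∀ z k m, ∃ l, g (J z k) (r (J z k) z) m ∈ J z l := fun z k m =>
    ⟨k + m + 1, Finset.mem_biUnion.2 ⟨J z k,
      hstm z (by omega : k + 1 ≤ k + m + 1) (by rw [hst]; exact Finset.mem_insert_self _ _),
      Finset.mem_union_right _ (Finset.mem_image_of_mem _ (by simp only [Finset.mem_range]; omega))⟩⟩
  have hloc : ∀ z y k, (∀ i ∈ J z k, y i = z i) → ∀ j ≤ k, st y j = st z j ∧ J y j = J z j := by
    intro z y k hy
    have aux : ∀ j ≤ k, st y j = st z j → J y j = J z j := by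
      intro j hj hs
      show nx y j (st y j) = nx z j (st z j)
      rw [hs]
      refine Finset.biUnion_congr rfl fun S hS => ?_
      have : r S y = r S z := by
        funext i
        by_cases hi : i ∈ S
        · simp only [r, if_pos hi]; exact hy i (hJm z hj (hsub z j S hS hi))
        · simp only [r, if_neg hi]
      rw [this]
    intro j
    induction j with
    | zero => exact fun hj => ⟨rfl, aux 0 hj rfl⟩
    | succ j ih =>
      intro hj
      have := ih (by omega)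
      have e : st y (j + 1) = st z (j + 1) := by rw [hst, hst, this.1, this.2]
      exact ⟨e, aux _ hj e⟩
  have hterm : ∀ z, ∃ k, ¬ bad (J z k) z := by
    intro z
    by_contra hcon
    push Not at hcon
    let w : L → K := fun i => if ∃ l, i ∈ J z l then z i else c
    have hw : w ∈ Sig c := by
      refine (countable_iUnion fun l => (J z l).countable_toSet).mono fun i hi => ?_
      by_contra hn
      simp only [mem_iUnion, Finset.mem_coe] at hn
      exact hi (if_neg hn)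
    have cl : ∀ G : Set (L → K), (∀ k, ∃ e ∈ G, (∀ i ∈ J z k, e i = r (J z k) z i) ∧
        ∀ i, e i ≠ c → i ∈ range (g (J z k) (r (J z k) z))) → w ∈ closure G := by
      intro G hG
      rw [mem_closure_iff_nhds]
      intro N hN
      obtain ⟨S, hS⟩ := cyl hN
      have : ∀ i : L, ∃ m, (∃ m, i ∈ J z m) → i ∈ J z m := fun i => by
        by_cases h : ∃ m, i ∈ J z m
        · obtain ⟨m, hm⟩ := h; exact ⟨m, fun _ => hm⟩
        · exact ⟨0, fun h' => absurd h' h⟩
      choose m hm using this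
      obtain ⟨e, he, h1, h2⟩ := hG (S.sup m)
      refine ⟨e, hS e fun i hi => ?_, he⟩
      by_cases hex : ∃ l, i ∈ J z l
      · have : i ∈ J z (S.sup m) := hJm z (Finset.le_sup (f := m) hi) (hm i hex)
        rw [h1 i this]; simp only [r, w, if_pos this, if_pos hex]
      · simp only [w, if_neg hex]
        by_contra hne
        obtain ⟨q, hq⟩ := h2 i hne
        exact hex (hq ▸ hJg z _ q)
    have hb : ∀ k, bad (J z k) (r (J z k) z) := fun k => by
      obtain ⟨⟨e, he, he'⟩, f, hf, hf'⟩ := hcon k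
      exact ⟨⟨e, he, fun i hi => by simp only [r, if_pos hi]; exact he' i hi⟩,
        f, hf, fun i hi => by simp only [r, if_pos hi]; exact hf' i hi⟩
    exact h w hw (cl E fun k => (hg _ _ (hb k)).1) (cl F fun k => (hg _ _ (hb k)).2)
  let N : (L → K) → ℕ := fun z => Nat.find (hterm z)
  refine ⟨{z | ¬ ∃ f ∈ F, ∀ i ∈ J z (N z), f i = z i}, clopen_of_local _ fun z => ?_, ?_, ?_⟩
  · refine ⟨J z (N z), fun y hy => ?_⟩
    have hl := hloc z y _ hy
    have hbad : ∀ j ≤ N z, (bad (J y j) y ↔ bad (J z j) z) := fun j hj => by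
      rw [(hl j hj).2]
      have : ∀ e : L → K, (∀ i ∈ J z j, e i = y i) ↔ ∀ i ∈ J z j, e i = z i := fun e =>
        forall₂_congr fun i hi => by rw [hy i (hJm z hj hi)]
      simp only [bad, this]
    have hN : N y = N z := by
      show Nat.find _ = _
      rw [Nat.find_eq_iff]
      refine ⟨fun hb => Nat.find_spec (hterm z) ((hbad _ le_rfl).1 hb), fun j hj hb => ?_⟩
      exact Nat.find_min (hterm z) hj (fun hb' => hb ((hbad j hj.le).2 hb'))
    simp only [mem_ofPred_eq, hN, (hl _ le_rfl).2]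
    have : ∀ e : L → K, (∀ i ∈ J z (N z), e i = y i) ↔ ∀ i ∈ J z (N z), e i = z i := fun e =>
      forall₂_congr fun i hi => by rw [hy i hi]
    simp only [this]
  · intro z hz hf
    exact Nat.find_spec (hterm z) ⟨⟨z, hz, fun _ _ => rfl⟩, hf⟩
  · rw [Set.disjoint_left]
    intro z hz hF'
    exact hz ⟨z, hF', fun _ _ => rfl⟩
end tree

section cone
variable {T : Type} [TopologicalSpace T]

/-- closed sets are separated by clopen sets on `S` -/
def Sep (S : Set T) : Prop :=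
  ∀ E F : Set T, IsClosed E → IsClosed F → Disjoint E F →
    ∃ G, IsClopen G ∧ E ∩ S ⊆ G ∧ Disjoint G (F ∩ S)

theorem Sep.mono {S S' : Set T} (h : Sep S) (hs : S' ⊆ S) : Sep S' := fun E F hE hF hd => by
  obtain ⟨G, h1, h2, h3⟩ := h E F hE hF hd
  exact ⟨G, h1, (inter_subset_inter_right _ hs).trans h2,
    h3.mono_right (inter_subset_inter_right _ hs)⟩

theorem cone {ι : Type} (S C : Set T) (P : ι → Set T) (hS : IsClopen S) (hC : Sep C)
    (hP : ∀ i, Sep (P i)) (hPc : ∀ i, IsClopen (P i))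
    (hd : ∀ i j x, x ∈ P i → x ∈ P j → i = j) (hcov : ∀ x ∈ S, x ∈ C ∨ ∃ i, x ∈ P i)
    (hsat : ∀ F, IsClosed F → Disjoint F C → ∃ H : ι → Set T, (∀ i, IsClopen (H i)) ∧
      (∀ i, F ∩ P i ⊆ H i) ∧ ∀ x ∈ C, ∃ U ∈ 𝓝 x, ∀ i, Disjoint U (P i ∩ H i)) : Sep S := by
  have one : ∀ E F : Set T, IsClosed E → IsClosed F → Disjoint E F → Disjoint E C →
      ∃ G, IsClopen G ∧ E ∩ S ⊆ G ∧ Disjoint G F := by
    intro E F hE hF hEF hEC
    obtain ⟨H, h1, h2, h3⟩ := hsat E hE hEC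
    choose G g1 g2 g3 using fun i => hP i E F hE hF hEF
    have hcl : ∀ i, IsClopen (P i ∩ H i ∩ G i) := fun i => ((hPc i).inter (h1 i)).inter (g1 i)
    refine ⟨S ∩ ⋃ i, P i ∩ H i ∩ G i, ⟨?_, hS.2.inter (isOpen_iUnion fun i => (hcl i).2)⟩, ?_, ?_⟩
    · rw [← isOpen_compl_iff, isOpen_iff_mem_nhds]
      intro x hx
      by_cases hxS : x ∈ S
      · rcases hcov x hxS with hc | ⟨i, hi⟩
        · obtain ⟨U, hU, hU'⟩ := h3 x hc
          refine mem_of_superset hU fun y hy hy' => ?_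
          obtain ⟨i, hi⟩ := mem_iUnion.1 hy'.2
          exact Set.disjoint_left.1 (hU' i) hy hi.1
        · have : x ∈ P i ∩ (P i ∩ H i ∩ G i)ᶜ :=
            ⟨hi, fun h => hx ⟨hxS, mem_iUnion.2 ⟨i, h⟩⟩⟩
          refine mem_of_superset (((hPc i).inter (hcl i).compl).2.mem_nhds this)
            fun y hy hy' => ?_
          obtain ⟨j, hj⟩ := mem_iUnion.1 hy'.2
          obtain rfl := hd i j y hy.1 hj.1.1
          exact hy.2 hj
      · exact mem_of_superset (hS.compl.2.mem_nhds hxS) fun y hy hy' => hy hy'.1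
    · rintro x ⟨hx, hxS⟩
      rcases hcov x hxS with hc | ⟨i, hi⟩
      · exact absurd hc (Set.disjoint_left.1 hEC hx)
      · exact ⟨hxS, mem_iUnion.2 ⟨i, ⟨hi, h2 i ⟨hx, hi⟩⟩, g2 i ⟨hx, hi⟩⟩⟩
    · rw [Set.disjoint_left]
      rintro x ⟨-, hx⟩ hxF
      obtain ⟨i, hi⟩ := mem_iUnion.1 hx
      exact Set.disjoint_left.1 (g3 i) hi.2 ⟨hxF, hi.1.1⟩
  intro E F hE hF hEF
  obtain ⟨A, hA, a1, a2⟩ := hC E F hE hF hEF
  obtain ⟨G1, g1, g2, g3⟩ := one (E ∩ Aᶜ) F (hE.inter hA.compl.1) hF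
    (hEF.mono_left inter_subset_left)
    (Set.disjoint_left.2 fun x hx hc => hx.2 (a1 ⟨hx.1, hc⟩))
  obtain ⟨G2, k1, k2, k3⟩ := one (F ∩ A) E (hF.inter hA.1) hE
    (hEF.symm.mono_left inter_subset_left)
    (Set.disjoint_left.2 fun x hx hc => Set.disjoint_left.1 a2 hx.2 ⟨hx.1, hc⟩)
  refine ⟨G1 ∪ (A ∩ G2ᶜ), g1.union (hA.inter k1.compl), ?_, ?_⟩
  · rintro x ⟨hx, hxS⟩
    by_cases hxA : x ∈ A
    · exact Or.inr ⟨hxA, fun h => Set.disjoint_left.1 k3 h hx⟩
    · exact Or.inl (g2 ⟨⟨hx, hxA⟩, hxS⟩)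
  · rw [Set.disjoint_left]
    rintro x (hx | hx) ⟨hxF, hxS⟩
    · exact Set.disjoint_left.1 g3 hx hxF
    · exact hx.2 (k2 ⟨⟨hxF, hx.1⟩, hxS⟩)

theorem Sep.normal (h : Sep (univ : Set T)) : NormalSpace T := ⟨fun E F hE hF hd => by
  obtain ⟨G, h1, h2, h3⟩ := h E F hE hF hd
  rw [inter_univ] at h2 h3
  exact ⟨G, Gᶜ, h1.2, h1.compl.2, h2, fun x hx hg => Set.disjoint_left.1 h3 hg hx,
    disjoint_compl_right⟩⟩
end cone

end Pool.Agent.H47.Fill
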