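import Pool.Agent.H47.FillA

open Set Filter Topology

namespace Pool.Agent.H47.Fill

/-- a chain of planks with a point at infinity -/
inductive Y (L K : Type) : Type
  | p : Y L K
  | a (D : Finset L) (i : ℕ) (G : Finset L) : Y L K
  | b (D : Finset L) (i : ℕ) (M : {M : Set K // M ≠ univ}) : Y L K
  | n (D : Finset L) (i : ℕ) (s : Bool) (G : Finset L) (M : {M : Set K // M ≠ univ})
      (T : Finset L) : Y L K

variable {L K : Type}

def ch : Y L K → Finset L
  | .p => ∅
  | .a D _ _ => D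
  | .b D _ _ => D
  | .n D _ _ _ _ _ => D

def lev : Y L K → ℕ
  | .p => 0
  | .a _ i _ => i
  | .b _ i _ => i
  | .n _ i s _ _ _ => i + s.toNat

def R : Y L K → Finset L → Finset K → ℕ → Y L K → Prop
  | .p, S, _, k, y => y ≠ .p ∧ S ⊆ ch y ∧ k ≤ lev y
  | .a D i G, S, V, _, .n D' i' s G' M T =>
      D' = D ∧ i' + s.toNat = i ∧ G' = G ∧ (↑V ⊆ M.1) ∧ S ⊆ T
  | .b D i M, S, _, _, .n D' i' _ G M' _ => D' = D ∧ i' = i ∧ M' = M ∧ S ⊆ G
  | _, _, _, _, _ => False

def B (y : Y L K) (S : Finset L) (V : Finset K) (k : ℕ) : Set (Y L K) :=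
  {y' | y' = y ∨ R y S V k y'}

theorem B_mono {y : Y L K} {S S' : Finset L} {V V' : Finset K} {k k' : ℕ} (hS : S ⊆ S')
    (hV : V ⊆ V') (hk : k ≤ k') : B y S' V' k' ⊆ B y S V k := by
  rintro y' (h | h)
  · exact Or.inl h
  · right
    cases y with
    | p => exact ⟨h.1, hS.trans h.2.1, hk.trans h.2.2⟩
    | a D i G =>
      cases y' with
      | n D' i' s G' M T =>
        exact ⟨h.1, h.2.1, h.2.2.1, (Finset.coe_subset.2 hV).trans h.2.2.2.1, hS.trans h.2.2.2.2⟩
      | _ => exact h.elim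
    | b D i M =>
      cases y' with
      | n D' i' s G' M T => exact ⟨h.1, h.2.1, h.2.2.1, hS.trans h.2.2.2⟩
      | _ => exact h.elim
    | n => cases y' <;> exact h.elim

instance : TopologicalSpace (Y L K) where
  IsOpen U := ∀ y ∈ U, ∃ S V k, B y S V k ⊆ U
  isOpen_univ := fun _ _ => ⟨∅, ∅, 0, subset_univ _⟩
  isOpen_inter := by
    classical
    intro U U' h h' y hy
    obtain ⟨S, V, k, h1⟩ := h y hy.1
    obtain ⟨S', V', k', h2⟩ := h' y hy.2
    exact ⟨S ∪ S', V ∪ V', k + k', subset_inter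
      ((B_mono Finset.subset_union_left Finset.subset_union_left (by omega)).trans h1)
      ((B_mono Finset.subset_union_right Finset.subset_union_right (by omega)).trans h2)⟩
  isOpen_sUnion := by
    rintro s h y ⟨U, hU, hy⟩
    obtain ⟨S, V, k, h1⟩ := h U hU y hy
    exact ⟨S, V, k, h1.trans (subset_sUnion_of_mem hU)⟩

theorem isOpen_B (y : Y L K) (S : Finset L) (V : Finset K) (k : ℕ) : IsOpen (B y S V k) := by
  rintro y' (rfl | h)
  · exact ⟨S, V, k, Subset.rfl⟩
  · refine ⟨∅, ∅, 0, ?_⟩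
    rintro y'' (rfl | h')
    · exact Or.inr h
    · right
      cases y with
      | p =>
        cases y' with
        | p => exact (h.1 rfl).elim
        | a D i G =>
          cases y'' with
          | n D' i' s G' M T =>
            obtain ⟨rfl, rfl, -⟩ := h'
            exact ⟨nofun, h.2.1, h.2.2⟩
          | _ => exact h'.elim
        | b D i M =>
          cases y'' with
          | n D' i' s G' M T =>
            obtain ⟨rfl, rfl, -⟩ := h'
            exact ⟨nofun, h.2.1, le_trans h.2.2 (Nat.le_add_right _ _)⟩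
          | _ => exact h'.elim
        | n => cases y'' <;> exact h'.elim
      | a D i G =>
        cases y' with
        | n => cases y'' <;> exact h'.elim
        | _ => exact h.elim
      | b D i M =>
        cases y' with
        | n => cases y'' <;> exact h'.elim
        | _ => exact h.elim
      | n => cases y' <;> exact h.elim

theorem B_nhds (y : Y L K) (S : Finset L) (V : Finset K) (k : ℕ) : B y S V k ∈ 𝓝 y :=
  (isOpen_B y S V k).mem_nhds (Or.inl rfl)

theorem exists_B {y : Y L K} {U : Set (Y L K)} (h : U ∈ 𝓝 y) : ∃ S V k, B y S V k ⊆ U := by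
  obtain ⟨t, h1, h2, h3⟩ := mem_nhds_iff.1 h
  obtain ⟨S, V, k, h4⟩ := h2 y h3
  exact ⟨S, V, k, h4.trans h1⟩

instance [Infinite L] : T1Space (Y L K) := ⟨fun y' => by
  rw [← isOpen_compl_iff]
  intro y hy
  suffices h : ∃ S V k, ¬ R y S V k y' by
    obtain ⟨S, V, k, h⟩ := h
    refine ⟨S, V, k, ?_⟩
    rintro y'' (rfl | h') (e : y'' = y')
    · exact hy e
    · exact h (e ▸ h')
  cases y with
  | p => exact ⟨∅, ∅, lev y' + 1, fun h => by have := h.2.2; omega⟩
  | a D i G =>
    cases y' with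
    | n D' i' s G' M T =>
      obtain ⟨c, hc⟩ := (ne_univ_iff_exists_notMem _).1 M.2
      exact ⟨∅, {c}, 0, fun h => hc (h.2.2.2.1 (by simp))⟩
    | _ => exact ⟨∅, ∅, 0, fun h => h⟩
  | b D i M =>
    cases y' with
    | n D' i' s G' M T =>
      obtain ⟨c, hc⟩ := Infinite.exists_notMem_finset G'
      exact ⟨{c}, ∅, 0, fun h => hc (h.2.2.2 (by simp))⟩
    | _ => exact ⟨∅, ∅, 0, fun h => h⟩
  | n => cases y' <;> exact ⟨∅, ∅, 0, fun h => h⟩⟩

theorem plank (U : Set (Y L K)) (hU : IsOpen U) (D : Finset L) (i : ℕ) (s : Bool)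
    (h : ∀ G0 : Finset L, ∃ G, G0 ⊆ G ∧ Y.a D (i + s.toNat) G ∈ U) :
    ∃ V : Finset L → Finset K, ∀ M : {M : Set K // M ≠ univ}, (∀ G, ↑(V G) ⊆ M.1) →
      Y.b D i M ∈ closure U := by
  choose G hG hGU using h
  choose S V k hB using fun G0 => hU _ (hGU G0)
  refine ⟨V, fun M hM => mem_closure_iff_nhds.2 fun N hN => ?_⟩
  obtain ⟨S', V', k', h'⟩ := exists_B hN
  exact ⟨Y.n D i s (G S') M (S S'), h' (Or.inr ⟨rfl, rfl, rfl, hG S'⟩),
    hB S' (Or.inr ⟨rfl, rfl, rfl, hM S', Subset.rfl⟩)⟩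

theorem not_cr (hK : ∀ V : Finset L → Finset K, (⋃ G, (V G : Set K)) ≠ univ) :
    ¬ CompletelyRegularSpace (Y L K) := by
  classical
  intro hcr
  obtain ⟨f0, hf0, h0, h1⟩ := hcr.completely_regular Y.p (B Y.p ∅ ∅ 1)ᶜ
    (isOpen_B _ _ _ _).isClosed_compl (fun h => h (Or.inl rfl))
  let f : Y L K → ℝ := fun y => f0 y
  have hf : Continuous f := continuous_subtype_val.comp hf0
  obtain ⟨S, V0, k, hB⟩ := exists_B (y := (Y.p : Y L K)) (U := {y | f y < 1 / 2})
    ((isOpen_lt hf continuous_const).mem_nhds (by simp [f, h0]))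
  have key : ∀ i, ∃ c : ℝ, 1 / 2 < c ∧ ∀ G0 : Finset L, ∃ G, G0 ⊆ G ∧ c < f (Y.a S i G) := by
    intro i
    induction i with
    | zero =>
      refine ⟨3 / 4, by norm_num, fun G0 => ⟨G0, Subset.rfl, ?_⟩⟩
      have : f0 (Y.a S 0 G0) = 1 := h1 (by
        rintro (h | h)
        · cases h
        · exact absurd h.2.2 (by simp [lev]))
      simp only [f, this]; norm_num
    | succ i ih =>
      obtain ⟨c, hc, h⟩ := ih
      obtain ⟨V, hV⟩ := plank {y | c < f y} (isOpen_lt continuous_const hf) S i false h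
      refine ⟨(c + 1 / 2) / 2 - (c - 1 / 2) / 4, by linarith, fun G0 => ?_⟩
      by_contra hcon
      push Not at hcon
      obtain ⟨V', hV'⟩ := plank {y | f y < (c + 1 / 2) / 2} (isOpen_lt hf continuous_const) S i
        true (fun G1 => ⟨G0 ∪ G1, Finset.subset_union_right,
          lt_of_le_of_lt (hcon _ Finset.subset_union_left) (by linarith)⟩)
      let M : {M : Set K // M ≠ univ} := ⟨_, hK fun G => V G ∪ V' G⟩
      have e1 := closure_minimal (s := {y | c < f y}) (t := {y | c ≤ f y})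
        (fun y (hy : c < f y) => hy.le) (isClosed_le continuous_const hf)
        (hV M fun G x hx => mem_iUnion.2 ⟨G, by simp; exact Or.inl hx⟩)
      have e2 := closure_minimal (s := {y | f y < (c + 1 / 2) / 2})
        (t := {y | f y ≤ (c + 1 / 2) / 2})
        (fun y (hy : f y < _) => hy.le) (isClosed_le hf continuous_const)
        (hV' M fun G x hx => mem_iUnion.2 ⟨G, by simp; exact Or.inr hx⟩)
      simp only [mem_ofPred_eq] at e1 e2
      linarith
  obtain ⟨c, hc, h⟩ := key k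
  obtain ⟨G, -, hG⟩ := h ∅
  have : f (Y.a S k G) < 1 / 2 := hB (Or.inr ⟨nofun, Subset.rfl, le_rfl⟩)
  linarith

end Pool.Agent.H47.Fill
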