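import Pool.Agent.H47.FillB

open Set Filter Topology

namespace Pool.Agent.H47.Fill

variable {L K : Type} [TopologicalSpace K] [DiscreteTopology K] [Nonempty K]

noncomputable def base : Y L K → K
  | .b _ _ M => Classical.choose ((ne_univ_iff_exists_notMem _).1 M.2)
  | _ => Classical.arbitrary K

def DD (L K : Type) [Nonempty K] : Set (Y L K × (L → K)) := {x | x.2 ∈ Sig (base x.1)}

theorem nhds_of (x : DD L K) (S : Finset L) (V : Finset K) (k : ℕ) :
    {x' : DD L K | x'.1.1 ∈ B x.1.1 S V k ∧ ∀ i ∈ S, x'.1.2 i = x.1.2 i} ∈ 𝓝 x :=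
  inter_mem
    ((continuous_fst.comp continuous_subtype_val).continuousAt.preimage_mem_nhds
      (B_nhds x.1.1 S V k))
    ((continuous_snd.comp continuous_subtype_val).continuousAt.preimage_mem_nhds
      (cyl_nhds x.1.2 S))

omit [DiscreteTopology K] in
theorem of_nhds {x : DD L K} {U : Set (DD L K)} (h : U ∈ 𝓝 x) : ∃ S V k, ∀ x' : DD L K,
    x'.1.1 ∈ B x.1.1 S V k → (∀ i ∈ S, x'.1.2 i = x.1.2 i) → x' ∈ U := by
  classical
  rw [mem_nhds_subtype] at h
  obtain ⟨N, hN, hNU⟩ := h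
  obtain ⟨u, hu, v, hv, huv⟩ := mem_nhds_prod_iff.1 hN
  obtain ⟨S, V, k, hB⟩ := exists_B hu
  obtain ⟨S', hS'⟩ := cyl hv
  exact ⟨S ∪ S', V, k, fun x' h1 h2 => hNU (huv
    ⟨hB (B_mono Finset.subset_union_left Subset.rfl le_rfl h1),
      hS' _ fun i hi => h2 i (Finset.mem_union_right _ hi)⟩)⟩

theorem sep_fiber [Nonempty L] (y : Y L K) : Sep {x : DD L K | x.1.1 = y} := by
  intro E F hE hF hd
  have cl : ∀ E : Set (DD L K), IsClosed E → ∀ z (hz : z ∈ Sig (base y)),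
      z ∈ closure {z | ∃ h : z ∈ Sig (base y), (⟨(y, z), h⟩ : DD L K) ∈ E} →
      (⟨(y, z), hz⟩ : DD L K) ∈ E := by
    intro E hE z hz hc
    by_contra hn
    obtain ⟨S, V, k, h⟩ := of_nhds (hE.isOpen_compl.mem_nhds hn)
    obtain ⟨z', h1, h2, h3⟩ := mem_closure_iff_nhds.1 hc _ (cyl_nhds z S)
    exact h ⟨(y, z'), h2⟩ (Or.inl rfl) h1 h3
  obtain ⟨A, hA, a1, a2⟩ := tree (base y)
    {z | ∃ h : z ∈ Sig (base y), (⟨(y, z), h⟩ : DD L K) ∈ E}
    {z | ∃ h : z ∈ Sig (base y), (⟨(y, z), h⟩ : DD L K) ∈ F} (fun z hz => hz.1) (fun z hz => hz.1)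
    (fun z hz h1 h2 => Set.disjoint_left.1 hd (cl E hE z hz h1) (cl F hF z hz h2))
  refine ⟨(fun x : DD L K => x.1.2) ⁻¹' A,
    hA.preimage (continuous_snd.comp continuous_subtype_val), ?_, ?_⟩
  · rintro ⟨⟨y', z⟩, h⟩ ⟨h1, rfl⟩
    exact a1 ⟨h, h1⟩
  · rw [Set.disjoint_left]
    rintro ⟨⟨y', z⟩, h⟩ hx ⟨h1, rfl⟩
    exact Set.disjoint_left.1 a2 hx ⟨h, h1⟩

theorem sat {ι : Type} (v : Y L K) (P : ι → Set (DD L K)) (Δ : ι → Finset L)
    (h : ∀ S V k i x', x' ∈ P i → x'.1.1 ∈ B v S V (k + 1) →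
      S ⊆ Δ i ∧ ∀ x'' ∈ P i, x''.1.1 ∈ B v S V k) :
    ∀ F, IsClosed F → Disjoint F {x : DD L K | x.1.1 = v} →
      ∃ H : ι → Set (DD L K), (∀ i, IsClopen (H i)) ∧
      (∀ i, F ∩ P i ⊆ H i) ∧ ∀ x ∈ {x : DD L K | x.1.1 = v}, ∃ U ∈ 𝓝 x,
        ∀ i, Disjoint U (P i ∩ H i) := by
  intro F hF hd
  refine ⟨fun i => (fun x : DD L K => x.1.2) ⁻¹' {z | ∃ y ∈ F ∩ P i, ∀ g ∈ Δ i, y.1.2 g = z g},
    fun i => (clopen_of_local _ fun z => ⟨Δ i, fun w hw => ?_⟩).preimage
      (continuous_snd.comp continuous_subtype_val), fun i x hx => ⟨x, hx, fun _ _ => rfl⟩, ?_⟩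
  · exact exists_congr fun y => and_congr_right fun _ =>
      forall₂_congr fun g hg => by rw [hw g hg]
  · rintro x rfl
    obtain ⟨S, V, k, hU⟩ := of_nhds
      (hF.isOpen_compl.mem_nhds (fun hx => Set.disjoint_left.1 hd hx rfl : x ∈ Fᶜ))
    refine ⟨_, nhds_of x S V (k + 1), fun i => Set.disjoint_left.2 ?_⟩
    rintro x' ⟨h1, h2⟩ ⟨h3, y, ⟨hyF, hyP⟩, h4⟩
    obtain ⟨h5, h6⟩ := h S V k i x' h3 h1
    exact hU y (h6 y hyP) (fun g hg => (h4 g (h5 hg)).trans (h2 g hg)) hyF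

open Classical in
noncomputable def own : Y L K → (L → K) → Y L K
  | .n D i s G M _, z => if ∀ g ∈ G, z g ∈ M.1 then .a D (i + s.toNat) G else .b D i M
  | y, _ => y

def iso : Y L K → Prop
  | .n _ _ _ _ _ _ => True
  | _ => False

omit [TopologicalSpace K] [DiscreteTopology K] [Nonempty K] in
theorem own_spec (y : Y L K) (z : L → K) : ¬ iso (own y z) ∧ (own y z = y ∨ iso y) ∧
    (own y z = .p ↔ y = .p) ∧ ch (own y z) = ch y ∧ lev (own y z) ≤ lev y ∧
    lev y ≤ lev (own y z) + 1 := by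
  cases y with
  | n D i s G M T =>
    simp only [own]
    split_ifs
    · exact ⟨fun h => h, Or.inr trivial, ⟨nofun, nofun⟩, rfl, le_rfl, Nat.le_succ _⟩
    · refine ⟨fun h => h, Or.inr trivial, ⟨nofun, nofun⟩, rfl, Nat.le_add_right _ _, ?_⟩
      cases s <;> simp [lev]
  | _ => exact ⟨fun h => h, Or.inl rfl, Iff.rfl, rfl, le_rfl, Nat.le_succ _⟩

theorem own_loc [Uncountable L] (x : DD L K) (hx : x.1.1 ≠ .p) :
    {x' : DD L K | own x'.1.1 x'.1.2 = own x.1.1 x.1.2} ∈ 𝓝 x := by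
  classical
  obtain ⟨⟨y, z⟩, hz⟩ := x
  cases y with
  | p => exact (hx rfl).elim
  | a D i G =>
    refine mem_of_superset (nhds_of _ G (G.image z) 0) ?_
    rintro ⟨⟨y', z'⟩, hz'⟩ ⟨(rfl | h1), h2⟩
    · rfl
    · cases y' with
      | n D' i' s G' M T =>
        obtain ⟨rfl, rfl, rfl, h3, -⟩ := h1
        refine if_pos fun g hg => h3 ?_
        rw [h2 g hg]
        exact Finset.mem_coe.2 (Finset.mem_image_of_mem _ hg)
      | _ => exact h1.elim
  | b D i M =>
    obtain ⟨g, hg⟩ : ∃ g, z g ∉ M.1 := by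
      by_contra hcon
      push Not at hcon
      refine not_countable_univ (α := L) (Countable.mono (fun g _ => ?_) hz)
      intro e
      exact Classical.choose_spec ((ne_univ_iff_exists_notMem _).1 M.2)
        ((show z g = Classical.choose _ from e) ▸ hcon g)
    refine mem_of_superset (nhds_of _ {g} ∅ 0) ?_
    rintro ⟨⟨y', z'⟩, hz'⟩ ⟨(rfl | h1), h2⟩
    · rfl
    · cases y' with
      | n D' i' s G' M' T =>
        obtain ⟨rfl, rfl, rfl, h3⟩ := h1
        refine if_neg fun h => hg ?_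
        rw [← show z' g = z g from h2 g (by simp)]
        exact h g (h3 (by simp))
      | _ => exact h1.elim
  | n D i s G M T =>
    refine mem_of_superset (nhds_of _ G ∅ 0) ?_
    rintro ⟨⟨y', z'⟩, hz'⟩ ⟨(rfl | h1), h2⟩
    · have : (∀ g ∈ G, z' g ∈ M.1) ↔ ∀ g ∈ G, z g ∈ M.1 :=
        forall₂_congr fun g hg => by rw [show z' g = z g from h2 g hg]
      simp only [mem_ofPred_eq, own, this]
    · cases y' <;> exact h1.elim

theorem clopen_W [Uncountable L] (v : Y L K) (hv : v ≠ .p) :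
    IsClopen {x : DD L K | own x.1.1 x.1.2 = v} := by
  constructor
  · rw [← isOpen_compl_iff, isOpen_iff_mem_nhds]
    intro x hx
    by_cases hp : x.1.1 = .p
    · refine mem_of_superset (nhds_of x ∅ ∅ (lev v + 2)) ?_
      rintro x' ⟨h1, -⟩ (e : own _ _ = v)
      rw [hp] at h1
      obtain ⟨-, -, s3, -, -, s6⟩ := own_spec x'.1.1 x'.1.2
      rcases h1 with h1 | h1
      · exact hv (e ▸ s3.2 h1)
      · have := h1.2.2
        rw [e] at s6; omega
    · exact mem_of_superset (own_loc x hp) fun x' h e => hx ((h : own _ _ = _).symm.trans e)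
  · rw [isOpen_iff_mem_nhds]
    intro x hx
    exact mem_of_superset (own_loc x fun e => hv (hx ▸ (own_spec x.1.1 x.1.2).2.2.1.2 e))
      fun x' h => (h : own _ _ = _).trans hx

def del : Y L K → Y L K → Finset L
  | .a _ _ _, .n _ _ _ _ _ T => T
  | .b _ _ _, .n _ _ _ G _ _ => G
  | _, _ => ∅

theorem sep_W [Uncountable L] (v : Y L K) (hv : v ≠ .p) :
    Sep {x : DD L K | own x.1.1 x.1.2 = v} := by
  refine cone _ {x : DD L K | x.1.1 = v}
    (fun y : Y L K => {x : DD L K | x.1.1 = y ∧ iso y ∧ own x.1.1 x.1.2 = v}) (clopen_W v hv)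
    (sep_fiber v) (fun y => (sep_fiber y).mono fun x hx => hx.1) (fun y => ?_)
    (fun i j x h1 h2 => h1.1.symm.trans h2.1) (fun x hx => ?_) (sat v _ (del v) ?_)
  · by_cases hi : iso y
    · have : IsClopen ({y} : Set (Y L K)) := by
        refine ⟨isClosed_singleton, ?_⟩
        rintro y' rfl
        refine ⟨∅, ∅, 0, ?_⟩
        rintro y'' (rfl | h)
        · rfl
        · cases y' with
          | n => cases y'' <;> exact h.elim
          | _ => exact hi.elim
      simp only [hi, true_and]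
      exact (this.preimage (continuous_fst.comp continuous_subtype_val)).inter (clopen_W v hv)
    · simp only [hi, false_and, and_false, ofPred_false]
      exact isClopen_empty
  · rcases (own_spec x.1.1 x.1.2).2.1 with h | h
    · exact Or.inl (h.symm.trans hx)
    · exact Or.inr ⟨_, rfl, h, hx⟩
  · rintro S V k y x' ⟨h1, h2, h3⟩ h4
    refine ⟨?_, fun x'' h5 => ?_⟩
    · rw [h1] at h4
      rcases h4 with rfl | h4
      · exact absurd h2 (h3 ▸ (own_spec x'.1.1 x'.1.2).1)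
      · cases v with
        | p => exact (hv rfl).elim
        | a =>
          cases y with
          | n => exact h4.2.2.2.2
          | _ => exact h4.elim
        | b =>
          cases y with
          | n => exact h4.2.2.2
          | _ => exact h4.elim
        | n => cases y <;> exact h4.elim
    · rw [h5.1, ← h1]
      exact B_mono Subset.rfl Subset.rfl (Nat.le_succ k) h4

theorem normal_DD [Uncountable L] : NormalSpace (DD L K) := by
  refine Sep.normal (cone _ {x : DD L K | x.1.1 = .p}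
    (fun v : {v : Y L K // v ≠ .p} => {x : DD L K | own x.1.1 x.1.2 = v.1}) isClopen_univ
    (sep_fiber _) (fun v => sep_W v.1 v.2) (fun v => clopen_W v.1 v.2)
    (fun i j x h1 h2 => Subtype.ext ((h1 : own _ _ = _).symm.trans h2)) (fun x _ => ?_)
    (sat _ _ (fun v => ch v.1) ?_))
  · by_cases h : x.1.1 = .p
    · exact Or.inl h
    · exact Or.inr ⟨⟨_, fun e => h ((own_spec x.1.1 x.1.2).2.2.1.1 e)⟩, rfl⟩
  · rintro S V k ⟨v, hv⟩ x' (h1 : own _ _ = v) h2
    obtain ⟨-, -, s3, s4, s5, s6⟩ := own_spec x'.1.1 x'.1.2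
    rw [h1] at s3 s4 s5 s6
    rcases h2 with h2 | h2
    · exact (hv (s3.2 h2)).elim
    · refine ⟨s4 ▸ h2.2.1, fun x'' (h3 : own _ _ = v) => Or.inr ?_⟩
      obtain ⟨-, -, t3, t4, t5, t6⟩ := own_spec x''.1.1 x''.1.2
      rw [h3] at t3 t4 t5 t6
      have := h2.2.2
      exact ⟨fun e => hv (t3.2 e), t4 ▸ s4 ▸ h2.2.1, by omega⟩

omit [TopologicalSpace K] [DiscreteTopology K] in
theorem fill_DD (y : Y L K) (z : L → K) (J : Set L) (hJ : J.Countable) :
    ∃ w, (y, w) ∈ DD L K ∧ ∀ j ∈ J, w j = z j := by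
  classical
  refine ⟨fun j => if j ∈ J then z j else base y, hJ.mono fun j hj => ?_, fun j hj => if_pos hj⟩
  by_contra h
  exact hj (if_neg h)

end Pool.Agent.H47.Fill
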