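import Pool.Agent.H47.FillC

open Set Filter Topology

namespace Pool.Agent.H47.Fill

/-- the family with one factor `A` and the other factors `B` -/
def XX (A B : Type) {L : Type} : Option L → Type
  | none => A
  | some _ => B

instance (A B : Type) {L : Type} [tA : TopologicalSpace A] [tB : TopologicalSpace B] :
    ∀ o : Option L, TopologicalSpace (XX A B o)
  | none => tA
  | some _ => tB

instance (A B : Type) {L : Type} [TopologicalSpace A] [TopologicalSpace B] [tA : T1Space A]
    [tB : T1Space B] : ∀ o : Option L, T1Space (XX A B o)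
  | none => tA
  | some _ => tB

def ee (A B L : Type) [TopologicalSpace A] [TopologicalSpace B] :
    (∀ o : Option L, XX A B o) ≃ₜ A × (L → B) where
  toFun x := (x none, fun l => x (some l))
  invFun q o := match o with
    | none => q.1
    | some l => q.2 l
  left_inv x := by funext o; cases o <;> rfl
  right_inv _ := rfl
  continuous_toFun := (continuous_apply (none : Option L)).prodMk
    (continuous_pi fun l => continuous_apply (some l))
  continuous_invFun := continuous_pi fun o => match o with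
    | none => continuous_fst
    | some l => (continuous_apply l).comp continuous_snd

theorem fill_ee {A B L : Type} [TopologicalSpace A] [TopologicalSpace B] [Nonempty A] [Nonempty B]
    (D : Set (A × (L → B))) (J : Set (Option L))
    (h : ∀ (y : A) (z : L → B), ∃ w, (y, w) ∈ D ∧ ∀ j, some j ∈ J → w j = z j)
    (y : ∀ j : J, XX A B j.1) : ∃ d ∈ ee A B L ⁻¹' D, ∀ j : J, d j = y j := by
  classical
  have : ∀ o : Option L, Nonempty (XX A B o) := fun o => by
    cases o
    · exact ‹Nonempty A›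
    · exact ‹Nonempty B›
  let x : ∀ o : Option L, XX A B o := fun o =>
    if h : o ∈ J then y ⟨o, h⟩ else Classical.arbitrary _
  obtain ⟨w, h1, h2⟩ := h (x none) (fun l => x (some l))
  refine ⟨(ee A B L).symm (x none, w), ?_, ?_⟩
  · rw [mem_preimage, Homeomorph.apply_symm_apply]; exact h1
  · rintro ⟨o, ho⟩
    cases o with
    | none => exact dif_pos ho
    | some l => exact (h2 l ho).trans (dif_pos ho)

/-- a discrete copy of the reals -/
def Rd : Type := ℝ
instance : TopologicalSpace Rd := ⊥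
instance : DiscreteTopology Rd := ⟨rfl⟩
instance : Uncountable Rd := inferInstanceAs (Uncountable ℝ)

abbrev Pk : Type := {x : OnePoint ℕ × OnePoint Rd // x ≠ (OnePoint.infty, OnePoint.infty)}

theorem not_normal_Pk : ¬ NormalSpace Pk := by
  intro h
  obtain ⟨U, V, hU, hV, h1, h2, hd⟩ := h.normal {x : Pk | x.1.2 = OnePoint.infty}
    {x : Pk | x.1.1 = OnePoint.infty}
    (isClosed_eq (continuous_snd.comp continuous_subtype_val) continuous_const)
    (isClosed_eq (continuous_fst.comp continuous_subtype_val) continuous_const)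
    (Set.disjoint_left.2 fun x a b => x.2 (Prod.ext b a))
  have e1 : ∀ n : ℕ, {r : Rd | (⟨((n : OnePoint ℕ), (r : OnePoint Rd)), by simp⟩ : Pk) ∉ U}.Finite := by
    intro n
    have hc : Continuous fun q : OnePoint Rd => (⟨((n : OnePoint ℕ), q), by simp⟩ : Pk) :=
      Continuous.subtype_mk (by fun_prop) _
    have := ((OnePoint.isOpen_def).1 (hU.preimage hc)).1 (h1 rfl)
    exact this.finite_of_discrete
  obtain ⟨r, hr⟩ : ∃ r : Rd, ∀ n : ℕ,
      (⟨((n : OnePoint ℕ), (r : OnePoint Rd)), by simp⟩ : Pk) ∈ U := by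
    by_contra hcon
    push Not at hcon
    refine not_countable_univ (α := Rd)
      ((countable_iUnion fun n => (e1 n).countable).mono fun r _ => mem_iUnion.2 (hcon r))
  have hc : Continuous fun q : OnePoint ℕ => (⟨(q, (r : OnePoint Rd)), by simp⟩ : Pk) :=
    Continuous.subtype_mk (by fun_prop) _
  have := (((OnePoint.isOpen_def).1 (hV.preimage hc)).1 (h2 rfl)).finite_of_discrete
  obtain ⟨n, hn⟩ := this.exists_notMem
  exact Set.disjoint_left.1 hd (hr n) (not_not.1 hn)

def Ks : ℕ ⊕ Rd → Set (OnePoint ℕ × OnePoint Rd)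
  | .inl n => {x | x.1 = n}
  | .inr r => {x | x.2 = r}

theorem clopen_Ks (c : ℕ ⊕ Rd) : IsClopen (Ks c) := by
  cases c with
  | inl n =>
    refine IsClopen.preimage (s := {(n : OnePoint ℕ)}) ⟨isClosed_singleton, ?_⟩ continuous_fst
    rw [← image_singleton]
    exact OnePoint.isOpenEmbedding_coe.isOpenMap _ (isOpen_discrete _)
  | inr r =>
    refine IsClopen.preimage (s := {(r : OnePoint Rd)}) ⟨isClosed_singleton, ?_⟩ continuous_snd
    rw [← image_singleton]
    exact OnePoint.isOpenEmbedding_coe.isOpenMap _ (isOpen_discrete _)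

def D1 : Set (Pk × (ℕ → ℕ ⊕ Rd)) := {x | ∃ n, x.1.1 ∈ Ks (x.2 n)}

theorem fill_D1 (y : Pk) (z : ℕ → ℕ ⊕ Rd) (J : Set ℕ) (hJ : J.Finite) :
    ∃ w, (y, w) ∈ D1 ∧ ∀ j ∈ J, w j = z j := by
  obtain ⟨n, hn⟩ := hJ.exists_notMem
  obtain ⟨c, hc⟩ : ∃ c, y.1 ∈ Ks c := by
    obtain ⟨⟨a, b⟩, h⟩ := y
    cases a using OnePoint.rec with
    | coe a => exact ⟨.inl a, rfl⟩
    | infty =>
      cases b using OnePoint.rec with
      | coe b => exact ⟨.inr b, rfl⟩
      | infty => exact (h rfl).elim
  refine ⟨Function.update z n c, ⟨n, by simpa using hc⟩, fun j hj => ?_⟩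
  exact Function.update_of_ne (fun (e : j = n) => hn (e ▸ hj)) _ _

theorem clopen_KK (n : ℕ) : IsClopen
    {x : (OnePoint ℕ × OnePoint Rd) × (ℕ → ℕ ⊕ Rd) | x.1 ∈ Ks (x.2 n)} := by
  constructor
  · rw [← isOpen_compl_iff, isOpen_iff_mem_nhds]
    intro x hx
    refine mem_of_superset (prod_mem_nhds ((clopen_Ks (x.2 n)).compl.2.mem_nhds hx)
      (cyl_nhds x.2 {n})) fun y hy h => hy.1 ?_
    rw [← hy.2 n (by simp)]; exact h
  · rw [isOpen_iff_mem_nhds]
    intro x hx
    refine mem_of_superset (prod_mem_nhds ((clopen_Ks (x.2 n)).2.mem_nhds hx)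
      (cyl_nhds x.2 {n})) fun y hy => ?_
    show y.1 ∈ Ks (y.2 n)
    rw [hy.2 n (by simp)]; exact hy.1

theorem para_D1 : ParacompactSpace D1 := by
  classical
  let Z := (OnePoint ℕ × OnePoint Rd) × (ℕ → ℕ ⊕ Rd)
  let ι : D1 → Z := fun x => (x.1.1.1, x.1.2)
  have hι : IsEmbedding ι :=
    (IsEmbedding.subtypeVal.prodMap IsEmbedding.id).comp IsEmbedding.subtypeVal
  let Q : ℕ → Set Z := fun n => {x | x.1 ∈ Ks (x.2 n)} ∩ ⋂ m ∈ Finset.range n, {x | x.1 ∈ Ks (x.2 m)}ᶜ
  have hQ : ∀ n, IsClopen (Q n) := fun n =>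
    (clopen_KK n).inter (isClopen_biInter_finset fun m _ => (clopen_KK m).compl)
  have hQ' : ∀ (x : D1) n, Nat.find x.2 = n ↔ ι x ∈ Q n := fun x n => by
    rw [Nat.find_eq_iff]
    simp only [Q, mem_inter_iff, mem_iInter, Finset.mem_range]
    rfl
  have hN : Continuous fun x : D1 => Nat.find x.2 := by
    rw [continuous_discrete_rng]
    intro n
    have : (fun x : D1 => Nat.find x.2) ⁻¹' {n} = ι ⁻¹' Q n := Set.ext fun x => hQ' x n
    rw [this]; exact (hQ n).2.preimage hι.continuous
  let j : D1 → (OnePoint ℕ × OnePoint Rd) × ((ℕ → ℕ ⊕ Rd) × ℕ) :=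
    fun x => (x.1.1.1, x.1.2, Nat.find x.2)
  have hj : IsEmbedding j := by
    refine IsEmbedding.of_comp (g := fun q => (q.1, q.2.1)) ?_ (by fun_prop) hι
    exact (continuous_fst.comp hι.continuous).prodMk
      ((continuous_snd.comp hι.continuous).prodMk hN)
  have hr : IsClosed (range j) := by
    have : range j = ⋂ n : ℕ, ({q | q.2.2 = n}ᶜ ∪ (fun q => (q.1, q.2.1)) ⁻¹' Q n) := by
      ext q
      simp only [mem_iInter, mem_union, mem_compl_iff, mem_ofPred_eq, mem_preimage]
      constructor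
      · rintro ⟨x, rfl⟩ n
        by_cases h : Nat.find x.2 = n
        · exact Or.inr ((hQ' x n).1 h)
        · exact Or.inl h
      · intro h
        have hq := (h q.2.2).resolve_left (fun h => h rfl)
        have hne : q.1 ≠ (OnePoint.infty, OnePoint.infty) := by
          intro e
          have := hq.1
          simp only [mem_ofPred_eq, e] at this
          rcases hc : q.2.1 q.2.2 with c | c <;> rw [hc] at this <;> cases this
        refine ⟨⟨(⟨q.1, hne⟩, q.2.1), q.2.2, hq.1⟩, Prod.ext rfl (Prod.ext rfl ?_)⟩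
        exact (hQ' _ _).2 hq
    rw [this]
    refine isClosed_iInter fun n => IsClosed.union ?_ ((hQ n).1.preimage (by fun_prop))
    exact ((isOpen_discrete {n}).preimage
      (continuous_snd.comp continuous_snd)).isClosed_compl
  have : ParacompactSpace ((ℕ → ℕ ⊕ Rd) × ℕ) := by
    let := TopologicalSpace.metrizableSpaceMetric ((ℕ → ℕ ⊕ Rd) × ℕ)
    infer_instance
  exact IsClosedEmbedding.paracompactSpace ⟨hj, hr⟩

end Pool.Agent.H47.Fill
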