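import Mathlib

namespace Pool.Agent.H47.Haight

open MeasureTheory

def A : Finset ℤ := {0, -3, -6, -7, -8}

lemma diffs : ∀ d ∈ Finset.Icc (-8 : ℤ) 8, ∃ a ∈ A, ∃ b ∈ A, a - b = d := by decide

lemma miss : ∀ a ∈ A, ∀ b ∈ A, (2 * a - b) % 17 ≠ 15 ∧ (2 * a - b) % 17 ≠ 16 := by decide

lemma A_bd : ∀ a ∈ A, -8 ≤ a ∧ a ≤ 0 := by decide

def K : Set ℝ := {x | ∃ s : ℕ → ℝ, s 0 = x ∧
  ∀ n, (-1 / 2 ≤ s n ∧ s n ≤ 0) ∧ ∃ a ∈ A, 17 * s n = a + s (n + 1)}

def W : Set ℝ := {z | ∀ (n : ℕ) (m : ℤ), ¬ (15 ≤ 17 ^ (n + 1) * z - 17 * m ∧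
  17 ^ (n + 1) * z - 17 * m < 16)}

lemma W_add (z : ℝ) (k : ℤ) (h : z ∈ W) : z + k ∈ W := by
  intro n m
  have := h n (m - 17 ^ n * k)
  push_cast at this
  convert this using 3 <;> ring

lemma W0_null : volume (W ∩ Set.Ico 0 1) = 0 := by
  set W0 := W ∩ Set.Ico 0 1
  have hsub : W0 ⊆ ⋃ i ∈ (Finset.range 17).erase 15,
      (fun z : ℝ => 17 * z) ⁻¹' ((fun z : ℝ => -(i : ℝ) + z) ⁻¹' W0) := by
    rintro z ⟨hW, h0, h1⟩
    have hf0 : 0 ≤ 17 * z := by linarith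
    have h2 := Nat.floor_le hf0
    have h3 := Nat.lt_floor_add_one (17 * z)
    simp only [Set.mem_iUnion, Set.mem_preimage]
    refine ⟨⌊17 * z⌋₊, ?_, ?_, by linarith, by linarith⟩
    · rw [Finset.mem_erase, Finset.mem_range]
      constructor
      · intro h
        rw [h] at h2 h3
        apply hW 0 0
        push_cast at h2 h3 ⊢
        constructor <;> linarith
      · rw [Nat.floor_lt hf0]; push_cast; linarith
    · intro n m
      have := hW (n + 1) (m + 17 ^ n * (⌊17 * z⌋₊ : ℤ))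
      push_cast at this
      convert this using 3 <;> ring
  have h1 := le_trans (measure_mono (μ := volume) hsub) (measure_biUnion_finset_le _ _)
  simp only [Real.volume_preimage_mul_left (by norm_num : (17 : ℝ) ≠ 0), measure_preimage_add,
    Finset.sum_const] at h1
  have hc : ((Finset.range 17).erase 15).card = 16 := by decide
  rw [hc] at h1
  have hfin : volume W0 ≠ ⊤ := by
    refine ne_top_of_le_ne_top ?_ (measure_mono Set.inter_subset_right)
    simp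
  have h2 := ENNReal.toReal_mono (by
    rw [nsmul_eq_mul]
    exact ENNReal.mul_ne_top (by simp) (ENNReal.mul_ne_top ENNReal.ofReal_ne_top hfin)) h1
  rw [nsmul_eq_mul, ENNReal.toReal_mul, ENNReal.toReal_mul,
    ENNReal.toReal_ofReal (abs_nonneg _), abs_of_pos (by norm_num)] at h2
  have h3 : (volume W0).toReal = 0 := by
    have := ENNReal.toReal_nonneg (a := volume W0)
    norm_num at h2
    linarith
  rcases (ENNReal.toReal_eq_zero_iff _).mp h3 with h | h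
  · exact h
  · exact absurd h hfin

lemma W_null : volume W = 0 := by
  have hsub : W ⊆ ⋃ k : ℤ, (fun z : ℝ => (k : ℝ) + z) ⁻¹' (W ∩ Set.Ico 0 1) := by
    intro z hz
    simp only [Set.mem_iUnion, Set.mem_preimage]
    refine ⟨-⌊z⌋, ?_, ?_, ?_⟩
    · rw [add_comm]; exact W_add z _ hz
    · push_cast; linarith [Int.floor_le z]
    · push_cast; linarith [Int.lt_floor_add_one z]
  refine measure_mono_null hsub (measure_iUnion_null fun k => ?_)
  rw [measure_preimage_add]; exact W0_null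

lemma phi_mem (x y : ℝ) (hx : x ∈ K) (hy : y ∈ K) : 2 * x - y ∈ W := by
  obtain ⟨s, rfl, hs⟩ := hx
  obtain ⟨t, rfl, ht⟩ := hy
  have key : ∀ n, ∃ k : ℤ, 17 ^ n * (2 * s 0 - t 0) = k + (2 * s n - t n) := by
    intro n
    induction n with
    | zero => exact ⟨0, by simp⟩
    | succ n ih =>
      obtain ⟨k, hk⟩ := ih
      obtain ⟨-, a, -, ha⟩ := hs n
      obtain ⟨-, b, -, hb⟩ := ht n
      refine ⟨17 * k + 2 * a - b, ?_⟩
      push_cast
      linear_combination 17 * hk + 2 * ha - hb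
  rintro n m ⟨h1, h2⟩
  obtain ⟨k, hk⟩ := key n
  obtain ⟨-, a, haA, ha⟩ := hs n
  obtain ⟨-, b, hbA, hb⟩ := ht n
  have e : 17 ^ (n + 1) * (2 * s 0 - t 0) - 17 * m =
      ((17 * (k - m) + (2 * a - b) : ℤ) : ℝ) + (2 * s (n + 1) - t (n + 1)) := by
    push_cast
    linear_combination 17 * hk + 2 * ha - hb
  rw [e] at h1 h2
  have b1 := (hs (n + 1)).1
  have b2 := (ht (n + 1)).1
  have c1 : ((14 : ℤ) : ℝ) < ((17 * (k - m) + (2 * a - b) : ℤ) : ℝ) := by
    rw [Int.cast_ofNat]; linarith [b1.1, b1.2, b2.1, b2.2]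
  have c2 : ((17 * (k - m) + (2 * a - b) : ℤ) : ℝ) < ((17 : ℤ) : ℝ) := by
    rw [Int.cast_ofNat]; linarith [b1.1, b1.2, b2.1, b2.2]
  rw [Int.cast_lt] at c1 c2
  have := miss a haA b hbA
  omega

lemma series (a : ℕ → ℤ) (ha : ∀ n, a n ∈ A) : ∃ s : ℕ → ℝ,
    ∀ n, (-1 / 2 ≤ s n ∧ s n ≤ 0) ∧ 17 * s n = a n + s (n + 1) := by
  have hg : HasSum (fun j : ℕ => (-8 : ℝ) * (1 / 17) ^ (j + 1)) (-1 / 2) := by
    have := (hasSum_geometric_of_lt_one (r := (1 / 17 : ℝ)) (by norm_num) (by norm_num)).mul_left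
      (-8 / 17)
    have e1 : (fun j : ℕ => (-8 : ℝ) * (1 / 17) ^ (j + 1)) = fun i => -8 / 17 * (1 / 17) ^ i := by
      ext j; ring
    have e2 : (-1 / 2 : ℝ) = -8 / 17 * (1 - 1 / 17)⁻¹ := by norm_num
    rw [e1, e2]; exact this
  have hl : ∀ n j, (-8 : ℝ) * (1 / 17) ^ (j + 1) ≤ a (n + j) * (1 / 17) ^ (j + 1) := by
    intro n j
    have : ((-8 : ℤ) : ℝ) ≤ a (n + j) := by exact_mod_cast (A_bd _ (ha _)).1
    push_cast at this
    gcongr
  have hu : ∀ n j, (a (n + j) : ℝ) * (1 / 17) ^ (j + 1) ≤ 0 := by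
    intro n j
    have : (a (n + j) : ℝ) ≤ 0 := by exact_mod_cast (A_bd _ (ha _)).2
    exact mul_nonpos_of_nonpos_of_nonneg this (by positivity)
  have hsum : ∀ n, Summable (fun j : ℕ => (a (n + j) : ℝ) * (1 / 17) ^ (j + 1)) := by
    intro n
    refine Summable.of_neg ?_
    refine Summable.of_nonneg_of_le (fun j => by linarith [hu n j]) (fun j => ?_) hg.summable.neg
    linarith [hl n j]
  refine ⟨fun n => ∑' j : ℕ, (a (n + j) : ℝ) * (1 / 17) ^ (j + 1), fun n => ⟨⟨?_, ?_⟩, ?_⟩⟩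
  · exact hasSum_le (hl n) hg (hsum n).hasSum
  · exact tsum_nonpos (hu n)
  · simp only
    rw [(hsum n).tsum_eq_zero_add, mul_add, ← tsum_mul_left]
    congr 1
    · rw [add_zero]; ring
    · refine tsum_congr fun j => ?_
      rw [show n + (j + 1) = n + 1 + j by ring]; ring

lemma diff_mem (y : ℝ) : ∃ x ∈ K, ∃ x' ∈ K, ∃ k : ℤ, y = x - x' + k := by
  let r : ℕ → ℝ := fun n => Nat.rec (y - round y) (fun _ u => 17 * u - round (17 * u)) n
  have hr : ∀ n, r (n + 1) = 17 * r n - round (17 * r n) := fun n => rfl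
  have hb : ∀ n, -1 / 2 ≤ r n ∧ r n < 1 / 2 := by
    have : ∀ u : ℝ, -1 / 2 ≤ u - round u ∧ u - round u < 1 / 2 := by
      intro u
      rw [round_eq]
      constructor
      · linarith [Int.floor_le (u + 1 / 2)]
      · linarith [Int.lt_floor_add_one (u + 1 / 2)]
    intro n
    cases n with
    | zero => exact this y
    | succ n => rw [hr]; exact this _
  have hd : ∀ n, round (17 * r n) ∈ Finset.Icc (-8 : ℤ) 8 := by
    intro n
    have h1 := hb n
    have h2 := hb (n + 1)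
    rw [hr] at h2
    have c1 : ((-9 : ℤ) : ℝ) < (round (17 * r n) : ℤ) := by push_cast; linarith [h1.1, h2.2]
    have c2 : ((round (17 * r n) : ℤ) : ℝ) < ((9 : ℤ) : ℝ) := by push_cast; linarith [h1.2, h2.1]
    rw [Int.cast_lt] at c1 c2
    rw [Finset.mem_Icc]; omega
  choose a ha b hb' hab using fun n => diffs _ (hd n)
  obtain ⟨s, hs⟩ := series a ha
  obtain ⟨t, ht⟩ := series b hb'
  refine ⟨s 0, ⟨s, rfl, fun n => ⟨(hs n).1, a n, ha n, (hs n).2⟩⟩,
    t 0, ⟨t, rfl, fun n => ⟨(ht n).1, b n, hb' n, (ht n).2⟩⟩, round y, ?_⟩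
  have key : ∀ n, 17 ^ n * (s 0 - t 0 - r 0) = s n - t n - r n := by
    intro n
    induction n with
    | zero => simp
    | succ n ih =>
      have e : (a n : ℝ) - b n = round (17 * r n) := by exact_mod_cast hab n
      rw [hr]
      linear_combination 17 * ih + (hs n).2 - (ht n).2 + e
  have h0 : s 0 - t 0 - r 0 = 0 := by
    by_contra hne
    have hp : 0 < |s 0 - t 0 - r 0| := abs_pos.mpr hne
    obtain ⟨n, hn⟩ := pow_unbounded_of_one_lt (2 / |s 0 - t 0 - r 0|) (by norm_num : (1 : ℝ) < 17)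
    rw [div_lt_iff₀ hp] at hn
    have h1 : |17 ^ n * (s 0 - t 0 - r 0)| ≤ 2 := by
      rw [key n, abs_le]
      constructor <;> linarith [(hs n).1.1, (hs n).1.2, (ht n).1.1, (ht n).1.2, (hb n).1, (hb n).2]
    rw [abs_mul, abs_of_pos (by positivity)] at h1
    linarith
  have : r 0 = y - round y := rfl
  linarith

theorem main : ∃ E : Set ℝ, (∀ x ∈ E, 0 < x) ∧ (∀ y, ∃ x ∈ E, ∃ x' ∈ E, y = x - x') ∧
    volume {z | ∃ x ∈ E, ∃ x' ∈ E, z = 2 * x - x'} = 0 := by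
  refine ⟨{x | 0 < x ∧ ∃ k : ℤ, x - k ∈ K}, fun x hx => hx.1, fun y => ?_, ?_⟩
  · obtain ⟨x, hx, x', hx', k, rfl⟩ := diff_mem y
    have b1 : -1 / 2 ≤ x := by obtain ⟨s, rfl, hs⟩ := hx; exact (hs 0).1.1
    have b2 : -1 / 2 ≤ x' := by obtain ⟨s, rfl, hs⟩ := hx'; exact (hs 0).1.1
    have h1 := neg_abs_le (k : ℝ)
    have h2 := abs_nonneg (k : ℝ)
    refine ⟨x + k + (|k| + 1), ⟨by push_cast; linarith, k + (|k| + 1), ?_⟩,
      x' + (|k| + 1), ⟨by push_cast; linarith, |k| + 1, ?_⟩, by ring⟩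
    · convert hx using 1; push_cast; ring
    · convert hx' using 1; push_cast; ring
  · refine measure_mono_null ?_ W_null
    rintro z ⟨x, ⟨-, k, hx⟩, x', ⟨-, k', hx'⟩, rfl⟩
    have := W_add _ (2 * k - k') (phi_mem _ _ hx hx')
    convert this using 1
    push_cast; ring

end Pool.Agent.H47.Haight
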