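import Mathlib

namespace H47.Jac

open Function

theorem exists_pos {V : Type} [Finite V] (σ : Equiv.Perm V) : ∃ pos : V → ℕ, ∀ a,
    pos (σ a) = pos a + 1 ∨ (pos (σ a) = 0 ∧ pos a + 1 = minimalPeriod σ a) := by
  classical
  let base : V → V := fun a => (Quotient.mk (Equiv.Perm.SameCycle.setoid σ) a).out
  have hb : ∀ a, σ.SameCycle (base a) a := fun a =>
    Quotient.exact (s := Equiv.Perm.SameCycle.setoid σ) (Quotient.out_eq _)
  have hb2 : ∀ a, base (σ a) = base a := fun a => by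
    have : Quotient.mk (Equiv.Perm.SameCycle.setoid σ) (σ a) = Quotient.mk _ a :=
      Quotient.sound (Equiv.Perm.sameCycle_apply_left.2 (Equiv.Perm.SameCycle.refl σ a))
    simp only [base, this]
  have hex : ∀ a, ∃ k, σ^[k] (base a) = a := fun a => by
    obtain ⟨i, -, hi⟩ := (hb a).exists_pow_eq'
    exact ⟨i, by rw [← Equiv.Perm.coe_pow]; exact hi⟩
  obtain ⟨pos, h1, hmin⟩ : ∃ pos : V → ℕ, (∀ a, σ^[pos a] (base a) = a) ∧
      ∀ a k, σ^[k] (base a) = a → pos a ≤ k :=
    ⟨fun a => Nat.find (hex a), fun a => Nat.find_spec (hex a), fun a k h => Nat.find_min' _ h⟩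
  refine ⟨pos, fun a => ?_⟩
  have h2 := h1 (σ a)
  have h3 : pos (σ a) ≤ pos a + 1 := hmin _ _ (by rw [iterate_succ_apply', hb2, h1])
  rw [hb2] at h2
  have hper : base a ∈ periodicPts σ := σ.injective.mem_periodicPts _
  have hm : minimalPeriod σ a = minimalPeriod σ (base a) := by
    have := minimalPeriod_apply_iterate hper (pos a)
    rwa [h1] at this
  rcases h : pos (σ a) with _ | q
  · right
    refine ⟨rfl, ?_⟩
    rw [h] at h2
    have hpos : 0 < minimalPeriod σ (base a) := minimalPeriod_pos_of_mem_periodicPts hper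
    have hd : minimalPeriod σ (base a) ∣ pos a + 1 := by
      rw [← isPeriodicPt_iff_minimalPeriod_dvd]
      show σ^[_] _ = _
      rw [iterate_succ_apply', h1]; exact h2.symm
    have hlt : pos a < minimalPeriod σ (base a) :=
      lt_of_le_of_lt (hmin a _ (by rw [iterate_mod_minimalPeriod_eq, h1])) (Nat.mod_lt _ hpos)
    have := Nat.le_of_dvd (Nat.succ_pos _) hd
    omega
  · left
    rw [h, iterate_succ_apply'] at h2
    have : pos a ≤ q := hmin _ _ (σ.injective h2)
    omega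

theorem per_apply {V : Type} [Finite V] (σ : Equiv.Perm V) (a : V) :
    minimalPeriod σ (σ a) = minimalPeriod σ a :=
  minimalPeriod_apply (σ.injective.mem_periodicPts _)

theorem per_odd {V : Type} [Finite V] {σ : Equiv.Perm V} (h : Odd (orderOf σ)) (hf : ∀ a, σ a ≠ a)
    (a : V) : Odd (minimalPeriod σ a) ∧ 3 ≤ minimalPeriod σ a := by
  have hd : minimalPeriod σ a ∣ orderOf σ := by
    rw [← isPeriodicPt_iff_minimalPeriod_dvd]
    show σ^[_] _ = _
    rw [← Equiv.Perm.coe_pow, pow_orderOf_eq_one]; rfl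
  have ho := h.of_dvd_nat hd
  refine ⟨ho, ?_⟩
  have h1 : minimalPeriod σ a ≠ 1 := fun h1 => hf a (minimalPeriod_eq_one_iff_isFixedPt.1 h1)
  obtain ⟨k, hk⟩ := ho
  omega

/-- an even order gives an alternating sign function -/
theorem exists_sign {V : Type} [Fintype V] {σ : Equiv.Perm V} (h : ¬ Odd (orderOf σ)) :
    ∃ ε : V → ℤ, (∀ a, ε (σ a) = -ε a) ∧ ∃ a, ε a = 1 ∨ ε a = -1 := by
  classical
  obtain ⟨pos, hp⟩ := exists_pos σ
  have : ∃ a, Even (minimalPeriod σ a) := by
    by_contra hc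
    push Not at hc
    apply h
    have ho : Odd (∏ a, minimalPeriod σ a) :=
      Finset.prod_induction _ Odd (fun _ _ => Odd.mul) odd_one
        fun a _ => Nat.not_even_iff_odd.1 (hc a)
    refine ho.of_dvd_nat (orderOf_dvd_of_pow_eq_one (Equiv.ext fun a => ?_))
    rw [Equiv.Perm.coe_pow]
    exact isPeriodicPt_iff_minimalPeriod_dvd.2 (Finset.dvd_prod_of_mem _ (Finset.mem_univ a))
  obtain ⟨a0, ha0⟩ := this
  refine ⟨fun a => if Even (minimalPeriod σ a) then (-1) ^ pos a else 0, fun a => ?_, a0, ?_⟩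
  · simp only [per_apply]
    split_ifs with he
    · rcases hp a with h1 | ⟨h1, h2⟩
      · rw [h1, pow_succ]; ring
      · rw [h1]
        have : Odd (pos a) := by
          rw [← h2] at he
          exact Nat.not_even_iff_odd.1 (Nat.even_add_one.1 he)
        rw [this.neg_one_pow]; simp
    · simp
  · simp only [ha0, if_true]
    exact neg_one_pow_eq_or ℤ _

/-- the exponent sequence -/
def A (n m i : ℕ) : ℕ := i + min i 2 * ((m - n) / 2)

noncomputable def g (n m i k : ℕ) : ℂ := Complex.exp (2 * Real.pi * Complex.I / m) ^ (A n m i * k)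

theorem g_ne (n m i k : ℕ) : g n m i k ≠ 0 := pow_ne_zero _ (Complex.exp_ne_zero _)

theorem g_im {n m i i' k k' : ℕ} (hn : Odd n) (hm : Odd m) (h3 : 3 ≤ n) (hnm : n ≤ m)
    (hi : i' = i + 1 ∨ (i' = 0 ∧ i + 1 = n)) (hk : k' = k + 1 ∨ (k' = 0 ∧ k + 1 = m)) :
    0 < (g n m i k * g n m i' k' / (g n m i k' * g n m i' k)).im := by
  set ω := Complex.exp (2 * Real.pi * Complex.I / m) with hω
  have hm0 : (m : ℂ) ≠ 0 := by exact_mod_cast (by omega : m ≠ 0)
  have hω0 : ω ≠ 0 := Complex.exp_ne_zero _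
  have hωm : ω ^ m = 1 := by
    rw [hω, ← Complex.exp_nat_mul, mul_div_cancel₀ _ hm0, Complex.exp_two_pi_mul_I]
  have e1 : ∀ j, g n m i' j = ω ^ (A n m (i + 1) * j) := by
    intro j
    rcases hi with rfl | ⟨rfl, hi⟩
    · rfl
    · have : A n m (i + 1) = m := by
        obtain ⟨a, rfl⟩ := hm
        obtain ⟨b, hb⟩ := hn
        unfold A
        rw [min_eq_right (by omega)]
        omega
      rw [this, pow_mul, hωm]; simp [g, A]
  have e2 : ∀ j, ω ^ (j * k') = ω ^ (j * (k + 1)) := by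
    intro j
    rcases hk with rfl | ⟨rfl, hk⟩
    · rfl
    · rw [hk, mul_comm j m, pow_mul ω m, hωm]; simp
  obtain ⟨d, hd, hd1, hd2⟩ : ∃ d, A n m (i + 1) = A n m i + d ∧ 1 ≤ d ∧ 2 * d < m := by
    obtain ⟨a, rfl⟩ := hm
    obtain ⟨b, rfl⟩ := hn
    unfold A
    rcases Nat.lt_or_ge i 2 with h | h
    · refine ⟨1 + (2 * a + 1 - (2 * b + 1)) / 2, ?_, by omega, by omega⟩
      rw [min_eq_left (by omega), min_eq_left (by omega)]; ring
    · refine ⟨1, ?_, le_rfl, by omega⟩
      rw [min_eq_right (by omega), min_eq_right h]; ring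
  have : g n m i k * g n m i' k' / (g n m i k' * g n m i' k) = ω ^ d := by
    rw [e1, e1, e2]
    have : g n m i k' = ω ^ (A n m i * (k + 1)) := e2 _
    rw [this, hd]
    have : g n m i k = ω ^ (A n m i * k) := rfl
    rw [this, div_eq_iff (mul_ne_zero (pow_ne_zero _ hω0) (pow_ne_zero _ hω0))]
    simp only [← pow_add]
    congr 1; ring
  rw [this, hω, ← Complex.exp_nat_mul]
  have : (d : ℂ) * (2 * Real.pi * Complex.I / m) = ((2 * Real.pi * d / m : ℝ) : ℂ) * Complex.I := by
    push_cast; ring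
  rw [this, Complex.exp_ofReal_mul_I_im]
  have hmp : (0 : ℝ) < m := by exact_mod_cast (by omega : 0 < m)
  have hd1' : (1 : ℝ) ≤ d := by exact_mod_cast hd1
  have hd2' : (2 * d : ℝ) < m := by exact_mod_cast hd2
  refine Real.sin_pos_of_pos_of_lt_pi (by have := Real.pi_pos; positivity) ?_
  rw [div_lt_iff₀ hmp]
  nlinarith [Real.pi_pos]

theorem exists_point {V W : Type} [Finite V] [Finite W] {σ : Equiv.Perm V} {τ : Equiv.Perm W}
    (hσ : Odd (orderOf σ)) (hσf : ∀ a, σ a ≠ a) (hτ : Odd (orderOf τ)) (hτf : ∀ a, τ a ≠ a) :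
    ∃ x : V → W → ℂ, (∀ a b, x a b ≠ 0) ∧
      ∀ a b, 0 < (x a b * x (σ a) (τ b) / (x a (τ b) * x (σ a) b)).im := by
  obtain ⟨p, hp⟩ := exists_pos σ
  obtain ⟨r, hr⟩ := exists_pos τ
  refine ⟨fun a b => if minimalPeriod σ a ≤ minimalPeriod τ b then
    g (minimalPeriod σ a) (minimalPeriod τ b) (p a) (r b) else
    g (minimalPeriod τ b) (minimalPeriod σ a) (r b) (p a), fun a b => ?_, fun a b => ?_⟩
  · dsimp only; split_ifs <;> exact g_ne _ _ _ _
  · simp only [per_apply]
    have h1 := per_odd hσ hσf a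
    have h2 := per_odd hτ hτf b
    split_ifs with h
    · exact g_im h1.1 h2.1 h1.2 h (hp a) (hr b)
    · rw [mul_comm (g _ _ (r (τ b)) (p a))]
      exact g_im h2.1 h1.1 h2.2 (by omega) (hr b) (hp a)

/-- the derivative of the minor `(i, j; k, l)` at `X` in direction `v` -/
def E {V W R : Type} [CommRing R] (X : V → W → R) (v : V × W → R) (i j : V) (k l : W) : R :=
  X i k * v (j, l) + X j l * v (i, k) - X i l * v (j, k) - X j k * v (i, l)

theorem kernel_zero {V W : Type} [Fintype V] [Fintype W] {σ : Equiv.Perm V} {τ : Equiv.Perm W}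
    (hσ : Odd (orderOf σ)) (hτ : Odd (orderOf τ)) {x : V → W → ℂ} (hx : ∀ a b, x a b ≠ 0)
    (him : ∀ a b, 0 < (x a b * x (σ a) (τ b) / (x a (τ b) * x (σ a) b)).im) {v : V × W → ℂ}
    (hv : ∀ a b, E x v a (σ a) b (τ b) = 0) : v = 0 := by
  set z : V × W → ℂ := fun p => v p / x p.1 p.2 with hz
  have hvz : ∀ a b, v (a, b) = x a b * z (a, b) := fun a b => by
    simp only [hz]; rw [mul_div_cancel₀ _ (hx a b)]
  set q : V × W → ℂ := fun p => x p.1 p.2 * x (σ p.1) (τ p.2) / (x p.1 (τ p.2) * x (σ p.1) p.2)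
  set u : V × W → ℂ := fun p => z p + z (σ p.1, τ p.2) with hu
  have h1 : ∀ p : V × W, q p * u p = z (σ p.1, p.2) + z (p.1, τ p.2) := by
    rintro ⟨a, b⟩
    have := hv a b
    simp only [E, hvz] at this
    simp only [q, u]
    rw [div_mul_eq_mul_div, div_eq_iff (mul_ne_zero (hx _ _) (hx _ _))]
    linear_combination this
  have s1 : ∑ p : V × W, ((starRingEnd ℂ) (z (σ p.1, τ p.2)) * z (p.1, τ p.2)).im =
      ∑ p : V × W, ((starRingEnd ℂ) (z (σ p.1, p.2)) * z p).im :=
    Equiv.sum_comp ((Equiv.refl V).prodCongr τ)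
      fun p => ((starRingEnd ℂ) (z (σ p.1, p.2)) * z p).im
  have s2 : ∑ p : V × W, ((starRingEnd ℂ) (z (σ p.1, τ p.2)) * z (σ p.1, p.2)).im =
      ∑ p : V × W, ((starRingEnd ℂ) (z (p.1, τ p.2)) * z p).im :=
    Equiv.sum_comp (σ.prodCongr (Equiv.refl W))
      fun p => ((starRingEnd ℂ) (z (p.1, τ p.2)) * z p).im
  have h2 : ∑ p : V × W, (q p).im * Complex.normSq (u p) = 0 := by
    have : ∀ p : V × W, (q p).im * Complex.normSq (u p) =
        ((starRingEnd ℂ) (z (σ p.1, τ p.2)) * z (p.1, τ p.2)).im -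
        ((starRingEnd ℂ) (z (σ p.1, p.2)) * z p).im +
        (((starRingEnd ℂ) (z (σ p.1, τ p.2)) * z (σ p.1, p.2)).im -
        ((starRingEnd ℂ) (z (p.1, τ p.2)) * z p).im) := by
      intro p
      have e : (q p).im * Complex.normSq (u p) = ((starRingEnd ℂ) (u p) * (q p * u p)).im := by
        simp [Complex.normSq_apply]; ring
      rw [e, h1, hu]
      simp; ring
    simp only [this, Finset.sum_add_distrib, Finset.sum_sub_distrib, s1, s2, sub_self, add_zero]
  have h3 : ∀ p : V × W, z (σ p.1, τ p.2) = -z p := by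
    intro p
    have := (Finset.sum_eq_zero_iff_of_nonneg fun p _ =>
      mul_nonneg (him p.1 p.2).le (Complex.normSq_nonneg (u p))).1 h2 p (Finset.mem_univ p)
    have h4 := (mul_eq_zero.1 this).resolve_left (him p.1 p.2).ne'
    have h5 : z p + z (σ p.1, τ p.2) = 0 := Complex.normSq_eq_zero.1 h4
    linear_combination h5
  have h4 : ∀ (N : ℕ) (p : V × W), z ((σ ^ N) p.1, (τ ^ N) p.2) = (-1) ^ N * z p := by
    intro N
    induction N with
    | zero => simp
    | succ N ih =>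
      intro p
      rw [pow_succ', pow_succ', Equiv.Perm.mul_apply, Equiv.Perm.mul_apply,
        h3 ((σ ^ N) p.1, (τ ^ N) p.2), ih, pow_succ]; ring
  funext p
  have h5 := h4 (orderOf σ * orderOf τ) p
  rw [pow_mul σ, pow_orderOf_eq_one, one_pow, mul_comm (orderOf σ), pow_mul τ, pow_orderOf_eq_one,
    one_pow, (hτ.mul hσ).neg_one_pow] at h5
  have h6 : z p = 0 := by
    have : z p = -1 * z p := h5
    linear_combination this / 2
  obtain ⟨a, b⟩ := p
  rw [hvz, h6]; simp

end H47.Jac
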