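import Pool.Agent.H47.Jac1

namespace H47.Jac

theorem E_dot {V W R : Type} [Fintype V] [Fintype W] [DecidableEq V] [DecidableEq W] [CommRing R]
    (X : V → W → R) (v : V × W → R) (i j : V) (k l : W) :
    ∑ c, E X (Pi.single c 1) i j k l * v c = E X v i j k l := by
  simp only [E, add_mul, sub_mul, Finset.sum_add_distrib, Finset.sum_sub_distrib, mul_assoc,
    ← Finset.mul_sum, Pi.single_apply, ite_mul, one_mul, zero_mul, Finset.sum_ite_eq,
    Finset.mem_univ, if_true]

theorem E_swap1 {V W R : Type} [CommRing R] (X : V → W → R) (v : V × W → R) (i j : V) (k l : W) :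
    E X v j i k l = -E X v i j k l := by unfold E; ring

theorem E_swap2 {V W R : Type} [CommRing R] (X : V → W → R) (v : V × W → R) (i j : V) (k l : W) :
    E X v i j l k = -E X v i j k l := by unfold E; ring

theorem E_tr {V W R : Type} [CommRing R] (X : V → W → R) (v : W × V → R) (i j : V) (k l : W) :
    E (fun b a => X a b) v k l i j = E X (fun p => v p.swap) i j k l := by
  simp only [E, Prod.swap]; ring

theorem third {V : Type} [Fintype V] (h : 3 ≤ Fintype.card V) (a b : V) : ∃ c, c ≠ a ∧ c ≠ b := by
  classical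
  by_contra hc
  push Not at hc
  have : (Finset.univ : Finset V) ⊆ {a, b} := fun c _ => by
    by_cases h : c = a
    · simp [h]
    · simp [hc c h]
  have h1 := Finset.card_le_card this
  have h2 := Finset.card_le_two (a := a) (b := b)
  rw [Finset.card_univ] at h1
  omega

theorem struct {V W K : Type} [Fintype V] [Field K] [CharZero K] (G : SimpleGraph V)
    [DecidableRel G.Adj] (H : SimpleGraph W) (X : V → W → K) (h3 : 3 ≤ Fintype.card V)
    {k l : W} (hX : ∀ i j, i ≠ j → X i k * X j l - X i l * X j k ≠ 0)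
    (hG : ∀ a, ∃ b, G.Adj a b)
    (hP : ∀ v, (∀ i j k l, G.Adj i j → H.Adj k l → E X v i j k l = 0) →
      ∀ i j k l, E X v i j k l = 0) :
    (∀ a, 2 ≤ G.degree a) ∧ ∀ ε : V → ℤ, (∀ i j, G.Adj i j → ε i + ε j = 0) → ε = 0 := by
  classical
  constructor
  · intro a
    by_contra hlt
    obtain ⟨p, hp⟩ := hG a
    have huniq : ∀ b, G.Adj a b → b = p := by
      intro b hb
      by_contra hne
      apply hlt
      have : ({b, p} : Finset V) ⊆ G.neighborFinset a := by
        intro x hx
        simp only [Finset.mem_insert, Finset.mem_singleton] at hx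
        rcases hx with rfl | rfl <;> simpa
      have h1 := Finset.card_le_card this
      rwa [Finset.card_pair hne] at h1
    obtain ⟨c, hca, hcp⟩ := third h3 a p
    have := hP (fun q => if q.1 = a then X p q.2 else 0) (fun i j k l hij _ => by
      by_cases hi : i = a
      · subst hi
        obtain rfl := huniq j hij
        simp only [E, hij.ne', if_true, if_false]; ring
      · by_cases hj : j = a
        · subst hj
          obtain rfl := huniq i hij.symm
          simp only [E, hi, if_true, if_false]; ring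
        · simp [E, hi, hj]) a c k l
    simp only [E, hca, if_true, if_false] at this
    exact hX p c hcp.symm (by linear_combination this)
  · intro ε hε
    have key : ∀ i j k l, E X (fun q => (ε q.1 : K) * X q.1 q.2) i j k l =
        ((ε i + ε j : ℤ) : K) * (X i k * X j l - X i l * X j k) := by
      intro i j k l; simp only [E]; push_cast; ring
    have h1 := hP _ fun i j k l hij _ => by rw [key, hε i j hij]; simp
    have h2 : ∀ i j, i ≠ j → ε i + ε j = 0 := fun i j hij => by
      have := h1 i j k l
      rw [key] at this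
      exact_mod_cast (mul_eq_zero.1 this).resolve_right (hX i j hij)
    funext a
    obtain ⟨b, hb, -⟩ := third h3 a a
    obtain ⟨c, hca, hcb⟩ := third h3 a b
    have := h2 _ _ hb; have := h2 _ _ hca; have := h2 _ _ hcb
    show ε a = 0
    omega

theorem orient {V : Type} [Fintype V] (G : SimpleGraph V) [DecidableRel G.Adj]
    (hd : ∀ a, G.degree a = 2) : ∃ σ : Equiv.Perm V, ∀ a b, G.Adj a b ↔ b = σ a ∨ a = σ b := by
  classical
  obtain ⟨f, hf, hm⟩ := (Finset.all_card_le_biUnion_card_iff_exists_injective
      (fun a => G.incidenceFinset a)).1 (fun s => by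
    have := Finset.card_mul_le_card_mul (s := s) (t := s.biUnion fun a => G.incidenceFinset a)
      (m := 2) (n := 2) (fun a e => a ∈ e) (fun a ha => by
        rw [← hd a, ← G.card_incidenceFinset_eq_degree]
        refine Finset.card_le_card fun e he => ?_
        simp only [Finset.mem_bipartiteAbove, Finset.mem_biUnion]
        exact ⟨⟨a, ha, he⟩, ((G.mem_incidenceFinset a e).1 he).2⟩) (fun e _ => by
        induction e using Sym2.ind with
        | h x y =>
          refine le_trans (Finset.card_le_card fun a ha => ?_) (Finset.card_le_two (a := x) (b := y))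
          simpa using ((Finset.mem_bipartiteBelow _).1 ha).2)
    omega)
  have hs : ∀ a, ∃ b, G.Adj a b ∧ f a = s(a, b) := fun a => by
    have h := (G.mem_incidenceFinset a _).1 (hm a)
    obtain ⟨b, hb⟩ := Sym2.mem_iff_exists.1 h.2
    exact ⟨b, by have := h.1; rwa [hb] at this, hb⟩
  choose s hs1 hs2 using hs
  have hcard : G.edgeFinset.card = Fintype.card V := by
    have := G.sum_degrees_eq_twice_card_edges
    simp only [hd, Finset.sum_const, Finset.card_univ, smul_eq_mul] at this
    omega
  have himg : Finset.univ.image f = G.edgeFinset := by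
    refine Finset.eq_of_subset_of_card_le (fun e he => ?_) ?_
    · obtain ⟨a, -, rfl⟩ := Finset.mem_image.1 he
      rw [hs2]; simpa using hs1 a
    · rw [Finset.card_image_of_injective _ hf, hcard, Finset.card_univ]
  have hadj : ∀ a b, G.Adj a b → b = s a ∨ a = s b := fun a b h => by
    have : s(a, b) ∈ Finset.univ.image f := by rw [himg]; simpa using h
    obtain ⟨c, -, hc⟩ := Finset.mem_image.1 this
    rw [hs2, Sym2.eq_iff] at hc
    rcases hc with ⟨rfl, rfl⟩ | ⟨rfl, rfl⟩
    · exact Or.inl rfl
    · exact Or.inr rfl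
  have hinj : Function.Injective s := by
    intro a a' h
    by_contra hne
    have hsub : ({a, a'} : Finset V) = G.neighborFinset (s a) := by
      refine Finset.eq_of_subset_of_card_le (fun x hx => ?_) ?_
      · simp only [Finset.mem_insert, Finset.mem_singleton] at hx
        rw [SimpleGraph.mem_neighborFinset]
        rcases hx with rfl | rfl
        · exact (hs1 _).symm
        · rw [h]; exact (hs1 _).symm
      · rw [Finset.card_pair hne, G.card_neighborFinset_eq_degree, hd]
    have : s (s a) ∈ ({a, a'} : Finset V) := by rw [hsub]; simpa using hs1 (s a)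
    simp only [Finset.mem_insert, Finset.mem_singleton] at this
    rcases this with h1 | h1
    · exact (hs1 a).ne (hf (by rw [hs2, hs2, h1, Sym2.eq_swap]))
    · refine (hs1 a').ne (hf ?_)
      rw [hs2, hs2, ← h, h1, Sym2.eq_swap]
  refine ⟨Equiv.ofBijective s (Finite.injective_iff_bijective.1 hinj), fun a b => ⟨hadj a b, ?_⟩⟩
  rintro (rfl | rfl)
  · exact hs1 _
  · exact (hs1 _).symm

theorem card_edges {V : Type} [Fintype V] [LinearOrder V] (G : SimpleGraph V) [DecidableRel G.Adj] :
    2 * Nat.card {e : V × V // G.Adj e.1 e.2 ∧ e.1 < e.2} = ∑ a, G.degree a := by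
  classical
  rw [G.sum_degrees_eq_twice_card_edges]
  congr 1
  rw [← Nat.card_eq_finsetCard]
  refine Nat.card_eq_of_bijective (fun e => ⟨s(e.1.1, e.1.2), by simpa using e.2.1⟩) ⟨?_, ?_⟩
  · rintro ⟨⟨a, b⟩, h1, h2⟩ ⟨⟨c, d⟩, h3, h4⟩ h
    simp only [Subtype.mk.injEq, Sym2.eq_iff] at h
    rcases h with ⟨rfl, rfl⟩ | ⟨rfl, rfl⟩
    · rfl
    · exact absurd h2 (not_lt.2 h4.le)
  · rintro ⟨e, he⟩
    induction e using Sym2.ind with
    | h a b =>
      have hab : G.Adj a b := by simpa using he
      rcases lt_or_gt_of_ne hab.ne with h | h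
      · exact ⟨⟨(a, b), hab, h⟩, rfl⟩
      · exact ⟨⟨(b, a), hab.symm, h⟩, Subtype.ext Sym2.eq_swap⟩

/-- nonvanishing of the Jacobian determinant over the integers -/
theorem det_ne {V W : Type} [Fintype V] [Fintype W] [DecidableEq V] [DecidableEq W]
    {σ : Equiv.Perm V} {τ : Equiv.Perm W}
    (hσ : Odd (orderOf σ)) (hσf : ∀ a, σ a ≠ a) (hτ : Odd (orderOf τ)) (hτf : ∀ a, τ a ≠ a)
    {K : Type} [CommRing K] (φ : MvPolynomial (V × W) ℤ →+* K) (hφ : Function.Injective φ) :
    (Matrix.of fun (p c : V × W) => E (fun a b => φ (MvPolynomial.X (a, b))) (Pi.single c 1)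
      p.1 (σ p.1) p.2 (τ p.2)).det ≠ 0 := by
  have hmap : ∀ {R : Type} [CommRing R] (ψ : MvPolynomial (V × W) ℤ →+* R),
      (Matrix.of fun (p c : V × W) => E (fun a b => ψ (MvPolynomial.X (a, b))) (Pi.single c 1)
      p.1 (σ p.1) p.2 (τ p.2)).det = ψ (Matrix.of fun (p c : V × W) =>
        E (fun a b => (MvPolynomial.X (a, b) : MvPolynomial (V × W) ℤ)) (Pi.single c 1)
      p.1 (σ p.1) p.2 (τ p.2)).det := by
    intro R _ ψ
    rw [RingHom.map_det]
    congr 1
    ext p c
    simp [E, Pi.single_apply, apply_ite ψ]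
  obtain ⟨x, hx, him⟩ := exists_point hσ hσf hτ hτf
  rw [hmap]
  intro h0
  have h1 := hmap (MvPolynomial.eval₂Hom (Int.castRingHom ℂ) fun p => x p.1 p.2)
  rw [hφ (h0.trans φ.map_zero.symm), map_zero, ← Matrix.exists_mulVec_eq_zero_iff] at h1
  obtain ⟨v, hv, h2⟩ := h1
  refine hv (kernel_zero hσ hτ hx him fun a b => ?_)
  have := congrFun h2 (a, b)
  simp only [Matrix.mulVec, dotProduct, Matrix.of_apply, E_dot, MvPolynomial.eval₂Hom_X'] at this
  exact this

end H47.Jac
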