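import Pool.Agent.H46.Steinitz

open Finset Filter Topology

namespace Pool.Agent.H47.LevySt

theorem ord (x : ℕ → ℝ × ℝ) (A : Finset ℕ) (B : ℝ) (hB : 0 ≤ B) (h : ∀ i ∈ A, ‖x i‖ ≤ B) :
    ∃ f : ℕ → ℕ, (range A.card).image f = A ∧
      ∀ r ≤ A.card, ‖∑ i ∈ range r, x (f i)‖ ≤ 2 * B + 3 * ‖∑ i ∈ A, x i‖ := by
  rcases A.eq_empty_or_nonempty with rfl | hA
  · exact ⟨id, by simp, fun r hr => by simp_all⟩
  have hn : (1 : ℝ) ≤ A.card := by exact_mod_cast hA.card_pos
  set s := ∑ i ∈ A, x i with hs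
  let t : ℝ × ℝ := (A.card : ℝ)⁻¹ • s
  have ht : ∀ r ≤ A.card, ‖(r : ℝ) • t‖ ≤ ‖s‖ := fun r hr => by
    rw [smul_smul, norm_smul, Real.norm_of_nonneg (by positivity)]
    exact mul_le_of_le_one_left (norm_nonneg _)
      (mul_inv_le_one_of_le₀ (by exact_mod_cast hr) (by positivity))
  let w : ℕ → ℝ × ℝ := fun i => if i ∈ A then x i - t else 0
  have hw : ∀ i, ‖w i‖ ≤ B + ‖s‖ := fun i => by
    by_cases g : i ∈ A
    · simpa [w, g] using (norm_sub_le _ _).trans
        (add_le_add (h i g) (by simpa using ht 1 hA.card_pos))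
    · simp only [w, g, if_false, norm_zero]; positivity
  have z : ∑ i ∈ A, w i = 0 := by
    rw [sum_congr rfl (g := fun i => x i - t) fun i g => if_pos g, sum_sub_distrib, sum_const,
      ← Nat.cast_smul_eq_nsmul ℝ, smul_inv_smul₀ (by positivity), sub_self]
  obtain ⟨f, a, b⟩ := H46.Steinitz.order (m := 2) (fun i => ![(w i).1, (w i).2]) (B + ‖s‖)
    (fun i j => by fin_cases j; exacts [(norm_fst_le _).trans (hw i), (norm_snd_le _).trans (hw i)])
    (by positivity) 0 _ A rfl (by
      by_cases g : A.card ≤ 2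
      · exact .inl g
      have : (2 : ℝ) ≤ A.card := by exact_mod_cast (by omega : 2 ≤ A.card)
      refine .inr ⟨fun _ => ((A.card : ℝ) - 2) / A.card, fun i _ => ⟨by positivity,
        (div_le_one (by positivity)).2 (by linarith)⟩, by simp; field_simp, fun j => ?_⟩
      rw [← mul_sum]
      fin_cases j <;> simp [← Prod.fst_sum, ← Prod.snd_sum, z])
  refine ⟨f, a, fun r hr => ?_⟩
  have e : ∑ i ∈ range r, x (f i) = ∑ i ∈ range r, w (f i) + (r : ℝ) • t := by
    rw [sum_congr rfl (f := fun i => w (f i)) (g := fun i => x (f i) - t) fun i g => if_pos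
      (a ▸ mem_image_of_mem f (mem_range.2 ((mem_range.1 g).trans_le hr))),
      sum_sub_distrib, sum_const, card_range, Nat.cast_smul_eq_nsmul, sub_add_cancel]
  have : ‖∑ i ∈ range r, w (f i)‖ ≤ 2 * (B + ‖s‖) := norm_prod_le_iff.2
    ⟨by simpa [Prod.fst_sum] using b r hr 0, by simpa [Prod.snd_sum] using b r hr 1⟩
  rw [e]
  linarith [norm_add_le (∑ i ∈ range r, w (f i)) ((r : ℝ) • t), ht r hr]

/-- a point approximated by finite subsums containing any given finite set is in the sum range -/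
theorem levy (x : ℕ → ℝ × ℝ) (hx : Tendsto x atTop (𝓝 0)) (a : ℝ × ℝ)
    (h : ∀ (F : Finset ℕ) (ε : ℝ), 0 < ε → ∃ G, F ⊆ G ∧ ‖∑ i ∈ G, x i - a‖ ≤ ε) :
    ∃ σ : Equiv.Perm ℕ, Tendsto (fun N => ∑ n ∈ range N, x (σ n)) atTop (𝓝 a) := by
  choose G hG using fun (F : Finset ℕ) (m : ℕ) =>
    h (F ∪ range (m + 1)) (1 / (m + 1)) Nat.one_div_pos_of_nat
  let F : ℕ → Finset ℕ := fun m => Nat.rec ∅ (fun m F => G F m) m
  have F1 : ∀ m, F m ⊆ F (m + 1) := fun m => subset_union_left.trans (hG _ m).1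
  have F2 : ∀ m, range m ⊆ F m := fun m => by
    cases m; exacts [Subset.rfl, subset_union_right.trans (hG _ _).1]
  have F3 : Tendsto (fun m => ∑ i ∈ F m, x i) atTop (𝓝 a) := (tendsto_add_atTop_iff_nat 1).1
    (tendsto_iff_norm_sub_tendsto_zero.2 (squeeze_zero (fun _ => norm_nonneg _)
      (fun m => (hG _ m).2) tendsto_one_div_add_atTop_nhds_zero_nat))
  obtain ⟨B, B0, B1, B2⟩ : ∃ B : ℕ → ℝ, (∀ m, 0 ≤ B m) ∧ (∀ m i, m ≤ i → ‖x i‖ ≤ B m) ∧
      Tendsto B atTop (𝓝 0) := by
    have bd : ∀ m, BddAbove (Set.range fun i => ‖x (m + i)‖) := fun m =>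
      hx.norm.bddAbove_range.mono (Set.range_comp_subset_range (m + ·) fun i => ‖x i‖)
    refine ⟨fun m => ⨆ i, ‖x (m + i)‖, fun m => Real.iSup_nonneg fun _ => norm_nonneg _,
      fun m i g => by obtain ⟨i, rfl⟩ := Nat.exists_eq_add_of_le g; exact le_ciSup (bd m) i,
      tendsto_order.2 ⟨fun c g => .of_forall fun m =>
        g.trans_le (Real.iSup_nonneg fun _ => norm_nonneg _), fun c g => ?_⟩⟩
    obtain ⟨M, hM⟩ := eventually_atTop.1 ((tendsto_zero_iff_norm_tendsto_zero.1 hx).eventually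
      (gt_mem_nhds (half_pos g)))
    exact eventually_atTop.2 ⟨M, fun m u =>
      (ciSup_le fun i => (hM _ (by omega)).le).trans_lt (half_lt_self g)⟩
  choose f f1 f2 using fun m => ord x (F (m + 1) \ F m) (B m) (B0 m) fun i g => B1 m i
    (not_lt.1 fun u => (mem_sdiff.1 g).2 (F2 m (mem_range.2 u)))
  have c : ∀ m, (F (m + 1)).card = (F m).card + (F (m + 1) \ F m).card := fun m => by
    rw [← card_sdiff_add_card_eq_card (F1 m), add_comm]
  have c2 : ∀ m, m ≤ (F m).card := fun m => by simpa using card_le_card (F2 m)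
  have ex : ∀ n, ∃ m, n < (F (m + 1)).card := fun n => ⟨n, c2 _⟩
  have cm : Monotone fun m => (F m).card := monotone_nat_of_le_succ fun m => card_le_card (F1 m)
  let k : ℕ → ℕ := fun n => Nat.find (ex n)
  have k1 : ∀ n, (F (k n)).card ≤ n := fun n => by
    rcases e : k n with _ | j
    · exact Nat.zero_le _
    · exact not_lt.1 (Nat.find_min (ex n) (m := j) (by simp only [k] at e; omega))
  let σ : ℕ → ℕ := fun n => f (k n) (n - (F (k n)).card)
  have s1 : ∀ m, ∀ i < (F (m + 1) \ F m).card, σ ((F m).card + i) = f m i := fun m i g => by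
    have : k ((F m).card + i) = m := (Nat.find_eq_iff _).2 ⟨by rw [c]; omega, fun j u => by
      have := cm (show j + 1 ≤ m from u); simp only at this; omega⟩
    simp [σ, this]
  have s2 : ∀ m, (range (F m).card).image σ = F m := fun m => by
    induction m with
    | zero => rfl
    | succ m ih =>
      rw [c, range_add_eq_union, image_union, ih, map_eq_image, image_image,
        image_congr (f := σ ∘ addLeftEmbedding _) (g := f m) (s := range _)
          fun i g => s1 m i (mem_range.1 g), f1, union_sdiff_of_subset (F1 m)]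
  have s3 : ∀ m, Set.InjOn σ (range (F m).card : Finset ℕ) := fun m =>
    card_image_iff.1 (by rw [s2, card_range])
  refine ⟨.ofBijective σ ⟨fun i j e => s3 (i + j + 1) ?_ ?_ e, fun n => ?_⟩, ?_⟩
  iterate 2 have := c2 (i + j + 1); simp; omega
  · obtain ⟨i, -, e⟩ := mem_image.1 ((s2 (n + 1)).ge (F2 _ (self_mem_range_succ n)))
    exact ⟨i, e⟩
  have kt : Tendsto k atTop atTop := tendsto_atTop.2 fun M => eventually_atTop.2
    ⟨(F M).card, fun n g => not_lt.1 fun u => by
      have := cm (show k n + 1 ≤ M from u); have : n < _ := Nat.find_spec (ex n)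
      simp only [k] at *; omega⟩
  have d : Tendsto (fun m => 2 * B m + 3 * ‖∑ i ∈ F (m + 1) \ F m, x i‖) atTop (𝓝 0) := by
    simp only [sum_sdiff_eq_sub (F1 _)]
    simpa using (B2.const_mul 2).add
      ((((tendsto_add_atTop_iff_nat 1).2 F3).sub F3).norm.const_mul 3)
  refine (F3.comp kt).congr_dist (squeeze_zero (fun _ => dist_nonneg) (fun n => ?_) (d.comp kt))
  obtain ⟨r, e⟩ := Nat.exists_eq_add_of_le (k1 n)
  have : n < (F (k n + 1)).card := Nat.find_spec (ex n)
  simp only [Function.comp_apply, Equiv.ofBijective_apply, dist_comm, dist_eq_norm]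
  rw [c] at this
  generalize k n = m at *
  subst e
  rw [sum_range_add, ← sum_image (s3 m), s2, add_sub_cancel_left,
    sum_congr rfl fun i g => congrArg x (s1 m i (by simp at g; omega))]
  exact f2 m r (by omega)

end Pool.Agent.H47.LevySt
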