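import Mathlib

namespace Pool.Agent.H47.LocA
open NormedSpace Filter Topology Metric Set

variable {𝕜 A : Type*} [RCLike 𝕜] [NormedAddCommGroup A] [NormedSpace 𝕜 A]

def Der (μ : A →L[𝕜] A →L[𝕜] A) : Submodule 𝕜 (A →L[𝕜] A) where
  carrier := {D | ∀ x y, D (μ x y) = μ (D x) y + μ x (D y)}
  add_mem' hP hQ u v := by simp [hP u v, hQ u v]; abel
  zero_mem' := by simp
  smul_mem' c P hP u v := by simp [hP u v]

def Aut (μ : A →L[𝕜] A →L[𝕜] A) (g h : A →L[𝕜] A) : Prop :=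
  g * h = 1 ∧ h * g = 1 ∧ ∀ x y, g (μ x y) = μ (g x) (g y)

noncomputable def W (μ : A →L[𝕜] A →L[𝕜] A) (x : A) : Submodule 𝕜 A :=
  (Der μ).map (ContinuousLinearMap.apply 𝕜 A x).toLinearMap

variable {μ : A →L[𝕜] A →L[𝕜] A} {g h : A →L[𝕜] A}

lemma Aut.l (a : Aut μ g h) (x : A) : h (g x) = x := congrArg (· x) a.2.1
lemma Aut.r (a : Aut μ g h) (x : A) : g (h x) = x := congrArg (· x) a.1

lemma Aut.symm (a : Aut μ g h) : Aut μ h g :=
  ⟨a.2.1, a.1, fun x y => by rw [← a.l (μ (h x) (h y)), a.2.2, a.r, a.r]⟩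

lemma Aut.mul {g' h'} (a : Aut μ g h) (b : Aut μ g' h') : Aut μ (g * g') (h' * h) :=
  ⟨by rw [mul_assoc, ← mul_assoc g', b.1, one_mul, a.1],
    by rw [mul_assoc, ← mul_assoc h, a.2.1, one_mul, b.2.1],
    fun x y => by simp [a.2.2, b.2.2]⟩

lemma Aut.conj (a : Aut μ g h) {x v : A} (hv : v ∈ W μ (g x)) : h v ∈ W μ x := by
  obtain ⟨D, hD, rfl⟩ := hv
  exact ⟨h * D * g, fun u v => by simp [a.2.2, hD _ _, a.symm.2.2, a.l], rfl⟩

lemma half {ι : Type*} {f w : ι → ℝ} {c : ℝ} (h0 : ∀ i, f i ≤ c * w i)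
    (h1 : ∀ c, (∀ i, f i ≤ c * w i) → ∀ i, f i ≤ c / 2 * w i) (i : ι) : f i ≤ 0 := by
  have : ∀ n : ℕ, ∀ i, f i ≤ c * (1 / 2) ^ n * w i := fun n => by
    induction n with
    | zero => simpa
    | succ n ih => intro i; convert h1 _ ih i using 2; ring
  have t := ((tendsto_pow_atTop_nhds_zero_of_lt_one (r := 1 / 2) (by norm_num)
    (by norm_num)).const_mul c).mul_const (w i)
  exact ge_of_tendsto' (by simpa using t) fun n => by simpa using this n i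

variable [NormedSpace ℝ A] [IsScalarTower ℝ 𝕜 A]

lemma app {F : Type*} [NormedAddCommGroup F] [NormedSpace 𝕜 F] [NormedSpace ℝ F]
    [IsScalarTower ℝ 𝕜 F] {g : ℝ → A →L[𝕜] F} {g' : A →L[𝕜] F} {u : ℝ → A} {u' : A} {t : ℝ}
    (hg : HasDerivAt g g' t) (hu : HasDerivAt u u' t) :
    HasDerivAt (fun s => g s (u s)) (g' (u t) + g t u') t :=
  ((ContinuousLinearMap.restrictScalarsL 𝕜 A F ℝ ℝ).hasFDerivAt.comp_hasDerivAt t hg).clm_apply hu

lemma dmu {u v : ℝ → A} {u' v' : A} {t : ℝ} (hu : HasDerivAt u u' t) (hv : HasDerivAt v v' t) :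
    HasDerivAt (fun s => μ (u s) (v s)) (μ u' (v t) + μ (u t) v') t := by
  simpa using app (app (hasDerivAt_const t μ) hu) hv

variable [FiniteDimensional 𝕜 A]

noncomputable def ex (X : A →L[𝕜] A) (t : ℝ) : A →L[𝕜] A := exp ((t : 𝕜) • X)

lemma dex (X : A →L[𝕜] A) (t : ℝ) : HasDerivAt (ex X) (ex X t * X) t := by
  have := FiniteDimensional.complete 𝕜 A
  have := (hasDerivAt_exp_smul_const X (t : 𝕜)).scomp t ((RCLike.ofRealCLM (K := 𝕜)).hasDerivAt (x := t))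
  exact this.congr_deriv (by simp [ex])

lemma dex' (X : A →L[𝕜] A) (t : ℝ) (x : A) : HasDerivAt (ex X · x) (X (ex X t x)) t := by
  have := FiniteDimensional.complete 𝕜 A
  have : HasDerivAt (ex X) (X * ex X t) t := by
    have := (hasDerivAt_exp_smul_const' X (t : 𝕜)).scomp t
      ((RCLike.ofRealCLM (K := 𝕜)).hasDerivAt (x := t))
    exact this.congr_deriv (by simp [ex])
  simpa using app this (hasDerivAt_const t x)

omit [NormedSpace ℝ A] [IsScalarTower ℝ 𝕜 A] in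
lemma ex_add (X : A →L[𝕜] A) (s t : ℝ) : ex X (s + t) = ex X s * ex X t := by
  have := FiniteDimensional.complete 𝕜 A
  rw [ex, RCLike.ofReal_add, add_smul]
  exact exp_add_of_commute_of_mem_ball (𝕂 := 𝕜) (((Commute.refl X).smul_left _).smul_right _)
    ((expSeries_radius_eq_top 𝕜 (A →L[𝕜] A)).symm ▸ edist_lt_top _ _)
    ((expSeries_radius_eq_top 𝕜 (A →L[𝕜] A)).symm ▸ edist_lt_top _ _)

omit [NormedSpace ℝ A] [IsScalarTower ℝ 𝕜 A] [FiniteDimensional 𝕜 A] in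
lemma ex_neg (X : A →L[𝕜] A) (t : ℝ) : ex (-X) t = ex X (-t) := by simp [ex]

omit [NormedSpace ℝ A] [IsScalarTower ℝ 𝕜 A] [FiniteDimensional 𝕜 A] in
lemma ex_zero (X : A →L[𝕜] A) : ex X 0 = 1 := by simp [ex]

lemma loc {Δ : A →L[𝕜] A} (hΔ : ∀ x, Δ x ∈ W μ x) (x : A) :
    ∀ᶠ t in 𝓝 (0 : ℝ), ∃ g h, Aut μ g h ∧ ex Δ t x = g x := by
  have := FiniteDimensional.complete 𝕜 A
  obtain ⟨s, s1, s2⟩ : ∃ s : A →L[𝕜] A →L[𝕜] A, (∀ v, s v ∈ Der μ) ∧ ∀ v ∈ W μ x, s v x = v := by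
    let ev : Der μ →ₗ[𝕜] W μ x := (ContinuousLinearMap.apply 𝕜 A x).toLinearMap.submoduleMap _
    obtain ⟨r, hr⟩ := ev.exists_rightInverse_of_surjective
      (LinearMap.range_eq_top.2 (LinearMap.submoduleMap_surjective _ _))
    obtain ⟨q, hq⟩ := r.exists_extend
    refine ⟨LinearMap.toContinuousLinearMap ((Der μ).subtype ∘ₗ q), fun v => (q v).2, fun v hv => ?_⟩
    have := congrArg Subtype.val (LinearMap.congr_fun hr ⟨v, hv⟩)
    rw [← hq] at this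
    exact this
  let D : (A →L[𝕜] A) → A →L[𝕜] A := fun g => s (Ring.inverse g (Δ (g x)))
  have hD : ContDiffAt 𝕜 1 D 1 := s.contDiff.contDiffAt.comp _
    ((contDiffAt_ringInverse 𝕜 (1 : (A →L[𝕜] A)ˣ)).clm_apply (by fun_prop))
  obtain ⟨α, a0, ε, e0, hα⟩ := ContDiffAt.exists_forall_mem_closedBall_exists_eq_forall_mem_Ioo_hasDerivAt₀
    ((contDiffAt_id.mul hD).restrict_scalars ℝ) 0
  have c0 : Tendsto α (𝓝 0) (𝓝 1) := a0 ▸ (hα 0 (by simpa)).continuousAt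
  have i0 : ∀ᶠ t in 𝓝 (0 : ℝ), t ∈ Ioo (0 - ε) (0 + ε) := Ioo_mem_nhds (by simpa) (by simpa)
  obtain ⟨δ, d0, hδ⟩ := Metric.eventually_nhds_iff_ball.1 ((i0.and (c0.eventually (Units.isOpen.mem_nhds isUnit_one))).and
    ((c0.norm.eventually_lt_const (lt_add_one _)).and
    (((hD.continuousAt.tendsto.comp c0).norm.eventually_lt_const (lt_add_one _)).and
    (((continuous_abs.tendsto' 0 0 abs_zero).mul_const (‖D 1‖ + 1)).eventually_lt_const
      (u := 1 / 4) (by simp)))))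
  have aut : ∀ t ∈ ball (0 : ℝ) δ, Aut μ (α t) (Ring.inverse (α t)) := fun t ht => by
    refine ⟨Ring.mul_inverse_cancel _ (hδ t ht).1.2, Ring.inverse_mul_cancel _ (hδ t ht).1.2,
      fun u v => sub_eq_zero.1 (norm_le_zero_iff.1 ?_)⟩
    refine half (ι := ball (0 : ℝ) δ × A × A)
      (f := fun i => ‖α i.1 (μ i.2.1 i.2.2) - μ (α i.1 i.2.1) (α i.1 i.2.2)‖)
      (w := fun i => ‖i.2.1‖ * ‖i.2.2‖)
      (c := (‖(1 : A →L[𝕜] A)‖ + 1) * ‖μ‖ + ‖μ‖ * (‖(1 : A →L[𝕜] A)‖ + 1) ^ 2) ?_ ?_ (⟨t, ht⟩, u, v)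
    · rintro ⟨⟨t, ht⟩, u, v⟩
      have n := (hδ t ht).2.1.le
      have h1 := ((α t).le_of_opNorm_le n (μ u v)).trans
        (mul_le_mul_of_nonneg_left (μ.le_opNorm₂ u v) (by positivity))
      have h2 : ‖μ (α t u) (α t v)‖ ≤ ‖μ‖ * ((‖(1 : A →L[𝕜] A)‖ + 1) * ‖u‖) *
          ((‖(1 : A →L[𝕜] A)‖ + 1) * ‖v‖) := (μ.le_opNorm₂ _ _).trans (by
        gcongr <;> exact (α t).le_of_opNorm_le n _)
      refine (norm_sub_le _ _).trans ?_
      dsimp only
      linarith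
    · rintro c hc ⟨⟨t, ht⟩, u, v⟩
      by_cases huv : ‖u‖ * ‖v‖ = 0
      · simpa [huv] using hc (⟨t, ht⟩, u, v)
      have c0 : 0 ≤ c := nonneg_of_mul_nonneg_left ((norm_nonneg _).trans (hc (⟨t, ht⟩, u, v)))
        (lt_of_le_of_ne (by positivity) (Ne.symm huv))
      have := (convex_ball (0 : ℝ) δ).norm_image_sub_le_of_norm_hasDerivWithin_le
        (f := fun t => α t (μ u v) - μ (α t u) (α t v)) (C := 2 * c * (‖D 1‖ + 1) * (‖u‖ * ‖v‖))
        (fun t ht => ((app (hα t (hδ t ht).1.1) (hasDerivAt_const t _)).sub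
          (dmu (app (hα t (hδ t ht).1.1) (hasDerivAt_const t u))
            (app (hα t (hδ t ht).1.1) (hasDerivAt_const t v)))).hasDerivWithinAt)
        (fun t ht => ?_) (mem_ball_self d0) ht
      · simp only [a0, one_apply_eq_self, sub_self, sub_zero, Real.norm_eq_abs] at this
        have h4 := mul_le_mul_of_nonneg_left (hδ t ht).2.2.2.le (by positivity :
          0 ≤ 2 * c * (‖u‖ * ‖v‖))
        dsimp only
        linarith
      have n : ‖D (α t)‖ ≤ ‖D 1‖ + 1 := (hδ t ht).2.2.1.le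
      have h1 := hc (⟨t, ht⟩, D (α t) u, v)
      have h2 := hc (⟨t, ht⟩, u, D (α t) v)
      have h3 : c * (‖D (α t) u‖ * ‖v‖) ≤ c * ((‖D 1‖ + 1) * ‖u‖ * ‖v‖) := by
        gcongr; exact (D (α t)).le_of_opNorm_le n _
      have h4 : c * (‖u‖ * ‖D (α t) v‖) ≤ c * (‖u‖ * ((‖D 1‖ + 1) * ‖v‖)) := by
        gcongr; exact (D (α t)).le_of_opNorm_le n _
      have h5 := norm_add_le (α t (μ (D (α t) u) v) - μ (α t (D (α t) u)) (α t v))
        (α t (μ u (D (α t) v)) - μ (α t u) (α t (D (α t) v)))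
      simp only [id, mul_apply_eq_comp, map_zero, add_zero]
      rw [show D (α t) (μ u v) = _ from s1 _ u v, map_add, add_sub_add_comm]
      dsimp only at h1 h2
      linarith
  filter_upwards [ball_mem_nhds 0 d0] with t ht
  refine ⟨_, _, aut t ht, ?_⟩
  have := (convex_ball (0 : ℝ) δ).norm_image_sub_le_of_norm_hasDerivWithin_le
    (f := fun t => ex (-Δ) t (α t x)) (C := 0) (fun t ht => (app (dex (-Δ) t)
      (app (hα t (hδ t ht).1.1) (hasDerivAt_const t x))).hasDerivWithinAt)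
    (fun t ht => ?_) (mem_ball_self d0) ht
  · simp only [ex_zero, a0, one_apply_eq_self, zero_mul, norm_le_zero_iff, sub_eq_zero] at this
    conv_lhs => rw [← this, ← mul_apply_eq_comp, ex_neg, ← ex_add]
    simp [ex_zero]
  · simp only [id, mul_apply_eq_comp, map_zero, add_zero]
    rw [show D (α t) x = _ from s2 _ ((aut t ht).conj (hΔ _)), (aut t ht).r]
    simp

theorem sup {Δ : A →L[𝕜] A} (hΔ : ∀ x, Δ x ∈ W μ x) (t : ℝ) (x : A) :
    ∃ g h, Aut μ g h ∧ ex Δ t x = g x := by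
  have : IsLocallyConstant fun t => ∃ g h, Aut μ g h ∧ ex Δ t x = g x := by
    refine (IsLocallyConstant.iff_eventually_eq _).2 fun s => ?_
    filter_upwards [(continuous_sub_right s).tendsto' s 0 (sub_self s) (loc hΔ (ex Δ s x))]
    rintro t ⟨g, h, a, e⟩
    rw [← mul_apply_eq_comp, ← ex_add, sub_add_cancel] at e
    refine propext ⟨fun ⟨g', h', a', e'⟩ => ⟨_, _, a.symm.mul a', ?_⟩,
      fun ⟨g', h', a', e'⟩ => ⟨_, _, a.mul a', ?_⟩⟩
    · rw [mul_apply_eq_comp, ← e', e, a.l]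
    · rw [mul_apply_eq_comp, ← e', e]
  rw [this.apply_eq_of_preconnectedSpace t 0]
  exact ⟨1, 1, ⟨one_mul _, one_mul _, fun _ _ => rfl⟩, by rw [ex_zero]⟩

end Pool.Agent.H47.LocA
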