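import Mathlib
import Pool.Agent.H47.LocA

namespace Pool.Agent.H47.LocB
open NormedSpace Filter Topology Metric Set Pool.Agent.H47.LocA

variable {𝕜 A : Type*} [RCLike 𝕜] [NormedAddCommGroup A] [NormedSpace 𝕜 A]
  {μ : A →L[𝕜] A →L[𝕜] A} [NormedSpace ℝ A] [IsScalarTower ℝ 𝕜 A] [FiniteDimensional 𝕜 A]

omit [NormedSpace ℝ A] [IsScalarTower ℝ 𝕜 A] in
lemma small {ε : ℝ} (he : 0 < ε) :
    ∀ᶠ D in 𝓝 (0 : A →L[𝕜] A), ∀ t : ℝ, |t| ≤ 1 → ∀ v, ‖ex D t v - v‖ ≤ ε * ‖v‖ := by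
  have := FiniteDimensional.complete 𝕜 A
  have c : Tendsto (exp : (A →L[𝕜] A) → _) (𝓝 0) (𝓝 1) :=
    exp_zero (𝔸 := A →L[𝕜] A) ▸ (hasStrictFDerivAt_exp_zero (𝕂 := 𝕜)).continuousAt
  obtain ⟨δ, d0, hδ⟩ := Metric.tendsto_nhds_nhds.1 c ε he
  filter_upwards [ball_mem_nhds 0 d0] with D hD t ht v
  have := hδ (x := (t : 𝕜) • D) (by
    rw [dist_zero_right, norm_smul, RCLike.norm_ofReal]
    exact (mul_le_of_le_one_left (norm_nonneg _) ht).trans_lt (by simpa using hD))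
  rw [dist_eq_norm] at this
  exact (ex D t - 1).le_of_opNorm_le this.le v

lemma mv {f f' : ℝ → A} {C : ℝ} (h : ∀ t, HasDerivAt f (f' t) t) (b : ∀ t, |t| ≤ 1 → ‖f' t‖ ≤ C) :
    ‖f 1 - f 0‖ ≤ C :=
  norm_image_sub_le_of_norm_deriv_le_segment_01' (fun t _ => (h t).hasDerivWithinAt)
    fun t ht => b t (abs_le.2 ⟨by linarith [ht.1], ht.2.le⟩)

lemma lin {D : A →L[𝕜] A} {ε : ℝ} (h : ∀ t : ℝ, |t| ≤ 1 → ∀ v, ‖ex D t v - v‖ ≤ ε * ‖v‖) (y : A) :
    ‖ex D 1 y - y - D y‖ ≤ ε * ‖D y‖ := by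
  have := mv (fun t => (app (dex D t) (hasDerivAt_const t y)).sub
    ((hasDerivAt_id t).smul_const (D y))) fun t ht => (by simpa using h t ht (D y) : _ ≤ ε * ‖D y‖)
  simpa [ex_zero, sub_right_comm] using this

lemma der {D : A →L[𝕜] A} (h : ∀ t : ℝ, |t| ≤ 1 → ∀ v, ‖ex D t v - v‖ ≤ 1 / 8 * ‖v‖)
    (a : ∀ x y, ex D 1 (μ x y) = μ (ex D 1 x) (ex D 1 y)) : D ∈ Der μ := by
  let δ : A →L[𝕜] A →L[𝕜] A := (ContinuousLinearMap.compL 𝕜 A A A D).comp μ - μ.comp D -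
    (μ.flip.comp D).flip
  have e : ∀ x y, δ x y = D (μ x y) - (μ (D x) y + μ x (D y)) := fun x y => by simp [δ, sub_sub]
  have h' : ∀ t : ℝ, |t| ≤ 1 → ∀ v, ‖ex D t v‖ ≤ 9 / 8 * ‖v‖ := fun t ht v => by
    linarith [norm_sub_norm_le (ex D t v) v, h t ht v]
  have : ‖δ‖ ≤ ‖δ‖ / 2 := δ.opNorm_le_bound₂ (by positivity) fun x y => by
    have := mv (C := ‖δ‖ / 2 * ‖x‖ * ‖y‖) (fun t => (app (dex (-D) t) (dmu (μ := μ) (dex' D t x)
      (dex' D t y))).add ((hasDerivAt_id t).smul_const (δ x y))) fun t ht => ?_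
    · simp only [Pi.add_apply, ex_neg] at this
      rw [← a, ← mul_apply_eq_comp, ← ex_add] at this
      simpa [ex_zero] using this
    have h1 := h (-t) (by simpa) (δ (ex D t x) (ex D t y))
    have h2 : ‖δ (ex D t x) (ex D t y)‖ ≤ ‖δ‖ * (9 / 8 * ‖x‖) * (9 / 8 * ‖y‖) :=
      (δ.le_opNorm₂ _ _).trans (by gcongr <;> exact h' t ht _)
    have h3 : ‖δ (ex D t x - x) (ex D t y)‖ ≤ ‖δ‖ * (1 / 8 * ‖x‖) * (9 / 8 * ‖y‖) :=
      (δ.le_opNorm₂ _ _).trans (by gcongr; exacts [h t ht _, h' t ht _])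
    have h4 : ‖δ x (ex D t y - y)‖ ≤ ‖δ‖ * ‖x‖ * (1 / 8 * ‖y‖) :=
      (δ.le_opNorm₂ _ _).trans (by gcongr; exact h t ht _)
    have h5 := norm_add₃_le (a := ex D (-t) (δ (ex D t x) (ex D t y)) - δ (ex D t x) (ex D t y))
      (b := δ (ex D t x - x) (ex D t y)) (c := δ x (ex D t y - y))
    have h6 : 0 ≤ ‖δ‖ * ‖x‖ * ‖y‖ := by positivity
    rw [← norm_neg]
    refine le_trans (le_of_eq ?_) (h5.trans (by linarith))
    congr 1
    rw [ex_neg, e (ex D t x) (ex D t y)]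
    simp only [map_sub, sub_apply, e (ex D t x) (ex D t y), mul_apply_eq_comp,
      neg_apply, map_neg, one_smul]
    abel
  intro x y
  rw [← sub_eq_zero, ← e, (δ.opNorm_zero_iff.1 (le_antisymm (by linarith) (norm_nonneg _)))]
  rfl

lemma tang {c : ℝ → A} {v : A} {t : ℝ} (hc : HasDerivAt c v t) {K : Set ((A →L[𝕜] A) × (A →L[𝕜] A))}
    (hK : IsCompact K) (aK : ∀ p ∈ K, Aut μ p.1 p.2) {x : A}
    (h : ∀ᶠ s in 𝓝 t, ∃ p ∈ K, p.1 x = c s) : v ∈ W μ (c t) := by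
  have := FiniteDimensional.complete 𝕜 A
  obtain ⟨p, hp⟩ := h.choice
  obtain ⟨U, hU⟩ := Ultrafilter.exists_le (𝓝[≠] t)
  have hU' := hU.trans nhdsWithin_le_nhds
  obtain ⟨q, qK, hq⟩ := hK.ultrafilter_le_nhds (U.map p)
    (le_principal_iff.2 (hU' (hp.mono fun s a => a.1)))
  have hq : Tendsto p U (𝓝 q) := hq
  have q1 : q.1 x = c t := tendsto_nhds_unique
    (((continuous_fst.clm_apply continuous_const).tendsto q).comp hq)
    ((hc.continuousAt.tendsto.mono_left hU').congr' (hU' (hp.mono fun s a => a.2.symm)))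
  have k1 : Tendsto (fun s => (p s).1 * q.2) U (𝓝 1) :=
    (aK q qK).1 ▸ ((continuous_fst.tendsto q).comp hq).mul_const q.2
  have sd : HasStrictFDerivAt (exp : (A →L[𝕜] A) → _) ((ContinuousLinearEquiv.refl 𝕜 (A →L[𝕜] A) :
      (A →L[𝕜] A) →L[𝕜] (A →L[𝕜] A))) 0 := hasStrictFDerivAt_exp_zero
  have l0 := sd.localInverse_tendsto
  have l1 := sd.eventually_right_inverse
  rw [exp_zero] at l0 l1
  generalize sd.localInverse _ _ _ = l at l0 l1
  have sl := (hasDerivAt_iff_tendsto_slope.1 hc).mono_left hU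
  rw [← SetLike.mem_coe, ← (W μ (c t)).closed_of_finiteDimensional.closure_eq,
    Metric.mem_closure_iff]
  intro ε he
  have m : 0 < ‖v‖ + 1 := by positivity
  obtain ⟨s, ⟨⟨⟨s1, s2⟩, s3, s4⟩, ⟨s5, s6⟩, s7⟩⟩ := ((((l0.comp k1).eventually ((small
    (ε := 1 / 8) (by norm_num)).and (small (ε := ε / 4 / (‖v‖ + 1)) (by positivity)))).and
    ((k1.eventually l1).and (hU' hp))).and (((sl.norm.eventually_lt_const (lt_add_one _)).and
    (Metric.tendsto_nhds.1 sl (ε / 2) (by positivity))).and (hU self_mem_nhdsWithin))).exists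
  have a := (aK _ s4.1).mul (aK q qK).symm
  simp only [Function.comp] at s1 s2
  generalize l ((p s).1 * q.2) = D at *
  have e : ex D 1 = (p s).1 * q.2 := by simpa [ex] using s3
  have e2 : ex D 1 (c t) = c s := by rw [e, mul_apply_eq_comp, ← q1, (aK q qK).l, s4.2]
  have b : ∀ η, ‖ex D 1 (c t) - c t - D (c t)‖ ≤ η * ‖D (c t)‖ →
      ‖slope c t s - (s - t)⁻¹ • D (c t)‖ ≤ η * ‖(s - t)⁻¹ • D (c t)‖ := fun η h => by
    rw [slope_def_module, ← smul_sub, norm_smul, norm_smul, ← e2, mul_left_comm]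
    gcongr
  have b1 := b _ (lin s1 _)
  have b2 := b _ (lin s2 _)
  refine ⟨(s - t)⁻¹ • D (c t), (W μ (c t)).smul_of_tower_mem _ ⟨D, der s1 (e ▸ a.2.2), rfl⟩, ?_⟩
  have b3 := norm_sub_norm_le ((s - t)⁻¹ • D (c t)) (slope c t s)
  have b4 := dist_triangle_left v ((s - t)⁻¹ • D (c t)) (slope c t s)
  rw [norm_sub_rev] at b3
  rw [dist_eq_norm (slope c t s) (_ • _)] at b4
  have b5 : ε / 4 / (‖v‖ + 1) * ‖(s - t)⁻¹ • D (c t)‖ ≤ ε / 4 / (‖v‖ + 1) * (2 * (‖v‖ + 1)) := by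
    gcongr
    linarith
  rw [show ε / 4 / (‖v‖ + 1) * (2 * (‖v‖ + 1)) = ε / 2 by field_simp; ring] at b5
  linarith

theorem sub {X : A →L[𝕜] A} (hX : ∀ t x, ∃ g h, Aut μ g h ∧ ex X t x = g x) (x : A) :
    X x ∈ W μ x := by
  have := FiniteDimensional.complete 𝕜 A
  have := FiniteDimensional.proper_rclike 𝕜 (A →L[𝕜] A)
  let K : ℕ → Set ((A →L[𝕜] A) × (A →L[𝕜] A)) := fun n =>
    closedBall 0 n ∩ {p | Aut μ p.1 p.2}
  have hK : ∀ n, IsCompact (K n) := fun n => (isCompact_closedBall _ _).inter_right (by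
    simp only [Aut, ofPred_and, ofPred_forall]
    refine (isClosed_eq (by fun_prop) continuous_const).inter ((isClosed_eq (by fun_prop)
      continuous_const).inter (isClosed_iInter fun u => isClosed_iInter fun v =>
      isClosed_eq (by fun_prop) (by fun_prop))))
  have cc : Continuous (ex X · x) := continuous_iff_continuousAt.2 fun t => (dex' X t x).continuousAt
  have hd := dense_iUnion_interior_of_closed (f := fun n => (ex X · x) ⁻¹' ((·.1 x) '' K n))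
    (fun n => ((hK n).image (by fun_prop)).isClosed.preimage cc) (eq_univ_of_forall fun t => by
      obtain ⟨g, h, a, e⟩ := hX t x
      obtain ⟨n, hn⟩ := exists_nat_ge ‖(g, h)‖
      exact mem_iUnion.2 ⟨n, (g, h), ⟨by simpa using hn, a⟩, e.symm⟩)
  by_contra hn
  let b := Module.finBasis 𝕜 (W μ x)
  choose D hD eD using fun i => (b i).2
  let v : ℝ → Option (Fin (Module.finrank 𝕜 (W μ x))) → A := fun t o =>
    o.casesOn' (X (ex X t x)) fun i => D i (ex X t x)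
  have v0 : LinearIndependent 𝕜 (v 0) := by
    have e : (fun i => D i (ex X 0 x)) = (W μ x).subtype ∘ b := funext fun i => by
      rw [ex_zero]; exact eD i
    refine LinearIndependent.option (e ▸ b.linearIndependent.map' _ (Submodule.ker_subtype _)) ?_
    rw [e, ex_zero]
    exact fun h => hn (Submodule.span_le.2 (by rintro _ ⟨i, rfl⟩; exact (b i).2) h)
  have vc : Continuous v := continuous_pi fun o => by
    cases o
    exacts [X.continuous.comp cc, (D _).continuous.comp cc]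
  obtain ⟨t, t1, t2⟩ := hd.inter_nhds_nonempty (vc.continuousAt.eventually v0.eventually)
  obtain ⟨n, t1⟩ := mem_iUnion.1 t1
  have t3 := tang (dex' X t x) (hK n) (fun _ a => a.2) (mem_interior_iff_mem_nhds.1 t1)
  obtain ⟨g, h, a, e⟩ := hX t x
  have t4 := (LinearIndependent.map' t2 (h : A →ₗ[𝕜] A) (LinearMap.ker_eq_bot.2
    (Function.LeftInverse.injective a.r)))
  have t5 := Submodule.finrank_mono (Submodule.span_le.2 (show range (h.toLinearMap ∘ v t) ⊆ W μ x by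
    rintro _ ⟨_ | i, rfl⟩
    exacts [a.conj (e ▸ t3), a.conj (e ▸ ⟨D i, hD i, rfl⟩)]))
  rw [finrank_span_eq_card t4] at t5
  simp at t5

end Pool.Agent.H47.LocB
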