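import Mathlib

namespace Pool.Agent.H47.LogFun

open Finset

lemma sum_inv_sq (K : ℕ) (hK : 2 ≤ K) :
    ∑ d ∈ Icc 2 K, (1 : ℝ) / (d : ℝ) ^ 2 ≤ 3 / 4 - 1 / K := by
  induction K, hK using Nat.le_induction with
  | base => simp; norm_num
  | succ K hK ih =>
    rw [Finset.sum_Icc_succ_top (by omega)]
    have hK' : (2 : ℝ) ≤ K := by exact_mod_cast hK
    have : (1 : ℝ) / ((K + 1 : ℕ) : ℝ) ^ 2 ≤ 1 / K - 1 / ((K + 1 : ℕ) : ℝ) := by
      push_cast
      rw [div_sub_div _ _ (by positivity) (by positivity), div_le_div_iff₀ (by positivity) (by positivity)]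
      nlinarith
    linarith

lemma sqfree_count (k : ℕ) : (k : ℝ) / 4 ≤ ((Icc 1 k).filter Squarefree).card := by
  classical
  rcases Nat.lt_or_ge k 2 with hk | hk
  · interval_cases k
    · simp
    · have : ((Icc 1 1).filter Squarefree) = {1} := by
        ext x; simp; rintro rfl; exact squarefree_one
      rw [this]; norm_num
  have hsub : (Icc 1 k).filter (fun n => ¬ Squarefree n) ⊆
      (Icc 2 k).biUnion (fun d => (Ioc 0 k).filter (fun n => d ^ 2 ∣ n)) := by
    intro n hn
    simp only [mem_filter, mem_Icc, mem_biUnion, mem_Ioc] at hn ⊢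
    obtain ⟨⟨h1, h2⟩, h3⟩ := hn
    rw [Nat.squarefree_iff_prime_squarefree] at h3
    push Not at h3
    obtain ⟨p, hp, hd⟩ := h3
    refine ⟨p, ⟨hp.two_le, ?_⟩, ⟨by omega, h2⟩, by rwa [pow_two]⟩
    exact le_trans (Nat.le_of_dvd (by omega) (dvd_trans (dvd_mul_right p p) hd)) h2
  have h1 : (((Icc 1 k).filter (fun n => ¬ Squarefree n)).card : ℝ) ≤ 3 / 4 * k := by
    calc (((Icc 1 k).filter (fun n => ¬ Squarefree n)).card : ℝ)
        ≤ ((∑ d ∈ Icc 2 k, ((Ioc 0 k).filter (fun n => d ^ 2 ∣ n)).card : ℕ) : ℝ) := by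
          exact_mod_cast le_trans (card_le_card hsub) card_biUnion_le
      _ ≤ ∑ d ∈ Icc 2 k, (k : ℝ) * (1 / (d : ℝ) ^ 2) := by
          push_cast
          refine sum_le_sum fun d _ => ?_
          rw [Nat.Ioc_filter_dvd_card_eq_div, mul_one_div]
          exact le_trans Nat.cast_div_le (by push_cast; rfl)
      _ ≤ 3 / 4 * k := by
          rw [← mul_sum]
          have := sum_inv_sq k hk
          have h0 : (0 : ℝ) ≤ 1 / k := by positivity
          have hk0 : (0 : ℝ) ≤ k := by positivity
          nlinarith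
  have h2 := card_filter_add_card_filter_not (s := Icc 1 k) (p := Squarefree)
  have h3 : (Icc 1 k).card = k := by simp
  rw [h3] at h2
  have h4 : ((((Icc 1 k).filter Squarefree).card : ℝ) +
    ((Icc 1 k).filter (fun n => ¬ Squarefree n)).card) = k := by exact_mod_cast h2
  linarith

lemma energy {α β : Type*} [DecidableEq β] (S : Finset α) (g : α → β) :
    S.card ^ 2 ≤ (S.image g).card * ((S ×ˢ S).filter (fun x => g x.1 = g x.2)).card := by
  have h1 : S.card = ∑ y ∈ S.image g, (S.filter (fun a => g a = y)).card :=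
    card_eq_sum_card_image g S
  have h2 : ((S ×ˢ S).filter (fun x => g x.1 = g x.2)).card =
      ∑ y ∈ S.image g, (S.filter (fun a => g a = y)).card ^ 2 := by
    rw [card_eq_sum_card_fiberwise (f := fun x => g x.1) (t := S.image g)]
    · refine sum_congr rfl fun y _ => ?_
      rw [pow_two, ← card_product]
      congr 1
      ext ⟨a, b⟩
      simp only [mem_filter, mem_product]
      constructor
      · rintro ⟨⟨⟨h1, h2⟩, h3⟩, h4⟩
        exact ⟨⟨h1, h4⟩, h2, h3 ▸ h4⟩
      · rintro ⟨⟨h1, h4⟩, h2, h3⟩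
        exact ⟨⟨⟨h1, h2⟩, h4.trans h3.symm⟩, h4⟩
    · intro x hx
      simp only [coe_filter, mem_product, Set.mem_setOf_eq] at hx
      exact mem_coe.mpr (mem_image_of_mem g hx.1.1)
  rw [h1, h2]
  exact sq_sum_le_card_mul_sum_sq

lemma ker_count {G H : Type*} [AddCommGroup G] [AddCommGroup H] [Fintype G] [Fintype H]
    [DecidableEq H] (h : G →+ H) (hs : Function.Surjective h) :
    (univ.filter (fun x => h x = 0)).card * Fintype.card H = Fintype.card G := by
  have h1 : (univ : Finset G).card = ∑ y : H, (univ.filter (fun x => h x = y)).card :=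
    card_eq_sum_card_fiberwise (fun x _ => mem_coe.mpr (mem_univ _))
  have h2 : ∀ y : H, (univ.filter (fun x => h x = y)).card =
      (univ.filter (fun x => h x = 0)).card := by
    intro y
    exact AddMonoidHom.card_fiber_eq_of_mem_range h (hs y) ⟨0, map_zero h⟩
  rw [← card_univ (α := G), h1, sum_congr rfl (fun y _ => h2 y)]
  simp [mul_comm]

/-- the completely additive function with values `φ p` at primes `p ≤ k` -/
noncomputable def F (k : ℕ) (n : ℕ) : (Fin (k + 1) → ZMod k) →+ ZMod k where
  toFun φ := ∑ p : Fin (k + 1), (n.factorization p : ZMod k) * φ p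
  map_zero' := by simp
  map_add' φ ψ := by simp [mul_add, sum_add_distrib]

lemma F_mul (k a b : ℕ) (ha : a ≠ 0) (hb : b ≠ 0) (φ : Fin (k + 1) → ZMod k) :
    F k (a * b) φ = F k a φ + F k b φ := by
  simp [F, Nat.factorization_mul ha hb, add_mul, sum_add_distrib]

lemma F_single (k n : ℕ) (p : Fin (k + 1)) (y : ZMod k) :
    F k n (Pi.single p y) = (n.factorization p : ZMod k) * y := by
  simp only [F, AddMonoidHom.coe_mk, ZeroHom.coe_mk]
  rw [sum_eq_single p]
  · simp
  · intro q _ hq; simp [Pi.single_apply, hq]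
  · simp

lemma surj (k n m : ℕ) (hn : n ∈ (Icc 1 k).filter Squarefree)
    (hm : m ∈ (Icc 1 k).filter Squarefree) (hne : n ≠ m) :
    Function.Surjective (F k n - F k m) := by
  simp only [mem_filter, mem_Icc] at hn hm
  have : ∃ p, n.factorization p ≠ m.factorization p := by
    by_contra h
    push Not at h
    exact hne (Nat.eq_of_factorization_eq (by omega) (by omega) h)
  obtain ⟨p, hp⟩ := this
  have h1 := hn.2.natFactorization_le_one p
  have h2 := hm.2.natFactorization_le_one p
  have hle : ∀ t, 1 ≤ t → t ≤ k → t.factorization p ≠ 0 → p < k + 1 := by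
    intro t ht1 ht2 h
    have : p ∈ t.factorization.support := Finsupp.mem_support_iff.mpr h
    have := Nat.le_of_mem_primeFactors (Nat.support_factorization t ▸ this)
    omega
  intro y
  rcases Nat.lt_or_gt_of_ne hp with h | h
  · have hpk := hle m hm.1.1 hm.1.2 (by omega)
    refine ⟨Pi.single ⟨p, hpk⟩ (-y), ?_⟩
    rw [AddMonoidHom.sub_apply, F_single, F_single]
    have e1 : n.factorization p = 0 := by omega
    have e2 : m.factorization p = 1 := by omega
    simp [e1, e2]
  · have hpk := hle n hn.1.1 hn.1.2 (by omega)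
    refine ⟨Pi.single ⟨p, hpk⟩ y, ?_⟩
    rw [AddMonoidHom.sub_apply, F_single, F_single]
    have e1 : n.factorization p = 1 := by omega
    have e2 : m.factorization p = 0 := by omega
    simp [e1, e2]

theorem main (k : ℕ) (hk : 1 ≤ k) : ∃ f : ℕ → ZMod k,
    (∀ a b, 1 ≤ a → 1 ≤ b → f (a * b) = f a + f b) ∧ k ≤ 8 * ((Icc 1 k).image f).card := by
  classical
  haveI : NeZero k := ⟨by omega⟩
  set S := (Icc 1 k).filter Squarefree with hS
  set G := Fin (k + 1) → ZMod k
  set N := Fintype.card G
  have hSk : S.card ≤ k := le_trans (card_filter_le _ _) (by simp)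
  have htot : ∑ φ : G, ((S ×ˢ S).filter (fun x => F k x.1 φ = F k x.2 φ)).card * k
      ≤ ∑ _φ : G, 2 * S.card * k := by
    rw [← sum_mul]
    simp only [card_filter]
    rw [sum_comm, sum_mul]
    have hb : ∀ x ∈ S ×ˢ S, (∑ φ : G, if F k x.1 φ = F k x.2 φ then 1 else 0) * k ≤
        (if x.1 = x.2 then N * k else 0) + N := by
      intro x hx
      rw [mem_product] at hx
      rw [← card_filter]
      split_ifs with h
      · exact le_trans (Nat.mul_le_mul_right _ (card_le_univ _)) (Nat.le_add_right _ _)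
      · have := ker_count _ (surj k x.1 x.2 hx.1 hx.2 h)
        simp only [AddMonoidHom.sub_apply, sub_eq_zero, ZMod.card] at this
        rw [zero_add]
        exact this.le
    refine le_trans (sum_le_sum hb) ?_
    rw [sum_add_distrib, ← sum_filter, sum_const, sum_const, sum_const, card_product, card_univ]
    have : ((S ×ˢ S).filter (fun x => x.1 = x.2)).card = S.card := by
      rw [← diag_card S]
      congr 1
      ext ⟨a, b⟩
      simp only [mem_filter, mem_product, mem_diag]
      constructor
      · rintro ⟨⟨h1, _⟩, h3⟩; exact ⟨h1, h3⟩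
      · rintro ⟨h1, h3⟩; exact ⟨⟨h1, h3 ▸ h1⟩, h3⟩
    rw [this]
    simp only [smul_eq_mul]
    have : S.card * S.card * N ≤ S.card * k * N := by gcongr
    nlinarith
  obtain ⟨φ, -, hφ⟩ := exists_le_of_sum_le univ_nonempty htot
  have hφ' := Nat.le_of_mul_le_mul_right hφ (by omega)
  refine ⟨fun n => F k n φ, fun a b ha hb => F_mul k a b (by omega) (by omega) φ, ?_⟩
  have he := energy S (fun n => F k n φ)
  have hsub : (S.image (fun n => F k n φ)).card ≤ ((Icc 1 k).image (fun n => F k n φ)).card :=
    card_le_card (image_subset_image (filter_subset _ _))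
  have hc := sqfree_count k
  rw [← hS] at hc
  have hc' : k ≤ 4 * S.card := by
    have : (k : ℝ) ≤ 4 * S.card := by linarith
    exact_mod_cast this
  have h5 : S.card * S.card ≤ S.card * (2 * (S.image (fun n => F k n φ)).card) := by
    calc S.card * S.card = S.card ^ 2 := by ring
      _ ≤ _ := he
      _ ≤ (S.image (fun n => F k n φ)).card * (2 * S.card) := Nat.mul_le_mul_left _ hφ'
      _ = _ := by ring
  have h6 := Nat.le_of_mul_le_mul_left h5 (by omega)
  omega

end Pool.Agent.H47.LogFun
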