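import Mathlib

namespace Pool.Agent.H47.Meadow

/-- An algebra for the signature `0, 1, bot, -, +, *, /` on the carrier `A`. -/
structure Alg (A : Type*) where
  zero : A
  one : A
  bot : A
  neg : A → A
  add : A → A → A
  mul : A → A → A
  div : A → A → A

/-- Terms over the signature, with variables indexed by natural numbers. -/
inductive Tm where
  | var : ℕ → Tm
  | zero : Tm
  | one : Tm
  | bot : Tm
  | neg : Tm → Tm
  | add : Tm → Tm → Tm
  | mul : Tm → Tm → Tm
  | div : Tm → Tm → Tm

/-- Value of a term under a valuation. -/
def Tm.eval {A : Type*} (M : Alg A) (v : ℕ → A) : Tm → A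
  | .var n => v n
  | .zero => M.zero
  | .one => M.one
  | .bot => M.bot
  | .neg s => M.neg (s.eval M v)
  | .add s t => M.add (s.eval M v) (t.eval M v)
  | .mul s t => M.mul (s.eval M v) (t.eval M v)
  | .div s t => M.div (s.eval M v) (t.eval M v)

/-- A conditional equation: a finite list of premises and a conclusion. -/
structure CondEq where
  hyps : List (Tm × Tm)
  concl : Tm × Tm

/-- Truth of a conditional equation in an algebra (variables read universally). -/
def Alg.Sat {A : Type*} (M : Alg A) (φ : CondEq) : Prop :=
  ∀ v : ℕ → A, (∀ e ∈ φ.hyps, e.1.eval M v = e.2.eval M v) →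
    φ.concl.1.eval M v = φ.concl.2.eval M v

open Classical in
/-- The enlargement of a commutative ring by an absorptive element `none`, with inverse based
common division. For a field this is the common meadow. -/
noncomputable def enl (R : Type*) [CommRing R] : Alg (Option R) where
  zero := some 0
  one := some 1
  bot := none
  neg x := x.map fun a => -a
  add x y := x.bind fun a => y.map fun b => a + b
  mul x y := x.bind fun a => y.map fun b => a * b
  div x y := x.bind fun a => y.bind fun b => if IsUnit b then some (a * Ring.inverse b) else none

end Pool.Agent.H47.Meadow
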