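import Mathlib

namespace Pool.Agent.H47.NAssoc

/-- span of 1, m, x = mm, w = xm with mx = 0 -/
@[ext] structure A where
  c : ℤ
  m : ℤ
  x : ℤ
  w : ℤ

def A.toF : A ≃ (Fin 4 → ℤ) where
  toFun a := ![a.c, a.m, a.x, a.w]
  invFun f := ⟨f 0, f 1, f 2, f 3⟩
  left_inv a := rfl
  right_inv f := by ext i; fin_cases i <;> rfl

instance : AddCommGroup A := A.toF.addCommGroup
instance : Mul A := ⟨fun a b => ⟨a.c * b.c, a.c * b.m + a.m * b.c,
  a.c * b.x + a.x * b.c + a.m * b.m, a.c * b.w + a.w * b.c + a.x * b.m⟩⟩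
instance : One A := ⟨⟨1, 0, 0, 0⟩⟩
lemma A.add_def (a b : A) : a + b = ⟨a.c + b.c, a.m + b.m, a.x + b.x, a.w + b.w⟩ := rfl
lemma A.zero_def : (0 : A) = ⟨0, 0, 0, 0⟩ := rfl
lemma A.one_def : (1 : A) = ⟨1, 0, 0, 0⟩ := rfl
lemma A.mul_def (a b : A) : a * b = ⟨a.c * b.c, a.c * b.m + a.m * b.c,
  a.c * b.x + a.x * b.c + a.m * b.m, a.c * b.w + a.w * b.c + a.x * b.m⟩ := rfl

instance : NonAssocRing A where
  __ := (inferInstance : AddCommGroup A)
  left_distrib a b c := by ext <;> simp only [A.add_def, A.mul_def] <;> ring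
  right_distrib a b c := by ext <;> simp only [A.add_def, A.mul_def] <;> ring
  zero_mul a := by ext <;> simp [A.zero_def, A.mul_def]
  mul_zero a := by ext <;> simp [A.zero_def, A.mul_def]
  one_mul a := by ext <;> simp [A.one_def, A.mul_def]
  mul_one a := by ext <;> simp [A.one_def, A.mul_def]

lemma A.nuc (n : A) : (∀ a b : A, n * a * b = n * (a * b) ∧ a * n * b = a * (n * b) ∧
    a * b * n = a * (b * n)) ↔ n.m = 0 := by
  constructor
  · intro h
    have := congrArg A.w (h ⟨0, 1, 0, 0⟩ ⟨0, 1, 0, 0⟩).1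
    simpa [A.mul_def] using this
  · intro h a b
    refine ⟨?_, ?_, ?_⟩ <;> ext <;> simp only [A.mul_def, h] <;> ring

/-- span of 1, a, b, p = aa, q = ba, w = pb = bp = qa = aq -/
@[ext] structure B where
  c : ℤ
  a : ℤ
  b : ℤ
  p : ℤ
  q : ℤ
  w : ℤ

def B.toF : B ≃ (Fin 6 → ℤ) where
  toFun a := ![a.c, a.a, a.b, a.p, a.q, a.w]
  invFun f := ⟨f 0, f 1, f 2, f 3, f 4, f 5⟩
  left_inv a := rfl
  right_inv f := by ext i; fin_cases i <;> rfl

instance : AddCommGroup B := B.toF.addCommGroup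
instance : Mul B := ⟨fun x y => ⟨x.c * y.c, x.c * y.a + x.a * y.c, x.c * y.b + x.b * y.c,
  x.c * y.p + x.p * y.c + x.a * y.a, x.c * y.q + x.q * y.c + x.b * y.a,
  x.c * y.w + x.w * y.c + x.p * y.b + x.b * y.p + x.q * y.a + x.a * y.q⟩⟩
instance : One B := ⟨⟨1, 0, 0, 0, 0, 0⟩⟩
lemma B.add_def (x y : B) : x + y = ⟨x.c + y.c, x.a + y.a, x.b + y.b, x.p + y.p, x.q + y.q,
  x.w + y.w⟩ := rfl
lemma B.zero_def : (0 : B) = ⟨0, 0, 0, 0, 0, 0⟩ := rfl
lemma B.one_def : (1 : B) = ⟨1, 0, 0, 0, 0, 0⟩ := rfl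
lemma B.mul_def (x y : B) : x * y = ⟨x.c * y.c, x.c * y.a + x.a * y.c, x.c * y.b + x.b * y.c,
  x.c * y.p + x.p * y.c + x.a * y.a, x.c * y.q + x.q * y.c + x.b * y.a,
  x.c * y.w + x.w * y.c + x.p * y.b + x.b * y.p + x.q * y.a + x.a * y.q⟩ := rfl

instance : NonAssocRing B where
  __ := (inferInstance : AddCommGroup B)
  left_distrib a b c := by ext <;> simp only [B.add_def, B.mul_def] <;> ring
  right_distrib a b c := by ext <;> simp only [B.add_def, B.mul_def] <;> ring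
  zero_mul a := by ext <;> simp [B.zero_def, B.mul_def]
  mul_zero a := by ext <;> simp [B.zero_def, B.mul_def]
  one_mul a := by ext <;> simp [B.one_def, B.mul_def]
  mul_one a := by ext <;> simp [B.one_def, B.mul_def]

lemma B.cen (n : B) (h1 : n.a = 0) (h2 : n.b = 0) :
    (∀ a b : B, n * a * b = n * (a * b) ∧ a * n * b = a * (n * b) ∧ a * b * n = a * (b * n)) ∧
      ∀ a : B, n * a = a * n := by
  refine ⟨fun a b => ⟨?_, ?_, ?_⟩, fun a => ?_⟩ <;> ext <;> simp only [B.mul_def, h1, h2] <;> ring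

/-- the ring Z + Z4 a + Z4 b + Z2 c with ab = c -/
@[ext] structure C where
  n : ℤ
  i : ZMod 4
  j : ZMod 4
  k : ZMod 2

def C.toF : C ≃ (ℤ × ZMod 4 × ZMod 4 × ZMod 2) where
  toFun a := (a.n, a.i, a.j, a.k)
  invFun f := ⟨f.1, f.2.1, f.2.2.1, f.2.2.2⟩
  left_inv _ := rfl
  right_inv _ := rfl

def r : ZMod 4 →+* ZMod 2 := ZMod.castHom (by norm_num) (ZMod 2)

instance : AddCommGroup C := C.toF.addCommGroup
instance : Mul C := ⟨fun x y => ⟨x.n * y.n, x.n * y.i + x.i * y.n, x.n * y.j + x.j * y.n,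
  x.n * y.k + x.k * y.n + r x.i * r y.j⟩⟩
instance : One C := ⟨⟨1, 0, 0, 0⟩⟩
lemma C.add_def (x y : C) : x + y = ⟨x.n + y.n, x.i + y.i, x.j + y.j, x.k + y.k⟩ := rfl
lemma C.zero_def : (0 : C) = ⟨0, 0, 0, 0⟩ := rfl
lemma C.one_def : (1 : C) = ⟨1, 0, 0, 0⟩ := rfl
lemma C.mul_def (x y : C) : x * y = ⟨x.n * y.n, x.n * y.i + x.i * y.n, x.n * y.j + x.j * y.n,
  x.n * y.k + x.k * y.n + r x.i * r y.j⟩ := rfl

instance : Ring C where
  __ := (inferInstance : AddCommGroup C)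
  left_distrib a b c := by ext <;> simp [C.add_def, C.mul_def] <;> ring
  right_distrib a b c := by ext <;> simp [C.add_def, C.mul_def] <;> ring
  zero_mul a := by ext <;> simp [C.zero_def, C.mul_def]
  mul_zero a := by ext <;> simp [C.zero_def, C.mul_def]
  mul_assoc a b c := by ext <;> simp [C.mul_def] <;> ring
  one_mul a := by ext <;> simp [C.one_def, C.mul_def]
  mul_one a := by ext <;> simp [C.one_def, C.mul_def]

lemma C.jac (x : C) : x ∈ Ring.jacobson C ↔ x.n = 0 := by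
  rw [← Ideal.jacobson_bot, Ideal.mem_jacobson_iff]
  simp only [Ideal.mem_bot, sub_eq_zero]
  constructor
  · intro h
    obtain ⟨z, hz⟩ := h 1
    obtain ⟨z', hz'⟩ := h ⟨-1, 0, 0, 0⟩
    have h1 := congrArg C.n hz
    have h2 := congrArg C.n hz'
    simp only [C.add_def, C.mul_def, C.one_def] at h1 h2
    have h3 := Int.eq_one_or_neg_one_of_mul_eq_one' (u := z.n) (v := x.n + 1) (by linarith)
    have h4 := Int.eq_one_or_neg_one_of_mul_eq_one' (u := z'.n) (v := 1 - x.n) (by linarith)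
    omega
  · intro h y
    have h3 : (y * x) * (y * x) * (y * x) = 0 := by
      ext <;> simp [C.mul_def, C.zero_def, h]
    refine ⟨1 - y * x + (y * x) * (y * x), ?_⟩
    rw [mul_assoc _ y x]
    generalize y * x = u at *
    calc _ = 1 + u * u * u := by noncomm_ring
      _ = 1 := by rw [h3, add_zero]

lemma C.cen (x : C) (h1 : r x.i = 0) (h2 : r x.j = 0) (y : C) : x * y = y * x := by
  ext <;> simp [C.mul_def, h1, h2] <;> ring

end Pool.Agent.H47.NAssoc
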