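import Mathlib

namespace Pool.Agent.H47.PFDeg

open Matrix

/-- norm form of x + y t + z t^2 in the cubic field -/
def nf (x y z : ℤ) : ℤ :=
  x * ((x + 15 * z) * (x - 3 * y + 24 * z) - (y - 3 * z) * (15 * y + z))
  - y * (46 * z * (x - 3 * y + 24 * z) - (y - 3 * z) * (46 * y - 138 * z))
  + z * (46 * z * (15 * y + z) - (x + 15 * z) * (46 * y - 138 * z))

lemma nf_mod : ∀ x y z : ZMod 5,
    x * ((x + 15 * z) * (x - 3 * y + 24 * z) - (y - 3 * z) * (15 * y + z))
  - y * (46 * z * (x - 3 * y + 24 * z) - (y - 3 * z) * (46 * y - 138 * z))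
  + z * (46 * z * (15 * y + z) - (x + 15 * z) * (46 * y - 138 * z)) = 0 →
    x = 0 ∧ y = 0 ∧ z = 0 := by decide

lemma indep (l : ℝ) (hl : l ^ 3 + 3 * l ^ 2 - 15 * l - 46 = 0) :
    ∀ (n : ℕ) (x y z : ℤ), x.natAbs + y.natAbs + z.natAbs ≤ n →
      (x : ℝ) + y * l + z * l ^ 2 = 0 → x = 0 ∧ y = 0 ∧ z = 0 := by
  intro n
  induction n with
  | zero => intro x y z h _; omega
  | succ n ih =>
    intro x y z h he
    have h1 : (46 * z : ℝ) + (x + 15 * z) * l + (y - 3 * z) * l ^ 2 = 0 := by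
      linear_combination l * he - z * hl
    have h2 : (46 * y - 138 * z : ℝ) + (15 * y + z) * l + (x - 3 * y + 24 * z) * l ^ 2 = 0 := by
      linear_combination l * h1 - (y - 3 * z) * hl
    have h3 : ((nf x y z : ℤ) : ℝ) = 0 := by
      unfold nf
      push_cast
      linear_combination
        ((x + 15 * z) * (x - 3 * y + 24 * z) - (y - 3 * z) * (15 * y + z) : ℝ) * he
        - (y * (x - 3 * y + 24 * z) - z * (15 * y + z) : ℝ) * h1
        + (y * (y - 3 * z) - z * (x + 15 * z) : ℝ) * h2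
    have h4 : nf x y z = 0 := by exact_mod_cast h3
    have h5 : ((nf x y z : ℤ) : ZMod 5) = 0 := by rw [h4]; simp
    unfold nf at h5
    push_cast at h5
    obtain ⟨hx, hy, hz⟩ := nf_mod _ _ _ h5
    rw [ZMod.intCast_zmod_eq_zero_iff_dvd] at hx hy hz
    obtain ⟨x', rfl⟩ := hx
    obtain ⟨y', rfl⟩ := hy
    obtain ⟨z', rfl⟩ := hz
    have := ih x' y' z' (by push_cast at h ⊢; omega) (by push_cast at he; linarith)
    obtain ⟨rfl, rfl, rfl⟩ := this
    simp

lemma indep' (l : ℝ) (hl : l ^ 3 + 3 * l ^ 2 - 15 * l - 46 = 0) (x y z : ℤ)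
    (h : (x : ℝ) + y * l + z * l ^ 2 = 0) : x = 0 ∧ y = 0 ∧ z = 0 :=
  indep l hl _ x y z le_rfl h

lemma key (l : ℝ) (hl : l ^ 3 + 3 * l ^ 2 - 15 * l - 46 = 0) (a b D : ℤ) (μ : ℂ)
    (hn : ‖μ‖ = l) (hμ : μ ^ 3 - a * μ ^ 2 + b * μ - D = 0) :
    (a = -3 ∧ D = 46) ∨ (a = 3 ∧ b = -15 ∧ D = -46) := by
  have hL : μ.re ^ 2 + μ.im ^ 2 = l ^ 2 := by
    rw [← hn, Complex.sq_norm, Complex.normSq_apply]; ring
  have hre := congrArg Complex.re hμ
  have him := congrArg Complex.im hμ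
  simp [pow_succ] at hre him
  by_cases h0 : μ.im = 0
  · rw [h0] at hL hre
    have : (μ.re - l) * (μ.re + l) = 0 := by linear_combination hL
    rcases mul_eq_zero.mp this with h | h
    · have h' : μ.re = l := by linarith
      rw [h'] at hre
      have := indep' l hl (46 - D) (b + 15) (-a - 3) (by push_cast; linear_combination hre - hl)
      left; omega
    · have h' : μ.re = -l := by linarith
      rw [h'] at hre
      have := indep' l hl (-46 - D) (-b - 15) (-a + 3) (by push_cast; linear_combination hre + hl)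
      right; omega
  · exfalso
    set u := μ.re
    set v := μ.im
    have him' : 3 * u ^ 2 - v ^ 2 - 2 * a * u + b = 0 := by
      apply mul_left_cancel₀ h0
      linear_combination him
    have hre' : u ^ 3 - 3 * u * v ^ 2 - a * (u ^ 2 - v ^ 2) + b * u - D = 0 := by
      linear_combination hre
    -- third root r = a - 2u
    have hD : (D : ℝ) = l ^ 2 * (a - 2 * u) := by
      rw [← hL]; linear_combination u * him' - hre'
    have hb : (b : ℝ) = l ^ 2 + 2 * u * (a - 2 * u) := by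
      rw [← hL]; linear_combination him'
    have hc : (l ^ 2) ^ 3 - b * (l ^ 2) ^ 2 + a * D * l ^ 2 - D ^ 2 = 0 := by
      rw [hD, hb]; ring
    have h4 : l ^ 4 = 24 * l ^ 2 + l - 138 := by linear_combination (l - 3) * hl
    have h6 : l ^ 6 = 39 * l ^ 4 - 501 * l ^ 2 + 2116 := by
      linear_combination (l ^ 3 - 3 * l ^ 2 - 15 * l + 46) * hl
    have := indep' l hl (2116 - D ^ 2 - 138 * (39 - b)) (39 - b) (a * D - 501 + 24 * (39 - b))
      (by push_cast; linear_combination hc - h6 - (39 - b) * h4)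
    obtain ⟨e1, e2, e3⟩ := this
    have hb' : b = 39 := by omega
    subst hb'
    have e4 : D ^ 2 = 2116 := by linarith
    have e5 : a * D = 501 := by linarith
    have : (D - 46) * (D + 46) = 0 := by linear_combination e4
    rcases mul_eq_zero.mp this with h | h
    · have : D = 46 := by omega
      subst this; omega
    · have : D = -46 := by omega
      subst this; omega

lemma mem_spec {n : ℕ} (M : Matrix (Fin n) (Fin n) ℂ) (μ : ℂ) :
    μ ∈ spectrum ℂ M ↔ (μ • (1 : Matrix (Fin n) (Fin n) ℂ) - M).det = 0 := by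
  rw [spectrum.mem_iff, Matrix.isUnit_iff_isUnit_det, isUnit_iff_ne_zero, not_not,
    Algebra.algebraMap_eq_smul_one]

lemma attained {n : ℕ} (M : Matrix (Fin n) (Fin n) ℂ) (l : ℝ) (hl : 0 < l)
    (h : spectralRadius ℂ M = ENNReal.ofReal l) : ∃ μ ∈ spectrum ℂ M, ‖μ‖ = l := by
  rcases (spectrum ℂ M).eq_empty_or_nonempty with he | hne
  · unfold spectralRadius at h
    rw [he] at h
    simp at h
    linarith
  · obtain ⟨μ, hμ, hmax⟩ := Set.exists_max_image (spectrum ℂ M) (fun k => ‖k‖₊)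
      M.finite_spectrum hne
    refine ⟨μ, hμ, ?_⟩
    have : spectralRadius ℂ M = (‖μ‖₊ : ENNReal) := by
      unfold spectralRadius
      apply le_antisymm
      · exact iSup₂_le fun k hk => by exact_mod_cast hmax k hk
      · exact le_iSup₂ (f := fun k (_ : k ∈ spectrum ℂ M) => (‖k‖₊ : ENNReal)) μ hμ
    rw [this] at h
    have h2 := congrArg ENNReal.toReal h
    rw [ENNReal.toReal_ofReal hl.le] at h2
    simpa using h2

lemma three (B : Matrix (Fin 3) (Fin 3) ℤ) (hB : ∀ i j, 0 ≤ B i j)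
    (ha : B 0 0 + B 1 1 + B 2 2 = 3)
    (hb : B 0 0 * B 1 1 - B 0 1 * B 1 0 + B 0 0 * B 2 2 - B 0 2 * B 2 0
      + B 1 1 * B 2 2 - B 1 2 * B 2 1 = -15) (hD : B.det = -46) : False := by
  have hp : ∀ k : ℕ, ∀ i j, 0 ≤ (B ^ k) i j := by
    intro k
    induction k with
    | zero => intro i j; rw [pow_zero, Matrix.one_apply]; split_ifs <;> simp
    | succ k ih =>
      intro i j
      rw [pow_succ, Matrix.mul_apply]
      exact Finset.sum_nonneg fun t _ => mul_nonneg (ih i t) (hB t j)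
  have hch : B ^ 3 = (B 0 0 + B 1 1 + B 2 2) • B ^ 2 -
      (B 0 0 * B 1 1 - B 0 1 * B 1 0 + B 0 0 * B 2 2 - B 0 2 * B 2 0
      + B 1 1 * B 2 2 - B 1 2 * B 2 1) • B + B.det • (1 : Matrix (Fin 3) (Fin 3) ℤ) := by
    ext i j
    simp only [Matrix.add_apply, Matrix.sub_apply, Matrix.smul_apply, smul_eq_mul]
    fin_cases i <;> fin_cases j <;>
      simp [pow_succ, Matrix.mul_apply, Fin.sum_univ_three, Matrix.det_fin_three] <;> ring
  rw [ha, hb, hD] at hch
  have hrec : ∀ k : ℕ, (B ^ (k + 3)).trace =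
      3 * (B ^ (k + 2)).trace + 15 * (B ^ (k + 1)).trace - 46 * (B ^ k).trace := by
    intro k
    have : B ^ (k + 3) = (3 : ℤ) • B ^ (k + 2) - (-15 : ℤ) • B ^ (k + 1) + (-46 : ℤ) • B ^ k := by
      rw [pow_add, hch, mul_add, mul_sub, mul_smul_comm, mul_smul_comm, mul_smul_comm, mul_one,
        ← pow_add, ← pow_succ]
    rw [this, trace_add, trace_sub, trace_smul, trace_smul, trace_smul]
    simp only [smul_eq_mul]; ring
  have t0 : (B ^ 0).trace = 3 := by simp
  have t1 : (B ^ 1).trace = 3 := by simp [Matrix.trace_fin_three, ha]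
  have t2 : (B ^ 2).trace = 39 := by
    simp only [pow_two, Matrix.trace_fin_three, Matrix.mul_apply, Fin.sum_univ_three]
    linear_combination (B 0 0 + B 1 1 + B 2 2 + 3) * ha - 2 * hb
  have t3 := hrec 0
  have t4 := hrec 1
  have t5 := hrec 2
  have t6 := hrec 3
  have t7 := hrec 4
  have : 0 ≤ (B ^ 7).trace := Finset.sum_nonneg fun i _ => hp 7 i i
  norm_num at t0 t1 t2 t3 t4 t5 t6 t7
  omega

theorem lower (l : ℝ) (hl : l ^ 3 + 3 * l ^ 2 - 15 * l - 46 = 0) (hpos : 0 < l) (n : ℕ)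
    (A : Matrix (Fin n) (Fin n) ℤ) (hA : ∀ i j, 0 ≤ A i j)
    (h : spectralRadius ℂ (A.map (fun x => (x : ℂ))) = ENNReal.ofReal l) : 4 ≤ n := by
  obtain ⟨μ, hμ, hn⟩ := attained _ l hpos h
  rw [mem_spec] at hμ
  by_contra hlt
  have : n = 0 ∨ n = 1 ∨ n = 2 ∨ n = 3 := by omega
  rcases this with rfl | rfl | rfl | rfl
  · simp at hμ
  · rw [Matrix.det_fin_one] at hμ
    simp at hμ
    have := key l hl (A 0 0) 0 0 μ hn (by push_cast; linear_combination μ ^ 2 * hμ)
    omega
  · rw [Matrix.det_fin_two] at hμ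
    simp at hμ
    have := key l hl (A 0 0 + A 1 1) (A 0 0 * A 1 1 - A 0 1 * A 1 0) 0 μ hn
      (by push_cast; linear_combination μ * hμ)
    omega
  · rw [Matrix.det_fin_three] at hμ
    simp at hμ
    have := key l hl (A 0 0 + A 1 1 + A 2 2)
      (A 0 0 * A 1 1 - A 0 1 * A 1 0 + A 0 0 * A 2 2 - A 0 2 * A 2 0
        + A 1 1 * A 2 2 - A 1 2 * A 2 1) A.det μ hn
      (by rw [Matrix.det_fin_three]; push_cast
          linear_combination hμ)
    rcases this with ⟨h1, -⟩ | ⟨h1, h2, h3⟩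
    · have := hA 0 0
      have := hA 1 1
      have := hA 2 2
      omega
    · exact three A hA h1 h2 h3

def A4 : Matrix (Fin 4) (Fin 4) ℤ := !![0, 1, 0, 0; 12, 0, 1, 0; 1, 0, 0, 6; 1, 0, 2, 0]

lemma A4_prim : A4.IsPrimitive := by
  refine ⟨by decide, 6, by norm_num, ?_⟩
  decide

lemma root_exists : ∃ l : ℝ, 3.8 < l ∧ l ^ 3 + 3 * l ^ 2 - 15 * l - 46 = 0 := by
  have hc : ContinuousOn (fun t : ℝ => t ^ 3 + 3 * t ^ 2 - 15 * t - 46) (Set.Icc 3.8 4) := by
    fun_prop
  have := intermediate_value_Ioo (by norm_num : (3.8 : ℝ) ≤ 4) hc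
    (show (0 : ℝ) ∈ Set.Ioo _ _ by constructor <;> norm_num)
  obtain ⟨l, hl, h⟩ := this
  exact ⟨l, hl.1, h⟩

lemma root_le (l : ℝ) (h38 : 3.8 < l) (hl : l ^ 3 + 3 * l ^ 2 - 15 * l - 46 = 0) (μ : ℂ)
    (hμ : μ ^ 3 + 3 * μ ^ 2 - 15 * μ - 46 = 0) : ‖μ‖ ≤ l := by
  have hlc : (l : ℂ) ^ 3 + 3 * (l : ℂ) ^ 2 - 15 * l - 46 = 0 := by exact_mod_cast hl
  have hf : (μ - l) * (μ ^ 2 + (l + 3) * μ + (l ^ 2 + 3 * l - 15)) = 0 := by
    linear_combination hμ - hlc
  have h39 : l < 3.9 := by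
    by_contra hh
    push Not at hh
    nlinarith [mul_nonneg (sub_nonneg.mpr hh) (sq_nonneg l)]
  rcases mul_eq_zero.mp hf with h | h
  · have : μ = l := by linear_combination h
    rw [this]; simp [abs_of_pos (by linarith : (0 : ℝ) < l)]
  · have hre := congrArg Complex.re h
    have him := congrArg Complex.im h
    simp [pow_succ] at hre him
    set u := μ.re
    set v := μ.im
    have hL : ‖μ‖ ^ 2 = u ^ 2 + v ^ 2 := by
      rw [Complex.sq_norm, Complex.normSq_apply]; ring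
    have : u ^ 2 + v ^ 2 ≤ l ^ 2 := by
      by_cases hv : v = 0
      · rw [hv] at hre ⊢
        by_contra hh
        push Not at hh
        have hu : u < -l ∨ l < u := by
          by_contra h2
          push Not at h2
          nlinarith
        rcases hu with hu | hu <;> nlinarith
      · have h2 : 2 * u + (l + 3) = 0 := by
          apply mul_left_cancel₀ hv
          linear_combination him
        nlinarith
    rw [← hL] at this
    exact (pow_le_pow_iff_left₀ (norm_nonneg μ) (by linarith) (by norm_num)).mp this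
  
theorem upper (l : ℝ) (h38 : 3.8 < l) (hl : l ^ 3 + 3 * l ^ 2 - 15 * l - 46 = 0) :
    spectralRadius ℂ (A4.map (fun x => (x : ℂ))) = ENNReal.ofReal l := by
  have hdet : ∀ μ : ℂ, (μ • (1 : Matrix (Fin 4) (Fin 4) ℂ) - A4.map (fun x => (x : ℂ))).det
      = (μ - 3) * (μ ^ 3 + 3 * μ ^ 2 - 15 * μ - 46) := by
    intro μ
    have : μ • (1 : Matrix (Fin 4) (Fin 4) ℂ) - A4.map (fun x => (x : ℂ)) =
        !![μ, -1, 0, 0; -12, μ, -1, 0; -1, 0, μ, -6; -1, 0, -2, μ] := by
      ext i j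
      fin_cases i <;> fin_cases j <;> simp [A4]
    rw [this]
    simp [Matrix.det_succ_row_zero, Fin.sum_univ_succ, Fin.succAbove]
    ring
  have hpos : 0 ≤ l := by linarith
  unfold spectralRadius
  apply le_antisymm
  · refine iSup₂_le fun k hk => ?_
    rw [mem_spec, hdet] at hk
    have : ‖k‖ ≤ l := by
      rcases mul_eq_zero.mp hk with h | h
      · have : k = 3 := by linear_combination h
        rw [this]; simp; linarith
      · exact root_le l h38 hl k h
    rw [← ENNReal.ofReal_coe_nnreal]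
    exact ENNReal.ofReal_le_ofReal (by simpa using this)
  · have hmem : (l : ℂ) ∈ spectrum ℂ (A4.map (fun x => (x : ℂ))) := by
      rw [mem_spec, hdet]
      have hlc : (l : ℂ) ^ 3 + 3 * (l : ℂ) ^ 2 - 15 * l - 46 = 0 := by exact_mod_cast hl
      rw [hlc, mul_zero]
    refine le_trans ?_ (le_iSup₂ (f := fun k (_ : k ∈ spectrum ℂ (A4.map (fun x => (x : ℂ)))) =>
      (‖k‖₊ : ENNReal)) (l : ℂ) hmem)
    rw [← ENNReal.ofReal_coe_nnreal]
    exact ENNReal.ofReal_le_ofReal (by simp [abs_of_nonneg hpos])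

end Pool.Agent.H47.PFDeg
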