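import Mathlib

namespace Pool.Agent.H47.Quad
open Finset

def f (y : ℕ) : ℕ := Nat.mod (Nat.add (Nat.mul y y) 278411) 1113643

noncomputable def force (x : ℕ) (k : ℕ → ℕ) : ℕ :=
  Nat.casesOn (motive := fun _ => ℕ) x (k 0) (fun m => k (Nat.succ m))

theorem force_eq (x : ℕ) (k : ℕ → ℕ) : force x k = k x := by cases x <;> rfl

noncomputable def it (n : ℕ) : ℕ → ℕ :=
  Nat.rec (fun y => y) (fun _ ih y => force (f y) ih) n

def sq (z : ℕ) : ℕ :=
  Nat.mod (Nat.mul (Nat.pow (Nat.mod (Nat.mul (Nat.pow (Nat.mod (Nat.pow z 67) 1113643) 64)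
    (Nat.pow z 62)) 1113643) 64) (Nat.pow z 11)) 1113643

noncomputable def st2 (ih : ℕ → ℕ) (z s : ℕ) : ℕ :=
  Nat.casesOn (motive := fun _ => ℕ) s 1 (fun r =>
    cond (Nat.beq (Nat.mod (Nat.mul (Nat.succ r) (Nat.succ r)) 1113643) (Nat.succ z))
      (Nat.succ (Nat.add (ih (Nat.succ r)) (ih (Nat.sub 1113642 r)))) 1)

noncomputable def st1 (ih : ℕ → ℕ) (z : ℕ) : ℕ :=
  Nat.casesOn (motive := fun _ => ℕ) z (Nat.succ (ih 0)) (fun z => st2 ih z (sq (Nat.succ z)))

noncomputable def cnt (d : ℕ) : ℕ → ℕ :=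
  Nat.rec (fun _ => 0) (fun _ ih y => st1 ih (Nat.mod (Nat.add y 835232) 1113643)) d

theorem cnt_succ (d y : ℕ) : cnt (d + 1) y = st1 (cnt d) ((y + 835232) % 1113643) := rfl
theorem st1_zero (ih : ℕ → ℕ) : st1 ih 0 = ih 0 + 1 := rfl
theorem st1_succ (ih : ℕ → ℕ) (z : ℕ) : st1 ih (z + 1) = st2 ih z (sq (z + 1)) := rfl
theorem st2_zero (ih : ℕ → ℕ) (z : ℕ) : st2 ih z 0 = 1 := rfl
theorem st2_succ (ih : ℕ → ℕ) (z r : ℕ) : st2 ih z (r + 1) =
    cond (Nat.beq (((r + 1) * (r + 1)) % 1113643) (z + 1))
      (ih (r + 1) + ih (1113642 - r) + 1) 1 := rfl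

noncomputable def tot (l : List ℕ) : ℕ := List.rec 0 (fun w _ s => Nat.add (cnt 200 w) s) l

noncomputable def ok (l : List ℕ) : ℕ → Bool :=
  List.rec (fun _ => true) (fun w _ ih lo => and (and (Nat.ble lo w) (Nat.ble w 1113642))
    (ih (Nat.succ w))) l

noncomputable def el (A : List ℕ) (v : ℕ) : ℕ :=
  List.rec 0 (fun a _ ih => cond (Nat.beq a v) 1 ih) A

noncomputable def par (A l : List ℕ) : Bool :=
  List.rec true (fun w _ ih => and (Nat.beq (force (it 200 w) (el A)) 1) ih) l

theorem el_mem (A : List ℕ) (v : ℕ) (h : el A v = 1) : v ∈ A := by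
  induction A with
  | nil => exact absurd h (by show (0 : ℕ) ≠ 1; omega)
  | cons a A ih =>
    have h' : cond (Nat.beq a v) 1 (el A v) = 1 := h
    cases hb : Nat.beq a v
    · rw [hb, cond_false] at h'; exact List.mem_cons_of_mem _ (ih h')
    · rw [Nat.eq_of_beq_eq_true hb]; exact List.mem_cons_self

theorem it_eq (n y : ℕ) : it n y = f^[n] y := by
  induction n generalizing y with
  | zero => rfl
  | succ n ih =>
    rw [Function.iterate_succ_apply, ← ih]
    exact force_eq (f y) (it n)

def N (j y : ℕ) : ℕ := ((range 1113643).filter (fun x => f^[j] x = y)).card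

theorem N_zero (y : ℕ) (hy : y < 1113643) : 1 ≤ N 0 y :=
  card_pos.2 ⟨y, mem_filter.2 ⟨mem_range.2 hy, rfl⟩⟩

theorem N_one (j y r : ℕ) (h : f r = y) : N j r ≤ N (j + 1) y :=
  card_le_card fun x hx => by
    simp only [mem_filter, Function.iterate_succ_apply'] at hx ⊢
    exact ⟨hx.1, hx.2 ▸ h⟩

theorem N_two (j y r s : ℕ) (h : f r = y) (h' : f s = y) (hrs : r ≠ s) :
    N j r + N j s ≤ N (j + 1) y := by
  unfold N
  rw [← card_union_of_disjoint (disjoint_filter.2 fun x _ a b => hrs (a.symm.trans b))]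
  refine card_le_card fun x hx => ?_
  simp only [mem_union, mem_filter, Function.iterate_succ_apply'] at hx ⊢
  rcases hx with hx | hx
  · exact ⟨hx.1, hx.2 ▸ h⟩
  · exact ⟨hx.1, hx.2 ▸ h'⟩

theorem cnt_le (d y : ℕ) (hy : y < 1113643) : cnt d y ≤ ∑ j ∈ range d, N j y := by
  induction d generalizing y with
  | zero => exact le_rfl
  | succ d ih =>
    rw [sum_range_succ']
    have h0 := N_zero y hy
    rw [cnt_succ]
    rcases hz : (y + 835232) % 1113643 with _ | z
    · have h1 : f 0 = y := by show 278411 = y; omega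
      have h2 := ih 0 (by norm_num)
      have h3 : ∑ j ∈ range d, N j 0 ≤ ∑ j ∈ range d, N (j + 1) y :=
        sum_le_sum fun j _ => N_one j y 0 h1
      rw [st1_zero]
      omega
    · have hl : sq (z + 1) < 1113643 := Nat.mod_lt _ (by norm_num)
      rw [st1_succ]
      rcases hr : sq (z + 1) with _ | r
      · rw [st2_zero]; omega
      · rw [st2_succ]
        cases hb : Nat.beq (((r + 1) * (r + 1)) % 1113643) (z + 1)
        · rw [cond_false]; omega
        · have e := Nat.eq_of_beq_eq_true hb
          rw [hr] at hl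
          have h1 : f (r + 1) = y := by
            show ((r + 1) * (r + 1) + 278411) % 1113643 = y
            omega
          have h2 : f (1113642 - r) = y := by
            show ((1113642 - r) * (1113642 - r) + 278411) % 1113643 = y
            obtain ⟨s, hs⟩ : ∃ s, 1113642 = r + s := ⟨1113642 - r, by omega⟩
            have e1 : 1113642 - r = s := by omega
            have e2 : s * s + 1113643 * (r + 1) = (r + 1) * (r + 1) + 1113643 * s := by
              rw [show 1113643 = r + s + 1 by omega]; ring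
            rw [e1]
            omega
          have h3 : ∑ j ∈ range d, (N j (r + 1) + N j (1113642 - r)) ≤
              ∑ j ∈ range d, N (j + 1) y := sum_le_sum fun j _ => N_two j y _ _ h1 h2 (by omega)
          rw [sum_add_distrib] at h3
          have h4 := ih (r + 1) hl
          have h5 := ih (1113642 - r) (by omega)
          rw [cond_true]
          omega

theorem tot_append (l m : List ℕ) : tot (l ++ m) = tot l + tot m := by
  induction l with
  | nil => exact (Nat.zero_add _).symm
  | cons a l ih =>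
    show cnt 200 a + tot (l ++ m) = cnt 200 a + tot l + tot m
    rw [ih, add_assoc]

theorem par_ok (n : ℕ) (A l : List ℕ) (hA : ∀ w ∈ A, f^[n] w = 556821) (h : par A l = true) :
    ∀ w ∈ l, f^[n + 200] w = 556821 := by
  induction l with
  | nil => intro w hw; cases hw
  | cons a l ih =>
    have h' : (Nat.beq (force (it 200 a) (el A)) 1 && par A l) = true := h
    rw [Bool.and_eq_true, force_eq, it_eq] at h'
    intro w hw
    rcases List.mem_cons.1 hw with rfl | hw
    · rw [Function.iterate_add_apply]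
      exact hA _ (el_mem _ _ (Nat.eq_of_beq_eq_true h'.1))
    · exact ih h'.2 w hw

theorem par_append (A l m : List ℕ) (h1 : par A l = true) (h2 : par A m = true) :
    par A (l ++ m) = true := by
  induction l with
  | nil => exact h2
  | cons a l ih =>
    have h' : (Nat.beq (force (it 200 a) (el A)) 1 && par A l) = true := h1
    rw [Bool.and_eq_true] at h'
    show (Nat.beq (force (it 200 a) (el A)) 1 && par A (l ++ m)) = true
    rw [Bool.and_eq_true]
    exact ⟨h'.1, ih h'.2⟩

theorem level (n : ℕ) (l : List ℕ) (lo : ℕ) (h : ok l lo = true)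
    (hl : ∀ w ∈ l, f^[n] w = 556821) :
    tot l ≤ ∑ j ∈ range 200, ((range 1113643).filter
      (fun x => lo ≤ f^[j] x ∧ f^[n + j] x = 556821)).card := by
  induction l generalizing lo with
  | nil => exact Nat.zero_le _
  | cons w l ih =>
    have h' : ((Nat.ble lo w && Nat.ble w 1113642) && ok l (w + 1)) = true := h
    simp only [Bool.and_eq_true, Nat.ble_eq] at h'
    obtain ⟨⟨a, b⟩, d⟩ := h'
    have c := hl w List.mem_cons_self
    show cnt 200 w + tot l ≤ _
    refine (Nat.add_le_add (cnt_le 200 w (by omega))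
      (ih _ d fun v hv => hl v (List.mem_cons_of_mem _ hv))).trans ?_
    rw [← sum_add_distrib]
    refine sum_le_sum fun j _ => ?_
    unfold N
    rw [← card_union_of_disjoint (disjoint_filter.2 fun x _ a b => by omega)]
    refine card_le_card fun x hx => ?_
    simp only [mem_union, mem_filter] at hx ⊢
    rcases hx with hx | hx
    · exact ⟨hx.1, by omega, by rw [Function.iterate_add_apply, hx.2, c]⟩
    · exact ⟨hx.1, by omega, hx.2.2⟩

theorem level' (n : ℕ) (l : List ℕ) (h : ok l 0 = true) (hl : ∀ w ∈ l, f^[n] w = 556821) :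
    tot l ≤ ∑ j ∈ range 200, N (n + j) 556821 := by
  simpa [N] using level n l 0 h hl

theorem fix (j : ℕ) : f^[j + 1] 556821 = 556822 := by
  induction j with
  | zero => rfl
  | succ j ih => rw [Function.iterate_succ_apply', ih]; rfl

theorem all_reach' (R : Finset ℕ) (M : ℕ) (h0 : 556822 ∈ R)
    (h : R.card - 1 ≤ ∑ d ∈ range M, (R.filter (fun x => f^[d] x = 556821)).card) (x : ℕ)
    (hx : x ∈ R) : ∃ d, f^[d] x = 556822 := by
  have dis : ∀ a b x, a < b → f^[a] x = 556821 → f^[b] x ≠ 556821 := fun a b x hab h1 h2 => by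
    obtain ⟨c, rfl⟩ : ∃ c, b = c + 1 + a := ⟨b - a - 1, by omega⟩
    rw [Function.iterate_add_apply, h1, fix] at h2
    omega
  rw [← card_biUnion (fun a _ b _ hab => disjoint_filter.2 fun x _ h1 h2 => by
    rcases lt_or_gt_of_ne hab with h | h
    · exact dis a b x h h1 h2
    · exact dis b a x h h2 h1)] at h
  have sub : (range M).biUnion (fun d => R.filter (fun x => f^[d] x = 556821)) ⊆
      R.erase 556822 := fun y hy => by
    simp only [mem_biUnion, mem_filter, mem_erase] at hy ⊢
    obtain ⟨d, _, h1, h2⟩ := hy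
    refine ⟨fun e => ?_, h1⟩
    rw [e, Function.iterate_fixed (show f 556822 = 556822 from rfl)] at h2
    omega
  have e := eq_of_subset_of_card_le sub (by
    rw [card_erase_of_mem h0]; exact h)
  by_cases hx' : x = 556822
  · exact ⟨0, hx'⟩
  · have : x ∈ R.erase 556822 := mem_erase.2 ⟨hx', hx⟩
    rw [← e] at this
    simp only [mem_biUnion, mem_filter] at this
    obtain ⟨d, _, _, h2⟩ := this
    exact ⟨1 + d, by rw [Function.iterate_add_apply, h2]; rfl⟩

theorem all_reach (h : 1113642 ≤ ∑ d ∈ range 2200, N d 556821) (x : ℕ) (hx : x < 1113643) :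
    ∃ d, f^[d] x = 556822 :=
  all_reach' (range 1113643) 2200 (mem_range.2 (by norm_num)) (by rw [card_range]; exact h) x
    (mem_range.2 hx)

end Pool.Agent.H47.Quad
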