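import Pool.Agent.H47.Quad0

namespace Pool.Agent.H47.Quad

def a0_0 : List ℕ := [
  556821]

theorem ta0_0 : tot a0_0 = 11165 := by decide +kernel

def a1_0 : List ℕ := [
  10592, 20334, 62514, 69576, 104622, 107928, 113131, 125711, 146646, 164657, 190058, 195089,
  195312, 195848, 206118, 208058, 224411, 233242, 240638, 256103, 257311, 286521, 290179,
  298589, 305043, 324155, 346426, 346510, 363330, 365789, 365955, 369822, 384485, 403390,
  404079, 410194, 419700, 420668, 427453, 445048, 454037, 459210, 477860, 521699, 591944,
  635783, 654433, 659606, 668595, 686190, 692975, 693943, 703449, 709564, 710253, 729158,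
  743821, 747688, 747854, 750313, 767133, 767217, 789488, 808600, 815054, 823464]

theorem ta1_0 : tot a1_0 = 32518 := by decide +kernel

def a1_1 : List ℕ := [
  827122, 856332, 857540, 873005, 880401, 889232, 905585, 907525, 917795, 918331, 918554,
  923585, 948986, 966997, 987932, 1000512, 1005715, 1009021, 1044067, 1051129, 1093309, 1103051]

theorem ta1_1 : tot a1_1 = 172 := by decide +kernel

def a2_0 : List ℕ := [
  8974, 15416, 15620, 19875, 24920, 27778, 27905, 30635, 34008, 47799, 48579, 48783, 53567,
  55528, 60433, 72262, 74789, 90362, 98323, 100126, 120686, 128142, 133593, 135309, 139501,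
  162718, 172703, 172861, 176890, 178575, 182695, 188106, 195484, 201106, 214629, 227007,
  227490, 228154, 230598, 234129, 239790, 240826, 241922, 242935, 243424, 251336, 254650,
  256586, 271614, 274380, 275487, 282414, 283764]

theorem ta2_0 : tot a2_0 = 35612 := by decide +kernel

def a2_1 : List ℕ := [
  308250, 309210, 315370, 330189, 332624, 333985, 335117, 338337, 338365, 338965, 346814,
  353037, 358867, 361389, 376458, 378034, 385374, 389779, 395140, 403195, 403285, 406729,
  407561, 409885, 411834, 418173, 419980, 425257, 431613, 434516, 435159, 436608, 445992,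
  451682, 453906, 463310, 468448, 476203, 480548, 490723, 509634, 525277, 531240, 533029,
  536699, 537984, 542055, 571588, 575659, 576944, 580614, 582403, 588366, 604009, 622920,
  633095, 637440, 645195, 650333, 659737, 661961, 667651, 677035, 678484, 679127, 682030,
  688386, 693663, 695470, 701809, 703758, 706082, 706914, 710358, 710448, 718503, 723864,
  728269, 735609, 737185, 752254, 754776, 760606, 766829, 774678, 775278, 775306, 778526,
  779658, 781019, 783454, 798273, 804433, 805393, 829879, 831229, 838156, 839263, 842029,
  857057, 858993, 862307, 870219, 870708, 871721, 872817, 873853, 879514, 883045, 885489,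
  886153, 886636, 899014, 912537, 918159, 925537, 930948, 935068, 936753, 940782, 940940,
  950925, 974142, 978334, 980050, 985501, 992957, 1013517, 1015320, 1023281, 1038854, 1041381,
  1053210, 1058115, 1060076, 1064860, 1065064, 1065844, 1079635, 1083008, 1085738, 1085865,
  1088723, 1093768, 1098023, 1098227]

theorem ta2_1 : tot a2_1 = 37942 := by decide +kernel

def a2_2 : List ℕ := [
  1104669]

theorem ta2_2 : tot a2_2 = 1 := by decide +kernel

def a3_0 : List ℕ := [
  1910, 2980, 4952, 5532, 5859, 9072, 12285, 17380, 18976, 19796, 20830, 21691, 25557, 28978,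
  31211, 32515, 33184, 33323, 34141, 36922, 47021, 47897, 60703, 64058, 69258, 69280, 69377,
  69995, 76334, 76688, 78450, 80785, 81434, 84038, 84158, 84941, 85239, 91568, 94364, 94737,
  95038, 95567, 96744, 97734, 98767, 103866, 104147, 104205, 105990, 108920, 112851, 119045,
  119334, 123336, 124076, 125472, 127210, 127743, 129753, 134041, 135782, 138264, 138831,
  138859, 140215, 140425, 142240, 146519, 150623, 155009, 159754, 163686, 165250, 166132,
  167773, 168435, 168949, 172245, 172358, 174269, 175101, 179093, 179134, 186887, 188656,
  188884, 189186, 193956, 198036, 200325, 201884, 202195, 202600, 203214, 203701, 204690,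
  205366, 205832, 207852, 209023, 210684, 211596, 211679, 215418, 215883, 217665, 218466]

theorem ta3_0 : tot a3_0 = 25671 := by decide +kernel

end Pool.Agent.H47.Quad
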