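import Pool.Agent.H47.Quad0

namespace Pool.Agent.H47.Quad

def a4_2 : List ℕ := [
  781172, 781707, 786030, 787910, 790157, 791415, 792344, 793097, 794569, 799515, 800754,
  801936, 803194, 803224, 803502, 803737]

theorem ta4_2 : tot a4_2 = 37708 := by decide +kernel

def a4_3 : List ℕ := [
  804238, 804894, 804999, 805395, 805652, 805895, 806659, 811955, 817309, 818813, 819347,
  824375, 825981, 827922, 828248, 828253, 833714, 835626, 835965, 837046, 840347, 840894,
  843405, 843916, 844578, 848323, 850873, 851292, 853839, 854572, 854774]

theorem ta4_3 : tot a4_3 = 41773 := by decide +kernel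

def a4_4 : List ℕ := [
  854853, 856637, 857000, 857421, 858742, 859462, 859709, 860193, 861353, 861495, 861701,
  862255, 863555, 865584, 867061, 868738, 868974, 870430, 870590, 874554, 877251, 880208,
  883129, 883906, 885832, 888107, 890063, 890409, 893819, 899829, 902352, 904224, 909798,
  911332, 920358, 921922, 922740, 925948, 926402, 929463, 931581, 932509, 941124, 941306,
  943213, 945907, 947157, 958178, 958482, 961612, 961702, 966790, 971131, 971976, 972281,
  977383, 977846, 978556, 981670, 983775, 984653, 985449, 989872, 991347, 992871, 992925,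
  996835, 999934, 1000691, 1001722, 1003930, 1005011, 1005750, 1009106, 1009392, 1010640,
  1011669, 1013023, 1013243, 1019987, 1020737, 1028135, 1028377, 1031199, 1033087, 1034163,
  1034634, 1035275, 1035479, 1035982, 1040311, 1043427, 1044212, 1045092, 1046683, 1047435,
  1047872, 1048725, 1051504, 1052564, 1053662, 1056262, 1056587, 1057673, 1058327, 1059782,
  1061030, 1065361, 1067633, 1068322, 1069018, 1070061, 1070249, 1070415, 1078227, 1087385,
  1088328, 1089536, 1089683, 1092979, 1093054, 1093140, 1093384, 1094193, 1094388, 1094580,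
  1096669, 1097956, 1099547, 1102341, 1104123, 1104883, 1107290, 1112835]

theorem ta4_4 : tot a4_4 = 24058 := by decide +kernel

def a5_0 : List ℕ := [
  244, 742, 935, 1255, 2018, 3541, 6046, 7803, 8023, 8794, 10291, 10570, 10915, 11048, 12036,
  12738, 13592, 13844, 14966, 15283, 15289, 15524, 17325, 17739, 18733, 19243, 19706, 20290,
  21558, 23402, 23761, 23826, 24643, 24990, 25115, 26645, 27174, 27697, 28104, 28239, 30413,
  30580, 31173, 31720, 33491, 34155, 34419, 34433, 34906, 35374, 36596, 38459, 39943, 41441,
  42073, 42592, 42816, 43018, 43946, 44891, 46605, 46667, 47647, 47883, 48399, 48443, 49810,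
  50138, 50874, 51984, 53699, 54360, 54838, 55025, 56604, 57393, 57480, 57843, 57981, 59248,
  62485, 62520, 62943]

theorem ta5_0 : tot a5_0 = 25263 := by decide +kernel

def a5_1 : List ℕ := [
  63367, 63948, 65412, 65495, 67699, 68220, 70392, 70549, 70779, 72061, 73502, 76220, 77182,
  78414, 79449, 79615, 80831, 81778, 82807, 83104, 83432, 84303, 85134, 85421, 87181, 87473,
  88410, 88922, 89385]

theorem ta5_1 : tot a5_1 = 35385 := by decide +kernel

end Pool.Agent.H47.Quad
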