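import Pool.Agent.H47.Quad0

namespace Pool.Agent.H47.Quad

def a8_2 : List ℕ := [
  900456, 901338, 906556, 910869, 918498, 918753, 922687, 938173, 938712, 947992, 949029,
  950241, 952334, 961449, 963501, 979772, 985792, 986493, 986572, 990936, 991830, 993183,
  996628, 997461, 999507, 1000179, 1001561, 1004308, 1006940, 1007793, 1007840, 1013844,
  1015138, 1016060, 1019065, 1023698, 1025458, 1026570, 1030734, 1031554, 1036059, 1036845,
  1041159, 1041639, 1042200, 1045658, 1045669, 1047937, 1049853, 1056793, 1059877, 1061872,
  1066496, 1067997, 1068644, 1075532, 1076896, 1081549, 1081556, 1083510, 1084398, 1085909,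
  1089007, 1090049, 1095402, 1104207, 1105779, 1109315, 1111254, 1111561]

theorem ta8_2 : tot a8_2 = 5302 := by decide +kernel

def a9_0 : List ℕ := [
  9323, 42797, 61373, 77809, 84433, 86117, 93582, 109931, 112881, 120446, 130812, 133557,
  191650, 250760, 276755, 284024, 301685, 323487, 324381, 354199, 359139, 407040, 409325,
  410803, 418773, 476745, 497878, 529077, 541979, 553764, 559879, 571664, 584566, 615765,
  636898, 694870, 702840, 704318, 706603, 754504, 759444, 789262, 790156, 811958, 829619,
  836888, 862883, 921993, 980086, 982831, 993197, 1000762, 1003712, 1020061, 1027526, 1029210,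
  1035834, 1052270, 1070846, 1104320]

theorem ta9_0 : tot a9_0 = 17788 := by decide +kernel

def a10_0 : List ℕ := [
  7263, 25675, 41632, 46158, 50310, 66064, 69552, 71007, 86796, 99830, 100774, 105575, 112749,
  115039, 115086, 131256, 137079, 146393, 157159, 170410, 171233, 173618, 193647, 195223,
  205260, 211497, 236859, 270599, 279366, 280727, 281202, 286667, 287297, 298895, 301976,
  303660, 341140, 351433, 351765, 361955, 368210, 373646, 389398, 398538, 401850, 448280,
  457187, 470959, 473763, 473811, 479518, 521157, 522467, 536314, 540335, 542002, 545375,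
  552781, 560862, 568268, 571641, 573308, 577329, 591176, 592486, 634125, 639832, 639880,
  642684, 656456, 665363, 711793, 715105, 724245, 739997, 745433, 751688, 761878, 762210,
  772503, 809983, 811667, 814748, 826346, 826976, 832441, 832916, 834277, 843044, 876784,
  902146, 908383, 918420, 919996, 940025, 942410, 943233, 956484, 967250, 976564, 982387,
  998557, 998604, 1000894, 1008068, 1012869, 1013813, 1026847, 1042636, 1044091, 1047579,
  1063333, 1067485, 1072011, 1087968, 1106380]

theorem ta10_0 : tot a10_0 = 7030 := by decide +kernel

end Pool.Agent.H47.Quad
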