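import Pool.Agent.H47.Quad1
import Pool.Agent.H47.Quad2
import Pool.Agent.H47.Quad3
import Pool.Agent.H47.Quad4
import Pool.Agent.H47.Quad5
import Pool.Agent.H47.Quad6
import Pool.Agent.H47.Quad7
import Pool.Agent.H47.Quad8

namespace Pool.Agent.H47.Quad

def A0 : List ℕ := a0_0

theorem o0 : ok A0 0 = true := by decide +kernel

def A1 : List ℕ := a1_0 ++ a1_1

theorem o1 : ok A1 0 = true := by decide +kernel

def A2 : List ℕ := a2_0 ++ a2_1 ++ a2_2

theorem o2 : ok A2 0 = true := by decide +kernel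

def A3 : List ℕ := a3_0 ++ a3_1 ++ a3_2 ++ a3_3

theorem o3 : ok A3 0 = true := by decide +kernel

def A4 : List ℕ := a4_0 ++ a4_1 ++ a4_2 ++ a4_3 ++ a4_4

theorem o4 : ok A4 0 = true := by decide +kernel

def A5 : List ℕ := a5_0 ++ a5_1 ++ a5_2 ++ a5_3 ++ a5_4 ++ a5_5 ++ a5_6 ++ a5_7 ++ a5_8 ++ a5_9 ++ a5_10

theorem o5 : ok A5 0 = true := by decide +kernel

def A6 : List ℕ := a6_0 ++ a6_1 ++ a6_2 ++ a6_3 ++ a6_4 ++ a6_5 ++ a6_6 ++ a6_7 ++ a6_8

theorem o6 : ok A6 0 = true := by decide +kernel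

def A7 : List ℕ := a7_0 ++ a7_1 ++ a7_2

theorem o7 : ok A7 0 = true := by decide +kernel

def A8 : List ℕ := a8_0 ++ a8_1 ++ a8_2

theorem o8 : ok A8 0 = true := by decide +kernel

def A9 : List ℕ := a9_0

theorem o9 : ok A9 0 = true := by decide +kernel

def A10 : List ℕ := a10_0

theorem o10 : ok A10 0 = true := by decide +kernel

end Pool.Agent.H47.Quad
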