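import Pool.Agent.H47.QuadA

namespace Pool.Agent.H47.Quad

theorem pa1_1 : par A0 a1_1 = true := by decide +kernel

theorem pa2_2 : par A1 a2_2 = true := by decide +kernel

theorem pa3_2 : par A2 a3_2 = true := by decide +kernel

theorem pa4_1 : par A3 a4_1 = true := by decide +kernel

theorem pa4_4 : par A3 a4_4 = true := by decide +kernel

theorem pa5_2 : par A4 a5_2 = true := by decide +kernel

theorem pa5_5 : par A4 a5_5 = true := by decide +kernel

theorem pa5_8 : par A4 a5_8 = true := by decide +kernel

theorem pa6_0 : par A5 a6_0 = true := by decide +kernel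

theorem pa6_3 : par A5 a6_3 = true := by decide +kernel

theorem pa6_6 : par A5 a6_6 = true := by decide +kernel

theorem pa7_0 : par A6 a7_0 = true := by decide +kernel

theorem pa8_0 : par A7 a8_0 = true := by decide +kernel

theorem pa9_0 : par A8 a9_0 = true := by decide +kernel

end Pool.Agent.H47.Quad
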