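import Pool.Agent.H47.QuadA

namespace Pool.Agent.H47.Quad

theorem pa2_0 : par A1 a2_0 = true := by decide +kernel

theorem pa3_0 : par A2 a3_0 = true := by decide +kernel

theorem pa3_3 : par A2 a3_3 = true := by decide +kernel

theorem pa4_2 : par A3 a4_2 = true := by decide +kernel

theorem pa5_0 : par A4 a5_0 = true := by decide +kernel

theorem pa5_3 : par A4 a5_3 = true := by decide +kernel

theorem pa5_6 : par A4 a5_6 = true := by decide +kernel

theorem pa5_9 : par A4 a5_9 = true := by decide +kernel

theorem pa6_1 : par A5 a6_1 = true := by decide +kernel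

theorem pa6_4 : par A5 a6_4 = true := by decide +kernel

theorem pa6_7 : par A5 a6_7 = true := by decide +kernel

theorem pa7_1 : par A6 a7_1 = true := by decide +kernel

theorem pa8_1 : par A7 a8_1 = true := by decide +kernel

theorem pa10_0 : par A9 a10_0 = true := by decide +kernel

end Pool.Agent.H47.Quad
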