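import Pool.Agent.H47.QuadP0
import Pool.Agent.H47.QuadP1
import Pool.Agent.H47.QuadP2

namespace Pool.Agent.H47.Quad
open Finset

theorem r0 : ∀ w ∈ A0, f^[0] w = 556821 := by
  intro w hw
  simpa [A0, a0_0] using hw

theorem l0 : 11165 ≤ ∑ j ∈ range 200, N (0 + j) 556821 := by
  have h := level' _ _ o0 r0
  rw [A0, ta0_0] at h
  omega

theorem r1 : ∀ w ∈ A1, f^[200] w = 556821 :=
  par_ok 0 A0 A1 r0
    (par_append _ _ _ pa1_0 pa1_1)

theorem l1 : 32690 ≤ ∑ j ∈ range 200, N (200 + j) 556821 := by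
  have h := level' _ _ o1 r1
  rw [A1, tot_append, ta1_0, ta1_1] at h
  omega

theorem r2 : ∀ w ∈ A2, f^[400] w = 556821 :=
  par_ok 200 A1 A2 r1
    (par_append _ _ _ (par_append _ _ _ pa2_0 pa2_1) pa2_2)

theorem l2 : 73555 ≤ ∑ j ∈ range 200, N (400 + j) 556821 := by
  have h := level' _ _ o2 r2
  rw [A2, tot_append, tot_append, ta2_0, ta2_1, ta2_2] at h
  omega

theorem r3 : ∀ w ∈ A3, f^[600] w = 556821 :=
  par_ok 400 A2 A3 r2
    (par_append _ _ _ (par_append _ _ _ (par_append _ _ _ pa3_0 pa3_1) pa3_2) pa3_3)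

theorem l3 : 108382 ≤ ∑ j ∈ range 200, N (600 + j) 556821 := by
  have h := level' _ _ o3 r3
  rw [A3, tot_append, tot_append, tot_append, ta3_0, ta3_1, ta3_2, ta3_3] at h
  omega

theorem r4 : ∀ w ∈ A4, f^[800] w = 556821 :=
  par_ok 600 A3 A4 r3
    (par_append _ _ _ (par_append _ _ _ (par_append _ _ _ (par_append _ _ _ pa4_0 pa4_1) pa4_2) pa4_3) pa4_4)

theorem l4 : 176356 ≤ ∑ j ∈ range 200, N (800 + j) 556821 := by
  have h := level' _ _ o4 r4
  rw [A4, tot_append, tot_append, tot_append, tot_append, ta4_0, ta4_1, ta4_2, ta4_3, ta4_4] at h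
  omega

theorem r5 : ∀ w ∈ A5, f^[1000] w = 556821 :=
  par_ok 800 A4 A5 r4
    (par_append _ _ _ (par_append _ _ _ (par_append _ _ _ (par_append _ _ _ (par_append _ _ _ (par_append _ _ _ (par_append _ _ _ (par_append _ _ _ (par_append _ _ _ (par_append _ _ _ pa5_0 pa5_1) pa5_2) pa5_3) pa5_4) pa5_5) pa5_6) pa5_7) pa5_8) pa5_9) pa5_10)

theorem l5 : 307826 ≤ ∑ j ∈ range 200, N (1000 + j) 556821 := by
  have h := level' _ _ o5 r5
  rw [A5, tot_append, tot_append, tot_append, tot_append, tot_append, tot_append, tot_append, tot_append, tot_append, tot_append, ta5_0, ta5_1, ta5_2, ta5_3, ta5_4, ta5_5, ta5_6, ta5_7, ta5_8, ta5_9, ta5_10] at h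
  omega

theorem r6 : ∀ w ∈ A6, f^[1200] w = 556821 :=
  par_ok 1000 A5 A6 r5
    (par_append _ _ _ (par_append _ _ _ (par_append _ _ _ (par_append _ _ _ (par_append _ _ _ (par_append _ _ _ (par_append _ _ _ (par_append _ _ _ pa6_0 pa6_1) pa6_2) pa6_3) pa6_4) pa6_5) pa6_6) pa6_7) pa6_8)

theorem l6 : 240316 ≤ ∑ j ∈ range 200, N (1200 + j) 556821 := by
  have h := level' _ _ o6 r6
  rw [A6, tot_append, tot_append, tot_append, tot_append, tot_append, tot_append, tot_append, tot_append, ta6_0, ta6_1, ta6_2, ta6_3, ta6_4, ta6_5, ta6_6, ta6_7, ta6_8] at h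
  omega

theorem r7 : ∀ w ∈ A7, f^[1400] w = 556821 :=
  par_ok 1200 A6 A7 r6
    (par_append _ _ _ (par_append _ _ _ pa7_0 pa7_1) pa7_2)

theorem l7 : 75114 ≤ ∑ j ∈ range 200, N (1400 + j) 556821 := by
  have h := level' _ _ o7 r7
  rw [A7, tot_append, tot_append, ta7_0, ta7_1, ta7_2] at h
  omega

theorem r8 : ∀ w ∈ A8, f^[1600] w = 556821 :=
  par_ok 1400 A7 A8 r7
    (par_append _ _ _ (par_append _ _ _ pa8_0 pa8_1) pa8_2)

theorem l8 : 63420 ≤ ∑ j ∈ range 200, N (1600 + j) 556821 := by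
  have h := level' _ _ o8 r8
  rw [A8, tot_append, tot_append, ta8_0, ta8_1, ta8_2] at h
  omega

theorem r9 : ∀ w ∈ A9, f^[1800] w = 556821 :=
  par_ok 1600 A8 A9 r8
    pa9_0

theorem l9 : 17788 ≤ ∑ j ∈ range 200, N (1800 + j) 556821 := by
  have h := level' _ _ o9 r9
  rw [A9, ta9_0] at h
  omega

theorem r10 : ∀ w ∈ A10, f^[2000] w = 556821 :=
  par_ok 1800 A9 A10 r9
    pa10_0

theorem l10 : 7030 ≤ ∑ j ∈ range 200, N (2000 + j) 556821 := by
  have h := level' _ _ o10 r10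
  rw [A10, ta10_0] at h
  omega

theorem split (g : ℕ → ℕ) (k : ℕ) : ∑ d ∈ range (200 * (k + 1)), g d =
    ∑ d ∈ range (200 * k), g d + ∑ j ∈ range 200, g (200 * k + j) := sum_range_add _ _ _

theorem gen (g : ℕ → ℕ)
    (h0 : 11165 ≤ ∑ j ∈ range 200, g (0 + j))
    (h1 : 32690 ≤ ∑ j ∈ range 200, g (200 + j))
    (h2 : 73555 ≤ ∑ j ∈ range 200, g (400 + j))
    (h3 : 108382 ≤ ∑ j ∈ range 200, g (600 + j))
    (h4 : 176356 ≤ ∑ j ∈ range 200, g (800 + j))
    (h5 : 307826 ≤ ∑ j ∈ range 200, g (1000 + j))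
    (h6 : 240316 ≤ ∑ j ∈ range 200, g (1200 + j))
    (h7 : 75114 ≤ ∑ j ∈ range 200, g (1400 + j))
    (h8 : 63420 ≤ ∑ j ∈ range 200, g (1600 + j))
    (h9 : 17788 ≤ ∑ j ∈ range 200, g (1800 + j))
    (h10 : 7030 ≤ ∑ j ∈ range 200, g (2000 + j))
    : 1113642 ≤ ∑ d ∈ range 2200, g d := by
  have s0 : ∑ d ∈ range 200, g d = ∑ d ∈ range 0, g d + ∑ j ∈ range 200, g (0 + j) :=
    sum_range_add g 0 200
  have s1 : ∑ d ∈ range 400, g d = ∑ d ∈ range 200, g d + ∑ j ∈ range 200, g (200 + j) :=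
    sum_range_add g 200 200
  have s2 : ∑ d ∈ range 600, g d = ∑ d ∈ range 400, g d + ∑ j ∈ range 200, g (400 + j) :=
    sum_range_add g 400 200
  have s3 : ∑ d ∈ range 800, g d = ∑ d ∈ range 600, g d + ∑ j ∈ range 200, g (600 + j) :=
    sum_range_add g 600 200
  have s4 : ∑ d ∈ range 1000, g d = ∑ d ∈ range 800, g d + ∑ j ∈ range 200, g (800 + j) :=
    sum_range_add g 800 200
  have s5 : ∑ d ∈ range 1200, g d = ∑ d ∈ range 1000, g d + ∑ j ∈ range 200, g (1000 + j) :=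
    sum_range_add g 1000 200
  have s6 : ∑ d ∈ range 1400, g d = ∑ d ∈ range 1200, g d + ∑ j ∈ range 200, g (1200 + j) :=
    sum_range_add g 1200 200
  have s7 : ∑ d ∈ range 1600, g d = ∑ d ∈ range 1400, g d + ∑ j ∈ range 200, g (1400 + j) :=
    sum_range_add g 1400 200
  have s8 : ∑ d ∈ range 1800, g d = ∑ d ∈ range 1600, g d + ∑ j ∈ range 200, g (1600 + j) :=
    sum_range_add g 1600 200
  have s9 : ∑ d ∈ range 2000, g d = ∑ d ∈ range 1800, g d + ∑ j ∈ range 200, g (1800 + j) :=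
    sum_range_add g 1800 200
  have s10 : ∑ d ∈ range 2200, g d = ∑ d ∈ range 2000, g d + ∑ j ∈ range 200, g (2000 + j) :=
    sum_range_add g 2000 200
  omega

theorem total : 1113642 ≤ ∑ d ∈ range 2200, N d 556821 :=
  gen (fun d => N d 556821) l0 l1 l2 l3 l4 l5 l6 l7 l8 l9 l10

end Pool.Agent.H47.Quad
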