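import Pool.Agent.H47.QuadA

namespace Pool.Agent.H47.Quad

theorem pa1_0 : par A0 a1_0 = true := by decide +kernel

theorem pa2_1 : par A1 a2_1 = true := by decide +kernel

theorem pa3_1 : par A2 a3_1 = true := by decide +kernel

theorem pa4_0 : par A3 a4_0 = true := by decide +kernel

theorem pa4_3 : par A3 a4_3 = true := by decide +kernel

theorem pa5_1 : par A4 a5_1 = true := by decide +kernel

theorem pa5_4 : par A4 a5_4 = true := by decide +kernel

theorem pa5_7 : par A4 a5_7 = true := by decide +kernel

theorem pa5_10 : par A4 a5_10 = true := by decide +kernel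

theorem pa6_2 : par A5 a6_2 = true := by decide +kernel

theorem pa6_5 : par A5 a6_5 = true := by decide +kernel

theorem pa6_8 : par A5 a6_8 = true := by decide +kernel

theorem pa7_2 : par A6 a7_2 = true := by decide +kernel

theorem pa8_2 : par A7 a8_2 = true := by decide +kernel

end Pool.Agent.H47.Quad
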