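import Pool.Agent.H39.NonBorel

open Set Filter Topology MeasureTheory Pool.Agent.H39.NonBorel

namespace Pool.Agent.H47.Rot

def Near (x ε : ℝ) : Prop := ∃ m : ℤ, |x - m| < ε

theorem ex_mul {p : ℕ} (hp : p.Prime) {D : ℤ} (hD : ¬ (p : ℤ) ∣ D) (h : ℤ) :
    ∃ a : ℕ, a < p ∧ (p : ℤ) ∣ a * D - h := by
  have := Fact.mk hp
  refine ⟨((h : ZMod p) * (D : ZMod p)⁻¹).val, ZMod.val_lt _, ?_⟩
  rw [← ZMod.intCast_zmod_eq_zero_iff_dvd] at hD ⊢
  push_cast
  rw [ZMod.natCast_zmod_val, mul_assoc, inv_mul_cancel₀ hD, mul_one, sub_self]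

theorem L1 {p : ℕ} (hp : p.Prime) {D : ℤ} (h : ∀ a : ℕ, a < p → Near (a * D / p) (1 / 3)) :
    (p : ℤ) ∣ D := by
  by_contra hD
  obtain ⟨a, ha, m', hm'⟩ := ex_mul hp hD ((p : ℤ) / 2)
  obtain ⟨m, hm⟩ := h a ha
  have p2 : (2 : ℤ) ≤ p := by exact_mod_cast hp.two_le
  have p0 : (0 : ℝ) < p := by exact_mod_cast hp.pos
  have e : (a * D / p - m : ℝ) = (((p : ℤ) / 2 + p * (m' - m) : ℤ) : ℝ) / p := by
    have : ((a * D : ℤ) : ℝ) = (((p : ℤ) / 2 + p * m' : ℤ) : ℝ) := by congr 1; linarith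
    push_cast at this ⊢
    rw [this]; field_simp; ring
  rw [e, abs_div, abs_of_pos p0, div_lt_div_iff₀ p0 (by norm_num), ← Int.cast_abs] at hm
  have hm2 : |(p : ℤ) / 2 + p * (m' - m)| * 3 < 1 * p := by exact_mod_cast hm
  generalize m' - m = j at hm2
  rcases le_or_gt 0 j with hj | hj
  · have := le_abs_self ((p : ℤ) / 2 + p * j)
    have : 0 ≤ (p : ℤ) * j := by positivity
    omega
  · have := neg_le_abs ((p : ℤ) / 2 + p * j)
    have : (p : ℤ) * j ≤ -p := by nlinarith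
    omega

theorem L2 {p : ℕ} (hp : 0 < p) {D : ℤ} (h : Near (D / p) (1 / p)) : (p : ℤ) ∣ D := by
  obtain ⟨m, hm⟩ := h
  have p0 : (0 : ℝ) < p := by exact_mod_cast hp
  have e : (D / p - m : ℝ) = ((D - p * m : ℤ) : ℝ) / p := by push_cast; field_simp
  rw [e, abs_div, abs_of_pos p0, div_lt_div_iff_of_pos_right p0, ← Int.cast_abs] at hm
  have : |D - p * m| < 1 := by exact_mod_cast hm
  exact ⟨m, by have := Int.abs_lt_one_iff.1 this; linarith⟩

noncomputable def nxt (N k : ℕ) : ℕ :=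
  if h : k ≠ 0 then Classical.choose (Nat.exists_prime_gt_modEq_one (2 * (N + 1) * k) h) else 2

noncomputable def q : ℕ → ℕ
  | 0 => 1
  | N + 1 => q N * nxt N (q N)

noncomputable def d (N : ℕ) : ℕ := nxt N (q N)

theorem q_succ (N : ℕ) : q (N + 1) = q N * d N := rfl

theorem d_aux (N : ℕ) (h : q N ≠ 0) :
    (d N).Prime ∧ 2 * (N + 1) * q N < d N ∧ d N ≡ 1 [MOD q N] := by
  rw [d, nxt, dif_pos h]; exact Classical.choose_spec (Nat.exists_prime_gt_modEq_one _ h)

theorem q_pos (N : ℕ) : 0 < q N := by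
  induction N with
  | zero => exact one_pos
  | succ N ih => exact Nat.mul_pos ih (d_aux N ih.ne').1.pos

theorem d_prime (N : ℕ) : (d N).Prime := (d_aux N (q_pos N).ne').1
theorem d_gt (N : ℕ) : 2 * (N + 1) * q N < d N := (d_aux N (q_pos N).ne').2.1

theorem d_dvd {s N : ℕ} (h : s < N) : d s ∣ q N := by
  induction N, h using Nat.le_induction with
  | base => exact Dvd.intro_left _ rfl
  | succ N _ ih => exact ih.mul_right _

theorem d_mod {s N : ℕ} (h : s < N) : (d s : ℤ) ∣ (d N : ℤ) - 1 :=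
  (Int.natCast_dvd_natCast.2 (d_dvd h)).trans (by
    simpa using (Nat.modEq_iff_dvd.1 (d_aux N (q_pos N).ne').2.2.symm))

theorem q_prod (N : ℕ) : (q N : ℤ) = ∏ i ∈ Finset.range N, (d i : ℤ) := by
  induction N with
  | zero => rfl
  | succ N ih => rw [Finset.prod_range_succ, ← ih, q_succ]; push_cast; rfl

def L (N : ℕ) : List ℕ := Denumerable.ofNat (List ℕ) N

noncomputable def al (s : ℕ) : ℤ :=
  ∏ i ∈ Finset.range s, ((d i : ℤ) - if L i <:+ L s then 1 else 0)

theorem al_nd (s : ℕ) : ¬ (d s : ℤ) ∣ al s := by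
  have h1 : 0 < al s := Finset.prod_pos fun i _ => by
    have := (d_prime i).two_le
    split_ifs <;> omega
  have h2 : al s ≤ q s := by
    rw [q_prod]
    refine Finset.prod_le_prod (fun i _ => ?_) fun i _ => ?_
    · have := (d_prime i).two_le
      split_ifs <;> omega
    · split_ifs <;> omega
  have h3 := d_gt s
  intro h
  have := Int.le_of_dvd h1 h
  have : q s ≤ 2 * (s + 1) * q s := Nat.le_mul_of_pos_left _ (by omega)
  omega

noncomputable def aa (s : ℕ) : ℕ := Classical.choose (ex_mul (d_prime s) (al_nd s) (-1))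

theorem aa_spec (s : ℕ) : aa s < d s ∧ (d s : ℤ) ∣ aa s * al s - -1 :=
  Classical.choose_spec (ex_mul (d_prime s) (al_nd s) (-1))

def tt (T : List ℕ → Bool) : List ℕ → Bool
  | [] => T []
  | a :: l => T (a :: l) && tt T l

theorem tt_suffix {T : List ℕ → Bool} {l l' : List ℕ} (h : tt T l' = true) (hs : l <:+ l') :
    T l = true := by
  induction l' with
  | nil => rw [List.suffix_nil.1 hs]; exact h
  | cons a l' ih =>
    simp only [tt, Bool.and_eq_true] at h
    rcases List.suffix_cons_iff.1 hs with rfl | hs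
    · exact h.1
    · exact ih h.2 hs

theorem cont_tt (l : List ℕ) : Continuous fun T : List ℕ → Bool => tt T l := by
  induction l with
  | nil => exact continuous_apply _
  | cons a l ih =>
    exact (continuous_of_discreteTopology (f := fun p : Bool × Bool => p.1 && p.2)).comp
      ((continuous_apply (a :: l)).prodMk ih)

noncomputable def R (s N : ℕ) : ℤ := (q N / d s : ℕ)

theorem R_mul {s N : ℕ} (h : s < N) (a θ A : ℝ) :
    a * R s N * θ = a * A / d s + a / d s * (q N * θ - A) := by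
  have h1 : (R s N : ℝ) * d s = q N := by
    have := Nat.div_mul_cancel (d_dvd h)
    unfold R; exact_mod_cast this
  have p0 : (d s : ℝ) ≠ 0 := by exact_mod_cast (d_prime s).pos.ne'
  rw [← h1]; field_simp; ring

noncomputable def val (b : Bool) (i : ℕ × ℕ × ℕ × ℕ) : ℤ :=
  if i.2.1 ≤ i.1 ∧ i.2.2.1 ≤ q i.1 ∧ i.2.2.2 ≤ 2 then
    if i.2.2.2 = 0 then q i.1
    else if i.2.2.2 = 1 then
      if i.2.1 < i.1 ∧ i.2.2.1 < d i.2.1 ∧ ¬ (b = true ∧ (L i.1).tail = L i.2.1) then
        i.2.2.1 * (R i.2.1 (i.1 + 1) - R i.2.1 i.1) else 0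
    else if i.2.1 < i.1 then aa i.2.1 * R i.2.1 i.1 else 0
  else 0

theorem abs_frac {a : ℕ} {s : ℕ} (h : a < d s) (x : ℝ) : |(a : ℝ) / d s * x| ≤ |x| := by
  have p0 : (0 : ℝ) < d s := by exact_mod_cast (d_prime s).pos
  rw [abs_mul, abs_of_nonneg (by positivity)]
  exact mul_le_of_le_one_left (abs_nonneg _) ((div_le_one p0).2 (by exact_mod_cast h.le))

theorem backward (T : List ℕ → Bool) (θ : ℝ) (hθ : Irrational θ)
    (h : ∀ ε : ℝ, 0 < ε → ∃ N0, ∀ i : ℕ × ℕ × ℕ × ℕ, N0 ≤ i.1 →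
      Near (val (tt T (L i.1)) i * θ) ε) : T ∈ IF := by
  let A : ℕ → ℤ := fun N => round (q N * θ)
  let δ : ℕ → ℝ := fun N => q N * θ - A N
  let c : ℕ → ℤ := fun N => A (N + 1) - d N * A N
  have hc : ∀ N, (c N : ℝ) = d N * δ N - δ (N + 1) := fun N => by
    simp only [c, δ, q_succ]; push_cast; ring
  have H : ∀ ε : ℝ, 0 < ε → ∃ N0, ∀ N, N0 ≤ N → |δ N| < ε ∧
      (∀ s < N, ∀ a < d s, ¬ (tt T (L N) = true ∧ (L N).tail = L s) →
        Near (a * (R s (N + 1) - R s N) * θ) ε) ∧ ∀ s < N, Near (aa s * R s N * θ) ε := by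
    intro ε hε
    obtain ⟨N0, h0⟩ := h ε hε
    refine ⟨N0, fun N hN => ⟨?_, fun s hs a ha hn => ?_, fun s hs => ?_⟩⟩
    · obtain ⟨m, hm⟩ := h0 (N, 0, 0, 0) hN
      simp only [val, Nat.zero_le, and_self, if_true, Int.cast_natCast] at hm
      exact (round_le _ m).trans_lt hm
    · have := h0 (N, s, a, 1) hN
      have e : a ≤ q N := ha.le.trans (Nat.le_of_dvd (q_pos N) (d_dvd hs))
      simp only [val, hs.le, e, hs, ha, hn] at this
      simpa using this
    · have := h0 (N, s, 0, 2) hN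
      simp only [val, hs.le, hs] at this
      simpa using this
  obtain ⟨N0, h0⟩ := H (1 / 9) (by norm_num)
  have step : ∀ s, N0 ≤ s → c s ≠ 0 →
      ∃ M, s < M ∧ c M ≠ 0 ∧ tt T (L M) = true ∧ (L M).tail = L s := by
    intro s hs hcs
    have p2 : (2 : ℝ) ≤ d s := by exact_mod_cast (d_prime s).two_le
    have n1 : ¬ (d s : ℤ) ∣ A (s + 1) := fun hd => by
      have e1 : (d s : ℤ) ∣ c s := hd.sub (Dvd.intro _ rfl)
      have e2 : (d s : ℝ) ≤ |(c s : ℝ)| := by
        exact_mod_cast Int.le_of_dvd (abs_pos.2 hcs) ((dvd_abs _ _).2 e1)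
      have e3 := abs_sub (d s * δ s) (δ (s + 1))
      rw [← hc, abs_mul, abs_of_pos (by linarith : (0 : ℝ) < d s)] at e3
      have := (h0 s hs).1
      have := (h0 (s + 1) (by omega)).1
      nlinarith
    have n2 : ∃ N, s + 1 ≤ N ∧ (d s : ℤ) ∣ A N := by
      obtain ⟨N1, h1⟩ := H (1 / (2 * d s)) (by positivity)
      obtain ⟨e1, -, e2⟩ := h1 (N1 + s + 1) (by omega)
      obtain ⟨m, hm⟩ := e2 s (by omega)
      refine ⟨N1 + s + 1, by omega, ?_⟩
      have e3 : (d s : ℤ) ∣ aa s * A (N1 + s + 1) := L2 (d_prime s).pos ⟨m, by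
        rw [R_mul (by omega) _ _ (A (N1 + s + 1))] at hm
        have e4 := abs_frac (aa_spec s).1 (δ (N1 + s + 1))
        have e5 : (1 : ℝ) / d s = 1 / (2 * d s) + 1 / (2 * d s) := by field_simp; ring
        push_cast
        rw [abs_lt] at hm ⊢
        have := abs_le.1 (e4.trans e1.le)
        simp only [δ] at this
        constructor <;> linarith⟩
      refine ((Int.Prime.dvd_mul' (d_prime s) e3).resolve_left fun h => ?_).trans
        (by simp)
      have e6 : (d s : ℤ) ∣ aa s * al s := (h.trans (by simp)).mul_right _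
      have := (dvd_sub_right e6).1 (aa_spec s).2
      have := Int.le_of_dvd one_pos ((dvd_neg).1 this)
      have := (d_prime s).two_le
      omega
    obtain ⟨M, m1, m2, m3⟩ : ∃ M, s + 1 ≤ M ∧ ¬ (d s : ℤ) ∣ A M ∧ (d s : ℤ) ∣ A (M + 1) := by
      by_contra hcon
      push Not at hcon
      obtain ⟨N, hN, hd⟩ := n2
      have : ∀ N, s + 1 ≤ N → ¬ (d s : ℤ) ∣ A N := fun N hN => by
        induction N, hN using Nat.le_induction with
        | base => exact n1
        | succ N hN ih => exact hcon N hN ih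
      exact this N hN hd
    have m4 : ¬ (d s : ℤ) ∣ A (M + 1) - A M := fun h => m2 ((dvd_sub_right m3).1 h)
    refine ⟨M, m1, fun hz => m4 ?_, ?_⟩
    · have : A (M + 1) - A M = (d M - 1) * A M := by simp only [c] at hz; linarith
      rw [this]; exact (d_mod m1).mul_right _
    · by_contra hn
      refine m4 (L1 (d_prime s) fun a ha => ?_)
      obtain ⟨m, hm⟩ := (h0 M (by omega)).2.1 s m1 a ha hn
      refine ⟨m, ?_⟩
      rw [mul_sub, sub_mul, R_mul (by omega) _ _ (A (M + 1)), R_mul m1 _ _ (A M)] at hm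
      have e1 := abs_le.1 ((abs_frac ha (δ M)).trans (h0 M (by omega)).1.le)
      have e2 := abs_le.1 ((abs_frac ha (δ (M + 1))).trans (h0 (M + 1) (by omega)).1.le)
      simp only [δ] at e1 e2
      push_cast
      rw [mul_sub, sub_div]
      rw [abs_lt] at hm ⊢
      constructor <;> linarith
  obtain ⟨s0, s1, s2⟩ : ∃ s, N0 ≤ s ∧ c s ≠ 0 := by
    by_contra hcon
    push Not at hcon
    have e0 : 0 < |δ N0| := abs_pos.2 fun e =>
      ((hθ.natCast_mul (q_pos N0).ne').sub_intCast (A N0)).ne_zero e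
    have e1 : ∀ N, N0 ≤ N → |δ N0| ≤ |δ N| := fun N hN => by
      induction N, hN using Nat.le_induction with
      | base => exact le_rfl
      | succ N hN ih =>
        have := hc N
        rw [hcon N hN, Int.cast_zero] at this
        have p2 : (2 : ℝ) ≤ d N := by exact_mod_cast (d_prime N).two_le
        rw [show δ (N + 1) = d N * δ N by linarith, abs_mul,
          abs_of_pos (by linarith : (0 : ℝ) < d N)]
        nlinarith [abs_nonneg (δ N)]
    obtain ⟨N1, h1⟩ := H _ e0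
    exact absurd (h1 (N0 + N1) (by omega)).1 (not_lt.2 (e1 _ (by omega)))
  obtain ⟨y, hy⟩ := exists_branch
    (P := fun l => ∃ s, N0 ≤ s ∧ c s ≠ 0 ∧ tt T (L s) = true ∧ l <:+ L s) (by
      obtain ⟨M, a1, a2, a3, -⟩ := step s0 s1 s2
      exact ⟨M, by omega, a2, a3, List.nil_suffix⟩) (by
      rintro l ⟨s, a1, a2, a3, pre, a4⟩
      rcases List.eq_nil_or_concat pre with rfl | ⟨pre', m, rfl⟩
      · obtain ⟨M, b1, b2, b3, b4⟩ := step s a1 a2
        obtain ⟨M, rfl⟩ : ∃ M', M = M' + 1 := ⟨M - 1, by omega⟩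
        have e : L (M + 1) = _ := Denumerable.list_ofNat_succ M
        refine ⟨Denumerable.ofNat ℕ (Nat.unpair M).1, M + 1, by omega, b2, b3, ?_⟩
        rw [e] at b4 ⊢
        rw [List.tail_cons] at b4
        rw [b4, ← a4]
        exact List.suffix_refl _
      · exact ⟨m, s, a1, a2, a3, pre', by rw [← a4]; simp⟩)
  exact ⟨y, fun n => by obtain ⟨s, -, -, a3, a4⟩ := hy n; exact tt_suffix a3 a4⟩

end Pool.Agent.H47.Rot
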