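import Mathlib

set_option autoImplicit false

namespace Pool.Agent.H47.SumFree

/-! An aperiodic complete sum-free set.  Modulo 70, nine residue classes are taken in full,
four small exceptional integers are added, and the three classes 10, 20, 40 are switched on in turn
on dyadic scales. -/

def EL : List ℕ := [16, 18, 21, 33]
def FL : List ℕ := [8, 9, 23, 37, 51, 52, 54, 65, 66]
def VL : List ℕ := [10, 20, 40]
def CL : List ℕ := [16, 18, 21, 33, 10, 90, 40, 78, 79, 93, 107, 121, 122, 124, 135, 136]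

/-- The set built from three predicates on the quotient by 70. -/
def SS (A B C : ℕ → Prop) : Set ℕ :=
  {n | n ∈ EL ∨ (70 ≤ n ∧ n % 70 ∈ FL) ∨
    ((n % 70 = 10 ∧ A (n / 70)) ∨ (n % 70 = 20 ∧ B (n / 70)) ∨ (n % 70 = 40 ∧ C (n / 70)))}

lemma h1 : ∀ a ∈ FL, ∀ b ∈ EL ++ FL ++ VL, (a + b) % 70 ∉ FL ++ VL := by decide
lemma h2 : ∀ a ∈ EL, ∀ b ∈ VL, (a + b) % 70 ∉ EL ++ FL ++ VL := by decide
lemma h3 : ∀ a ∈ EL, ∀ b ∈ EL, a + b ∉ EL ∧ a + b < 70 ∧ (a + b) % 70 ∉ VL := by decide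
lemma h4 : ∀ a ∈ VL, ∀ b ∈ VL, (a + b) % 70 ∉ EL ++ FL := by decide
lemma hE : ∀ a ∈ EL, a < 70 ∧ 0 < a := by decide
lemma hcov : ∀ z < 70, z ∈ FL ∨ z ∈ VL ∨ ∃ a ∈ CL, (z + 140 - a) % 70 ∈ FL := by decide
lemma hCL : ∀ a ∈ CL, a < 140 ∧ (a ∈ EL ∨ (70 ≤ a ∧ a % 70 ∈ FL) ∨ a = 10 ∨ a = 90 ∨ a = 40) := by
  decide
lemma hV10 : 10 ∉ EL ++ FL := by decide

variable {A B C : ℕ → Prop}

lemma res_mem {n : ℕ} (h : n ∈ SS A B C) : n % 70 ∈ EL ++ FL ++ VL := by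
  rcases h with h | h | h
  · have := (hE n h).1
    rw [Nat.mod_eq_of_lt this]
    simp [h]
  · simp [h.2]
  · rcases h with h | h | h <;> simp [h.1, VL]

lemma pos_of_mem {n : ℕ} (h : n ∈ SS A B C) : 0 < n := by
  rcases h with h | h | h
  · exact (hE n h).2
  · omega
  · rcases h with h | h | h <;> omega

lemma memV {n : ℕ}
    (h : (n % 70 = 10 ∧ A (n / 70)) ∨ (n % 70 = 20 ∧ B (n / 70)) ∨ (n % 70 = 40 ∧ C (n / 70))) :
    n % 70 ∈ VL := by
  rcases h with h | h | h <;> simp [h.1, VL]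

lemma notF {s t : ℕ} (hs : 70 ≤ s ∧ s % 70 ∈ FL) (ht : t ∈ SS A B C) : s + t ∉ SS A B C := by
  intro hst
  have e : (s + t) % 70 = (s % 70 + t % 70) % 70 := Nat.add_mod _ _ _
  have k := h1 _ hs.2 _ (res_mem ht)
  rw [← e] at k
  rcases hst with h | h | h
  · have := (hE _ h).1
    omega
  · exact k (by simp [h.2])
  · exact k (by simp [memV h])

lemma notEV {s t : ℕ} (hs : s ∈ EL) (ht : t % 70 ∈ VL) : s + t ∉ SS A B C := by
  intro hst
  have e : (s + t) % 70 = (s + t % 70) % 70 := by omega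
  have k := h2 _ hs _ ht
  rw [← e] at k
  exact k (res_mem hst)

/-- A sum inside the set can only come from one of the three doubling relations. -/
lemma sum_cases {s t : ℕ} (hs : s ∈ SS A B C) (ht : t ∈ SS A B C) (hst : s + t ∈ SS A B C) :
    (s % 70 = 10 ∧ t % 70 = 10 ∧ A (s / 70) ∧ A (t / 70) ∧ B (s / 70 + t / 70)) ∨
    (s % 70 = 20 ∧ t % 70 = 20 ∧ B (s / 70) ∧ B (t / 70) ∧ C (s / 70 + t / 70)) ∨
    (s % 70 = 40 ∧ t % 70 = 40 ∧ C (s / 70) ∧ C (t / 70) ∧ A (s / 70 + t / 70 + 1)) := by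
  rcases hs with hs | hs | hs
  · rcases ht with ht | ht | ht
    · exfalso
      obtain ⟨k1, k2, k3⟩ := h3 _ hs _ ht
      rcases hst with h | h | h
      · exact k1 h
      · omega
      · exact k3 (memV h)
    · exfalso
      rw [add_comm] at hst
      exact notF ht (Or.inl hs) hst
    · exact absurd hst (notEV hs (memV ht))
  · exact absurd hst (notF hs ht)
  · rcases ht with ht | ht | ht
    · exfalso
      rw [add_comm] at hst
      exact notEV ht (memV hs) hst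
    · exfalso
      rw [add_comm] at hst
      exact notF ht (Or.inr (Or.inr hs)) hst
    · have e : (s + t) % 70 = (s % 70 + t % 70) % 70 := Nat.add_mod _ _ _
      have k := h4 _ (memV hs) _ (memV ht)
      rw [← e] at k
      rcases hst with h | h | h
      · exfalso
        have := (hE _ h).1
        rw [Nat.mod_eq_of_lt this] at k
        exact k (by simp [h])
      · exact absurd (by simp [h.2]) k
      · rcases hs with hs | hs | hs <;> rcases ht with ht | ht | ht <;>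
          rcases h with h | h | h <;> (try (exfalso; omega))
        · left
          have : (s + t) / 70 = s / 70 + t / 70 := by omega
          exact ⟨hs.1, ht.1, hs.2, ht.2, this ▸ h.2⟩
        · right; left
          have : (s + t) / 70 = s / 70 + t / 70 := by omega
          exact ⟨hs.1, ht.1, hs.2, ht.2, this ▸ h.2⟩
        · right; right
          have : (s + t) / 70 = s / 70 + t / 70 + 1 := by omega
          exact ⟨hs.1, ht.1, hs.2, ht.2, this ▸ h.2⟩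

lemma mem10 {t : ℕ} (h : A t) : 70 * t + 10 ∈ SS A B C := by
  right; right; left
  have : (70 * t + 10) / 70 = t := by omega
  exact ⟨by omega, by rw [this]; exact h⟩

lemma mem20 {t : ℕ} (h : B t) : 70 * t + 20 ∈ SS A B C := by
  right; right; right; left
  have : (70 * t + 20) / 70 = t := by omega
  exact ⟨by omega, by rw [this]; exact h⟩

lemma mem40 {t : ℕ} (h : C t) : 70 * t + 40 ∈ SS A B C := by
  right; right; right; right
  have : (70 * t + 40) / 70 = t := by omega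
  exact ⟨by omega, by rw [this]; exact h⟩

lemma of_mem10 {t : ℕ} (h : 70 * t + 10 ∈ SS A B C) : A t := by
  have e : (70 * t + 10) % 70 = 10 := by omega
  have e2 : (70 * t + 10) / 70 = t := by omega
  rcases h with h | h | h
  · exfalso
    have := (hE _ h).1
    have t0 : t = 0 := by omega
    subst t0
    exact hV10 (by simpa using Or.inl h)
  · exfalso
    rw [e] at h
    exact hV10 (by simp [h.2])
  · rcases h with h | h | h
    · rw [e2] at h; exact h.2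
    · omega
    · omega

/-- A large integer outside the set is a sum of two distinct elements, or lies in one of the three
switched classes. -/
lemma cover (hA : A 0) (hB : B 1) (hC : C 0) {n : ℕ} (hn : 280 ≤ n) (h : n ∉ SS A B C) :
    (∃ s ∈ SS A B C, ∃ t ∈ SS A B C, s < t ∧ s + t = n) ∨
    (n % 70 = 10 ∧ ¬ A (n / 70)) ∨ (n % 70 = 20 ∧ ¬ B (n / 70)) ∨ (n % 70 = 40 ∧ ¬ C (n / 70)) := by
  rcases hcov (n % 70) (Nat.mod_lt _ (by norm_num)) with k | k | ⟨a, ha, k⟩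
  · exact absurd (Or.inr (Or.inl ⟨by omega, k⟩)) h
  · right
    simp only [VL, List.mem_cons, List.not_mem_nil, or_false] at k
    rcases k with k | k | k
    · left; exact ⟨k, fun q => h (Or.inr (Or.inr (Or.inl ⟨k, q⟩)))⟩
    · right; left; exact ⟨k, fun q => h (Or.inr (Or.inr (Or.inr (Or.inl ⟨k, q⟩))))⟩
    · right; right; exact ⟨k, fun q => h (Or.inr (Or.inr (Or.inr (Or.inr ⟨k, q⟩))))⟩
  · left
    obtain ⟨a1, a2⟩ := hCL a ha
    refine ⟨a, ?_, n - a, ?_, by omega, by omega⟩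
    · rcases a2 with q | q | q | q | q
      · exact Or.inl q
      · exact Or.inr (Or.inl q)
      · subst q; exact mem10 (t := 0) hA
      · subst q; exact mem20 (t := 1) hB
      · subst q; exact mem40 (t := 0) hC
    · have e : (n - a) % 70 = (n % 70 + 140 - a) % 70 := by omega
      exact Or.inr (Or.inl ⟨by omega, by rw [e]; exact k⟩)

lemma infinite_SS : (SS A B C).Infinite := by
  apply Set.infinite_of_not_bddAbove
  rintro ⟨b, hb⟩
  have : 70 * (b + 1) + 8 ∈ SS A B C := by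
    right; left
    have e : (70 * (b + 1) + 8) % 70 = 8 := by omega
    exact ⟨by omega, by rw [e]; decide⟩
  have := hb this
  omega

/-- Forward periodicity. -/
def FwdPer (S : Set ℕ) : Prop := ∃ D, 0 < D ∧ ∃ N, ∀ x, N ≤ x → x ∈ S → x + D ∈ S

lemma fwd_iter {S : Set ℕ} {D N : ℕ} (h : ∀ x, N ≤ x → x ∈ S → x + D ∈ S) {x : ℕ} (hx : N ≤ x)
    (hS : x ∈ S) (k : ℕ) : x + k * D ∈ S := by
  induction k with
  | zero => simpa using hS
  | succ k ih =>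
    have := h (x + k * D) (by omega) ih
    have e : x + (k + 1) * D = x + k * D + D := by ring
    rw [e]; exact this

lemma not_fwdPer (hA : ∀ D, 0 < D → ∀ N, ∃ t, N ≤ t ∧ A t ∧ ¬ A (t + D)) :
    ¬ FwdPer (SS A B C) := by
  rintro ⟨D, hD, N, h⟩
  obtain ⟨t, ht, h1, h2⟩ := hA D hD N
  have k := fwd_iter h (x := 70 * t + 10) (by omega) (mem10 h1) 70
  have e : 70 * t + 10 + 70 * D = 70 * (t + D) + 10 := by ring
  rw [e] at k
  exact h2 (of_mem10 k)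

/-! Powers of eight. -/

lemma pow_tri (i j : ℕ) : 8 * 8 ^ i ≤ 8 ^ j ∨ 8 ^ i = 8 ^ j ∨ 8 * 8 ^ j ≤ 8 ^ i := by
  rcases lt_trichotomy i j with h | h | h
  · left
    have : 8 ^ (i + 1) ≤ 8 ^ j := Nat.pow_le_pow_right (by norm_num) h
    rw [pow_succ] at this; omega
  · right; left; rw [h]
  · right; right
    have : 8 ^ (j + 1) ≤ 8 ^ i := Nat.pow_le_pow_right (by norm_num) h
    rw [pow_succ] at this; omega

lemma pow_pos8 (i : ℕ) : 1 ≤ 8 ^ i := Nat.one_le_pow _ _ (by norm_num)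

lemma lt_pow8 (i : ℕ) : i < 8 ^ i := Nat.lt_pow_self (by norm_num)

lemma exists_scale {t : ℕ} (ht : 1 ≤ t) : ∃ k, 8 ^ k ≤ t ∧ t < 8 * 8 ^ k := by
  refine ⟨Nat.log 8 t, Nat.pow_log_le_self 8 (by omega), ?_⟩
  have := Nat.lt_pow_succ_log_self (b := 8) (by norm_num) t
  rw [pow_succ] at this; omega

/-! The switched classes when repeated summands are allowed. -/

def X1 (t : ℕ) : Prop := t = 0 ∨ ∃ i : ℕ, 4 * 8 ^ i ≤ t ∧ t < 8 * 8 ^ i
def X2 (t : ℕ) : Prop := ∃ i : ℕ, 2 * 8 ^ i ≤ t + 1 ∧ t + 1 ≤ 4 * 8 ^ i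
def X4 (t : ℕ) : Prop := ∃ i : ℕ, 8 ^ i ≤ t + 1 ∧ t + 1 ≤ 2 * 8 ^ i

lemma X_ex1 {a b : ℕ} (ha : X1 a) (hb : X1 b) : ¬ X2 (a + b) := by
  rintro ⟨k, h1, h2⟩
  have pk := pow_pos8 k
  rcases ha with ha | ⟨i, ha⟩ <;> rcases hb with hb | ⟨j, hb⟩
  · omega
  · have := pow_tri j k; omega
  · have := pow_tri i k; omega
  · have := pow_tri i k; have := pow_tri j k
    have := pow_pos8 i; have := pow_pos8 j; omega

lemma X_ex2 {a b : ℕ} (ha : X2 a) (hb : X2 b) : ¬ X4 (a + b) := by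
  rintro ⟨k, h1, h2⟩
  obtain ⟨i, ha⟩ := ha
  obtain ⟨j, hb⟩ := hb
  have := pow_tri i k; have := pow_tri j k
  have := pow_pos8 i; have := pow_pos8 j; have := pow_pos8 k; omega

lemma X_ex4 {a b : ℕ} (ha : X4 a) (hb : X4 b) : ¬ X1 (a + b + 1) := by
  rintro (h | ⟨k, h1, h2⟩)
  · omega
  obtain ⟨i, ha⟩ := ha
  obtain ⟨j, hb⟩ := hb
  have := pow_tri i k; have := pow_tri j k
  have := pow_pos8 i; have := pow_pos8 j; have := pow_pos8 k; omega

lemma X1_zero : X1 0 := Or.inl rfl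
lemma X2_one : X2 1 := ⟨0, by norm_num, by norm_num⟩
lemma X4_zero : X4 0 := ⟨0, by norm_num, by norm_num⟩

lemma X_cov2 {t : ℕ} (h : ¬ X2 t) : ∃ a b, X1 a ∧ X1 b ∧ a + b = t := by
  obtain ⟨k, h1, h2⟩ := exists_scale (t := t + 1) (by omega)
  have hk : ¬ (2 * 8 ^ k ≤ t + 1 ∧ t + 1 ≤ 4 * 8 ^ k) := fun q => h ⟨k, q⟩
  by_cases c : 4 * 8 ^ k ≤ t
  · exact ⟨0, t, X1_zero, Or.inr ⟨k, c, by omega⟩, by omega⟩
  · rcases k with _ | k
    · exact ⟨0, 0, X1_zero, X1_zero, by simp at *; omega⟩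
    · rw [pow_succ] at *
      have := pow_pos8 k
      by_cases c2 : t < 8 * 8 ^ k
      · exact ⟨0, t, X1_zero, Or.inr ⟨k, by omega, c2⟩, by omega⟩
      · exact ⟨t / 2, t - t / 2, Or.inr ⟨k, by omega, by omega⟩, Or.inr ⟨k, by omega, by omega⟩,
          by omega⟩

lemma X_cov4 {t : ℕ} (h : ¬ X4 t) : ∃ a b, X2 a ∧ X2 b ∧ a + b = t := by
  obtain ⟨k, h1, h2⟩ := exists_scale (t := t + 1) (by omega)
  have hk : ¬ (8 ^ k ≤ t + 1 ∧ t + 1 ≤ 2 * 8 ^ k) := fun q => h ⟨k, q⟩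
  have := pow_pos8 k
  by_cases c : t ≤ 4 * 8 ^ k
  · exact ⟨1, t - 1, X2_one, ⟨k, by omega, by omega⟩, by omega⟩
  · exact ⟨t / 2, t - t / 2, ⟨k, by omega, by omega⟩, ⟨k, by omega, by omega⟩, by omega⟩

lemma X_cov1 {t : ℕ} (h : ¬ X1 t) : ∃ a b, X4 a ∧ X4 b ∧ a + b + 1 = t := by
  have t0 : t ≠ 0 := fun q => h (Or.inl q)
  obtain ⟨k, h1, h2⟩ := exists_scale (t := t) (by omega)
  have hk : ¬ (4 * 8 ^ k ≤ t ∧ t < 8 * 8 ^ k) := fun q => h (Or.inr ⟨k, q⟩)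
  have := pow_pos8 k
  by_cases c : t ≤ 2 * 8 ^ k
  · exact ⟨0, t - 1, X4_zero, ⟨k, by omega, by omega⟩, by omega⟩
  · exact ⟨(t - 1) / 2, t - 1 - (t - 1) / 2, ⟨k, by omega, by omega⟩, ⟨k, by omega, by omega⟩,
      by omega⟩

lemma X1_aper : ∀ D, 0 < D → ∀ N, ∃ t, N ≤ t ∧ X1 t ∧ ¬ X1 (t + D) := by
  intro D hD N
  have l := lt_pow8 (D + N)
  refine ⟨8 * 8 ^ (D + N) - 1, by omega, Or.inr ⟨D + N, by omega, by omega⟩, ?_⟩
  rintro (h | ⟨k, h1, h2⟩)
  · omega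
  · have := pow_tri (D + N) k; omega

/-- The aperiodic complete sum-free set. -/
def SD : Set ℕ := SS X1 X2 X4

theorem SD_sumfree {s t : ℕ} (hs : s ∈ SD) (ht : t ∈ SD) : s + t ∉ SD := by
  intro hst
  rcases sum_cases hs ht hst with h | h | h
  · exact X_ex1 h.2.2.1 h.2.2.2.1 h.2.2.2.2
  · exact X_ex2 h.2.2.1 h.2.2.2.1 h.2.2.2.2
  · exact X_ex4 h.2.2.1 h.2.2.2.1 h.2.2.2.2

theorem SD_complete {n : ℕ} (hn : 280 ≤ n) (h : n ∉ SD) : ∃ s ∈ SD, ∃ t ∈ SD, s + t = n := by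
  rcases cover X1_zero X2_one X4_zero hn h with ⟨s, hs, t, ht, _, e⟩ | k | k | k
  · exact ⟨s, hs, t, ht, e⟩
  · obtain ⟨a, b, ha, hb, e⟩ := X_cov1 k.2
    exact ⟨_, mem40 ha, _, mem40 hb, by omega⟩
  · obtain ⟨a, b, ha, hb, e⟩ := X_cov2 k.2
    exact ⟨_, mem10 ha, _, mem10 hb, by omega⟩
  · obtain ⟨a, b, ha, hb, e⟩ := X_cov4 k.2
    exact ⟨_, mem20 ha, _, mem20 hb, by omega⟩

theorem SD_aper : ¬ FwdPer SD := not_fwdPer X1_aper

theorem SD_pos {n : ℕ} (h : n ∈ SD) : 0 < n := pos_of_mem h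

theorem SD_inf : SD.Infinite := infinite_SS

/-! The switched classes when the summands must be distinct. -/

def Y1 (t : ℕ) : Prop := t = 0 ∨ ∃ i : ℕ, 4 * 8 ^ i + 1 ≤ t ∧ t ≤ 8 * 8 ^ i
def Y2 (t : ℕ) : Prop := t = 1 ∨ ∃ i : ℕ, 2 * 8 ^ i ≤ t ∧ t ≤ 4 * 8 ^ i
def Y4 (t : ℕ) : Prop := t = 0 ∨ ∃ i : ℕ, 8 ^ i ≤ t ∧ t ≤ 2 * 8 ^ i

lemma Y_ex1 {a b : ℕ} (hab : a ≠ b) (ha : Y1 a) (hb : Y1 b) : ¬ Y2 (a + b) := by
  rcases ha with ha | ⟨i, ha⟩ <;> rcases hb with hb | ⟨j, hb⟩ <;> rintro (h | ⟨k, h⟩)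
  · omega
  · omega
  · have := pow_pos8 j; omega
  · have := pow_tri j k; have := pow_pos8 j; omega
  · have := pow_pos8 i; omega
  · have := pow_tri i k; have := pow_pos8 i; omega
  · have := pow_pos8 i; omega
  · have := pow_tri i k; have := pow_tri j k
    have := pow_pos8 i; have := pow_pos8 j; omega

lemma Y_ex2 {a b : ℕ} (hab : a ≠ b) (ha : Y2 a) (hb : Y2 b) : ¬ Y4 (a + b) := by
  rcases ha with ha | ⟨i, ha⟩ <;> rcases hb with hb | ⟨j, hb⟩ <;> rintro (h | ⟨k, h⟩)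
  · omega
  · omega
  · omega
  · have := pow_tri j k; have := pow_pos8 j; omega
  · omega
  · have := pow_tri i k; have := pow_pos8 i; omega
  · have := pow_pos8 i; omega
  · have := pow_tri i k; have := pow_tri j k
    have := pow_pos8 i; have := pow_pos8 j; omega

lemma Y_ex4 {a b : ℕ} (hab : a ≠ b) (ha : Y4 a) (hb : Y4 b) : ¬ Y1 (a + b + 1) := by
  rcases ha with ha | ⟨i, ha⟩ <;> rcases hb with hb | ⟨j, hb⟩ <;> rintro (h | ⟨k, h⟩)
  · omega
  · omega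
  · omega
  · have := pow_tri j k; have := pow_pos8 j; omega
  · omega
  · have := pow_tri i k; have := pow_pos8 i; omega
  · omega
  · have := pow_tri i k; have := pow_tri j k
    have := pow_pos8 i; have := pow_pos8 j; omega

lemma Y1_zero : Y1 0 := Or.inl rfl
lemma Y2_one : Y2 1 := Or.inl rfl
lemma Y4_zero : Y4 0 := Or.inl rfl
lemma Y1_five : Y1 5 := Or.inr ⟨0, by norm_num, by norm_num⟩

lemma Y_cov2 {t : ℕ} (ht : 16 ≤ t) (h : ¬ Y2 t) : ∃ a b, a < b ∧ Y1 a ∧ Y1 b ∧ a + b = t := by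
  obtain ⟨k, h1, h2⟩ := exists_scale (t := t) (by omega)
  have hk : ¬ (2 * 8 ^ k ≤ t ∧ t ≤ 4 * 8 ^ k) := fun q => h (Or.inr ⟨k, q⟩)
  by_cases c : 4 * 8 ^ k + 1 ≤ t
  · exact ⟨0, t, by omega, Y1_zero, Or.inr ⟨k, c, by omega⟩, by omega⟩
  · rcases k with _ | k
    · simp at *; omega
    · rw [pow_succ] at *
      have p8 : 8 ^ k = 1 ∨ 8 ≤ 8 ^ k := by
        have := pow_tri 0 k
        have := pow_pos8 k
        simp at *; omega
      by_cases c2 : t ≤ 8 * 8 ^ k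
      · exact ⟨0, t, by omega, Y1_zero, Or.inr ⟨k, by omega, c2⟩, by omega⟩
      · by_cases c3 : t ≤ 8 * 8 ^ k + 5
        · exact ⟨5, t - 5, by omega, Y1_five, Or.inr ⟨k, by omega, by omega⟩, by omega⟩
        · exact ⟨(t - 1) / 2, t - (t - 1) / 2, by omega, Or.inr ⟨k, by omega, by omega⟩,
            Or.inr ⟨k, by omega, by omega⟩, by omega⟩

lemma Y2_two : Y2 2 := Or.inr ⟨0, by norm_num, by norm_num⟩

lemma Y_cov4 {t : ℕ} (ht : 16 ≤ t) (h : ¬ Y4 t) : ∃ a b, a < b ∧ Y2 a ∧ Y2 b ∧ a + b = t := by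
  obtain ⟨k, h1, h2⟩ := exists_scale (t := t) (by omega)
  have hk : ¬ (8 ^ k ≤ t ∧ t ≤ 2 * 8 ^ k) := fun q => h (Or.inr ⟨k, q⟩)
  have := pow_pos8 k
  by_cases c : t ≤ 4 * 8 ^ k + 1
  · exact ⟨1, t - 1, by omega, Y2_one, Or.inr ⟨k, by omega, by omega⟩, by omega⟩
  · exact ⟨(t - 1) / 2, t - (t - 1) / 2, by omega, Or.inr ⟨k, by omega, by omega⟩,
      Or.inr ⟨k, by omega, by omega⟩, by omega⟩

lemma Y_cov1 {t : ℕ} (ht : 16 ≤ t) (h : ¬ Y1 t) :
    ∃ a b, a < b ∧ Y4 a ∧ Y4 b ∧ a + b + 1 = t := by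
  obtain ⟨k, h1, h2⟩ := exists_scale (t := t - 1) (by omega)
  have hk : ¬ (4 * 8 ^ k + 1 ≤ t ∧ t ≤ 8 * 8 ^ k) := fun q => h (Or.inr ⟨k, q⟩)
  have := pow_pos8 k
  by_cases c : t ≤ 2 * 8 ^ k + 1
  · exact ⟨0, t - 1, by omega, Y4_zero, Or.inr ⟨k, by omega, by omega⟩, by omega⟩
  · exact ⟨(t - 2) / 2, t - 1 - (t - 2) / 2, by omega, Or.inr ⟨k, by omega, by omega⟩,
      Or.inr ⟨k, by omega, by omega⟩, by omega⟩

lemma Y1_aper : ∀ D, 0 < D → ∀ N, ∃ t, N ≤ t ∧ Y1 t ∧ ¬ Y1 (t + D) := by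
  intro D hD N
  have l := lt_pow8 (D + N)
  refine ⟨8 * 8 ^ (D + N), by omega, Or.inr ⟨D + N, by omega, by omega⟩, ?_⟩
  rintro (h | ⟨k, h1, h2⟩)
  · omega
  · have := pow_tri (D + N) k; omega

/-- The aperiodic set for the rule with distinct summands. -/
def SQ : Set ℕ := SS Y1 Y2 Y4

theorem SQ_sumfree {s t : ℕ} (hne : s ≠ t) (hs : s ∈ SQ) (ht : t ∈ SQ) : s + t ∉ SQ := by
  intro hst
  rcases sum_cases hs ht hst with h | h | h
  · exact Y_ex1 (by omega) h.2.2.1 h.2.2.2.1 h.2.2.2.2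
  · exact Y_ex2 (by omega) h.2.2.1 h.2.2.2.1 h.2.2.2.2
  · exact Y_ex4 (by omega) h.2.2.1 h.2.2.2.1 h.2.2.2.2

theorem SQ_complete {n : ℕ} (hn : 1120 ≤ n) (h : n ∉ SQ) :
    ∃ s ∈ SQ, ∃ t ∈ SQ, s < t ∧ s + t = n := by
  rcases cover Y1_zero Y2_one Y4_zero (by omega) h with k | k | k | k
  · exact k
  · obtain ⟨a, b, hab, ha, hb, e⟩ := Y_cov1 (by omega) k.2
    exact ⟨_, mem40 ha, _, mem40 hb, by omega, by omega⟩
  · obtain ⟨a, b, hab, ha, hb, e⟩ := Y_cov2 (by omega) k.2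
    exact ⟨_, mem10 ha, _, mem10 hb, by omega, by omega⟩
  · obtain ⟨a, b, hab, ha, hb, e⟩ := Y_cov4 (by omega) k.2
    exact ⟨_, mem20 ha, _, mem20 hb, by omega, by omega⟩

theorem SQ_aper : ¬ FwdPer SQ := not_fwdPer Y1_aper

theorem SQ_pos {n : ℕ} (h : n ∈ SQ) : 0 < n := pos_of_mem h

theorem SQ_inf : SQ.Infinite := infinite_SS

/-! From a set to its increasing enumeration. -/

lemma fwdPer_of_diff {S : Set ℕ} (hS : S.Infinite) {p N : ℕ} (hp : 0 < p)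
    (h : ∀ n, N ≤ n → ((Nat.nth (· ∈ S) (n + p + 1) : ℤ) - (Nat.nth (· ∈ S) (n + p) : ℤ)) =
      ((Nat.nth (· ∈ S) (n + 1) : ℤ) - (Nat.nth (· ∈ S) n : ℤ))) : FwdPer S := by
  have hS' : (Set.ofPred (· ∈ S)).Infinite := hS
  have mono := Nat.nth_strictMono hS'
  have key : ∀ k, (Nat.nth (· ∈ S) (N + k + p) : ℤ) - (Nat.nth (· ∈ S) (N + k) : ℤ) =
      (Nat.nth (· ∈ S) (N + p) : ℤ) - (Nat.nth (· ∈ S) N : ℤ) := by
    intro k
    induction k with
    | zero => simp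
    | succ k ih =>
      have := h (N + k) (by omega)
      have e1 : N + (k + 1) + p = N + k + p + 1 := by ring
      have e2 : N + (k + 1) = N + k + 1 := by ring
      rw [e1, e2]; omega
  have lt : Nat.nth (· ∈ S) N < Nat.nth (· ∈ S) (N + p) := mono (by omega)
  refine ⟨Nat.nth (· ∈ S) (N + p) - Nat.nth (· ∈ S) N, by omega, Nat.nth (· ∈ S) N, ?_⟩
  intro x hx hxS
  obtain ⟨i, hi⟩ : ∃ i, Nat.nth (· ∈ S) i = x := by
    have : x ∈ Set.range (Nat.nth (· ∈ S)) := by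
      rw [Nat.range_nth_of_infinite hS']; exact hxS
    exact this
  have hNi : N ≤ i := by
    rw [← hi] at hx
    exact mono.le_iff_le.mp hx
  obtain ⟨k, rfl⟩ := Nat.exists_eq_add_of_le hNi
  have k1 := key k
  have : x + (Nat.nth (· ∈ S) (N + p) - Nat.nth (· ∈ S) N) = Nat.nth (· ∈ S) (N + k + p) := by
    omega
  rw [this]
  exact Nat.nth_mem_of_infinite hS' _

lemma exists_index {S : Set ℕ} (hS : S.Infinite) {x n : ℕ} (hx : x ∈ S)
    (hlt : x < Nat.nth (· ∈ S) (n + 1)) : ∃ i, i ≤ n ∧ Nat.nth (· ∈ S) i = x := by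
  have hS' : (Set.ofPred (· ∈ S)).Infinite := hS
  have mono := Nat.nth_strictMono hS'
  obtain ⟨i, hi⟩ : ∃ i, Nat.nth (· ∈ S) i = x := by
    have : x ∈ Set.range (Nat.nth (· ∈ S)) := by
      rw [Nat.range_nth_of_infinite hS']; exact hx
    exact this
  refine ⟨i, ?_, hi⟩
  rw [← hi] at hlt
  have := mono.lt_iff_lt.mp hlt
  omega

lemma not_mem_between {S : Set ℕ} (hS : S.Infinite) {x n : ℕ}
    (h1 : Nat.nth (· ∈ S) n < x) (h2 : x < Nat.nth (· ∈ S) (n + 1)) : x ∉ S := by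
  intro hx
  have hS' : (Set.ofPred (· ∈ S)).Infinite := hS
  have mono := Nat.nth_strictMono hS'
  obtain ⟨i, hi, e⟩ := exists_index hS hx h2
  rw [← e] at h1
  have := mono.lt_iff_lt.mp h1
  omega

lemma le_nth' {S : Set ℕ} (hS : S.Infinite) (n : ℕ) : n ≤ Nat.nth (· ∈ S) n := by
  have hS' : (Set.ofPred (· ∈ S)).Infinite := hS
  exact (Nat.nth_strictMono hS').le_apply

lemma nth_mem' {S : Set ℕ} (hS : S.Infinite) (n : ℕ) : Nat.nth (· ∈ S) n ∈ S := by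
  have hS' : (Set.ofPred (· ∈ S)).Infinite := hS
  exact Nat.nth_mem_of_infinite hS' n

lemma nth_mono' {S : Set ℕ} (hS : S.Infinite) : StrictMono (Nat.nth (· ∈ S)) := by
  have hS' : (Set.ofPred (· ∈ S)).Infinite := hS
  exact Nat.nth_strictMono hS'

end Pool.Agent.H47.SumFree
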