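import Mathlib

namespace Pool.Agent.H47.TreeDefs

inductive Fm : Type
  | var : ℕ → Fm
  | neg : Fm → Fm
  | and : Fm → Fm → Fm
  | or : Fm → Fm → Fm
  | imp : Fm → Fm → Fm

/-- a node: its label, the positions of its inputs on the branch, the position of its partner -/
structure Node : Type where
  lab : Fm
  inp : List ℕ
  partner : Option ℕ

/-- `B` has a node labelled `φ` at position `i` -/
def At (B : List Node) (i : ℕ) (φ : Fm) : Prop := ∃ n, B[i]? = some n ∧ n.lab = φ

/-- the trace of a set of positions -/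
inductive Trace (B : List Node) (Z : Set ℕ) : ℕ → Prop
  | base {z} : z ∈ Z → Trace B Z z
  | step {m n i} : Trace B Z m → B[m]? = some n → i ∈ n.inp → Trace B Z i

def Crashes (B : List Node) : Prop :=
  ∃ z z' ζ, At B z ζ ∧ At B z' ζ.neg ∧
    ∀ c n p, B[c]? = some n → n.partner = some p → (Trace B {z, z'} c ↔ Trace B {z, z'} p)

/-- the branch `B` extends to a finite tree all of whose branches crash with parity -/
inductive Closed : List Node → Prop
  | crash {B} : Crashes B → Closed B
  | and {B i φ ψ} : At B i (.and φ ψ) → Closed (B ++ [⟨φ, [i], none⟩, ⟨ψ, [i], none⟩]) → Closed B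
  | nor {B i φ ψ} : At B i (.neg (.or φ ψ)) →
      Closed (B ++ [⟨φ.neg, [i], none⟩, ⟨ψ.neg, [i], none⟩]) → Closed B
  | dneg {B i φ} : At B i (.neg (.neg φ)) → Closed (B ++ [⟨φ, [i], none⟩]) → Closed B
  | nand {B i φ ψ} : At B i (.neg (.and φ ψ)) → Closed (B ++ [⟨φ.neg, [i], none⟩]) →
      Closed (B ++ [⟨ψ.neg, [i], none⟩]) → Closed B
  | or {B i φ ψ} : At B i (.or φ ψ) → Closed (B ++ [⟨φ, [i], none⟩]) →
      Closed (B ++ [⟨ψ, [i], none⟩]) → Closed B
  | mp {B i j φ ψ} : At B i φ → At B j (.imp φ ψ) → Closed (B ++ [⟨ψ, [i, j], none⟩]) → Closed B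
  | cc {B i φ ψ} : At B i (.neg (.imp φ ψ)) →
      Closed (B ++ [⟨φ, [i], some (B.length + 1)⟩, ⟨ψ.neg, [i], some B.length⟩]) → Closed B
  | recur {B i χ θ} : At B i χ → Closed [⟨.neg (.imp χ θ), [], none⟩] →
      Closed (B ++ [⟨θ, [i], none⟩]) → Closed B

def Acceptable (φ : Fm) : Prop := Closed [⟨φ.neg, [], none⟩]

def letters : Fm → Finset ℕ
  | .var n => {n}
  | .neg a => letters a
  | .and a b => letters a ∪ letters b
  | .or a b => letters a ∪ letters b
  | .imp a b => letters a ∪ letters b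

/-- classical value, reading the arrow materially -/
def cval (v : ℕ → Bool) : Fm → Bool
  | .var n => v n
  | .neg a => !cval v a
  | .and a b => cval v a && cval v b
  | .or a b => cval v a || cval v b
  | .imp a b => !cval v a || cval v b

end Pool.Agent.H47.TreeDefs
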