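import Mathlib
import Pool.Agent.H47.TreeDefs

namespace Pool.Agent.H47.Tree
open Pool.Agent.H47.TreeDefs

/-- the crystal lattice: 0 = bottom, 1 = t, 2 = a, 3 = b, 4 = f, 5 = top -/
def C : Type := Fin 6
instance : DecidableEq C := inferInstanceAs (DecidableEq (Fin 6))
instance : Fintype C := inferInstanceAs (Fintype (Fin 6))
def mk (n : Fin 6) : C := n
def fu (x y : Fin 6) : Fin 6 :=
  if x = 0 ∨ y = 0 then 0 else if x = 1 then y else if y = 1 then x else
    if x = y ∧ (x = 2 ∨ x = 3) then x else 5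
def ng (x : Fin 6) : Fin 6 := if x = 2 ∨ x = 3 then x else 5 - x
def le (x y : Fin 6) : Bool := x = y ∨ (x < y ∧ ¬ (x = 2 ∧ y = 3))
def mt (x y : Fin 6) : Fin 6 := if le x y then x else if le y x then y else 1
instance : CommMonoid C where
  mul := fu
  one := mk 1
  mul_assoc := (by decide +kernel : ∀ x y z, fu (fu x y) z = fu x (fu y z))
  one_mul := (by decide +kernel : ∀ x, fu 1 x = x)
  mul_one := (by decide +kernel : ∀ x, fu x 1 = x)
  mul_comm := (by decide +kernel : ∀ x y, fu x y = fu y x)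

def val (v : ℕ → Fin 6) : Fm → Fin 6
  | .var n => v n
  | .neg a => ng (val v a)
  | .and a b => mt (val v a) (val v b)
  | .or a b => ng (mt (ng (val v a)) (ng (val v b)))
  | .imp a b => ng (fu (val v a) (ng (val v b)))

/-- `x` is a join-prime designated tag below `y` -/
def tg (x y : Fin 6) : Bool := x ≠ 0 ∧ x ≠ 4 ∧ le x y

def Inv (v : ℕ → Fin 6) (B : List Node) (u : ℕ → C) : Prop :=
  (∀ m n, B[m]? = some n → tg (u m) (val v n.lab) ∧ (∀ i ∈ n.inp, i < m) ∧ (m ≠ 0 → ∃ i, i ∈ n.inp)) ∧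
  ∀ T : Set ℕ, 0 ∈ T → (∀ c n p, B[c]? = some n → n.partner = some p → (c ∈ T ↔ p ∈ T)) →
    ∃ S : Finset ℕ, (∀ i ∈ S, i < B.length ∧ i ∈ T ∧ ∀ m n, B[m]? = some n → m ∈ T → i ∉ n.inp) ∧
      ∏ i ∈ S, u i = mk 5

lemma tg_at {v B u i φ} (hv : Inv v B u) (h : At B i φ) : tg (u i) (val v φ) ∧ i < B.length := by
  obtain ⟨n, h1, rfl⟩ := h
  exact ⟨(hv.1 i n h1).1, (List.getElem?_eq_some_iff.1 h1).1⟩

lemma mono : ∀ x y z : C, le x y → x * z = mk 5 → y * z = mk 5 := by decide +kernel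

lemma ext {v B u} (h : Inv v B u) (N : List Node) (w : ℕ → C) (I : Finset ℕ)
    (hI : ∀ i ∈ I, i < B.length) (hne : I.Nonempty)
    (h1 : ∀ k n, N[k]? = some n → tg (w k) (val v n.lab) ∧ ∀ i, i ∈ n.inp ↔ i ∈ I)
    (h2 : ∀ T : Set ℕ, (∀ c n p, (B ++ N)[c]? = some n → n.partner = some p → (c ∈ T ↔ p ∈ T)) →
      (∀ k < N.length, B.length + k ∉ T) ∨ ∃ K : Finset ℕ, (∀ k ∈ K, B.length ≤ k ∧
        k < B.length + N.length ∧ k ∈ T) ∧
        ∀ J ⊆ I, le (∏ i ∈ J, u i : C) (∏ i ∈ K, w (i - B.length) : C)) :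
    Inv v (B ++ N) fun i => if i < B.length then u i else w (i - B.length) := by
  have hs : ∀ m n, (B ++ N)[m]? = some n → (B[m]? = some n ∧ m < B.length) ∨ (B.length ≤ m ∧
      N[m - B.length]? = some n ∧ m < B.length + N.length) := fun m n e => by
    by_cases hm : m < B.length
    · exact Or.inl ⟨by rwa [List.getElem?_append_left hm] at e, hm⟩
    · have := (List.getElem?_eq_some_iff.1 e).1
      rw [List.getElem?_append_right (not_lt.1 hm)] at e
      exact Or.inr ⟨not_lt.1 hm, e, by simpa using this⟩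
  refine ⟨fun m n e => ?_, fun T h0 hT => ?_⟩
  · rcases hs m n e with ⟨e', a⟩ | ⟨a, e', -⟩
    · simpa only [if_pos a] using h.1 m n e'
    · obtain ⟨i, hi⟩ := hne
      exact ⟨by simpa only [if_neg a.not_gt] using (h1 _ n e').1,
        fun j hj => (hI j (((h1 _ n e').2 j).1 hj)).trans_le a, fun _ => ⟨i, ((h1 _ n e').2 i).2 hi⟩⟩
  obtain ⟨S, hS, hp⟩ := h.2 T h0 fun c n p e => hT c n p (by
    rwa [List.getElem?_append_left (List.getElem?_eq_some_iff.1 e).1])
  rcases h2 T hT with h3 | ⟨K, hK, h3⟩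
  · refine ⟨S, fun i hi => ⟨by simp; have := (hS i hi).1; omega, (hS i hi).2.1, fun m n e hm => ?_⟩,
      by rw [← hp]; exact Finset.prod_congr rfl fun i hi => if_pos (hS i hi).1⟩
    rcases hs m n e with ⟨e', -⟩ | ⟨a, -, b⟩
    · exact (hS i hi).2.2 m n e' hm
    · exact absurd (by rwa [Nat.add_sub_cancel' a]) (h3 (m - B.length) (by omega))
  · refine ⟨K ∪ S \ I, fun i hi => ?_, ?_⟩
    · rcases Finset.mem_union.1 hi with hi | hi
      · obtain ⟨a, b, c⟩ := hK i hi
        refine ⟨by simpa using b, c, fun m n e _ hn => ?_⟩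
        rcases hs m n e with ⟨e', _⟩ | ⟨-, e', -⟩
        · have := (h.1 m n e').2.1 i hn
          omega
        · have := hI i (((h1 _ n e').2 i).1 hn); omega
      · obtain ⟨hi, hi'⟩ := Finset.mem_sdiff.1 hi
        refine ⟨by simp; have := (hS i hi).1; omega, (hS i hi).2.1, fun m n e hm => ?_⟩
        rcases hs m n e with ⟨e', -⟩ | ⟨-, e', -⟩
        · exact (hS i hi).2.2 m n e' hm
        · rwa [(h1 _ n e').2]
    · rw [Finset.prod_union (Finset.disjoint_left.2 fun i a b => by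
        have := (hK i a).1; have := (hS i (Finset.mem_sdiff.1 b).1).1; omega),
        Finset.prod_congr rfl fun i (hi : i ∈ S \ I) => if_pos (hS i (Finset.mem_sdiff.1 hi).1).1,
        Finset.prod_congr rfl fun i (hi : i ∈ K) => if_neg (hK i hi).1.not_gt]
      exact mono _ _ _ (h3 (S ∩ I) Finset.inter_subset_right)
        (by rw [Finset.prod_inter_mul_prod_sdiff, hp])

lemma pair {J : Finset ℕ} {i j : ℕ} (h : J ⊆ {i, j}) :
    J = ∅ ∨ J = {i} ∨ J = {j} ∨ (J = {i, j} ∧ i ≠ j) := by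
  by_cases e : i = j
  · subst e; simp at h; tauto
  have := Finset.mem_powerset.2 h
  simp [Finset.powerset_insert] at this
  grind

lemma ext1 {v B u} (h : Inv v B u) (θ : Fm) (L : List ℕ) (x : C) (hI : ∀ i ∈ L, i < B.length)
    (hne : L ≠ []) (hx : tg x (val v θ)) (h1 : ∀ J ⊆ L.toFinset, le (∏ i ∈ J, u i : C) x) :
    ∃ u', Inv v (B ++ [⟨θ, L, none⟩]) u' := by
  refine ⟨_, ext h _ (fun _ => x) L.toFinset (by simpa using hI) (by simpa using hne) ?_
    fun T _ => ?_⟩
  · rintro (_ | k) n e <;> simp at e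
    subst e; simpa using hx
  · by_cases hT : B.length ∈ T
    · exact Or.inr ⟨{B.length}, by simpa, by simpa using h1⟩
    · exact Or.inl (by simpa)

lemma ext0 {v B u i φ} (h : Inv v B u) (hi : At B i φ) (θ : Fm) (h1 : tg (u i) (val v θ)) :
    ∃ u', Inv v (B ++ [⟨θ, [i], none⟩]) u' := by
  refine ext1 h θ [i] (u i) (by simpa using (tg_at h hi).2) (by simp) h1 fun J hJ => ?_
  rcases Finset.subset_singleton_iff.1 (by simpa using hJ) with rfl | rfl
  · exact (by decide +kernel : ∀ x y : Fin 6, tg x y → le 1 x) _ _ h1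
  · rw [Finset.prod_singleton]; exact (by decide +kernel : ∀ x : Fin 6, le x x) _

lemma ext0' {v B u i φ} (h : Inv v B u) (hi : At B i φ) (θ : Fm) (h1 : le (val v φ) (val v θ)) :
    ∃ u', Inv v (B ++ [⟨θ, [i], none⟩]) u' :=
  ext0 h hi θ ((by decide +kernel : ∀ x y z : Fin 6, tg x y → le y z → tg x z) _ _ _
    (tg_at h hi).1 h1)

lemma at_app {B i φ} (hi : At B i φ) (N : List Node) : At (B ++ N) i φ :=
  hi.imp fun _ h => ⟨by rw [List.getElem?_append_left (List.getElem?_eq_some_iff.1 h.1).1, h.1], h.2⟩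

lemma root {v φ} (h : val v φ = 0) : Inv v [⟨φ.neg, [], none⟩] fun _ => mk 5 := by
  refine ⟨fun m n e => ?_, fun T h0 _ => ⟨{0}, ?_, by simp⟩⟩
  · rcases m with _ | m <;> simp at e
    subst e
    simp only [val, h]
    exact ⟨rfl, by simp, by simp⟩
  · simp only [Finset.mem_singleton, forall_eq]
    refine ⟨by simp, h0, fun m n e _ => ?_⟩
    rcases m with _ | m <;> simp at e
    simp [← e]

theorem sound {B} (h : Closed B) : ∀ v u, ¬ Inv v B u := by
  induction h with
  | @crash B h =>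
    obtain ⟨z, z', ζ, h1, h2, h3⟩ := h
    intro v u hv
    have h0 : ∀ m < B.length, Trace B {z, z'} m → Trace B {z, z'} 0 := fun m => by
      induction m using Nat.strong_induction_on with
      | _ m ih =>
        intro hm ht
        by_cases e : m = 0
        · exact e ▸ ht
        have a := (hv.1 m _ (List.getElem?_eq_getElem hm)).2
        obtain ⟨i, hi⟩ := a.2 e
        exact ih i (a.1 i hi) ((a.1 i hi).trans hm) (ht.step (List.getElem?_eq_getElem hm) hi)
    obtain ⟨S, hS, hp⟩ := hv.2 {m | Trace B {z, z'} m}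
      (h0 z (tg_at hv h1).2 (.base (by simp))) h3
    have hs : S ⊆ {z, z'} := fun i hi => by
      obtain ⟨-, a, b⟩ := hS i hi
      cases a with
      | base a => simpa using a
      | step a c d => exact absurd d (b _ _ c a)
    have key : ∀ (a b : C) (x : Fin 6), tg a x → tg b (ng x) → (1 : C) ≠ mk 5 ∧ a ≠ mk 5 ∧
      b ≠ mk 5 ∧ a * b ≠ mk 5 := by decide +kernel
    obtain ⟨k1, k2, k3, k4⟩ := key _ _ _ (tg_at hv h1).1 (tg_at hv h2).1
    rcases pair hs with rfl | rfl | rfl | ⟨rfl, hne⟩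
    · exact k1 hp
    · exact k2 (by rwa [Finset.prod_singleton] at hp)
    · exact k3 (by rwa [Finset.prod_singleton] at hp)
    · exact k4 (by rwa [Finset.prod_pair hne] at hp)
  | and hi _ ih =>
    intro v u hv
    have k : ∀ x y, le (mt x y) x ∧ le (mt x y) y := by decide +kernel
    obtain ⟨_, a⟩ := ext0' hv hi _ (k _ _).1
    obtain ⟨_, b⟩ := ext0' a (at_app hi _) _ (k _ _).2
    exact ih v _ (by simpa using b)
  | nor hi _ ih =>
    intro v u hv
    have k : ∀ x y, le (ng (ng (mt (ng x) (ng y)))) (ng x) ∧ le (ng (ng (mt (ng x) (ng y)))) (ng y) := by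
      decide +kernel
    obtain ⟨_, a⟩ := ext0' hv hi (.neg _) (k _ _).1
    obtain ⟨_, b⟩ := ext0' a (at_app hi _) (.neg _) (k _ _).2
    exact ih v _ (by simpa using b)
  | dneg hi _ ih =>
    intro v u hv
    exact (ext0' hv hi _ ((by decide +kernel : ∀ x, le (ng (ng x)) x) _)).elim (ih v)
  | nand hi _ _ ih1 ih2 =>
    intro v u hv
    rcases (by decide +kernel : ∀ a x y, tg a (ng (mt x y)) → tg a (ng x) ∨ tg a (ng y)) _ _ _
      (tg_at hv hi).1 with h | h
    exacts [(ext0 hv hi (.neg _) h).elim (ih1 v), (ext0 hv hi (.neg _) h).elim (ih2 v)]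
  | or hi _ _ ih1 ih2 =>
    intro v u hv
    rcases (by decide +kernel : ∀ a x y, tg a (ng (mt (ng x) (ng y))) → tg a x ∨ tg a y) _ _ _
      (tg_at hv hi).1 with h | h
    exacts [(ext0 hv hi _ h).elim (ih1 v), (ext0 hv hi _ h).elim (ih2 v)]
  | @mp B i j φ ψ hi hj _ ih =>
    intro v u hv
    have key : ∀ a b x y : Fin 6, tg a x → tg b (ng (fu x (ng y))) → tg (fu a b) y ∧
      le 1 (fu a b) ∧ le a (fu a b) ∧ le b (fu a b) ∧ le (fu a b) (fu a b) := by decide +kernel
    obtain ⟨k0, k1, k2, k3, k4⟩ := key _ _ _ _ (tg_at hv hi).1 (tg_at hv hj).1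
    refine (ext1 hv ψ [i, j] (u i * u j) (by simp [(tg_at hv hi).2, (tg_at hv hj).2]) (by simp) k0
      fun J hJ => ?_).elim (ih v)
    rcases pair (by simpa using hJ) with rfl | rfl | rfl | ⟨rfl, hne⟩
    · exact k1
    · rwa [Finset.prod_singleton]
    · rwa [Finset.prod_singleton]
    · rwa [Finset.prod_pair hne]
  | @cc B i φ ψ hi _ ih =>
    intro v u hv
    have key : ∀ a x y : Fin 6, tg a (ng (ng (fu x (ng y)))) → ∃ b c, tg b x ∧ tg c (ng y) ∧
      le 1 (fu b c) ∧ le a (fu b c) := by decide +kernel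
    obtain ⟨b, c, k1, k2, k3, k4⟩ := key _ _ _ (tg_at hv hi).1
    refine ih v _ (ext hv _ (fun k => if k = 0 then b else c) {i}
      (by simpa using (tg_at hv hi).2) (by simp) ?_ fun T hT => ?_)
    · rintro (_ | _ | k) n e <;> simp at e <;> subst e
      exacts [⟨k1, by simp⟩, ⟨k2, by simp⟩]
    have := hT B.length ⟨φ, [i], some (B.length + 1)⟩ _ (by simp) rfl
    by_cases h : B.length ∈ T
    · refine Or.inr ⟨{B.length, B.length + 1}, by simpa [h] using this.1 h, fun J hJ => ?_⟩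
      rw [Finset.prod_pair (by omega), if_pos (by omega), if_neg (by omega)]
      rcases Finset.subset_singleton_iff.1 hJ with rfl | rfl
      · exact k3
      · rwa [Finset.prod_singleton]
    · refine Or.inl fun k hk => ?_
      simp only [List.length_cons, List.length_nil] at hk
      interval_cases k
      · exact h
      · exact fun h' => h (this.2 h')
  | recur hi _ _ ih1 ih2 =>
    intro v u hv
    exact (ext0' hv hi _ ((by decide +kernel : ∀ x y, ng (fu x (ng y)) ≠ 0 → le x y) _ _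
      fun h => ih1 v _ (root (φ := .imp _ _) h))).elim (ih2 v)

lemma fixed (v : ℕ → Fin 6) (c : Fin 6) (hc : c = 2 ∨ c = 3) (φ : Fm)
    (h : ∀ n ∈ letters φ, v n = c) : val v φ = c := by
  induction φ with
  | var n => exact h n (by simp [letters])
  | neg a ih => rw [val, ih h]; rcases hc with rfl | rfl <;> rfl
  | and a b i j | or a b i j | imp a b i j =>
    rw [val, i fun n hn => h n (by simp [letters, hn]), j fun n hn => h n (by simp [letters, hn])]
    rcases hc with rfl | rfl <;> rfl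

theorem share (φ ψ : Fm) (h : Acceptable (.imp φ ψ)) : ∃ n ∈ letters φ, n ∈ letters ψ := by
  by_contra hc
  push Not at hc
  refine sound h (fun n => if n ∈ letters φ then 2 else 3) _ (root ?_)
  rw [val, fixed _ 2 (by simp) φ fun n hn => if_pos hn,
    fixed _ 3 (by simp) ψ fun n hn => if_neg fun h => hc n h hn]
  rfl

end Pool.Agent.H47.Tree
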