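import Mathlib
import Pool.Agent.H47.TreeDefs

namespace Pool.Agent.H47.Tree2
open Pool.Agent.H47.TreeDefs

def chk (I : List (List ℕ)) (P : List (Option ℕ)) (z z' : ℕ) (S : List ℕ) : Bool :=
  decide ((∀ m, m ∈ z :: z' :: S → ∀ i ∈ I.getD m [], i ∈ z :: z' :: S) ∧
    (∀ k < S.length, ∃ m ∈ z :: z' :: S.take k, S.getD k 0 ∈ I.getD m []) ∧
    ∀ c < P.length, ∀ p ∈ P.getD c none, (c ∈ z :: z' :: S ↔ p ∈ z :: z' :: S))

/-- a certificate for a crash with parity: `S` lists the trace -/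
lemma crash_of {B : List Node} (z z' : ℕ) (ζ : Fm) (S : List ℕ) (h1 : At B z ζ)
    (h2 : At B z' ζ.neg) (h : chk (B.map Node.inp) (B.map Node.partner) z z' S = true) :
    Closed B := by
  obtain ⟨h3, h4, h5⟩ := of_decide_eq_true h
  rw [List.length_map] at h5
  have key : ∀ m, Trace B {z, z'} m ↔ m ∈ z :: z' :: S := fun m => by
    constructor
    · intro hm
      induction hm with
      | base hz => rcases hz with rfl | rfl <;> simp
      | step _ e hi ih => exact h3 _ ih _ (by simpa [e] using hi)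
    · have : ∀ k, ∀ m ∈ z :: z' :: S.take k, Trace B {z, z'} m := fun k => by
        induction k with
        | zero => simp only [List.take_zero, List.mem_cons]; rintro m (rfl | rfl | h)
                  exacts [.base (by simp), .base (by simp), by simp at h]
        | succ k ih =>
          intro m hm
          by_cases hk : k < S.length
          · rw [List.take_succ_eq_append_getElem hk] at hm
            by_cases e : m = S[k]
            · obtain ⟨m', a, c⟩ := h4 k hk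
              cases e' : B[m']? with
              | none => simp [e'] at c
              | some n => exact (ih m' a).step e' (by simpa [e', e, hk] using c)
            · exact ih m (by
                simp only [List.mem_cons, List.mem_append, List.not_mem_nil] at hm ⊢; tauto)
          · exact ih m (by rwa [List.take_of_length_le (by omega)] at hm ⊢)
      exact fun hm => this S.length m (by simpa using hm)
  refine .crash ⟨z, z', ζ, h1, h2, fun c n p e1 e2 => ?_⟩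
  rw [key, key]
  exact h5 c (List.getElem?_eq_some_iff.1 e1).1 p (by simp [e1, e2])

abbrev Ai (φ ψ : Fm) : Prop := Acceptable (.imp φ ψ)

lemma a_refl (φ : Fm) : Ai φ φ :=
  .cc (i := 0) ⟨_, rfl, rfl⟩
    (crash_of 1 2 _ [0] ⟨_, rfl, rfl⟩ ⟨_, rfl, rfl⟩ rfl)

lemma a_trans {φ ψ χ : Fm} (h1 : Ai φ ψ) (h2 : Ai ψ χ) : Ai φ χ :=
  .cc (i := 0) ⟨_, rfl, rfl⟩ (.recur (i := 1) ⟨_, rfl, rfl⟩ h1 (.recur (i := 3) ⟨_, rfl, rfl⟩ h2
    (crash_of 4 2 _ [3, 1, 0] ⟨_, rfl, rfl⟩ ⟨_, rfl, rfl⟩ rfl)))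

lemma a_contra {φ ψ : Fm} (h : Ai φ ψ) : Ai ψ.neg φ.neg :=
  .cc (i := 0) ⟨_, rfl, rfl⟩ (.dneg (i := 2) ⟨_, rfl, rfl⟩ (.recur (i := 3) ⟨_, rfl, rfl⟩ h
    (crash_of 4 1 _ [3, 2, 0] ⟨_, rfl, rfl⟩ ⟨_, rfl, rfl⟩ rfl)))

lemma a_andl (φ ψ : Fm) : Ai (φ.and ψ) φ :=
  .cc (i := 0) ⟨_, rfl, rfl⟩ (.and (i := 1) ⟨_, rfl, rfl⟩
    (crash_of 3 2 _ [1, 0] ⟨_, rfl, rfl⟩ ⟨_, rfl, rfl⟩ rfl))

lemma a_andr (φ ψ : Fm) : Ai (φ.and ψ) ψ :=
  .cc (i := 0) ⟨_, rfl, rfl⟩ (.and (i := 1) ⟨_, rfl, rfl⟩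
    (crash_of 4 2 _ [1, 0] ⟨_, rfl, rfl⟩ ⟨_, rfl, rfl⟩ rfl))

lemma a_andi {φ ψ χ : Fm} (h1 : Ai χ φ) (h2 : Ai χ ψ) : Ai χ (φ.and ψ) :=
  .cc (i := 0) ⟨_, rfl, rfl⟩ (.nand (i := 2) ⟨_, rfl, rfl⟩
    (.recur (i := 1) ⟨_, rfl, rfl⟩ h1
      (crash_of 4 3 _ [1, 2, 0] ⟨_, rfl, rfl⟩ ⟨_, rfl, rfl⟩ rfl))
    (.recur (i := 1) ⟨_, rfl, rfl⟩ h2
      (crash_of 4 3 _ [1, 2, 0] ⟨_, rfl, rfl⟩ ⟨_, rfl, rfl⟩ rfl)))

lemma a_orl (φ ψ : Fm) : Ai φ (φ.or ψ) :=
  .cc (i := 0) ⟨_, rfl, rfl⟩ (.nor (i := 2) ⟨_, rfl, rfl⟩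
    (crash_of 1 3 _ [2, 0] ⟨_, rfl, rfl⟩ ⟨_, rfl, rfl⟩ rfl))

lemma a_orr (φ ψ : Fm) : Ai ψ (φ.or ψ) :=
  .cc (i := 0) ⟨_, rfl, rfl⟩ (.nor (i := 2) ⟨_, rfl, rfl⟩
    (crash_of 1 4 _ [2, 0] ⟨_, rfl, rfl⟩ ⟨_, rfl, rfl⟩ rfl))

lemma a_ore {φ ψ χ : Fm} (h1 : Ai φ χ) (h2 : Ai ψ χ) : Ai (φ.or ψ) χ :=
  .cc (i := 0) ⟨_, rfl, rfl⟩ (.or (i := 1) ⟨_, rfl, rfl⟩
    (.recur (i := 3) ⟨_, rfl, rfl⟩ h1
      (crash_of 4 2 _ [3, 1, 0] ⟨_, rfl, rfl⟩ ⟨_, rfl, rfl⟩ rfl))
    (.recur (i := 3) ⟨_, rfl, rfl⟩ h2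
      (crash_of 4 2 _ [3, 1, 0] ⟨_, rfl, rfl⟩ ⟨_, rfl, rfl⟩ rfl)))

lemma a_imp {φ ψ φ' ψ' : Fm} (h1 : Ai φ' φ) (h2 : Ai ψ ψ') : Ai (φ.imp ψ) (φ'.imp ψ') :=
  .cc (i := 0) ⟨_, rfl, rfl⟩ (.cc (i := 2) ⟨_, rfl, rfl⟩ (.recur (i := 3) ⟨_, rfl, rfl⟩ h1
    (.mp (i := 5) (j := 1) ⟨_, rfl, rfl⟩ ⟨_, rfl, rfl⟩ (.recur (i := 6) ⟨_, rfl, rfl⟩ h2
    (crash_of 7 4 _ [6, 5, 1, 3, 2, 0] ⟨_, rfl, rfl⟩ ⟨_, rfl, rfl⟩ rfl)))))

lemma a_dneg (φ : Fm) : Ai φ.neg.neg φ :=
  .cc (i := 0) ⟨_, rfl, rfl⟩ (.dneg (i := 1) ⟨_, rfl, rfl⟩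
    (crash_of 3 2 _ [1, 0] ⟨_, rfl, rfl⟩ ⟨_, rfl, rfl⟩ rfl))

def Par (B : List Node) (Z : Set ℕ) : Prop :=
  ∀ c n p, B[c]? = some n → n.partner = some p → (Trace B Z c ↔ Trace B Z p)

def WF (B : List Node) : Prop :=
  ∀ n ∈ B, (∀ i ∈ n.inp, i < B.length) ∧ ∀ p, n.partner = some p → p < B.length

def In (B : List Node) (Z : Set ℕ) : Prop := ∀ z ∈ Z, z < B.length

def dn (l : ℕ) (I : List ℕ) (Z : Set ℕ) : Set ℕ := {i | i < l ∧ i ∈ Z ∨ i ∈ I ∧ ∃ z ∈ Z, l ≤ z}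

/-- `N` is a block of new nodes with common inputs `I` -/
structure Blk (B N : List Node) (I : List ℕ) : Prop where
  wf : WF B
  inp : ∀ n ∈ N, n.inp = I
  lt : ∀ i ∈ I, i < B.length
  pt : ∀ n ∈ N, ∀ p, n.partner = some p → B.length ≤ p ∧ p < B.length + N.length

lemma tr_lt {B Z c} (hB : WF B) (hZ : In B Z) (h : Trace B Z c) : c < B.length := by
  induction h with
  | base h => exact hZ _ h
  | step _ e hi _ => exact (hB _ (List.mem_of_getElem? e)).1 _ hi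

lemma Blk.inn {B N I} (h : Blk B N I) (Z : Set ℕ) : In B (dn B.length I Z) :=
  fun z hz => hz.elim (·.1) fun a => h.lt z a.1

lemma Blk.wf' {B N I} (h : Blk B N I) : WF (B ++ N) := fun n hn => by
  rw [List.length_append]
  rcases List.mem_append.1 hn with hn | hn
  · exact ⟨fun i hi => ((h.wf n hn).1 i hi).trans_le (by omega),
      fun p hp => ((h.wf n hn).2 p hp).trans_le (by omega)⟩
  · exact ⟨fun i hi => (h.lt i (h.inp n hn ▸ hi)).trans_le (by omega), fun p hp => (h.pt n hn p hp).2⟩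

lemma Blk.tr {B N I Z} (h : Blk B N I) (hZ : In (B ++ N) Z) (c : ℕ) :
    Trace (B ++ N) Z c ↔ (B.length ≤ c ∧ c ∈ Z) ∨ Trace B (dn B.length I Z) c := by
  constructor
  · intro t
    induction t with
    | @base z hz => exact (le_or_gt B.length z).imp (⟨·, hz⟩) fun a => .base (Or.inl ⟨a, hz⟩)
    | @step m n i _ e hi ih =>
      rcases ih with ⟨a, b⟩ | ih
      · rw [List.getElem?_append_right a] at e
        exact Or.inr (.base (Or.inr ⟨h.inp n (List.mem_of_getElem? e) ▸ hi, m, b, a⟩))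
      · rw [List.getElem?_append_left (tr_lt h.wf (h.inn Z) ih)] at e
        exact Or.inr (ih.step e hi)
  · rintro (a | t)
    · exact .base a.2
    · induction t with
      | base hz =>
        rcases hz with a | ⟨a, z, b, c⟩
        · exact .base a.2
        · have := hZ z b
          have e := List.getElem?_eq_getElem this
          refine (Trace.base b).step e ?_
          rw [List.getElem?_append_right c] at e
          rwa [h.inp _ (List.mem_of_getElem? e)]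
      | step _ e hi ih =>
        exact ih.step (by rwa [List.getElem?_append_left (List.getElem?_eq_some_iff.1 e).1]) hi

lemma Blk.par {B N I Z} (h : Blk B N I) (hZ : In (B ++ N) Z) : Par (B ++ N) Z ↔
    Par B (dn B.length I Z) ∧
      ∀ k n p, N[k]? = some n → n.partner = some p → (B.length + k ∈ Z ↔ p ∈ Z) := by
  have t1 : ∀ c < B.length, Trace (B ++ N) Z c ↔ Trace B (dn B.length I Z) c := fun c hc => by
    rw [h.tr hZ]; simp [hc.not_ge]
  have t2 : ∀ c, B.length ≤ c → (Trace (B ++ N) Z c ↔ c ∈ Z) := fun c hc => by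
    rw [h.tr hZ]
    exact ⟨fun a => a.elim (·.2) fun t => absurd (tr_lt h.wf (h.inn Z) t) hc.not_gt,
      fun a => Or.inl ⟨hc, a⟩⟩
  constructor
  · refine fun P => ⟨fun c n p e1 e2 => ?_, fun k n p e1 e2 => ?_⟩
    · have hc := (List.getElem?_eq_some_iff.1 e1).1
      rw [← t1 c hc, ← t1 p ((h.wf n (List.mem_of_getElem? e1)).2 p e2)]
      exact P c n p (by rwa [List.getElem?_append_left hc]) e2
    · rw [← t2 _ (Nat.le_add_right _ _), ← t2 p (h.pt n (List.mem_of_getElem? e1) p e2).1]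
      exact P _ n p (by rwa [List.getElem?_append_right (Nat.le_add_right _ _),
        Nat.add_sub_cancel_left]) e2
  · rintro ⟨P, Q⟩ c n p e1 e2
    rcases le_or_gt B.length c with hc | hc
    · rw [List.getElem?_append_right hc] at e1
      rw [t2 c hc, t2 p (h.pt n (List.mem_of_getElem? e1) p e2).1, ← Q _ n p e1 e2,
        Nat.add_sub_cancel' hc]
    · rw [List.getElem?_append_left hc] at e1
      rw [t1 c hc, t1 p ((h.wf n (List.mem_of_getElem? e1)).2 p e2)]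
      exact P c n p e1 e2

def Dom (B : List Node) (J Q : Set ℕ) : Prop := ∀ Z, In B Z → Par B (Z ∪ J) → Par B (Z ∪ Q)

structure Ext (B B' : List Node) : Prop where
  wf : WF B'
  len : B.length ≤ B'.length
  att : ∀ {i φ}, At B i φ → At B' i φ
  par : ∀ Z, In B Z → Par B Z → Par B' Z
  dom : ∀ J Q, In B J → In B Q → Dom B J Q → Dom B' J Q

lemma Ext.inn {B B' Z} (h : Ext B B') (hZ : In B Z) : In B' Z :=
  fun z hz => (hZ z hz).trans_le h.len

lemma Ext.refl {B} (h : WF B) : Ext B B := ⟨h, le_rfl, id, fun _ _ => id, fun _ _ _ _ => id⟩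

lemma Ext.trans {A B C} (h : Ext A B) (g : Ext B C) : Ext A C :=
  ⟨g.wf, h.len.trans g.len, fun a => g.att (h.att a), fun Z a b => g.par Z (h.inn a) (h.par Z a b),
    fun J Q a b c => g.dom J Q (h.inn a) (h.inn b) (h.dom J Q a b c)⟩

lemma at_lt {B i φ} (h : At B i φ) : i < B.length :=
  h.elim fun _ a => (List.getElem?_eq_some_iff.1 a.1).1

lemma at_app {B i φ} (hi : At B i φ) (N : List Node) : At (B ++ N) i φ :=
  hi.imp fun _ h =>
    ⟨by rw [List.getElem?_append_left (List.getElem?_eq_some_iff.1 h.1).1, h.1], h.2⟩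

lemma In.union {B Z J} (a : In B Z) (b : In B J) : In B (Z ∪ J) :=
  fun z hz => hz.elim (a z) (b z)

lemma dn_old {B I J} (hJ : In B J) (Z : Set ℕ) :
    dn B.length I (Z ∪ J) = dn B.length I Z ∪ J := by
  ext i
  have := hJ i
  simp only [dn, In, Set.mem_union, Set.mem_ofPred_eq] at *
  grind

lemma Blk.ext {B N I} (h : Blk B N I) : Ext B (B ++ N) := by
  have hl : ∀ Z, In B Z → In (B ++ N) Z := fun Z a z hz => by
    have := a z hz; rw [List.length_append]; omega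
  have hd : ∀ J Q, In B J → In B Q → (∀ Z, In B Z → Par B (Z ∪ J) → Par B (Z ∪ Q)) →
      Dom (B ++ N) J Q := fun J Q a b c Z hZ P => by
    rw [h.par (hZ.union (hl _ a)), dn_old a] at P
    rw [h.par (hZ.union (hl _ b)), dn_old b]
    refine ⟨c _ (h.inn Z) P.1, fun k n p e1 e2 => ?_⟩
    have := P.2 k n p e1 e2
    have := (h.pt n (List.mem_of_getElem? e1) p e2).1
    have := a p
    have := b p
    have := a (B.length + k)
    have := b (B.length + k)
    simp only [Set.mem_union] at *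
    grind
  refine ⟨h.wf', by simp, fun a => at_app a N, fun Z a P => ?_, hd⟩
  rw [h.par (hl _ a)]
  have e : dn B.length I Z = Z := by
    have := dn_old (I := I) a ∅
    simpa [dn] using this
  refine ⟨by rwa [e], fun k n p e1 e2 => ?_⟩
  have := (h.pt n (List.mem_of_getElem? e1) p e2).1
  have := a p
  have := a (B.length + k)
  grind

/-- the positions of the new block -/
def nw (B N : List Node) : Set ℕ := {z | B.length ≤ z ∧ z < B.length + N.length}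

lemma Blk.dom {B N I} (h : Blk B N I) (hN : N ≠ []) : Dom (B ++ N) {i | i ∈ I} (nw B N) := by
  intro Z hZ P
  have a : In B {i | i ∈ I} := h.lt
  have b : In (B ++ N) (nw B N) := fun z hz => by rw [List.length_append]; exact hz.2
  have hl := List.length_pos_iff.2 hN
  rw [h.par (hZ.union (h.ext.inn a)), dn_old a] at P
  rw [h.par (hZ.union b)]
  refine ⟨?_, fun k n p e1 e2 => ?_⟩
  · convert P.1 using 1
    ext i
    have : ∃ z, (z ∈ Z ∨ z ∈ nw B N) ∧ B.length ≤ z := ⟨B.length, Or.inr ⟨le_rfl, by omega⟩, le_rfl⟩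
    simp only [dn, nw, Set.mem_union, Set.mem_ofPred_eq] at *
    grind
  · have := h.pt n (List.mem_of_getElem? e1) p e2
    have := (List.getElem?_eq_some_iff.1 e1).1
    simp only [nw, Set.mem_union, Set.mem_ofPred_eq]
    grind

lemma blk1 {B} (h : WF B) (φ : Fm) {I : List ℕ} (hI : ∀ i ∈ I, i < B.length) :
    Blk B [⟨φ, I, none⟩] I := ⟨h, by simp, hI, by simp⟩

lemma blk2 {B i} (h : WF B) (φ ψ : Fm) (hi : i < B.length) :
    Blk B [⟨φ, [i], some (B.length + 1)⟩, ⟨ψ, [i], some B.length⟩] [i] :=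
  ⟨h, by simp, by simpa, by simp⟩

lemma nw1 (B : List Node) (n : Node) : nw B [n] = {B.length} := by
  ext; simp [nw]; omega

lemma nw2 (B : List Node) (n n' : Node) : nw B [n, n'] = {B.length, B.length + 1} := by
  ext; simp [nw]; omega

lemma Dom.trans {B J Q R} (a : Dom B J Q) (b : Dom B Q R) : Dom B J R :=
  fun Z h P => b Z h (a Z h P)

lemma Dom.union {B J Q K} (a : Dom B J Q) (hK : In B K) : Dom B (K ∪ J) (K ∪ Q) :=
  fun Z h P => by
    rw [← Set.union_assoc] at P ⊢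
    exact a _ (h.union hK) P

end Pool.Agent.H47.Tree2
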