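import Mathlib
import Pool.Agent.H47.Tree2

namespace Pool.Agent.H47.Tree3
open Pool.Agent.H47.TreeDefs Pool.Agent.H47.Tree2

inductive W | bot | top | fm (φ : Fm)
open W

def ng : W → W
  | bot => top
  | top => bot
  | fm φ => fm φ.neg

def an : W → W → W
  | bot, _ => bot
  | top, v => v
  | fm _, bot => bot
  | fm φ, top => fm φ
  | fm φ, fm ψ => fm (φ.and ψ)

def ou : W → W → W
  | top, _ => top
  | bot, v => v
  | fm _, top => top
  | fm φ, bot => fm φ
  | fm φ, fm ψ => fm (φ.or ψ)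

def im : W → W → W
  | bot, _ => top
  | _, top => top
  | fm φ, fm ψ => fm (φ.imp ψ)
  | _, _ => bot

def ent : W → W → Prop
  | bot, _ => True
  | _, top => True
  | fm φ, fm ψ => Ai φ ψ
  | _, _ => False

lemma e_refl (u : W) : ent u u := by cases u <;> simp [ent, a_refl]
lemma e_trans {u v w : W} (a : ent u v) (b : ent v w) : ent u w := by
  cases u <;> cases v <;> cases w <;> simp_all [ent]
  exact a_trans a b
lemma e_ng {u v : W} (a : ent u v) : ent (ng v) (ng u) := by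
  cases u <;> cases v <;> simp_all [ent, ng, a_contra]
lemma e_dn (u : W) : ent (ng (ng u)) u := by cases u <;> simp [ent, ng, a_dneg]
lemma e_anl (u v : W) : ent (an u v) u := by
  cases u <;> cases v <;> simp [ent, an, a_refl, a_andl]
lemma e_anr (u v : W) : ent (an u v) v := by
  cases u <;> cases v <;> simp [ent, an, a_refl, a_andr]
lemma e_ani {u v w : W} (a : ent w u) (b : ent w v) : ent w (an u v) := by
  cases u <;> cases v <;> cases w <;> simp_all [ent, an, a_andi]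
lemma e_oul (u v : W) : ent u (ou u v) := by
  cases u <;> cases v <;> simp [ent, ou, a_refl, a_orl]
lemma e_our (u v : W) : ent v (ou u v) := by
  cases u <;> cases v <;> simp [ent, ou, a_refl, a_orr]
lemma e_oue {u v w : W} (a : ent u w) (b : ent v w) : ent (ou u v) w := by
  cases u <;> cases v <;> cases w <;> simp_all [ent, ou, a_ore]
lemma e_im {u v u' v' : W} (a : ent u' u) (b : ent v v') : ent (im u v) (im u' v') := by
  cases u <;> cases v <;> cases u' <;> cases v' <;> simp_all [ent, im, a_imp]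

variable (s : ℕ → Bool)

def V : Bool → Fm → W
  | l, .var n => if s n then (if l then bot else top) else fm (.var n)
  | l, .neg a => ng (V (!l) a)
  | l, .and a b => an (V l a) (V l b)
  | l, .or a b => ou (V l a) (V l b)
  | true, .imp a b => im (V false a) (V true b)
  | false, .imp a b => an (im (V false a) (V false b)) (im (V true a) (V true b))

lemma mono (φ : Fm) : ent (V s true φ) (V s false φ) := by
  induction φ with
  | var n => by_cases h : s n <;> simp [V, h, ent, a_refl]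
  | neg a ih => exact e_ng ih
  | and a b i j => exact e_ani (e_trans (e_anl _ _) i) (e_trans (e_anr _ _) j)
  | or a b i j => exact e_oue (e_trans i (e_oul _ _)) (e_trans j (e_our _ _))
  | imp a b i j => exact e_ani (e_im (e_refl _) j) (e_im i (e_refl _))

lemma old (φ : Fm) (h : ∀ n ∈ letters φ, s n = false) :
    ∀ l, ent (fm φ) (V s l φ) ∧ ent (V s l φ) (fm φ) := by
  induction φ with
  | var n => simp [V, h n (by simp [letters]), ent, a_refl]
  | neg a ih => exact fun l => ⟨e_ng (ih h _).2, e_ng (ih h _).1⟩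
  | and a b i j =>
    have i := i fun n hn => h n (by simp [letters, hn])
    have j := j fun n hn => h n (by simp [letters, hn])
    exact fun l => ⟨e_ani (e_trans (e_anl (fm a) (fm b)) (i l).1)
      (e_trans (e_anr (fm a) (fm b)) (j l).1),
      e_ani (u := fm a) (v := fm b) (e_trans (e_anl _ _) (i l).2) (e_trans (e_anr _ _) (j l).2)⟩
  | or a b i j =>
    have i := i fun n hn => h n (by simp [letters, hn])
    have j := j fun n hn => h n (by simp [letters, hn])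
    exact fun l => ⟨e_oue (u := fm a) (v := fm b) (e_trans (i l).1 (e_oul _ _))
      (e_trans (j l).1 (e_our _ _)),
      e_oue (e_trans (i l).2 (e_oul _ (fm b))) (e_trans (j l).2 (e_our (fm a) _))⟩
  | imp a b i j =>
    have i := i fun n hn => h n (by simp [letters, hn])
    have j := j fun n hn => h n (by simp [letters, hn])
    have k : ∀ l l', ent (fm (a.imp b)) (im (V s l a) (V s l' b)) ∧
        ent (im (V s l a) (V s l' b)) (fm (a.imp b)) := fun l l' =>
      ⟨e_im (u := fm a) (v := fm b) (i l).2 (j l').1, e_im (u' := fm a) (v' := fm b) (i l).1 (j l').2⟩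
    rintro (_ | _)
    · exact ⟨e_ani (k _ _).1 (k _ _).1, e_trans (e_anl _ _) (k _ _).2⟩
    · exact k _ _

lemma new (φ : Fm) (h : ∀ n ∈ letters φ, s n = true) :
    V s false φ = top ∧ V s true φ = bot := by
  induction φ with
  | var n => simp [V, h n (by simp [letters])]
  | neg a ih => simp [V, ih h, ng]
  | and a b i j | or a b i j | imp a b i j =>
    simp [V, i fun n hn => h n (by simp [letters, hn]), j fun n hn => h n (by simp [letters, hn]),
      an, ou, im]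

inductive Kd | t | z | r
  deriving DecidableEq

def Ok (B : List Node) : Kd → ℕ → W → Prop
  | .t, _, u => u = top
  | .z, _, u => u ≠ bot
  | .r, q, u => ∃ ψ, u = fm ψ ∧ At B q ψ

lemma Ok.ne {B k q u} (h : Ok B k q u) : u ≠ bot := by
  cases k <;> simp only [Ok] at h
  · simp [h]
  · exact h
  · obtain ⟨_, rfl, -⟩ := h; simp

lemma Ok.ext {B B' k q u} (h : Ok B k q u) (e : Ext B B') : Ok B' k q u := by
  cases k
  exacts [h, h, h.imp fun _ a => ⟨a.1, e.att a.2⟩]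

def Rel (B : List Node) (k : Kd) (q : ℕ) (k' : Kd) (q' : ℕ) : Prop :=
  k' = .t ∨ (k' = k ∧ (k = .r → Dom B {q} {q'}))

/-- continuation -/
def Ct (B : List Node) (k : Kd) (q : ℕ) (u : W) : Prop :=
  ∀ B' k' q', Ext B B' → Ok B' k' q' u → Rel B' k q k' q' → Closed B'

lemma at_new (B : List Node) (φ : Fm) (I p N) : At (B ++ ⟨φ, I, p⟩ :: N) B.length φ :=
  ⟨⟨φ, I, p⟩, by simp, rfl⟩

lemma step {B q φ ψ} (hB : WF B) (h : At B q φ) (c : Ct B .r q (fm ψ)) :
    Closed (B ++ [⟨ψ, [q], none⟩]) := by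
  have b := blk1 hB ψ (I := [q]) (by simpa using at_lt h)
  refine c _ .r B.length b.ext ⟨ψ, rfl, at_new ..⟩ (Or.inr ⟨rfl, fun _ => ?_⟩)
  simpa [nw1] using b.dom (by simp)

lemma cun {B k q w u} (hB : WF B) (h : Ok B k q w) (e : ent w u) (c : Ct B k q u) :
    Closed B := by
  cases u with
  | top => exact c B .t q (.refl hB) rfl (Or.inl rfl)
  | bot => have := h.ne; cases w <;> simp_all [ent]
  | fm ψ =>
    cases k with
    | t => obtain rfl : w = top := h; simp [ent] at e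
    | z => exact c B .z q (.refl hB) (by simp [Ok]) (Or.inr ⟨rfl, by simp⟩)
    | r => obtain ⟨φ, rfl, a⟩ := h; exact .recur a e (step hB a c)

lemma cou {B k q u v} (hB : WF B) (h : Ok B k q (ou u v)) (c : Ct B k q u) (d : Ct B k q v) :
    Closed B := by
  cases u with
  | top => exact cun hB h (by simp [ent, ou]) c
  | bot => exact cun hB h (e_refl _) d
  | fm φ =>
    cases v with
    | top => exact cun hB h (by simp [ent, ou]) d
    | bot => exact cun hB h (e_refl _) c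
    | fm ψ =>
      cases k with
      | t => simp [Ok, ou] at h
      | z => exact c B .z q (.refl hB) (by simp [Ok]) (Or.inr ⟨rfl, by simp⟩)
      | r =>
        obtain ⟨_, ⟨⟩, a⟩ := h
        exact .or a (step hB a c) (step hB a d)

lemma cna {B k q u v} (hB : WF B) (h : Ok B k q (ng (an u v))) (c : Ct B k q (ng u))
    (d : Ct B k q (ng v)) : Closed B := by
  cases u with
  | top => exact cun hB h (e_refl _) d
  | bot => exact cun hB h (e_refl _) c
  | fm φ =>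
    cases v with
    | top => exact cun hB h (e_refl _) c
    | bot => exact cun hB h (e_refl _) d
    | fm ψ =>
      cases k with
      | t => simp [Ok, an, ng] at h
      | z => exact c B .z q (.refl hB) (by simp [Ok, ng]) (Or.inr ⟨rfl, by simp⟩)
      | r =>
        obtain ⟨_, ⟨⟩, a⟩ := h
        exact .nand a (step hB a c) (step hB a d)

structure Tg where
  k : Kd
  l : Bool
  q : ℕ

def Good (B' : List Node) (κ : ℕ → Tg) (Z : Set ℕ) : Prop :=
  (∃ m ∈ Z, (κ m).l = true) ∧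
    ((∃ m ∈ Z, (κ m).k = .t) ∨ ((∀ m ∈ Z, (κ m).k = .r) ∧ Par B' ((fun m => (κ m).q) '' Z)))

structure Inv (B B' : List Node) (κ : ℕ → Tg) : Prop where
  wf : WF B
  wf' : WF B'
  ok : ∀ {m φ}, At B m φ → Ok B' (κ m).k (κ m).q (V s (κ m).l φ)
  good : ∀ Z, Z.Nonempty → In B Z → Par B Z → Good B' κ Z

variable {s}

lemma Inv.inn {B B' κ Z} (h : Inv s B B' κ) (hZ : In B Z) (r : ∀ m ∈ Z, (κ m).k = .r) :
    In B' ((fun m => (κ m).q) '' Z) := by
  rintro _ ⟨m, hm, rfl⟩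
  have := h.ok ⟨_, List.getElem?_eq_getElem (hZ m hm), rfl⟩
  rw [r m hm] at this
  exact at_lt this.choose_spec.2

lemma Inv.ext {B B' B'' κ} (h : Inv s B B' κ) (e : Ext B' B'') : Inv s B B'' κ :=
  ⟨h.wf, e.wf, fun a => (h.ok a).ext e, fun Z a b c => ⟨(h.good Z a b c).1,
    (h.good Z a b c).2.imp_right fun d => ⟨d.1, e.par _ (h.inn b d.1) d.2⟩⟩⟩

lemma Inv.app {B B' κ N I} (h : Inv s B B' κ) (b : Blk B N I) (hI : I ≠ []) (κ' : ℕ → Tg)
    (h0 : ∀ m < B.length, κ' m = κ m)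
    (h1 : ∀ j n, N[j]? = some n → Ok B' (κ' (B.length + j)).k (κ' (B.length + j)).q
      (V s (κ' (B.length + j)).l n.lab))
    (h2 : ∀ Z, (∀ k n p, N[k]? = some n → n.partner = some p → (B.length + k ∈ Z ↔ p ∈ Z)) →
      ∀ z ∈ nw B N, z ∈ Z → nw B N ⊆ Z)
    (h3 : (∃ i ∈ I, (κ i).l = true) → ∃ m ∈ nw B N, (κ' m).l = true)
    (h4 : (∃ m ∈ nw B N, (κ' m).k = .t) ∨ ((∀ i ∈ I, (κ i).k ≠ .t) ∧ ((∀ i ∈ I, (κ i).k = .r) →
      (∀ m ∈ nw B N, (κ' m).k = .r) ∧
        Dom B' ((fun m => (κ m).q) '' {i | i ∈ I}) ((fun m => (κ' m).q) '' nw B N)))) :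
    Inv s (B ++ N) B' κ' := by
  refine ⟨b.wf', h.wf', fun {m φ} ⟨n, e1, e2⟩ => ?_, fun Z ⟨z0, hz0⟩ hZ P => ?_⟩
  · rcases le_or_gt B.length m with hm | hm
    · rw [List.getElem?_append_right hm] at e1
      have := h1 _ n e1
      rwa [Nat.add_sub_cancel' hm, e2] at this
    · rw [List.getElem?_append_left hm] at e1
      rw [h0 m hm]; exact h.ok ⟨n, e1, e2⟩
  obtain ⟨P, Q⟩ := (b.par hZ).1 P
  by_cases hz : ∃ z ∈ Z, B.length ≤ z
  swap
  · push Not at hz
    have e : dn B.length I Z = Z := by simpa [dn] using dn_old (I := I) hz ∅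
    obtain ⟨⟨m, a, c⟩, g⟩ := h.good Z ⟨z0, hz0⟩ hz (e ▸ P)
    refine ⟨⟨m, a, h0 m (hz m a) ▸ c⟩, g.imp (fun ⟨m, a, c⟩ => ⟨m, a, h0 m (hz m a) ▸ c⟩)
      fun ⟨g1, g2⟩ => ⟨fun m a => h0 m (hz m a) ▸ g1 m a, ?_⟩⟩
    rwa [Set.image_congr fun m a => congrArg Tg.q (h0 m (hz m a))]
  have e : dn B.length I Z = {i | i < B.length ∧ i ∈ Z} ∪ {i | i ∈ I} := by
    ext; simp only [dn, hz, and_true, Set.mem_union, Set.mem_ofPred_eq]
  obtain ⟨z, z1, z2⟩ := hz
  have hs := h2 Z Q z ⟨z2, by simpa using hZ z z1⟩ z1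
  have e' : Z = {i | i < B.length ∧ i ∈ Z} ∪ nw B N := by
    ext i
    refine ⟨fun a => (lt_or_ge i B.length).imp (⟨·, a⟩) (⟨·, by simpa using hZ i a⟩),
      fun a => a.elim (·.2) (hs ·)⟩
  obtain ⟨i0, hi0⟩ := List.exists_mem_of_ne_nil _ hI
  obtain ⟨⟨m, a, c⟩, g⟩ := h.good _ ⟨i0, e ▸ Or.inr hi0⟩ (b.inn Z) P
  rw [e] at a g
  refine ⟨a.elim (fun a => ⟨m, a.2, h0 m a.1 ▸ c⟩) fun a =>
    (h3 ⟨m, a, c⟩).imp fun _ d => ⟨hs d.1, d.2⟩, ?_⟩
  rcases h4 with ⟨m, a, c⟩ | ⟨k1, k2⟩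
  · exact Or.inl ⟨m, hs a, c⟩
  rcases g with ⟨m, a | a, c⟩ | ⟨g1, g2⟩
  · exact Or.inl ⟨m, a.2, h0 m a.1 ▸ c⟩
  · exact absurd c (k1 m a)
  obtain ⟨k3, k4⟩ := k2 fun i hi => g1 i (Or.inr hi)
  refine Or.inr ⟨fun m a => ?_, ?_⟩
  · rw [e'] at a
    exact a.elim (fun a => h0 m a.1 ▸ g1 m (Or.inl a)) (k3 m)
  · rw [e', Set.image_union, Set.image_congr fun m a => congrArg Tg.q (h0 m a.1)]
    rw [Set.image_union] at g2
    exact k4 _ (h.inn (fun _ a => a.1) fun m a => g1 m (Or.inl a)) g2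

lemma Inv.one {B B' κ} (h : Inv s B B' κ) (ψ : Fm) (I : List ℕ) (hI : I ≠ [])
    (hl : ∀ i ∈ I, i < B.length) (τ : Tg) (h1 : Ok B' τ.k τ.q (V s τ.l ψ))
    (h3 : (∃ i ∈ I, (κ i).l = true) → τ.l = true)
    (h4 : τ.k = .t ∨ ((∀ i ∈ I, (κ i).k ≠ .t) ∧ ((∀ i ∈ I, (κ i).k = .r) →
      τ.k = .r ∧ Dom B' ((fun m => (κ m).q) '' {i | i ∈ I}) {τ.q}))) :
    ∃ κ', Inv s (B ++ [⟨ψ, I, none⟩]) B' κ' := by
  refine ⟨_, h.app (blk1 h.wf ψ hl) hI (Function.update κ B.length τ)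
    (fun m hm => Function.update_of_ne hm.ne _ _) ?_ ?_ ?_ ?_⟩
  · rintro (_ | j) n e <;> simp at e
    subst e; simpa using h1
  · simp [nw1]
  · simpa [nw1] using h3
  · simpa [nw1] using h4

lemma Inv.ct {B B' κ i φ ψ} (h : Inv s B B' κ) (hi : At B i φ)
    (c : ∀ B'' κ', Inv s (B ++ [⟨ψ, [i], none⟩]) B'' κ' → Closed B'') :
    Ct B' (κ i).k (κ i).q (V s (κ i).l ψ) := by
  intro B'' k q e o r
  obtain ⟨κ', a⟩ := (h.ext e).one ψ [i] (by simp) (by simpa using at_lt hi) ⟨k, (κ i).l, q⟩ o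
    (by simp) (by
      by_cases t : k = .t
      · exact Or.inl t
      obtain ⟨rfl, r'⟩ := r.resolve_left t
      exact Or.inr ⟨by simpa, by simpa using fun a => ⟨a, r' a⟩⟩)
  exact c _ _ a

lemma Inv.un {B B' κ i φ ψ} (h : Inv s B B' κ) (hi : At B i φ)
    (e : ∀ l, ent (V s l φ) (V s l ψ))
    (c : ∀ B'' κ', Inv s (B ++ [⟨ψ, [i], none⟩]) B'' κ' → Closed B'') : Closed B' :=
  cun h.wf' (h.ok hi) (e _) (h.ct hi c)

lemma Inv.cc {B B' κ i θ φ ψ} (h : Inv s B B' κ) (hi : At B i θ) (l1 l2 : Bool)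
    (hl : (κ i).l = true → l1 = true ∨ l2 = true)
    (c : ∀ B'' κ', Inv s (B ++ [⟨φ, [i], some (B.length + 1)⟩, ⟨ψ.neg, [i], some B.length⟩])
      B'' κ' → Closed B'') :
    Ct B' (κ i).k (κ i).q (ng (im (V s l1 φ) (V s (!l2) ψ))) := by
  intro B'' k q e o r
  have key : ∀ C k1 q1 k2 q2, Ext B'' C → Ok C k1 q1 (V s l1 φ) → Ok C k2 q2 (V s l2 ψ.neg) →
      (k1 = .t ∨ k2 = .t ∨ ((κ i).k ≠ .t ∧ ((κ i).k = .r → k1 = .r ∧ k2 = .r ∧
        Dom C {(κ i).q} {q1, q2}))) → Closed C := by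
    intro C k1 q1 k2 q2 e' o1 o2 r
    refine c _ _ ((h.ext (e.trans e')).app (blk2 h.wf φ ψ.neg (at_lt hi)) (by simp)
      (fun m => if m = B.length then ⟨k1, l1, q1⟩ else if m = B.length + 1 then ⟨k2, l2, q2⟩
        else κ m) (fun m hm => by rw [if_neg hm.ne, if_neg (by omega)]) ?_ ?_ ?_ ?_)
    · rintro (_ | _ | j) n e <;> simp at e <;> subst e
      exacts [by simpa using o1, by simpa using o2]
    · intro Z hZ
      have := hZ 0 _ _ rfl rfl
      simp only [nw2, Set.insert_subset_iff, Set.singleton_subset_iff]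
      rintro z (rfl | rfl) a
      exacts [⟨a, this.1 a⟩, ⟨this.2 a, a⟩]
    · simpa [nw2] using hl
    · simpa [nw2, Set.image_pair, or_assoc, and_assoc] using r
  have w := e.wf
  have ne := o.ne
  have ev : V s l2 ψ.neg = ng (V s (!l2) ψ) := rfl
  rw [ev] at key
  generalize V s l1 φ = x at *
  generalize V s (!l2) ψ = y at *
  cases x <;> cases y <;> simp only [im, ng, ne_eq, not_true] at ne o key
  · exact key _ .t 0 .t 0 (.refl w) rfl rfl (Or.inl rfl)
  · exact key _ .t 0 .z 0 (.refl w) rfl (by simp [Ok]) (Or.inl rfl)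
  · exact key _ .z 0 .t 0 (.refl w) (by simp [Ok]) rfl (Or.inr (Or.inl rfl))
  rename_i a b
  obtain ⟨rfl, r'⟩ := r.resolve_left fun t => by simp [t, Ok] at o
  cases hk : (κ i).k with
  | t => simp [hk, Ok] at o
  | z => exact key _ .z 0 .z 0 (.refl w) (by simp [Ok]) (by simp [Ok]) (by simp [hk])
  | r =>
    have o' := (h.ok hi).ext e
    rw [hk] at o o'
    obtain ⟨_, ⟨⟩, t⟩ := o
    have bl := blk2 w a b.neg (at_lt t)
    refine .cc t (key _ .r B''.length .r (B''.length + 1) bl.ext ⟨a, rfl, at_new ..⟩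
      ⟨b.neg, rfl, ⟨b.neg, [q], some B''.length⟩, by simp, rfl⟩ (Or.inr (Or.inr ⟨by simp [hk],
        fun _ => ⟨rfl, rfl, (bl.ext.dom _ _ ?_ ?_ (r' hk)).trans ?_⟩⟩)))
    · simpa [In] using at_lt o'.choose_spec.2
    · simpa [In] using at_lt t
    · simpa [nw2] using bl.dom (by simp)

lemma Inv.mp {B B' κ i j φ ψ} (h : Inv s B B' κ) (hi : At B i φ) (hj : At B j (.imp φ ψ))
    (c : ∀ B'' κ', Inv s (B ++ [⟨ψ, [i, j], none⟩]) B'' κ' → Closed B'') : Closed B' := by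
  obtain ⟨u, e1, e2⟩ : ∃ u, ent (V s (κ i).l φ) u ∧
      ent (V s (κ j).l (.imp φ ψ)) (im u (V s ((κ i).l || (κ j).l) ψ)) := by
    cases (κ i).l <;> cases (κ j).l
    exacts [⟨_, e_refl _, e_anl _ _⟩, ⟨_, e_refl _, e_refl _⟩, ⟨_, e_refl _, e_anr _ _⟩,
      ⟨_, mono s φ, e_refl _⟩]
  refine cun h.wf' (h.ok hi) e1 fun B1 k1 q1 x1 o1 r1 =>
    cun x1.wf ((h.ok hj).ext x1) e2 fun B2 k2 q2 x2 o2 r2 => ?_
  have key : ∀ C k q, Ext B2 C → Ok C k q (V s ((κ i).l || (κ j).l) ψ) →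
      (k = .t ∨ ((κ i).k ≠ .t ∧ (κ j).k ≠ .t) ∧ ((κ i).k = .r → (κ j).k = .r → k = .r ∧
        Dom C {(κ i).q, (κ j).q} {q})) → Closed C := by
    intro C k q e o r
    obtain ⟨κ', a⟩ := (h.ext ((x1.trans x2).trans e)).one ψ [i, j] (by simp)
      (by simp [at_lt hi, at_lt hj]) ⟨k, (κ i).l || (κ j).l, q⟩ o (by simp) (by
        have : {m | m ∈ [i, j]} = {i, j} := by ext; simp
        rw [this]
        simpa [Set.image_pair] using r)
    exact c _ _ a
  have n1 := o1.ne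
  have n2 := o2.ne
  have w := x2.wf
  generalize V s ((κ i).l || (κ j).l) ψ = v at *
  cases u <;> cases v <;> simp only [im, ne_eq, not_true] at n1 n2 o2
  · exact key _ .t 0 (.refl w) rfl (Or.inl rfl)
  · exact key _ .t 0 (.refl w) rfl (Or.inl rfl)
  rename_i a b
  obtain ⟨rfl, s1⟩ := r1.resolve_left fun t => by simp [t, Ok] at o1
  obtain ⟨rfl, s2⟩ := r2.resolve_left fun t => by simp [t, Ok] at o2
  have t1 : (κ i).k ≠ .t := fun t => by simp [t, Ok] at o1
  have t2 : (κ j).k ≠ .t := fun t => by simp [t, Ok] at o2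
  by_cases hr : (κ i).k = .r ∧ (κ j).k = .r
  swap
  · exact key _ .z 0 (.refl w) (by simp [Ok]) (Or.inr ⟨⟨t1, t2⟩, fun a b => absurd ⟨a, b⟩ hr⟩)
  have p1 := (h.ok hi).ext x1
  have p2 := ((h.ok hj).ext x1).ext x2
  rw [hr.1] at o1 p1
  rw [hr.2] at o2 p2
  obtain ⟨_, ⟨⟩, a1⟩ := o1
  obtain ⟨_, ⟨⟩, a2⟩ := o2
  have i1 : In B1 {(κ i).q} := by simpa [In] using at_lt p1.choose_spec.2
  have i2 : In B1 {q1} := by simpa [In] using at_lt a1
  have i3 : In B2 {(κ j).q} := by simpa [In] using at_lt p2.choose_spec.2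
  have i4 : In B2 {q2} := by simpa [In] using at_lt a2
  have bl := blk1 w b (I := [q1, q2]) (by simp [at_lt (x2.att a1), at_lt a2])
  have d1 := (x2.dom _ _ i1 i2 (s1 hr.1)).union i3
  have d2 := (s2 hr.2).union (x2.inn i2)
  rw [Set.union_comm] at d1
  rw [Set.union_comm] at d2
  refine .mp (x2.att a1) a2 (key _ .r B2.length bl.ext ⟨b, rfl, at_new ..⟩ (Or.inr ⟨⟨t1, t2⟩,
    fun _ _ => ⟨rfl, (bl.ext.dom _ _ ((x2.inn i1).union i3) ((x2.inn i2).union i4)
      (d1.trans d2)).trans ?_⟩⟩))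
  have := bl.dom (by simp)
  rw [nw1] at this
  convert this using 1
  ext; simp [or_comm]

lemma Inv.crash {B B' κ} (h : Inv s B B' κ) (c : Crashes B) : Closed B' := by
  obtain ⟨z, z', ζ, h1, h2, P⟩ := c
  obtain ⟨l, g⟩ := h.good {z, z'} (by simp) (by simp [In, at_lt h1, at_lt h2]) P
  have e : ent (V s (κ z).l ζ) (V s (!(κ z').l) ζ) := by
    simp only [Set.mem_insert_iff, Set.mem_singleton_iff, exists_eq_or_imp, exists_eq_left] at l
    revert l
    cases (κ z).l <;> cases (κ z').l <;> simp [e_refl, mono]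
  refine cun h.wf' (h.ok h1) e fun C k q x o r => ?_
  have o2 : Ok C _ _ (ng (V s (!(κ z').l) ζ)) := (h.ok h2).ext x
  have n1 := o.ne
  have n2 := o2.ne
  generalize V s (!(κ z').l) ζ = v at *
  cases v <;> simp only [ng, ne_eq, not_true] at n1 n2 o2
  obtain ⟨rfl, r'⟩ := r.resolve_left fun t => by simp [t, Ok] at o
  obtain ⟨g1, g2⟩ := g.resolve_left (by
    rintro ⟨m, rfl | rfl, t⟩
    exacts [by simp [t, Ok] at o, by simp [t, Ok] at o2])
  have k1 := g1 z (by simp)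
  have k2 := g1 z' (by simp)
  rw [k1] at o
  rw [k2] at o2
  obtain ⟨_, ⟨⟩, a1⟩ := o
  obtain ⟨_, ⟨⟩, a2⟩ := o2
  have := x.par _ (h.inn (by simp [In, at_lt h1, at_lt h2]) g1) g2
  rw [Set.image_pair, Set.insert_eq, Set.union_comm] at this
  have := r' k1 _ (by simpa [In] using at_lt a2) this
  rw [Set.union_comm] at this
  exact .crash ⟨q, _, _, a1, a2, this⟩

lemma root {φ B'} (τ : Tg) (hB : WF B') (l : τ.l = true) (o : Ok B' τ.k τ.q (ng (V s false φ)))
    (g : τ.k = .t ∨ τ.k = .r ∧ Par B' {τ.q}) : Inv s [⟨φ.neg, [], none⟩] B' fun _ => τ := by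
  refine ⟨by simp [WF], hB, fun {m ψ} ⟨n, e1, e2⟩ => ?_, fun Z ⟨z, hz⟩ _ _ =>
    ⟨⟨z, hz, l⟩, g.imp (⟨z, hz, ·⟩) fun g => ⟨fun _ _ => g.1, ?_⟩⟩⟩
  · rcases m with _ | m <;> simp at e1
    subst e1 e2
    rw [l]; exact o
  · rw [Set.Nonempty.image_const ⟨z, hz⟩]; exact g.2

def Des (u : W) : Prop := u ≠ bot ∧ ∀ δ ρ, u = fm δ → Ai δ ρ → Acceptable ρ

lemma des {φ} (h : ∀ B' κ, Inv s [⟨Fm.neg φ, [], none⟩] B' κ → Closed B') : Des (V s false φ) := by
  refine ⟨fun e => ?_, fun δ ρ e a => ?_⟩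
  · have := h [] _ (root ⟨.t, true, 0⟩ (by simp [WF]) rfl (by rw [e]; rfl) (Or.inl rfl))
    cases this with
    | crash h => obtain ⟨_, _, _, h, -⟩ := h; simpa using at_lt h
    | and h | nor h | dneg h | nand h | or h | mp h | cc h | recur h => simpa using at_lt h
  · refine .recur (i := 0) ⟨_, rfl, rfl⟩ (a_contra a) (h _ _ (root ⟨.r, true, 1⟩ (by simp [WF]) rfl
      (by rw [e]; exact ⟨_, rfl, _, rfl, rfl⟩) (Or.inr ⟨rfl, ?_⟩)))
    rintro (_ | _ | c) n p e1 e2 <;> simp at e1 <;> simp [← e1] at e2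

lemma Des.mono {u v} (h : Des u) (e : ent u v) : Des v := by
  cases u with
  | bot => exact absurd rfl h.1
  | top => cases v <;> simp [ent] at e; exact h
  | fm a =>
    cases v with
    | bot => simp [ent] at e
    | top => exact ⟨by simp, by simp⟩
    | fm b => exact ⟨by simp, fun δ ρ d c => h.2 a ρ rfl (a_trans e (by cases d; exact c))⟩

lemma Des.ent {u v} (h : Des (im u v)) : ent u v := by
  have h1 := h.1
  cases u <;> cases v <;> simp [im, Tree3.ent] at h1 ⊢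
  exact h.2 _ _ rfl (a_refl _)

lemma des_imp {χ θ} (h : Des (V s false (.imp χ θ))) : ∀ l, ent (V s l χ) (V s l θ)
  | false => (h.mono (e_anl _ _)).ent
  | true => (h.mono (e_anr _ _)).ent

theorem sim {B} (h : Closed B) : ∀ B' κ, Inv s B B' κ → Closed B' := by
  induction h with
  | crash c => exact fun _ _ h => h.crash c
  | and hi _ ih =>
    exact fun _ _ h => h.un hi (fun _ => e_anl _ _) fun _ _ a =>
      a.un (at_app hi _) (fun _ => e_anr _ _) fun _ _ b => ih _ _ (by simpa using b)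
  | @nor B i φ ψ hi _ ih =>
    exact fun _ _ h => h.un (ψ := φ.neg) hi (fun _ => e_ng (e_oul _ _)) fun _ _ a =>
      a.un (ψ := ψ.neg) (at_app hi _) (fun _ => e_ng (e_our _ _)) fun _ _ b =>
        ih _ _ (by simpa using b)
  | dneg hi _ ih => exact fun _ _ h => h.un hi (fun l => by simpa [V] using e_dn _) ih
  | @nand B i φ ψ hi _ _ ih1 ih2 =>
    exact fun _ _ h => cna h.wf' (h.ok hi) (h.ct (ψ := φ.neg) hi ih1) (h.ct (ψ := ψ.neg) hi ih2)
  | or hi _ _ ih1 ih2 => exact fun _ _ h => cou h.wf' (h.ok hi) (h.ct hi ih1) (h.ct hi ih2)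
  | mp hi hj _ ih => exact fun _ _ h => h.mp hi hj ih
  | @cc B i φ ψ hi _ ih =>
    intro B' κ h
    have o := h.ok hi
    cases e : (κ i).l <;> rw [e] at o
    · exact cun h.wf' o (e_refl _) (h.cc hi false false (by simp [e]) ih)
    · exact cna h.wf' o (h.cc hi false true (by simp) ih) (h.cc hi true false (by simp) ih)
  | recur hi _ _ ih1 ih2 => exact fun _ _ h => h.un hi (des_imp (des ih1)) ih2

theorem main {χ θ} (h : Ai χ θ) (s : ℕ → Bool) : ∀ l, ent (V s l χ) (V s l θ) :=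
  des_imp (des (sim h))

end Pool.Agent.H47.Tree3
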