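import Pool.Agent.H38.CM.W

/-! A universal while program and its simulation by a one-sided multi-track machine. -/

namespace H47.Uc

open Pool.Agent.H38.CM Function Relation

open Nat.Partrec.Code in
theorem exists_univ : ∃ w : W, ∀ e n m, m ∈ (Denumerable.ofNat Nat.Partrec.Code e).eval n →
    ∀ v : ℕ → ℕ, v 0 = n → v 1 = e → v 2 = 0 → v 3 = 0 → ∃ u, Ev w v u ∧ u 0 = m := by
  have hev : Primrec fun v : List.Vector ℕ 3 =>
      evaln v.tail.tail.head (Denumerable.ofNat Nat.Partrec.Code v.tail.head) v.head :=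
    primrec_evaln.comp (((Primrec.vector_head.comp (Primrec.vector_tail.comp
      Primrec.vector_tail)).pair ((Primrec.ofNat Nat.Partrec.Code).comp (Primrec.vector_head.comp
      Primrec.vector_tail))).pair Primrec.vector_head)
  have hp : Nat.Primrec' (n := 3) fun v => if (evaln v.tail.tail.head
      (Denumerable.ofNat Nat.Partrec.Code v.tail.head) v.head).isSome then 0 else 1 :=
    Nat.Primrec'.prim_iff.2 (Primrec.ite (Primrec.eq.comp (Primrec.option_isSome.comp hev)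
      (Primrec.const true)) (Primrec.const 0) (Primrec.const 1))
  have hq : Nat.Primrec' (n := 3) fun v => (evaln v.tail.tail.head
      (Denumerable.ofNat Nat.Partrec.Code v.tail.head) v.head).getD 0 :=
    Nat.Primrec'.prim_iff.2 (Primrec.option_getD.comp hev (Primrec.const 0))
  obtain ⟨w1, hw1⟩ := comp_of_prim hp ![0, 1, 2] 3 5 (fun i => by fin_cases i <;> simp) (by omega)
    (fun i => by fin_cases i <;> simp)
  obtain ⟨w2, hw2⟩ := comp_of_prim hq ![0, 1, 2] 4 5 (fun i => by fin_cases i <;> simp) (by omega)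
    (fun i => by fin_cases i <;> simp)
  refine ⟨.seq (.inc 3) (.seq (.loop 3 (.seq (.inc 2) w1)) (.seq w2 (copy 4 0 5))), ?_⟩
  intro e n m hm v h0 h1 h2 h3
  obtain ⟨k, hk⟩ := evaln_complete.1 hm
  have hb : ∀ v : ℕ → ℕ, ∃ u, Ev (.seq (.inc 2) w1) v u ∧ u 0 = v 0 ∧ u 1 = v 1 ∧ u 2 = v 2 + 1 ∧
      u 3 = if (evaln (v 2 + 1) (Denumerable.ofNat Nat.Partrec.Code (v 1)) (v 0)).isSome
        then 0 else 1 := by
    intro v
    obtain ⟨u, e, a1, a2⟩ := hw1 (update v 2 (v 2 + 1))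
    refine ⟨u, Ev.seq (Ev.inc _ _) e, ?_, ?_, ?_, ?_⟩
    · rw [a2 0 (by omega) (by omega), update_of_ne (by omega)]
    · rw [a2 1 (by omega) (by omega), update_of_ne (by omega)]
    · rw [a2 2 (by omega) (by omega), update_self]
    · rw [a1]; simp [List.Vector.tail_ofFn]
  have key : ∀ j (v : ℕ → ℕ), v 0 = n → v 1 = e → v 2 + j = k → v 3 = 1 →
      ∃ u, Ev (.loop 3 (.seq (.inc 2) w1)) v u ∧ u 0 = n ∧ u 1 = e ∧
        (evaln (u 2) (Denumerable.ofNat Nat.Partrec.Code e) n).isSome := by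
    intro j
    induction j with
    | zero =>
      intro v h0 h1 h2 h3
      obtain ⟨y, f1, a0, a1, a2, a3⟩ := hb (update v 3 0)
      simp only [ne_eq, OfNat.ofNat_ne_zero, OfNat.zero_ne_ofNat, not_false_eq_true, update_of_ne,
        OfNat.one_ne_ofNat, Nat.reduceEqDiff, h0, h1] at a0 a1 a2 a3
      have hs : (evaln (v 2 + 1) (Denumerable.ofNat Nat.Partrec.Code e) n).isSome := by
        rw [Option.mem_def.1 (evaln_mono (by omega) hk)]; rfl
      exact ⟨y, Ev.l1 (n := 0) h3 f1 (Ev.l0 (by simp [a3, hs])), a0, a1, a2 ▸ hs⟩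
    | succ j ih =>
      intro v h0 h1 h2 h3
      obtain ⟨y, f1, a0, a1, a2, a3⟩ := hb (update v 3 0)
      simp only [ne_eq, OfNat.ofNat_ne_zero, OfNat.zero_ne_ofNat, not_false_eq_true, update_of_ne,
        OfNat.one_ne_ofNat, Nat.reduceEqDiff, h0, h1] at a0 a1 a2 a3
      split_ifs at a3 with hs
      · exact ⟨y, Ev.l1 (n := 0) h3 f1 (Ev.l0 a3), a0, a1, a2 ▸ hs⟩
      · obtain ⟨u, hu, r⟩ := ih y a0 a1 (by omega) a3
        exact ⟨u, Ev.l1 (n := 0) h3 f1 hu, r⟩
  obtain ⟨u, hu, b0, b1, b2⟩ := key k (update v 3 (v 3 + 1)) (by simpa) (by simpa) (by simpa)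
    (by simpa)
  obtain ⟨u2, e2, c1, -⟩ := hw2 u
  obtain ⟨u3, e3, d1, -⟩ := ev_copy 4 0 5 (by omega) (by omega) (by omega) u2
  refine ⟨u3, Ev.seq (Ev.inc _ _) (Ev.seq hu (Ev.seq e2 e3)), ?_⟩
  obtain ⟨m', hm'⟩ := Option.isSome_iff_exists.1 b2
  rw [d1, c1]
  simp [List.Vector.tail_ofFn, b0, b1, hm']
  exact Part.mem_unique (evaln_sound hm') hm

def ok (K : ℕ) : W → Prop
  | .inc r => r < K
  | .skip => True
  | .seq a b => ok K a ∧ ok K b
  | .loop r b => r < K ∧ ok K b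

theorem ok.mono {K L : ℕ} (h : K ≤ L) : ∀ {w : W}, ok K w → ok L w
  | .inc _, h' => lt_of_lt_of_le h' h
  | .skip, _ => trivial
  | .seq _ _, h' => ⟨h'.1.mono h, h'.2.mono h⟩
  | .loop _ _, h' => ⟨lt_of_lt_of_le h'.1 h, h'.2.mono h⟩

theorem exists_ok : ∀ w : W, ∃ K, ok K w
  | .inc r => ⟨r + 1, Nat.lt_succ_self r⟩
  | .skip => ⟨0, trivial⟩
  | .seq a b => by
    obtain ⟨K, h⟩ := exists_ok a; obtain ⟨L, h'⟩ := exists_ok b
    exact ⟨K + L, h.mono (by omega), h'.mono (by omega)⟩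
  | .loop r b => by
    obtain ⟨K, h⟩ := exists_ok b
    exact ⟨K + r + 1, by omega, h.mono (by omega)⟩

def clr : ℕ → W
  | 0 => .skip
  | k + 1 => .seq (clr k) (clear (k + 1))

theorem ok_clr {K : ℕ} : ∀ k < K, ok K (clr k)
  | 0, _ => trivial
  | k + 1, h => ⟨ok_clr k (by omega), h, trivial⟩

theorem ev_clr (v : ℕ → ℕ) : ∀ k, ∃ u, Ev (clr k) v u ∧ u 0 = v 0 ∧ ∀ r, 1 ≤ r → r ≤ k → u r = 0
  | 0 => ⟨v, Ev.skip v, rfl, fun r _ _ => by omega⟩
  | k + 1 => by
    obtain ⟨u, h1, h2, h3⟩ := ev_clr v k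
    refine ⟨_, Ev.seq h1 (ev_clear _ _), by simpa, fun r a b => ?_⟩
    by_cases hr : r = k + 1
    · simp [hr]
    · rw [update_of_ne hr, h3 r a (by omega)]

theorem exists_univ' : ∃ (K : ℕ) (w : W), ok (K + 1) w ∧ ∀ e n m,
    m ∈ (Denumerable.ofNat Nat.Partrec.Code e).eval n →
    ∃ u, Ev w (fun r => if r = 0 then n else if r = 1 then e else 0) u ∧ u 0 = m ∧
      ∀ r, 1 ≤ r → r ≤ K → u r = 0 := by
  obtain ⟨w, hw⟩ := exists_univ
  obtain ⟨K, hK⟩ := exists_ok w
  refine ⟨K, .seq w (clr K), ⟨hK.mono (by omega), ok_clr K (by omega)⟩, fun e n m hm => ?_⟩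
  obtain ⟨u, h1, h2⟩ := hw e n m hm (fun r => if r = 0 then n else if r = 1 then e else 0)
    (by simp) (by simp) (by simp) (by simp)
  obtain ⟨u', h3, h4, h5⟩ := ev_clr u K
  exact ⟨u', Ev.seq h1 h3, h4.trans h2, h5⟩

/-- control states -/
def Ctl : W → Type
  | .inc _ => Bool
  | .skip => Unit
  | .seq a b => Ctl a ⊕ Ctl b
  | .loop _ b => Fin 4 ⊕ Ctl b

theorem Ctl.finite : ∀ w, Finite (Ctl w)
  | .inc _ => inferInstanceAs (Finite Bool)
  | .skip => inferInstanceAs (Finite Unit)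
  | .seq a b => by
    have := Ctl.finite a; have := Ctl.finite b; exact inferInstanceAs (Finite (Ctl a ⊕ Ctl b))
  | .loop _ b => by have := Ctl.finite b; exact inferInstanceAs (Finite (Fin 4 ⊕ Ctl b))

def entry : (w : W) → Ctl w
  | .inc _ => false
  | .skip => ()
  | .seq a _ => .inl (entry a)
  | .loop _ _ => .inl 0

def jmp {α β : Type} (f : α → β) (e : Option β) : Option α → Option β
  | none => e
  | some s => some (f s)

abbrev Γ (K : ℕ) := Fin (K + 1) → Bool

def rd {K : ℕ} (γ : Γ K) (r : ℕ) : Bool := if h : r < K + 1 then γ ⟨r, h⟩ else false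

def wr {K : ℕ} (γ : Γ K) (r : ℕ) (b : Bool) : Γ K := fun i => if i.val = r then b else γ i

/-- transition: new control, new symbol, move (0 left, 1 stay, 2 right) -/
def δ {K : ℕ} : (w : W) → Ctl w → Bool → Γ K → Option (Ctl w) × Γ K × ℕ
  | .inc r, false, _, γ => if rd γ r then (some false, γ, 2) else (some true, wr γ r true, 1)
  | .inc _, true, h, γ => if h then (none, γ, 1) else (some true, γ, 0)
  | .skip, _, _, γ => (none, γ, 1)
  | .seq a b, .inl s, h, γ => (jmp .inl (some (.inr (entry b))) (δ a s h γ).1, (δ a s h γ).2)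
  | .seq _ b, .inr s, h, γ => (jmp .inr none (δ b s h γ).1, (δ b s h γ).2)
  | .loop r b, .inl i, h, γ =>
    if i = 0 then (if rd γ r then (some (.inl 1), γ, 1) else (none, γ, 1))
    else if i = 1 then (if rd γ r then (some (.inl 1), γ, 2) else (some (.inl 2), γ, 0))
    else if i = 2 then (some (.inl 3), wr γ r false, 1)
    else (if h then (some (.inr (entry b)), γ, 1) else (some (.inl 3), γ, 0))
  | .loop _ b, .inr s, h, γ => (jmp .inr (some (.inl 0)) (δ b s h γ).1, (δ b s h γ).2)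

abbrev Cf (K : ℕ) (w : W) := Option (Ctl w) × ℕ × (ℕ → Γ K)

def Step {K : ℕ} (w : W) (c d : Cf K w) : Prop :=
  ∃ s q γ m, c.1 = some s ∧ δ w s (decide (c.2.1 = 0)) (c.2.2 c.2.1) = (q, γ, m) ∧ m ≤ 2 ∧
    d.1 = q ∧ d.2.1 + 1 = c.2.1 + m ∧ d.2.2 = update c.2.2 c.2.1 γ

theorem Step.same {K : ℕ} {w : W} {s : Ctl w} {q : Option (Ctl w)} {p p' m : ℕ} {t : ℕ → Γ K}
    (h : δ w s (decide (p = 0)) (t p) = (q, t p, m)) (hm : m ≤ 2) (hp : p' + 1 = p + m) :
    Step w (some s, p, t) (q, p', t) :=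
  ⟨s, q, t p, m, rfl, h, hm, rfl, hp, by simp⟩

theorem lift_run {K : ℕ} {a w : W} (f : Ctl a → Ctl w) (e : Option (Ctl w))
    (h : ∀ s b (γ : Γ K), δ w (f s) b γ = (jmp f e (δ a s b γ).1, (δ a s b γ).2))
    {c d : Cf K a} (hr : ReflTransGen (Step a) c d) :
    ReflTransGen (Step w) (jmp f e c.1, c.2) (jmp f e d.1, d.2) := by
  induction hr with
  | refl => exact .refl
  | tail _ hs ih =>
    refine ih.tail ?_
    obtain ⟨s, q, γ, m, h1, h2, h3, h4, h5, h6⟩ := hs
    exact ⟨f s, jmp f e q, γ, m, by rw [h1]; rfl, by rw [h, h2], h3, by rw [h4], h5, h6⟩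

theorem back_run {K : ℕ} {w : W} {s : Ctl w} {q : Option (Ctl w)}
    (h : ∀ b (γ : Γ K), δ w s b γ = if b then (q, γ, 1) else (some s, γ, 0)) (t : ℕ → Γ K) :
    ∀ p, ReflTransGen (Step w) (some s, p, t) (q, 0, t)
  | 0 => .single (Step.same (m := 1) (by simp [h]) (by omega) rfl)
  | p + 1 => .head (Step.same (m := 0) (p' := p) (by simp [h]) (by omega) rfl) (back_run h t p)

theorem out_run {K : ℕ} {w : W} {s : Ctl w} {r : ℕ}
    (h : ∀ b (γ : Γ K), rd γ r = true → δ w s b γ = (some s, γ, 2)) (t : ℕ → Γ K) :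
    ∀ n, (∀ j < n, rd (t j) r = true) → ReflTransGen (Step w) (some s, 0, t) (some s, n, t)
  | 0, _ => .refl
  | n + 1, ht => (out_run h t n fun j hj => ht j (by omega)).tail
      (Step.same (m := 2) (h _ _ (ht n (by omega))) le_rfl rfl)

def Tp (K : ℕ) (v : ℕ → ℕ) : ℕ → Γ K := fun j i => decide (j < v i)

theorem rd_Tp {K r : ℕ} (hr : r < K + 1) (v : ℕ → ℕ) (j : ℕ) :
    rd (Tp K v j) r = decide (j < v r) := by simp [rd, Tp, hr]

theorem Tp_upd {K r n n' : ℕ} (v : ℕ → ℕ) (b : Bool)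
    (h : ∀ j, (j < n' ↔ if j = n then b = true else j < v r)) :
    Tp K (update v r n') = update (Tp K v) n (wr (Tp K v n) r b) := by
  funext j i
  by_cases hj : j = n
  · subst hj
    by_cases hi : i.val = r
    · have := h j
      cases b <;> simp_all [Tp, wr]
    · simp [Tp, wr, hi]
  · by_cases hi : i.val = r
    · have := h j
      simp_all [Tp]
    · simp [Tp, hi, hj]

theorem run_of_ev {K : ℕ} {w : W} {v u : ℕ → ℕ} (h : Ev w v u) (hk : ok (K + 1) w) :
    ReflTransGen (Step w) (some (entry w), 0, Tp K v) (none, 0, Tp K u) := by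
  induction h with
  | inc r v =>
    refine (out_run (w := .inc r) (s := false) (r := r) (fun b γ h => by simp [δ, h]) _ (v r)
      fun j hj => by simp [rd_Tp hk, hj]).trans (.head (b := (some true, v r, _)) ?_
        (back_run (fun b γ => rfl) _ _))
    refine ⟨false, some true, wr (Tp K v (v r)) r true, 1, rfl, by simp [δ, rd_Tp hk], by omega,
      rfl, rfl, Tp_upd (n := v r) v true fun j => ?_⟩
    split_ifs <;> simp <;> omega
  | skip v => exact .single (Step.same (m := 1) rfl (by omega) rfl)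
  | @seq a b _ _ _ _ _ ih1 ih2 =>
    exact (lift_run (w := .seq a b) .inl (some (.inr (entry b))) (fun _ _ _ => rfl) (ih1 hk.1)).trans
      (lift_run (w := .seq a b) .inr none (fun _ _ _ => rfl) (ih2 hk.2))
  | @l0 r b v h0 =>
    exact .single (Step.same (m := 1) (by simp [δ, entry, rd_Tp hk.1, h0]) (by omega) rfl)
  | @l1 r b v u' w' n h1 _ _ ih1 ih2 =>
    have e1 : Step (K := K) (.loop r b) (some (.inl 0), 0, Tp K v) (some (.inl 1), 0, Tp K v) :=
      Step.same (m := 1) (by simp [δ, rd_Tp hk.1, h1]) (by omega) rfl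
    have e2 := out_run (w := .loop r b) (s := .inl 1) (r := r) (fun b γ h => by simp [δ, h])
      (Tp K v) (n + 1) fun j hj => by simp [rd_Tp hk.1, h1, hj]
    have e3 : Step (K := K) (.loop r b) (some (.inl 1), n + 1, Tp K v)
        (some (.inl 2), n, Tp K v) :=
      Step.same (m := 0) (by simp [δ, rd_Tp hk.1, h1]) (by omega) rfl
    have e4 : Step (K := K) (.loop r b) (some (.inl 2), n, Tp K v)
        (some (.inl 3), n, Tp K (update v r n)) := by
      refine ⟨.inl 2, some (.inl 3), wr (Tp K v n) r false, 1, rfl, rfl, by omega, rfl, rfl,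
        Tp_upd (n := n) v false fun j => ?_⟩
      split_ifs
      · simp; omega
      · omega
    have e5 := back_run (K := K) (w := .loop r b) (s := .inl 3) (q := some (.inr (entry b)))
      (fun b γ => rfl) (Tp K (update v r n)) n
    have e6 := lift_run (w := .loop r b) .inr (some (.inl 0)) (fun _ _ _ => rfl) (ih1 hk.2)
    exact .head e1 (e2.trans (.head e3 (.head e4 (e5.trans (e6.trans (ih2 hk))))))

end H47.Uc
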