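import Pool.Agent.H47.Uc1

/-! A cellular automaton on `ℤ` running two mirrored copies of the machine of `Uc1`. -/

namespace H47.Uc

open Pool.Agent.H38.CM Function Relation

abbrev St (K : ℕ) (w : W) := Option (Bool × Option (Ctl w)) × Bool × Γ K

variable {K : ℕ} {w : W}

def nu (K : ℕ) (w : W) : St K w := (none, false, fun _ => false)

def mk (K : ℕ) (w : W) : St K w := (none, false, fun i => decide (i = 0))

abbrev Ac (K : ℕ) (w : W) := Option (Bool × Option (Ctl w) × Γ K × ℕ)

def A3 (l c r : St K w) : Ac K w :=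
  match c.1 with
  | some (b, some s) => some (b, δ w s c.2.1 fun i =>
      if i = 0 then (if b then r.2.2 0 else l.2.2 0) else c.2.2 i)
  | _ => none

def arr (a : Ac K w) (k : ℕ) (o : Option (Bool × Option (Ctl w))) :
    Option (Bool × Option (Ctl w)) :=
  match a with
  | some (b, q, _, m) => if (if b then m else 2 - m) = k then some (b, q) else o
  | none => o

def wr0 (a : Ac K w) (b : Bool) (o : Bool) : Bool :=
  match a with
  | some (b', _, γ, _) => if b' = b then γ 0 else o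
  | none => o

def wr1 (a : Ac K w) (i : Fin (K + 1)) (o : Bool) : Bool :=
  match a with
  | some (_, _, γ, _) => γ i
  | none => o

def comb (a0 a1 a2 a3 a4 : Ac K w) (c : St K w) : St K w :=
  (arr a2 1 (arr a0 2 (arr a4 0 (if a2.isSome then none else c.1))), c.2.1,
    fun i => if i = 0 then wr0 a1 true (wr0 a3 false (c.2.2 0)) else wr1 a2 i (c.2.2 i))

def rule (nb : Fin (2 * 3 + 1) → St K w) : St K w :=
  comb (A3 (nb 0) (nb 1) (nb 2)) (A3 (nb 1) (nb 2) (nb 3)) (A3 (nb 2) (nb 3) (nb 4))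
    (A3 (nb 3) (nb 4) (nb 5)) (A3 (nb 4) (nb 5) (nb 6)) (nb 3)

def G (c : ℤ → St K w) : ℤ → St K w := fun x => rule fun i => c (x + (i : ℕ) - (3 : ℕ))

def B (c : ℤ → St K w) (z : ℤ) : Ac K w := A3 (c (z - 1)) (c z) (c (z + 1))

theorem G_eq (c : ℤ → St K w) (x : ℤ) :
    G c x = comb (B c (x - 2)) (B c (x - 1)) (B c x) (B c (x + 1)) (B c (x + 2)) (c x) := by
  have e0 : x + ((0 : Fin (2 * 3 + 1)) : ℕ) - (3 : ℕ) = x - 2 - 1 := by simp; ring
  have e1 : x + ((1 : Fin (2 * 3 + 1)) : ℕ) - (3 : ℕ) = x - 2 := by simp; ring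
  have e2 : x + ((2 : Fin (2 * 3 + 1)) : ℕ) - (3 : ℕ) = x - 1 := by simp; ring
  have e3 : x + ((3 : Fin (2 * 3 + 1)) : ℕ) - (3 : ℕ) = x := by simp
  have e4 : x + ((4 : Fin (2 * 3 + 1)) : ℕ) - (3 : ℕ) = x + 1 := by simp; ring
  have e5 : x + ((5 : Fin (2 * 3 + 1)) : ℕ) - (3 : ℕ) = x + 2 := by simp; ring
  have e6 : x + ((6 : Fin (2 * 3 + 1)) : ℕ) - (3 : ℕ) = x + 2 + 1 := by simp; ring
  have f1 : x - 2 + 1 = x - 1 := by ring
  have f2 : x - 1 - 1 = x - 2 := by ring
  have f3 : x - 1 + 1 = x := by ring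
  have f4 : x + 1 - 1 = x := by ring
  have f5 : x + 1 + 1 = x + 2 := by ring
  have f6 : x + 2 - 1 = x + 1 := by ring
  simp only [G, rule, B, e0, e1, e2, e3, e4, e5, e6, f1, f2, f3, f4, f5, f6]

theorem comb_none (c : St K w) : comb none none none none none c = c := by
  obtain ⟨a, b, t⟩ := c
  simp only [comb, arr, wr0, wr1, Option.isSome_none, Bool.false_eq_true, if_false]
  congr 2
  funext i
  split_ifs with h
  · rw [h]
  · rfl

def Idle (c : ℤ → St K w) : Prop := ∀ x b s, (c x).1 ≠ some (b, some s)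

theorem A3_none {l c r : St K w} (h : ∀ b s, c.1 ≠ some (b, some s)) : A3 l c r = none := by
  unfold A3
  split
  · rename_i b s e; exact absurd e (h b s)
  · rfl

theorem G_idle {c : ℤ → St K w} (h : Idle c) : G c = c := by
  funext x
  have : ∀ z, B c z = none := fun z => A3_none (h z)
  simp only [G_eq, this, comb_none]

theorem rule_nu : rule (fun _ => nu K w) = nu K w := by
  have : A3 (nu K w) (nu K w) (nu K w) = none := rfl
  simp only [rule, this, comb_none]

def fold (x : ℤ) : ℕ := if 0 ≤ x then x.toNat else (-1 - x).toNat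

def trk (tp : ℕ → Γ K) (y : ℕ) : Γ K := fun i =>
  if y % 2 = 1 then (decide (i ≠ 0) && tp (y / 2) i)
  else (decide (i = 0) && (decide (y = 0) || tp (y / 2 - 1) 0))

def cfg (c : Cf K w) : ℤ → St K w := fun x =>
  (if x = 2 * c.2.1 + 1 then some (true, c.1) else if x = -2 - 2 * c.2.1 then some (false, c.1)
    else none, decide (fold x = 1), trk c.2.2 (fold x))

theorem fold_spec (x : ℤ) : (0 ≤ x ∧ (fold x : ℤ) = x) ∨ (x < 0 ∧ (fold x : ℤ) = -1 - x) := by
  unfold fold; split_ifs <;> omega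

theorem trk_read (tp : ℕ → Γ K) (p : ℕ) :
    (fun i => if i = 0 then trk tp (2 * p + 2) 0 else trk tp (2 * p + 1) i) = tp p := by
  funext i
  have h1 : (2 * p + 2) % 2 ≠ 1 := by omega
  have h2 : (2 * p + 1) % 2 = 1 := by omega
  have h3 : (2 * p + 2) / 2 - 1 = p := by omega
  have h4 : (2 * p + 1) / 2 = p := by omega
  split_ifs with h
  · simp [trk, h1, h3, h]
  · simp [trk, h2, h4, h]

theorem B_cfg (s : Ctl w) (p : ℕ) (tp : ℕ → Γ K) (z : ℤ) :
    B (cfg (some s, p, tp)) z = if z = 2 * p + 1 then some (true, δ w s (decide (p = 0)) (tp p))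
      else if z = -2 - 2 * p then some (false, δ w s (decide (p = 0)) (tp p)) else none := by
  split_ifs with h1 h2
  · have a1 : fold z = 2 * p + 1 := by have := fold_spec z; omega
    have a2 : fold (z + 1) = 2 * p + 2 := by have := fold_spec (z + 1); omega
    have a3 : decide (2 * p + 1 = 1) = decide (p = 0) := by simp
    simp only [B, A3, cfg, if_pos h1, a1, a2, a3, if_true, trk_read]
  · have a1 : fold z = 2 * p + 1 := by have := fold_spec z; omega
    have a2 : fold (z - 1) = 2 * p + 2 := by have := fold_spec (z - 1); omega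
    have a3 : decide (2 * p + 1 = 1) = decide (p = 0) := by simp
    simp only [B, A3, cfg, if_neg h1, if_pos h2, a1, a2, a3, Bool.false_eq_true, if_false, trk_read]
  · exact A3_none (by simp [cfg, h1, h2])

theorem trk_upd0 (tp : ℕ → Γ K) (p y : ℕ) (γ : Γ K) :
    trk (update tp p γ) y 0 = if y = 2 * p + 2 then γ 0 else trk tp y 0 := by
  unfold trk
  by_cases h1 : y % 2 = 1
  · rw [if_neg (by omega : ¬ y = 2 * p + 2)]; simp [h1]
  · by_cases h2 : y = 2 * p + 2
    · have h3 : y / 2 - 1 = p := by omega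
      have h4 : y ≠ 0 := by omega
      rw [if_pos h2]; simp [h1, h3, h4]
    · rw [if_neg h2]
      by_cases h0 : y = 0
      · simp [h0]
      · rw [update_of_ne (by omega : y / 2 - 1 ≠ p)]; simp [h1]

theorem trk_upd1 (tp : ℕ → Γ K) (p y : ℕ) (γ : Γ K) {i : Fin (K + 1)} (hi : i ≠ 0) :
    trk (update tp p γ) y i = if y = 2 * p + 1 then γ i else trk tp y i := by
  unfold trk
  by_cases h2 : y = 2 * p + 1
  · have h3 : y / 2 = p := by omega
    have h4 : y % 2 = 1 := by omega
    rw [if_pos h2]; simp [h3, h4, hi]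
  · rw [if_neg h2]
    by_cases h1 : y % 2 = 1
    · rw [update_of_ne (by omega : y / 2 ≠ p)]; simp [h1]
    · simp [h1, hi]

theorem G_step {c d : Cf K w} (h : Step w c d) : G (cfg c) = cfg d := by
  obtain ⟨s0, p, tp⟩ := c
  obtain ⟨q0, p', tp'⟩ := d
  obtain ⟨s, q, γ, m, h1, h2, h3, h4, h5, h6⟩ := h
  dsimp only at h1 h2 h4 h5 h6
  subst h1 h4 h6
  funext x
  rw [G_eq]
  simp only [B_cfg, h2]
  refine Prod.ext ?_ (Prod.ext rfl ?_)
  · simp only [comb, cfg]
    split_ifs <;> simp_all [arr] <;> omega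
  · funext i
    have hx := fold_spec x
    simp only [comb, cfg]
    by_cases hi : i = 0
    · rw [if_pos hi, hi, trk_upd0]
      split_ifs <;> first | omega | simp [wr0]
    · rw [if_neg hi, trk_upd1 _ _ _ _ hi]
      split_ifs <;> first | omega | simp [wr1]

theorem run_G {c d : Cf K w} (h : ReflTransGen (Step w) c d) :
    ∃ t, G^[t] (cfg c) = cfg d ∧ ∀ t' < t, ∃ s p tp, G^[t'] (cfg c) = cfg (K := K) (w := w) (some s, p, tp) := by
  induction h with
  | refl => exact ⟨0, rfl, fun _ h => absurd h (by omega)⟩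
  | @tail a b _ hs ih =>
    obtain ⟨t, h1, h2⟩ := ih
    refine ⟨t + 1, by rw [iterate_succ_apply', h1, G_step hs], fun t' ht => ?_⟩
    rcases Nat.lt_succ_iff_lt_or_eq.1 ht with h | rfl
    · exact h2 t' h
    · obtain ⟨s, -, -, -, e, -⟩ := hs
      exact ⟨s, a.2.1, a.2.2, by rw [h1, ← e]⟩

def iota (K : ℕ) (w : W) (n : ℕ) : ℤ → St K w := fun x =>
  if fold x % 2 = 0 ∧ fold x ≤ 2 * n then mk K w else nu K w

theorem mk_ne : mk K w ≠ nu K w := fun h => by
  have := congrFun (congrArg (fun s => s.2.2) h) 0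
  simp [mk, nu] at this

theorem iota_ne {n : ℕ} {x : ℤ} : iota K w n x ≠ nu K w ↔ fold x % 2 = 0 ∧ fold x ≤ 2 * n := by
  unfold iota; split_ifs with h
  · simp [h, mk_ne]
  · simp [h]

theorem cfg_even (q : Option (Ctl w)) (v : ℕ → ℕ) {x : ℤ} (hx : fold x % 2 = 0) :
    cfg (q, 0, Tp K v) x = iota K w (v 0) x := by
  have := fold_spec x
  have h1 : ¬ x = 1 := by omega
  have h2 : ¬ x = -2 := by omega
  have h3 : ¬ fold x = 1 := by omega
  have h4 : ¬ fold x % 2 = 1 := by omega
  unfold iota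
  split_ifs with h
  · have h5 : fold x = 0 ∨ fold x / 2 - 1 < v 0 := by omega
    simp only [cfg, mk, h1, h2, h3, Nat.cast_zero, mul_zero, zero_add, sub_zero, if_false,
      decide_false]
    congr 2
    funext i
    simp [trk, h4, Tp]
    intro _
    exact h5
  · have h5 : ¬ fold x = 0 := by omega
    have h6 : ¬ fold x / 2 - 1 < v 0 := by omega
    simp only [cfg, nu, h1, h2, h3, Nat.cast_zero, mul_zero, zero_add, sub_zero, if_false,
      decide_false]
    congr 2
    funext i
    simp [trk, h4, Tp, h5, h6]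

theorem cfg_odd (q : Option (Ctl w)) (v v' : ℕ → ℕ) (h : ∀ r, r ≠ 0 → v r = v' r) {x : ℤ}
    (hx : ¬ fold x % 2 = 0) : cfg (q, 0, Tp K v) x = cfg (q, 0, Tp K v') x := by
  have h4 : fold x % 2 = 1 := by omega
  simp only [cfg]
  congr 2
  funext i
  by_cases hi : i = 0
  · simp [trk, h4, hi]
  · simp [trk, h4, Tp, h i (by simpa using hi)]

def halt (K : ℕ) (w : W) : St K w := (some (true, none), true, fun _ => false)

theorem cfg_halt (u : ℕ → ℕ) (hu : ∀ r, 1 ≤ r → r ≤ K → u r = 0) :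
    cfg (w := w) (none, 0, Tp K u) 1 = halt K w := by
  have : fold 1 = 1 := rfl
  simp only [cfg, halt, this]
  congr 2
  funext i
  by_cases hi : i = 0
  · simp [trk, hi]
  · have : i.val ≠ 0 := by simpa using hi
    simp [trk, Tp, hu i (by omega) (by omega)]

theorem cfg_not_halt (s : Ctl w) (p : ℕ) (tp : ℕ → Γ K) :
    cfg (some s, p, tp) 1 ≠ halt K w := fun h => by
  have := congrArg Prod.fst h
  simp only [cfg, halt] at this
  split_ifs at this <;> simp at this

theorem idle_cfg (p : ℕ) (tp : ℕ → Γ K) : Idle (cfg (w := w) (none, p, tp)) := by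
  intro x b s
  simp only [cfg]
  split_ifs <;> simp

theorem idle_iota (n : ℕ) : Idle (iota K w n) := by
  intro x b s
  unfold iota
  split_ifs <;> simp [mk, nu]

end H47.Uc
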