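import Mathlib

namespace Pool.Agent.H47.UnitAdd
open Matrix Finset

def Net {n : ℕ} (v : Fin n → ℤ) : Prop :=
  ∃ p q : Option (Fin n), ∀ j, v j = (if p = some j then 1 else 0) - (if q = some j then 1 else 0)

lemma opt {n : ℕ} (c : Fin (n + 1)) (p : Option (Fin (n + 1))) :
    ∃ p' : Option (Fin n), ∀ j, p' = some j ↔ p = some (c.succAbove j) := by
  rcases p with _ | a
  · exact ⟨none, by simp⟩
  · by_cases h : a = c
    · exact ⟨none, fun j => by simp [h, (Fin.succAbove_ne c j).symm]⟩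
    · obtain ⟨b, rfl⟩ := Fin.exists_succAbove_eq h
      exact ⟨some b, by simp⟩

lemma det_net (n : ℕ) : ∀ M : Matrix (Fin n) (Fin n) ℤ, (∀ i, Net (M i)) → |M.det| ≤ 1 := by
  induction n with
  | zero => simp
  | succ n ih =>
    intro M h
    by_cases h0 : ∀ i, ∑ j, M i j = 0
    · have : M.det = 0 := exists_mulVec_eq_zero_iff.1 ⟨1, one_ne_zero, funext fun i => by
        simpa [mulVec, dotProduct] using h0 i⟩
      simp [this]
    push Not at h0
    obtain ⟨i, hi⟩ := h0
    obtain ⟨c, hc, hc'⟩ : ∃ c, |M i c| = 1 ∧ ∀ j ≠ c, M i j = 0 := by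
      obtain ⟨p, q, hpq⟩ := h i
      simp only [hpq] at hi ⊢
      rcases p with _ | p <;> rcases q with _ | q
      · simp at hi
      · exact ⟨q, by simp, fun j hj => by simp [hj.symm]⟩
      · exact ⟨p, by simp, fun j hj => by simp [hj.symm]⟩
      · simp at hi
    rw [det_succ_row M i, sum_eq_single c (fun j _ hj => by simp [hc' j hj]) (by simp)]
    simp only [abs_mul, hc, abs_pow, abs_neg, abs_one, one_pow, one_mul]
    refine ih _ fun r => ?_
    obtain ⟨p, q, hpq⟩ := h (i.succAbove r)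
    obtain ⟨p', hp⟩ := opt c p
    obtain ⟨q', hq⟩ := opt c q
    exact ⟨p', q', fun j => by simp [hpq, hp, hq]⟩

lemma det_two {n : ℕ} (T : Finset (Fin n)) : ∀ M : Matrix (Fin n) (Fin n) ℤ,
    (∀ i ∉ T, Net (M i)) → (∀ i ∈ T, ∃ u v, Net u ∧ Net v ∧ M i = u + v) →
    |M.det| ≤ 2 ^ T.card := by
  induction T using Finset.induction_on with
  | empty => intro M h _; simpa using det_net n M (by simpa using h)
  | insert i T hi ih =>
    intro M h1 h2
    obtain ⟨u, v, hu, hv, e⟩ := h2 i (mem_insert_self _ _)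
    have key : ∀ w, Net w → |(M.updateRow i w).det| ≤ 2 ^ T.card := fun w hw => by
      refine ih _ (fun r hr => ?_) fun r hr => ?_
      · by_cases hri : r = i
        · subst hri; simpa using hw
        · rw [updateRow_ne hri]; exact h1 r (by simp [hr, hri])
      · rw [updateRow_ne (ne_of_mem_of_not_mem hr hi)]; exact h2 r (mem_insert_of_mem hr)
    rw [← updateRow_eq_self M i, e, det_updateRow_add, card_insert_of_notMem hi, pow_succ]
    have := abs_add_le (M.updateRow i u).det (M.updateRow i v).det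
    linarith [key u hu, key v hv]

lemma net_single {n : ℕ} (p : Fin n) : Net (Pi.single p 1) :=
  ⟨some p, none, fun j => by simp [Pi.single_apply, eq_comm]⟩

lemma net_sub {n : ℕ} (p q : Fin n) : Net (Pi.single p 1 - Pi.single q 1) :=
  ⟨some p, some q, fun j => by simp [Pi.single_apply, eq_comm]⟩

lemma net_upd {n : ℕ} {u : Fin n → ℤ} (h : Net u) (l : Fin n) : Net (Function.update u l 0) := by
  obtain ⟨p, q, h⟩ := h
  refine ⟨if p = some l then none else p, if q = some l then none else q, fun j => ?_⟩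
  by_cases hj : j = l
  · subst hj; simp
  · rw [Function.update_of_ne hj, h]
    congr 1 <;> split_ifs <;> simp_all

lemma net_upd' {n : ℕ} (p l : Fin n) : Net (Function.update (Pi.single p 1) l (-1)) := by
  refine ⟨if p = l then none else some p, some l, fun j => ?_⟩
  by_cases hj : j = l
  · subst hj; simp
  · rw [Function.update_of_ne hj, Pi.single_apply]
    split_ifs <;> simp_all

theorem core {K : Type} [Field K] [CharZero K] {n : ℕ} (x : Fin n → K) (i0 : Fin n)
    (h0 : x i0 = 1) : ∃ (A : Matrix (Fin n) (Fin n) ℤ) (F : Finset (Fin n)) (a : ℕ)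
    (b : Fin n → ℤ), A.det ≠ 0 ∧ a + F.card + 1 ≤ n ∧ (∀ i ∈ F, b i = 0) ∧
    (∀ i ∉ F, ∑ j, (A i j : K) * x j = b i) ∧ (∀ l, |cramer A b l| ≤ 2 ^ a) ∧
    (∀ l, ∀ i ∈ F, |adjugate A l i| ≤ 2 ^ a) ∧
    ∀ y : Fin n → ℚ, (∀ i ∉ F, ∑ j, (A i j : ℚ) * y j = b i) →
      (∀ i, x i = 1 → y i = 1) ∧ ∀ i j k, x i + x j = x k → y i + y j = y k := by
  classical
  let c : (Fin n → ℤ) → Fin n → ℚ := fun v j => v j
  let d : (Fin n → ℤ) → K := fun v => ∑ j, (v j : K) * x j
  have hd1 : ∀ i, d (Pi.single i 1) = x i := fun i => by simp [d, Pi.single_apply]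
  have hd2 : ∀ i j k, d (Pi.single i 1 + (Pi.single j 1 - Pi.single k 1)) = x i + x j - x k := by
    intro i j k
    simp [d, Pi.single_apply, add_mul, sub_mul, sum_add_distrib, add_sub_assoc]
  let R : Set (Fin n → ℤ) := {v | (∃ i, v = Pi.single i 1) ∧ d v = 1 ∨
    (∃ i j k, v = Pi.single i 1 + (Pi.single j 1 - Pi.single k 1)) ∧ d v = 0}
  have s0 : LinearIndepOn ℚ c {Pi.single i0 1} :=
    LinearIndepOn.singleton (fun h => by simpa [c] using congrFun h i0)
  have s0R : {Pi.single i0 1} ⊆ R := by rintro _ rfl; exact Or.inl ⟨⟨i0, rfl⟩, by rw [hd1, h0]⟩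
  obtain ⟨B1, hB1, hs1, hsp1, hi1⟩ := exists_linearIndepOn_extension s0 s0R
  obtain ⟨B, hB, hs, hsp, hi⟩ := exists_linearIndepOn_extension hi1
    (Set.subset_union_left (t := Set.range fun i => Pi.single i 1))
  have htop : ⊤ ≤ Submodule.span ℚ (Set.range fun v : B => c v) := by
    rw [← (Pi.basisFun ℚ (Fin n)).span_eq, Submodule.span_le, ← Set.image_eq_range]
    rintro _ ⟨i, rfl⟩
    refine hsp ⟨Pi.single i 1, Or.inr ⟨i, rfl⟩, ?_⟩
    ext j; simp [c, Pi.single_apply]
  let e : B ≃ Fin n := (Module.Basis.mk hi htop).indexEquiv (Pi.basisFun ℚ (Fin n))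
  let A : Matrix (Fin n) (Fin n) ℤ := Matrix.of fun i => (e.symm i).1
  have hA : ∀ i, A i = (e.symm i).1 := fun _ => rfl
  let F := univ.filter fun i => A i ∉ B1
  let T := univ.filter fun i => A i ∈ B1 ∧ d (A i) = 0
  have hF : ∀ i ∈ F, ∃ p, A i = Pi.single p 1 := fun i h => by
    obtain ⟨p, hp⟩ := (hB (e.symm i).2).resolve_left (mem_filter.1 h).2
    exact ⟨p, hp.symm⟩
  have hT : ∀ i ∈ T, ∃ u v, Net u ∧ Net v ∧ A i = u + v := fun i h => by
    obtain ⟨h1, h2⟩ := (mem_filter.1 h).2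
    rcases hB1 h1 with h3 | ⟨⟨p, q, r, h3⟩, -⟩
    · exact absurd (h2.symm.trans h3.2) zero_ne_one
    · exact ⟨_, _, net_single p, net_sub q r, h3⟩
  have hU : ∀ i, i ∉ F → i ∉ T → (∃ p, A i = Pi.single p 1) ∧ d (A i) = 1 := fun i h1 h2 => by
    have h3 : A i ∈ B1 := by simpa [F] using h1
    exact (hB1 h3).resolve_right fun h => h2 (by simp [T, h3, h.2])
  let b : Fin n → ℤ := fun i => if i ∈ F ∨ i ∈ T then 0 else 1
  have hb : ∀ i ∉ F, d (A i) = b i := fun i h => by
    by_cases h2 : i ∈ T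
    · simp [b, h2, (mem_filter.1 h2).2.2]
    · simp [b, h, h2, (hU i h h2).2]
  refine ⟨A, F, T.card, b, ?_, ?_, fun i h => by simp [b, h], hb, fun l => ?_, fun l i h => ?_,
    fun y hy => ?_⟩
  · have : IsUnit (A.map (Int.cast : ℤ → ℚ)) :=
      linearIndependent_rows_iff_isUnit.1 (hi.comp _ e.symm.injective)
    intro h
    have h2 := ((isUnit_iff_isUnit_det _).1 this).ne_zero
    exact h2 (by rw [← Int.cast_det, h]; rfl)
  · have h1 : Disjoint T F := by simp +contextual [disjoint_left, T, F]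
    have h2 : e ⟨_, hs (hs1 rfl)⟩ ∉ T ∪ F := by
      simp [T, F, hA, hs1 rfl, hd1, h0]
    have := card_le_univ (insert (e ⟨_, hs (hs1 rfl)⟩) (T ∪ F))
    rwa [card_insert_of_notMem h2, card_union_of_disjoint h1, Fintype.card_fin] at this
  · rw [← abs_neg, ← Pi.neg_apply, ← map_neg, cramer_apply]
    have hr : ∀ i, (A.updateCol l (-b)) i = Function.update (A i) l (-b i) := fun i => rfl
    refine det_two T _ (fun i h => ?_) fun i h => ?_
    · rw [hr]
      by_cases h1 : i ∈ F
      · obtain ⟨p, hp⟩ := hF i h1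
        simpa [b, h1, hp] using net_upd (net_single p) l
      · obtain ⟨p, hp⟩ := (hU i h1 h).1
        simpa [b, h1, h, hp] using net_upd' p l
    · obtain ⟨u, v, hu, hv, e⟩ := hT i h
      refine ⟨_, _, net_upd hu l, net_upd hv l, ?_⟩
      rw [hr, e, ← Function.update_add]; simp [b, h]
  · rw [adjugate_apply]
    refine det_two T _ (fun r h => ?_) fun r hr => ?_
    · by_cases hri : r = i
      · subst hri; simpa using net_single l
      · rw [updateRow_ne hri]
        by_cases h1 : r ∈ F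
        · obtain ⟨p, hp⟩ := hF r h1; rw [hp]; exact net_single p
        · obtain ⟨p, hp⟩ := (hU r h1 h).1; rw [hp]; exact net_single p
    · rw [updateRow_ne]
      · exact hT r hr
      · rintro rfl; exact (mem_filter.1 h).2 (mem_filter.1 hr).2.1
  · have key : ∀ w ∈ Submodule.span ℚ (c '' B1),
        ((∑ j, w j * y j : ℚ) : K) = ∑ j, (w j : K) * x j := by
      intro w hw
      induction hw using Submodule.span_induction with
      | mem w hw =>
        obtain ⟨v, hv, rfl⟩ := hw
        have h1 : e ⟨v, hs hv⟩ ∉ F := by simp [F, hA, hv]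
        have h2 := hy _ h1
        have h3 := hb _ h1
        simp only [hA, Equiv.symm_apply_apply, d] at h2 h3
        simp only [c, h2, Rat.cast_intCast, h3]
      | zero => simp
      | add u v _ _ hu hv => simp only [Pi.add_apply, add_mul, sum_add_distrib, Rat.cast_add, hu, hv]
      | smul r u _ hu =>
        simp only [Pi.smul_apply, smul_eq_mul, mul_assoc, ← mul_sum, Rat.cast_mul, hu]
    refine ⟨fun i h => ?_, fun i j k h => ?_⟩
    · have := key _ (hsp1 ⟨Pi.single i 1, Or.inl ⟨⟨i, rfl⟩, by rw [hd1, h]⟩, rfl⟩)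
      simp [c, Pi.single_apply, apply_ite (Rat.cast : ℚ → K), h] at this
      exact_mod_cast this
    · have := key _ (hsp1 ⟨_, Or.inr ⟨⟨i, j, k, rfl⟩, by rw [hd2, h, sub_self]⟩, rfl⟩)
      simp [c, Pi.single_apply, add_mul, sub_mul, sum_add_distrib, apply_ite (Rat.cast : ℚ → K)]
        at this
      have h2 : ((y i + y j : ℚ) : K) = (y k : ℚ) := by push_cast; linear_combination this + h
      exact_mod_cast h2

end Pool.Agent.H47.UnitAdd
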